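import Pool.Graph.R_seed8.H394R3.BC.Ker

/-!
# Bounds and asymptotics of the Hankel kernel

`JJ n r = J_n (2 r)`.
-/

set_option autoImplicit false

open MeasureTheory Set Filter Topology

namespace Pool.Agent.H81.HM

open Pool.Agent.H394R3.BC (phi Ker phi_deriv phi_rec phi_le phi_sq_le phi_cont fac_pos one_le_fac Ker_eq)

/-- the Bessel function `J_n (2 r)` -/
noncomputable def JJ (n : ℕ) (r : ℝ) : ℝ := r ^ n * phi n (r ^ 2)

lemma JJ_deriv (n : ℕ) {r : ℝ} (hr : 0 < r) : HasDerivAt (JJ n) ((n / r) * JJ n r - 2 * JJ (n + 1) r) r := by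
  have h1 : HasDerivAt (fun r : ℝ => r ^ 2) (2 * r) r := by
    simpa using hasDerivAt_pow 2 r
  have h2 := (hasDerivAt_pow n r).mul ((phi_deriv n (r ^ 2)).comp r h1)
  refine HasDerivAt.congr_deriv (f := JJ n) h2 ?_
  unfold JJ
  rcases n with _ | n
  · simp
    ring
  · have : r ≠ 0 := hr.ne'
    simp only [Nat.add_sub_cancel, Function.comp]
    push_cast
    field_simp
    ring

lemma JJ_rec (n : ℕ) {r : ℝ} (hr : 0 < r) : JJ (n + 2) r = ((n + 1) / r) * JJ (n + 1) r - JJ n r := by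
  have h := phi_rec n (r ^ 2)
  have : r ≠ 0 := hr.ne'
  unfold JJ
  have e : r ^ (n + 2) * phi (n + 2) (r ^ 2) = r ^ n * (r ^ 2 * phi (n + 2) (r ^ 2)) := by ring
  rw [e, show r ^ 2 * phi (n + 2) (r ^ 2) = (n + 1) * phi (n + 1) (r ^ 2) - phi n (r ^ 2) by linarith]
  field_simp
  ring

lemma JJ_deriv' (n : ℕ) {r : ℝ} (hr : 0 < r) :
    HasDerivAt (JJ (n + 1)) (2 * JJ n r - ((n + 1) / r) * JJ (n + 1) r) r := by
  refine (JJ_deriv (n + 1) hr).congr_deriv ?_
  rw [show n + 1 + 1 = n + 2 from rfl, JJ_rec n hr]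
  push_cast
  ring

lemma JJ_sq_le (n : ℕ) (r : ℝ) : JJ n r ^ 2 ≤ 1 := by
  have h := phi_sq_le n (sq_nonneg r)
  unfold JJ
  calc (r ^ n * phi n (r ^ 2)) ^ 2 = (r ^ 2) ^ n * phi n (r ^ 2) ^ 2 := by
        rw [mul_pow, ← pow_mul, ← pow_mul, mul_comm n 2]
    _ ≤ 1 := h

/-- the energy -/
noncomputable def SS (n : ℕ) (r : ℝ) : ℝ := r * (JJ n r ^ 2 + JJ (n + 1) r ^ 2)

/-- the modified energy -/
noncomputable def TT (n : ℕ) (r : ℝ) : ℝ := SS n r - (2 * n + 1) / 2 * (JJ n r * JJ (n + 1) r)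

lemma SS_nonneg (n : ℕ) {r : ℝ} (hr : 0 ≤ r) : 0 ≤ SS n r := by unfold SS; positivity

lemma SS_le (n : ℕ) {r : ℝ} (hr : 0 ≤ r) : SS n r ≤ 2 * r := by
  unfold SS
  have h1 := JJ_sq_le n r
  have h2 := JJ_sq_le (n + 1) r
  nlinarith

lemma TT_deriv (n : ℕ) {r : ℝ} (hr : 0 < r) :
    HasDerivAt (TT n) ((2 * n + 1) / 2 * (JJ n r * JJ (n + 1) r) / r) r := by
  have ha := JJ_deriv n hr
  have hb := JJ_deriv' n hr
  have h1 : HasDerivAt (SS n) _ r := (hasDerivAt_id r).mul ((ha.pow 2).add (hb.pow 2))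
  have h2 : HasDerivAt (TT n) _ r := h1.sub ((ha.mul hb).const_mul ((2 * (n:ℝ) + 1) / 2))
  refine h2.congr_deriv ?_
  have : r ≠ 0 := hr.ne'
  simp only [id, Pi.add_apply, Pi.pow_apply]
  push_cast
  field_simp
  ring

lemma prod_le (n : ℕ) {r : ℝ} (hr : 0 < r) : |JJ n r * JJ (n + 1) r| ≤ SS n r / (2 * r) := by
  unfold SS
  rw [show r * (JJ n r ^ 2 + JJ (n + 1) r ^ 2) / (2 * r) = (JJ n r ^ 2 + JJ (n + 1) r ^ 2) / 2 by field_simp]
  rw [abs_le]
  constructor <;> nlinarith [sq_nonneg (JJ n r + JJ (n + 1) r), sq_nonneg (JJ n r - JJ (n + 1) r)]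

/-- the constant -/
noncomputable def cc (n : ℕ) : ℝ := (2 * n + 1) / 4

lemma cc_pos (n : ℕ) : 0 < cc n := by unfold cc; positivity

lemma TT_near (n : ℕ) {r : ℝ} (hr : 2 * cc n ≤ r) : SS n r / 2 ≤ TT n r ∧ TT n r ≤ 3 / 2 * SS n r := by
  have hc := cc_pos n
  have hr0 : 0 < r := by linarith
  have h1 := prod_le n hr0
  have h2 := SS_nonneg n hr0.le
  have h3 : |(2 * (n:ℝ) + 1) / 2 * (JJ n r * JJ (n + 1) r)| ≤ SS n r / 2 := by
    rw [abs_mul, abs_of_nonneg (by positivity : (0:ℝ) ≤ (2 * n + 1) / 2)]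
    calc (2 * (n:ℝ) + 1) / 2 * |JJ n r * JJ (n + 1) r| ≤ (2 * (n:ℝ) + 1) / 2 * (SS n r / (2 * r)) := by gcongr
      _ = (cc n / r) * SS n r := by unfold cc; field_simp; ring
      _ ≤ 1 / 2 * SS n r := by
        apply mul_le_mul_of_nonneg_right _ h2
        rw [div_le_iff₀ hr0]; linarith
      _ = _ := by ring
  have h4 := abs_le.1 h3
  unfold TT
  constructor <;> linarith [h4.1, h4.2]

lemma TT_deriv_le (n : ℕ) {r : ℝ} (hr : 2 * cc n ≤ r) :
    |(2 * (n:ℝ) + 1) / 2 * (JJ n r * JJ (n + 1) r) / r| ≤ 2 * cc n / r ^ 2 * TT n r := by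
  have hc := cc_pos n
  have hr0 : 0 < r := by linarith
  have h1 := prod_le n hr0
  have h2 := (TT_near n hr).1
  rw [abs_div, abs_mul, abs_of_nonneg (by positivity : (0:ℝ) ≤ (2 * n + 1) / 2), abs_of_pos hr0]
  calc (2 * (n:ℝ) + 1) / 2 * |JJ n r * JJ (n + 1) r| / r ≤ (2 * (n:ℝ) + 1) / 2 * (SS n r / (2 * r)) / r := by gcongr
    _ = 2 * cc n / r ^ 2 * (SS n r / 2) := by unfold cc; field_simp; ring
    _ ≤ _ := by gcongr

lemma exp_deriv (a : ℝ) {r : ℝ} (hr : 0 < r) :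
    HasDerivAt (fun r : ℝ => Real.exp (a / r)) (Real.exp (a / r) * (-(a / r ^ 2))) r := by
  have h1 : HasDerivAt (fun r : ℝ => a / r) (-(a / r ^ 2)) r := by
    have := (hasDerivAt_inv hr.ne').const_mul a
    refine this.congr_deriv ?_
    field_simp
  exact h1.exp

lemma TT_anti (n : ℕ) : AntitoneOn (fun r => TT n r * Real.exp (2 * cc n / r)) (Ici (2 * cc n)) := by
  have hc := cc_pos n
  have hd : ∀ r : ℝ, 2 * cc n ≤ r → HasDerivAt (fun r => TT n r * Real.exp (2 * cc n / r)) _ r := fun r hr =>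
    (TT_deriv n (by linarith : 0 < r)).mul (exp_deriv (2 * cc n) (by linarith : 0 < r))
  apply antitoneOn_of_deriv_nonpos (convex_Ici _)
  · exact fun r hr => (hd r hr).continuousAt.continuousWithinAt
  · intro r hr
    rw [interior_Ici] at hr
    exact (hd r (le_of_lt hr)).differentiableAt.differentiableWithinAt
  · intro r hr
    rw [interior_Ici] at hr
    rw [(hd r (le_of_lt hr)).deriv]
    have h1 := abs_le.1 (TT_deriv_le n (le_of_lt hr))
    have he := Real.exp_pos (2 * cc n / r)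
    nlinarith [h1.2]

lemma TT_mono (n : ℕ) : MonotoneOn (fun r => TT n r * Real.exp (-(2 * cc n) / r)) (Ici (2 * cc n)) := by
  have hc := cc_pos n
  have hd : ∀ r : ℝ, 2 * cc n ≤ r → HasDerivAt (fun r => TT n r * Real.exp (-(2 * cc n) / r)) _ r := fun r hr =>
    (TT_deriv n (by linarith : 0 < r)).mul (exp_deriv (-(2 * cc n)) (by linarith : 0 < r))
  apply monotoneOn_of_deriv_nonneg (convex_Ici _)
  · exact fun r hr => (hd r hr).continuousAt.continuousWithinAt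
  · intro r hr
    rw [interior_Ici] at hr
    exact (hd r (le_of_lt hr)).differentiableAt.differentiableWithinAt
  · intro r hr
    rw [interior_Ici] at hr
    rw [(hd r (le_of_lt hr)).deriv]
    have h1 := abs_le.1 (TT_deriv_le n (le_of_lt hr))
    have he := Real.exp_pos (-(2 * cc n) / r)
    have e : -(-(2 * cc n) / r ^ 2) = 2 * cc n / r ^ 2 := by ring
    rw [e]
    nlinarith [h1.1]

/-- the bound of the energy -/
theorem SS_bd (n : ℕ) {r : ℝ} (hr : 0 ≤ r) : SS n r ≤ 9 * (2 * n + 1) := by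
  have hc := cc_pos n
  have hcc : 2 * (2 * cc n) = 2 * n + 1 := by unfold cc; ring
  have hn : (0:ℝ) ≤ n := Nat.cast_nonneg n
  rcases le_total r (2 * cc n) with h | h
  · have := SS_le n hr
    linarith
  · have h1 := TT_anti n (mem_Ici.2 le_rfl) (mem_Ici.2 h) h
    simp only at h1
    have h2 := (TT_near n h).1
    have h3 := (TT_near n (le_refl (2 * cc n))).2
    have h4 := SS_le n (by linarith : 0 ≤ 2 * cc n)
    have h5 : Real.exp (2 * cc n / (2 * cc n)) = Real.exp 1 := by rw [div_self (by linarith)]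
    have h6 : 1 ≤ Real.exp (2 * cc n / r) := Real.one_le_exp (by positivity)
    have h7 : 0 ≤ TT n r := le_trans (by have := SS_nonneg n hr; linarith) h2
    have h8 : TT n r ≤ TT n r * Real.exp (2 * cc n / r) := le_mul_of_one_le_right h7 h6
    have h9 : Real.exp 1 ≤ 3 := by have := Real.exp_one_lt_d9; linarith
    rw [h5] at h1
    have h10 : TT n (2 * cc n) * Real.exp 1 ≤ (3 / 2 * (2 * (2 * cc n))) * 3 := by
      apply mul_le_mul (by linarith) h9 (Real.exp_pos _).le (by linarith)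
    linarith

/-- decay of the kernel -/
theorem Ker_dec (n : ℕ) {u v : ℝ} (hu : 0 < u) (hv : 0 < v) :
    |Ker n u v| ≤ 3 * Real.sqrt (2 * n + 1) * (v ^ ((n:ℝ) / 2 - 1 / 4) * u ^ (-((n:ℝ) / 2 + 1 / 4))) := by
  have huv : 0 < u * v := mul_pos hu hv
  set r := Real.sqrt (u * v) with hr
  have hr0 : 0 < r := Real.sqrt_pos.2 huv
  have hr2 : r ^ 2 = u * v := Real.sq_sqrt huv.le
  have h1 := SS_bd n hr0.le
  have h2 : r * JJ n r ^ 2 ≤ 9 * (2 * n + 1) := by
    refine le_trans ?_ h1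
    unfold SS
    have : 0 ≤ r * JJ (n + 1) r ^ 2 := by positivity
    linarith
  have h3 : JJ n r ^ 2 = (u * v) ^ n * phi n (u * v) ^ 2 := by
    unfold JJ
    rw [hr2, mul_pow, ← pow_mul, mul_comm n 2, pow_mul, hr2]
  have e1 : r = (u * v) ^ (1 / 2 : ℝ) := by rw [hr, Real.sqrt_eq_rpow]
  have h4 : (Ker n u v) ^ 2 ≤ (3 * Real.sqrt (2 * n + 1) *
      (v ^ ((n:ℝ) / 2 - 1 / 4) * u ^ (-((n:ℝ) / 2 + 1 / 4)))) ^ 2 := by
    have e2 : (3 * Real.sqrt (2 * n + 1) * (v ^ ((n:ℝ) / 2 - 1 / 4) * u ^ (-((n:ℝ) / 2 + 1 / 4)))) ^ 2 =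
        9 * (2 * n + 1) * (v ^ ((n:ℝ) - 1 / 2) * u ^ (-((n:ℝ) + 1 / 2))) := by
      rw [mul_pow, mul_pow, mul_pow, Real.sq_sqrt (by positivity), ← Real.rpow_natCast (v ^ _), ← Real.rpow_mul hv.le,
        ← Real.rpow_natCast (u ^ _), ← Real.rpow_mul hu.le]
      push_cast
      rw [show ((n:ℝ) / 2 - 1 / 4) * 2 = (n:ℝ) - 1 / 2 by ring, show -((n:ℝ) / 2 + 1 / 4) * 2 = -((n:ℝ) + 1 / 2) by ring]
      ring
    rw [e2]
    have e3 : (Ker n u v) ^ 2 = (r * JJ n r ^ 2) * (v ^ ((n:ℝ) - 1 / 2) * u ^ (-((n:ℝ) + 1 / 2))) := by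
      rw [h3, Ker_eq]
      conv_rhs => rw [e1, Real.mul_rpow hu.le hv.le]
      have a1 : u ^ (1 / 2 : ℝ) * u ^ n * u ^ (-((n:ℝ) + 1 / 2)) = 1 := by
        rw [← Real.rpow_natCast u n, ← Real.rpow_add hu, ← Real.rpow_add hu]
        rw [show (1 / 2 : ℝ) + n + -((n:ℝ) + 1 / 2) = 0 by ring, Real.rpow_zero]
      have a2 : v ^ (1 / 2 : ℝ) * v ^ n * v ^ ((n:ℝ) - 1 / 2) = v ^ (2 * n) := by
        rw [← Real.rpow_natCast v n, ← Real.rpow_natCast v (2 * n), ← Real.rpow_add hv, ← Real.rpow_add hv]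
        congr 1
        push_cast
        ring
      calc (v ^ n * phi n (u * v)) ^ 2 = v ^ (2 * n) * phi n (u * v) ^ 2 := by ring
        _ = (v ^ (1 / 2 : ℝ) * v ^ n * v ^ ((n:ℝ) - 1 / 2)) * (u ^ (1 / 2 : ℝ) * u ^ n * u ^ (-((n:ℝ) + 1 / 2))) *
            phi n (u * v) ^ 2 := by rw [a1, a2, mul_one]
        _ = _ := by rw [mul_pow u v n]; ring
    rw [e3]
    exact mul_le_mul_of_nonneg_right h2 (by positivity)
  exact abs_le_of_sq_le_sq h4 (by positivity)

/-! ### asymptotics -/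

lemma phi_pos_of_lt (m : ℕ) {x : ℝ} (hx : 0 ≤ x) (hm : x < m + 1) : 0 < phi m x := by
  have hd : ∀ y, HasDerivAt (fun y => phi m y + y / ((m + 1).factorial : ℝ))
      (-(phi (m + 1) y) + 1 / ((m + 1).factorial : ℝ)) y := fun y =>
    (phi_deriv m y).add ((hasDerivAt_id y).div_const _)
  have hmono : MonotoneOn (fun y => phi m y + y / ((m + 1).factorial : ℝ)) (Ici 0) := by
    apply monotoneOn_of_deriv_nonneg (convex_Ici 0)
    · exact fun y _ => (hd y).continuousAt.continuousWithinAt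
    · exact fun y _ => (hd y).differentiableAt.differentiableWithinAt
    · intro y hy
      rw [interior_Ici] at hy
      rw [(hd y).deriv]
      have h1 := (abs_le.1 (phi_le (m + 1) (le_of_lt hy))).2
      linarith
  have h1 := hmono (mem_Ici.2 le_rfl) (mem_Ici.2 hx) hx
  simp only [Pool.Agent.H394R3.BC.phi_zero, zero_div, add_zero] at h1
  have h2 : x / ((m + 1).factorial : ℝ) < 1 / (m.factorial : ℝ) := by
    rw [Nat.factorial_succ]
    push_cast
    have h3 := fac_pos m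
    rw [div_lt_div_iff₀ (by positivity) h3]
    nlinarith
  linarith

lemma SS_pos (n : ℕ) {r : ℝ} (hr : 0 < r) : 0 < SS n r := by
  by_contra hcon
  have h0 : SS n r = 0 := le_antisymm (not_lt.1 hcon) (SS_nonneg n hr.le)
  have h1 : JJ n r ^ 2 + JJ (n + 1) r ^ 2 = 0 := by
    unfold SS at h0
    rcases mul_eq_zero.1 h0 with h | h
    · exact absurd h hr.ne'
    · exact h
  have ha : JJ n r = 0 := by nlinarith [sq_nonneg (JJ n r), sq_nonneg (JJ (n + 1) r)]
  have hb : JJ (n + 1) r = 0 := by nlinarith [sq_nonneg (JJ n r), sq_nonneg (JJ (n + 1) r)]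
  have hall : ∀ m : ℕ, JJ (n + m) r = 0 ∧ JJ (n + m + 1) r = 0 := by
    intro m
    induction m with
    | zero => exact ⟨ha, hb⟩
    | succ m ih =>
      refine ⟨ih.2, ?_⟩
      have := JJ_rec (n + m) hr
      rw [show n + (m + 1) + 1 = n + m + 2 by ring, this, ih.1, ih.2]
      ring
  obtain ⟨m, hm⟩ := exists_nat_gt (r ^ 2)
  have h2 := (hall m).1
  unfold JJ at h2
  have h3 : 0 < phi (n + m) (r ^ 2) := by
    apply phi_pos_of_lt _ (sq_nonneg r)
    push_cast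
    have : (0:ℝ) ≤ n := Nat.cast_nonneg n
    linarith
  have : 0 < r ^ (n + m) * phi (n + m) (r ^ 2) := by positivity
  linarith

/-- the energy is bounded below -/
lemma SS_low (n : ℕ) : ∃ c : ℝ, 0 < c ∧ ∀ r : ℝ, 2 * cc n ≤ r → c ≤ SS n r := by
  have hc := cc_pos n
  have h0 : 0 < 2 * cc n := by linarith
  have h1 := SS_pos n h0
  refine ⟨2 / 3 * (SS n (2 * cc n) / 2 * Real.exp (-1)), by positivity, fun r hr => ?_⟩
  have h2 := TT_mono n (mem_Ici.2 le_rfl) (mem_Ici.2 hr) hr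
  simp only at h2
  have h3 := (TT_near n (le_refl (2 * cc n))).1
  have h4 := (TT_near n hr).2
  have h5 : Real.exp (-(2 * cc n) / (2 * cc n)) = Real.exp (-1) := by
    rw [neg_div, div_self h0.ne']
  rw [h5] at h2
  have h6 : Real.exp (-(2 * cc n) / r) ≤ 1 := by
    rw [Real.exp_le_one_iff, neg_div]
    have : 0 ≤ 2 * cc n / r := by have : 0 < r := by linarith
                                  positivity
    linarith
  have h7 : 0 ≤ TT n r := by
    have := (TT_near n hr).1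
    have := SS_nonneg n (by linarith : 0 ≤ r)
    linarith
  have h8 : TT n r * Real.exp (-(2 * cc n) / r) ≤ TT n r := mul_le_of_le_one_right h7 h6
  have h9 : SS n (2 * cc n) / 2 * Real.exp (-1) ≤ TT n (2 * cc n) * Real.exp (-1) :=
    mul_le_mul_of_nonneg_right h3 (Real.exp_pos _).le
  linarith

end Pool.Agent.H81.HM
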