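import Pool.Agent.H81.HM.Bes

/-!
# Asymptotics of the Hankel kernel
-/

set_option autoImplicit false

open MeasureTheory Set Filter Topology

namespace Pool.Agent.H81.HM

open Pool.Agent.H394R3.BC (phi Ker phi_deriv phi_rec phi_le phi_sq_le phi_cont fac_pos one_le_fac Ker_eq)

/-- functions with derivative `O (1 / r ^ 2)` converge -/
lemma conv {Ψ Ψ' : ℝ → ℝ} {K R : ℝ} (hR : 0 < R) (hK : 0 ≤ K) (hd : ∀ r, R ≤ r → HasDerivAt Ψ (Ψ' r) r)
    (hb : ∀ r, R ≤ r → |Ψ' r| ≤ K / r ^ 2) : ∃ L : ℝ, ∀ r, R ≤ r → |Ψ r - L| ≤ K / r := by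
  have hi : ∀ r : ℝ, R ≤ r → HasDerivAt (fun r : ℝ => K / r) (-(K / r ^ 2)) r := by
    intro r hr
    have := (hasDerivAt_inv (by linarith : r ≠ 0)).const_mul K
    refine this.congr_deriv ?_
    have : r ≠ 0 := by linarith
    field_simp
  have hanti : AntitoneOn (fun r => Ψ r + K / r) (Ici R) := by
    apply antitoneOn_of_deriv_nonpos (convex_Ici _)
    · exact fun r hr => ((hd r hr).add (hi r hr)).continuousAt.continuousWithinAt
    · intro r hr
      rw [interior_Ici] at hr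
      exact ((hd r (le_of_lt hr)).add (hi r (le_of_lt hr))).differentiableAt.differentiableWithinAt
    · intro r hr
      rw [interior_Ici] at hr
      have h1 : HasDerivAt (fun r => Ψ r + K / r) _ r := (hd r (le_of_lt hr)).add (hi r (le_of_lt hr))
      rw [h1.deriv]
      have := (abs_le.1 (hb r (le_of_lt hr))).2
      linarith
  have hmono : MonotoneOn (fun r => Ψ r - K / r) (Ici R) := by
    apply monotoneOn_of_deriv_nonneg (convex_Ici _)
    · exact fun r hr => ((hd r hr).sub (hi r hr)).continuousAt.continuousWithinAt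
    · intro r hr
      rw [interior_Ici] at hr
      exact ((hd r (le_of_lt hr)).sub (hi r (le_of_lt hr))).differentiableAt.differentiableWithinAt
    · intro r hr
      rw [interior_Ici] at hr
      have h1 : HasDerivAt (fun r => Ψ r - K / r) _ r := (hd r (le_of_lt hr)).sub (hi r (le_of_lt hr))
      rw [h1.deriv]
      have := (abs_le.1 (hb r (le_of_lt hr))).1
      linarith
  have hle : ∀ r s, R ≤ r → R ≤ s → Ψ s - K / s ≤ Ψ r + K / r := by
    intro r s hr hs
    have hKr : 0 ≤ K / r := div_nonneg hK (by linarith)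
    have hKs : 0 ≤ K / s := div_nonneg hK (by linarith)
    rcases le_total r s with h | h
    · have := hanti (mem_Ici.2 hr) (mem_Ici.2 hs) h
      simp only at this
      linarith
    · have := hmono (mem_Ici.2 hs) (mem_Ici.2 hr) h
      simp only at this
      linarith
  set T : Set ℝ := (fun r => Ψ r - K / r) '' Ici R with hT
  have hbd : BddAbove T := by
    refine ⟨Ψ R + K / R, ?_⟩
    rintro _ ⟨s, hs, rfl⟩
    exact hle R s le_rfl hs
  have hne : T.Nonempty := ⟨_, R, mem_Ici.2 le_rfl, rfl⟩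
  refine ⟨sSup T, fun r hr => ?_⟩
  have h1 : Ψ r - K / r ≤ sSup T := le_csSup hbd ⟨r, hr, rfl⟩
  have h2 : sSup T ≤ Ψ r + K / r := by
    apply csSup_le hne
    rintro _ ⟨s, hs, rfl⟩
    exact hle r s hr hs
  rw [abs_le]
  constructor <;> linarith

section

variable (n : ℕ)

/-- amplitude components -/
noncomputable def aa (r : ℝ) : ℝ := Real.sqrt r * JJ n r
noncomputable def bb (r : ℝ) : ℝ := Real.sqrt r * JJ (n + 1) r
noncomputable def PP (r : ℝ) : ℝ := aa n r * Real.cos (2 * r) + bb n r * Real.sin (2 * r)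
noncomputable def RR (r : ℝ) : ℝ := bb n r * Real.cos (2 * r) - aa n r * Real.sin (2 * r)

variable {n}

lemma aa_deriv {r : ℝ} (hr : 0 < r) : HasDerivAt (aa n) ((n + 1 / 2) / r * aa n r - 2 * bb n r) r := by
  have h1 : HasDerivAt (aa n) _ r := (Real.hasDerivAt_sqrt hr.ne').mul (JJ_deriv n hr)
  refine h1.congr_deriv ?_
  unfold aa bb
  have hs : Real.sqrt r ≠ 0 := (Real.sqrt_pos.2 hr).ne'
  have hs2 : Real.sqrt r ^ 2 = r := Real.sq_sqrt hr.le
  have : 1 / (2 * Real.sqrt r) = Real.sqrt r / (2 * r) := by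
    rw [div_eq_div_iff (by positivity) (by positivity)]
    nlinarith
  rw [this]
  field_simp
  ring

lemma bb_deriv {r : ℝ} (hr : 0 < r) : HasDerivAt (bb n) (2 * aa n r - (n + 1 / 2) / r * bb n r) r := by
  have h1 : HasDerivAt (bb n) _ r := (Real.hasDerivAt_sqrt hr.ne').mul (JJ_deriv' n hr)
  refine h1.congr_deriv ?_
  unfold aa bb
  have hs : Real.sqrt r ≠ 0 := (Real.sqrt_pos.2 hr).ne'
  have hs2 : Real.sqrt r ^ 2 = r := Real.sq_sqrt hr.le
  have : 1 / (2 * Real.sqrt r) = Real.sqrt r / (2 * r) := by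
    rw [div_eq_div_iff (by positivity) (by positivity)]
    nlinarith
  rw [this]
  field_simp
  ring

lemma cos_deriv (k r : ℝ) : HasDerivAt (fun r : ℝ => Real.cos (k * r)) (-(k * Real.sin (k * r))) r := by
  have h1 : HasDerivAt (fun r : ℝ => k * r) k r := by simpa using (hasDerivAt_id r).const_mul k
  refine h1.cos.congr_deriv ?_
  ring

lemma sin_deriv (k r : ℝ) : HasDerivAt (fun r : ℝ => Real.sin (k * r)) (k * Real.cos (k * r)) r := by
  have h1 : HasDerivAt (fun r : ℝ => k * r) k r := by simpa using (hasDerivAt_id r).const_mul k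
  refine h1.sin.congr_deriv ?_
  ring

lemma cos4 (r : ℝ) : Real.cos (4 * r) = Real.cos (2 * r) ^ 2 - Real.sin (2 * r) ^ 2 := by
  rw [show 4 * r = 2 * (2 * r) by ring, Real.cos_two_mul, Real.sin_sq]
  ring

lemma sin4 (r : ℝ) : Real.sin (4 * r) = 2 * Real.sin (2 * r) * Real.cos (2 * r) := by
  rw [show 4 * r = 2 * (2 * r) by ring, Real.sin_two_mul]

lemma aa_eq (r : ℝ) : aa n r = PP n r * Real.cos (2 * r) - RR n r * Real.sin (2 * r) := by
  unfold PP RR
  have := Real.sin_sq_add_cos_sq (2 * r)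
  have h : aa n r = aa n r * (Real.sin (2 * r) ^ 2 + Real.cos (2 * r) ^ 2) := by rw [this, mul_one]
  calc aa n r = aa n r * (Real.sin (2 * r) ^ 2 + Real.cos (2 * r) ^ 2) := h
    _ = _ := by ring

lemma bb_eq (r : ℝ) : bb n r = PP n r * Real.sin (2 * r) + RR n r * Real.cos (2 * r) := by
  unfold PP RR
  have := Real.sin_sq_add_cos_sq (2 * r)
  have h : bb n r = bb n r * (Real.sin (2 * r) ^ 2 + Real.cos (2 * r) ^ 2) := by rw [this, mul_one]
  calc bb n r = bb n r * (Real.sin (2 * r) ^ 2 + Real.cos (2 * r) ^ 2) := h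
    _ = _ := by ring

lemma PP_deriv {r : ℝ} (hr : 0 < r) : HasDerivAt (PP n)
    ((n + 1 / 2) / r * (PP n r * Real.cos (4 * r) - RR n r * Real.sin (4 * r))) r := by
  have h1 : HasDerivAt (PP n) _ r := ((aa_deriv (n := n) hr).mul (cos_deriv 2 r)).add ((bb_deriv hr).mul (sin_deriv 2 r))
  refine h1.congr_deriv ?_
  have e : PP n r * Real.cos (4 * r) - RR n r * Real.sin (4 * r) =
      aa n r * Real.cos (2 * r) - bb n r * Real.sin (2 * r) := by
    rw [aa_eq (n := n) r, bb_eq (n := n) r, cos4, sin4]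
    ring
  rw [e]
  ring

lemma RR_deriv {r : ℝ} (hr : 0 < r) : HasDerivAt (RR n)
    (-((n + 1 / 2) / r * (PP n r * Real.sin (4 * r) + RR n r * Real.cos (4 * r)))) r := by
  have h1 : HasDerivAt (RR n) _ r := ((bb_deriv (n := n) hr).mul (cos_deriv 2 r)).sub ((aa_deriv hr).mul (sin_deriv 2 r))
  refine h1.congr_deriv ?_
  have e : PP n r * Real.sin (4 * r) + RR n r * Real.cos (4 * r) =
      bb n r * Real.cos (2 * r) + aa n r * Real.sin (2 * r) := by
    rw [aa_eq (n := n) r, bb_eq (n := n) r, cos4, sin4]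
    ring
  rw [e]
  ring

lemma PP_sq (r : ℝ) (hr : 0 ≤ r) : PP n r ^ 2 + RR n r ^ 2 = SS n r := by
  have h := Real.sin_sq_add_cos_sq (2 * r)
  have e : PP n r ^ 2 + RR n r ^ 2 = (aa n r ^ 2 + bb n r ^ 2) * (Real.sin (2 * r) ^ 2 + Real.cos (2 * r) ^ 2) := by
    unfold PP RR; ring
  rw [e, h, mul_one]
  unfold aa bb SS
  rw [mul_pow, mul_pow, Real.sq_sqrt hr]
  ring

/-- bound of the components -/
noncomputable def BB (n : ℕ) : ℝ := 3 * Real.sqrt (2 * n + 1)

lemma BB_pos : 0 < BB n := by unfold BB; positivity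

lemma PP_le {r : ℝ} (hr : 0 ≤ r) : |PP n r| ≤ BB n ∧ |RR n r| ≤ BB n := by
  have h1 := PP_sq (n := n) r hr
  have h2 := SS_bd n hr
  have h3 : BB n ^ 2 = 9 * (2 * n + 1) := by
    unfold BB
    rw [mul_pow, Real.sq_sqrt (by positivity)]
    ring
  constructor
  · apply abs_le_of_sq_le_sq _ BB_pos.le
    nlinarith [sq_nonneg (RR n r)]
  · apply abs_le_of_sq_le_sq _ BB_pos.le
    nlinarith [sq_nonneg (PP n r)]

lemma inv_deriv (c : ℝ) {r : ℝ} (hr : 0 < r) : HasDerivAt (fun r : ℝ => c / (4 * r)) (-(c / (4 * r ^ 2))) r := by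
  have := (hasDerivAt_inv hr.ne').const_mul (c / 4)
  refine (this.congr_of_eventuallyEq ?_).congr_deriv ?_
  · filter_upwards [lt_mem_nhds hr] with s hs
    have : s ≠ 0 := ne_of_gt hs
    field_simp
  · have : r ≠ 0 := hr.ne'
    field_simp

lemma lim_comp : ∃ P R K R₀ : ℝ, 0 < R₀ ∧ 0 ≤ K ∧ 0 < P ^ 2 + R ^ 2 ∧
    ∀ r, R₀ ≤ r → |PP n r - P| ≤ K / r ∧ |RR n r - R| ≤ K / r := by
  set c : ℝ := n + 1 / 2 with hc
  have hc0 : 0 < c := by positivity
  set B := BB n with hB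
  have hB0 : 0 < B := BB_pos
  obtain ⟨cl, hcl, hlow⟩ := SS_low n
  set R₀ : ℝ := max 1 (2 * cc n) with hR₀
  have hR1 : 1 ≤ R₀ := le_max_left _ _
  have hR0 : 0 < R₀ := by linarith
  -- first component
  have hosc : ∀ (x y : ℝ) (r : ℝ), 0 ≤ r → |x| ≤ B → |y| ≤ B → |x * Real.sin (4 * r) + y * Real.cos (4 * r)| ≤ 2 * B ∧
      |x * Real.cos (4 * r) - y * Real.sin (4 * r)| ≤ 2 * B := by
    intro x y r _ hx hy
    have h1 := Real.abs_sin_le_one (4 * r)
    have h2 := Real.abs_cos_le_one (4 * r)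
    constructor
    · refine (abs_add_le _ _).trans ?_
      rw [abs_mul, abs_mul]
      nlinarith [abs_nonneg x, abs_nonneg y, mul_le_mul hx h1 (abs_nonneg _) hB0.le, mul_le_mul hy h2 (abs_nonneg _) hB0.le]
    · refine (abs_sub _ _).trans ?_
      rw [abs_mul, abs_mul]
      nlinarith [abs_nonneg x, abs_nonneg y, mul_le_mul hx h2 (abs_nonneg _) hB0.le, mul_le_mul hy h1 (abs_nonneg _) hB0.le]
  set K : ℝ := (c / 4 * 2 * (c * (2 * B)) + c / 4 * (2 * B)) with hK
  have hK0 : 0 ≤ K := by positivity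
  -- derivative of the corrected functions
  have hΨ1 : ∀ r, R₀ ≤ r → HasDerivAt (fun r => PP n r - c / (4 * r) * (PP n r * Real.sin (4 * r) + RR n r * Real.cos (4 * r)))
      (c / (4 * r ^ 2) * (PP n r * Real.sin (4 * r) + RR n r * Real.cos (4 * r)) -
        c / (4 * r) * ((c / r * (PP n r * Real.cos (4 * r) - RR n r * Real.sin (4 * r))) * Real.sin (4 * r) +
          (-(c / r * (PP n r * Real.sin (4 * r) + RR n r * Real.cos (4 * r)))) * Real.cos (4 * r))) r := by
    intro r hr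
    have hr0 : 0 < r := by linarith
    have hP := PP_deriv (n := n) hr0
    have hR := RR_deriv (n := n) hr0
    have h1 := hP.sub ((inv_deriv c hr0).mul ((hP.mul (sin_deriv 4 r)).add (hR.mul (cos_deriv 4 r))))
    refine (h1.congr_of_eventuallyEq ?_).congr_deriv ?_
    · exact Eventually.of_forall fun s => by simp
    · rw [← hc]
      simp only [Pi.add_apply, Pi.mul_apply]
      have : r ≠ 0 := hr0.ne'
      field_simp
      ring
  have hΨ2 : ∀ r, R₀ ≤ r → HasDerivAt (fun r => RR n r - c / (4 * r) * (PP n r * Real.cos (4 * r) - RR n r * Real.sin (4 * r)))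
      (c / (4 * r ^ 2) * (PP n r * Real.cos (4 * r) - RR n r * Real.sin (4 * r)) -
        c / (4 * r) * ((c / r * (PP n r * Real.cos (4 * r) - RR n r * Real.sin (4 * r))) * Real.cos (4 * r) -
          (-(c / r * (PP n r * Real.sin (4 * r) + RR n r * Real.cos (4 * r)))) * Real.sin (4 * r))) r := by
    intro r hr
    have hr0 : 0 < r := by linarith
    have hP := PP_deriv (n := n) hr0
    have hR := RR_deriv (n := n) hr0
    have h1 := hR.sub ((inv_deriv c hr0).mul ((hP.mul (cos_deriv 4 r)).sub (hR.mul (sin_deriv 4 r))))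
    refine (h1.congr_of_eventuallyEq ?_).congr_deriv ?_
    · exact Eventually.of_forall fun s => by simp
    · rw [← hc]
      simp only [Pi.sub_apply, Pi.mul_apply]
      have : r ≠ 0 := hr0.ne'
      field_simp
      ring
  have hbd1 : ∀ (u v v' s t : ℝ) (r : ℝ), R₀ ≤ r → |u| ≤ 2 * B → |v| ≤ 2 * B → |v'| ≤ 2 * B → |s| ≤ 1 → |t| ≤ 1 →
      |c / (4 * r ^ 2) * u - c / (4 * r) * ((c / r * v) * s + (c / r * v') * t)| ≤ K / r ^ 2 := by
    intro u v v' s t r hr hu hv hv' hs ht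
    have hr0 : 0 < r := by linarith
    have e : c / (4 * r ^ 2) * u - c / (4 * r) * ((c / r * v) * s + (c / r * v') * t) =
        (c / 4 * u - c / 4 * (c * v * s + c * v' * t)) / r ^ 2 := by
      field_simp
    rw [e, abs_div, abs_of_pos (by positivity : 0 < r ^ 2)]
    apply div_le_div_of_nonneg_right _ (by positivity)
    have a1 : |c / 4 * u| ≤ c / 4 * (2 * B) := by
      rw [abs_mul, abs_of_pos (by positivity)]; gcongr
    have a2 : |c * v * s| ≤ c * (2 * B) := by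
      rw [abs_mul, abs_mul, abs_of_pos hc0]
      calc c * |v| * |s| ≤ c * (2 * B) * 1 := by gcongr
        _ = _ := mul_one _
    have a3 : |c * v' * t| ≤ c * (2 * B) := by
      rw [abs_mul, abs_mul, abs_of_pos hc0]
      calc c * |v'| * |t| ≤ c * (2 * B) * 1 := by gcongr
        _ = _ := mul_one _
    have a4 : |c / 4 * (c * v * s + c * v' * t)| ≤ c / 4 * (2 * (c * (2 * B))) := by
      rw [abs_mul, abs_of_pos (by positivity)]
      gcongr
      refine (abs_add_le _ _).trans ?_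
      linarith
    refine (abs_sub _ _).trans ?_
    rw [hK]
    linarith
  obtain ⟨P, hP⟩ := conv hR0 hK0 hΨ1 (by
    intro r hr
    have hr0 : 0 ≤ r := by linarith
    have h := hosc (PP n r) (RR n r) r hr0 (PP_le hr0).1 (PP_le hr0).2
    have h2 := hbd1 (PP n r * Real.sin (4 * r) + RR n r * Real.cos (4 * r))
      (PP n r * Real.cos (4 * r) - RR n r * Real.sin (4 * r))
      (-(PP n r * Real.sin (4 * r) + RR n r * Real.cos (4 * r))) _ _ r hr h.1 h.2 (by rw [abs_neg]; exact h.1)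
      (Real.abs_sin_le_one (4 * r)) (Real.abs_cos_le_one (4 * r))
    refine le_trans (le_of_eq ?_) h2
    congr 1
    ring)
  obtain ⟨R, hR⟩ := conv hR0 hK0 hΨ2 (by
    intro r hr
    have hr0 : 0 ≤ r := by linarith
    have h := hosc (PP n r) (RR n r) r hr0 (PP_le hr0).1 (PP_le hr0).2
    have h2 := hbd1 (PP n r * Real.cos (4 * r) - RR n r * Real.sin (4 * r))
      (PP n r * Real.cos (4 * r) - RR n r * Real.sin (4 * r))
      (PP n r * Real.sin (4 * r) + RR n r * Real.cos (4 * r)) _ _ r hr h.2 h.2 h.1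
      (Real.abs_cos_le_one (4 * r)) (Real.abs_sin_le_one (4 * r))
    refine le_trans (le_of_eq ?_) h2
    congr 1
    ring)
  have hK2 : 0 ≤ K + c / 2 * B := by positivity
  have hfin : ∀ r, R₀ ≤ r → |PP n r - P| ≤ (K + c / 2 * B) / r ∧ |RR n r - R| ≤ (K + c / 2 * B) / r := by
    intro r hr
    have hr0 : 0 < r := by linarith
    have h := hosc (PP n r) (RR n r) r hr0.le (PP_le hr0.le).1 (PP_le hr0.le).2
    have a1 := hP r hr
    have a2 := hR r hr
    constructor
    · have e : PP n r - P = (PP n r - c / (4 * r) * (PP n r * Real.sin (4 * r) + RR n r * Real.cos (4 * r)) - P) +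
          c / (4 * r) * (PP n r * Real.sin (4 * r) + RR n r * Real.cos (4 * r)) := by ring
      rw [e]
      refine (abs_add_le _ _).trans ?_
      have : |c / (4 * r) * (PP n r * Real.sin (4 * r) + RR n r * Real.cos (4 * r))| ≤ c / (4 * r) * (2 * B) := by
        rw [abs_mul, abs_of_pos (by positivity)]
        exact mul_le_mul_of_nonneg_left h.1 (by positivity)
      have e2 : (K + c / 2 * B) / r = K / r + c / (4 * r) * (2 * B) := by field_simp; ring
      rw [e2]
      linarith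
    · have e : RR n r - R = (RR n r - c / (4 * r) * (PP n r * Real.cos (4 * r) - RR n r * Real.sin (4 * r)) - R) +
          c / (4 * r) * (PP n r * Real.cos (4 * r) - RR n r * Real.sin (4 * r)) := by ring
      rw [e]
      refine (abs_add_le _ _).trans ?_
      have : |c / (4 * r) * (PP n r * Real.cos (4 * r) - RR n r * Real.sin (4 * r))| ≤ c / (4 * r) * (2 * B) := by
        rw [abs_mul, abs_of_pos (by positivity)]
        exact mul_le_mul_of_nonneg_left h.2 (by positivity)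
      have e2 : (K + c / 2 * B) / r = K / r + c / (4 * r) * (2 * B) := by field_simp; ring
      rw [e2]
      linarith
  refine ⟨P, R, K + c / 2 * B, R₀, hR0, hK2, ?_, hfin⟩
  -- positivity
  have ht : Tendsto (fun r : ℝ => (K + c / 2 * B) / r) atTop (𝓝 0) := tendsto_const_nhds.div_atTop tendsto_id
  have hPt : Tendsto (fun r => PP n r) atTop (𝓝 P) := by
    rw [tendsto_iff_norm_sub_tendsto_zero]
    refine squeeze_zero' (Eventually.of_forall fun _ => norm_nonneg _) ?_ ht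
    filter_upwards [eventually_ge_atTop R₀] with r hr
    exact (hfin r hr).1
  have hRt : Tendsto (fun r => RR n r) atTop (𝓝 R) := by
    rw [tendsto_iff_norm_sub_tendsto_zero]
    refine squeeze_zero' (Eventually.of_forall fun _ => norm_nonneg _) ?_ ht
    filter_upwards [eventually_ge_atTop R₀] with r hr
    exact (hfin r hr).2
  have h3 : cl ≤ P ^ 2 + R ^ 2 := by
    refine ge_of_tendsto ((hPt.pow 2).add (hRt.pow 2)) ?_
    filter_upwards [eventually_ge_atTop R₀] with r hr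
    rw [PP_sq r (by linarith)]
    exact hlow r ((le_max_right _ _).trans hr)
  linarith

/-- asymptotics of the Bessel function -/
theorem JJ_asym (n : ℕ) : ∃ A ω C : ℝ, 0 < A ∧ 0 ≤ C ∧ ∀ r : ℝ, 0 < r →
    |Real.sqrt r * JJ n r - A * Real.cos (2 * r - ω)| ≤ C / r := by
  obtain ⟨P, R, K, R₀, hR0, hK, hPR, h⟩ := lim_comp (n := n)
  set Z : ℂ := ⟨P, R⟩ with hZ
  have hZ0 : 0 < ‖Z‖ := by
    rw [norm_pos_iff]
    intro h0
    have h1 := congrArg Complex.re h0
    have h2 := congrArg Complex.im h0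
    simp only [hZ, Complex.zero_re, Complex.zero_im] at h1 h2
    rw [h1, h2] at hPR
    norm_num at hPR
  have hre : ‖Z‖ * Real.cos Z.arg = P := Complex.norm_mul_cos_arg Z
  have him : ‖Z‖ * Real.sin Z.arg = R := Complex.norm_mul_sin_arg Z
  refine ⟨‖Z‖, -Z.arg, max (2 * K) ((BB n + ‖Z‖) * R₀), hZ0, le_trans (by positivity) (le_max_left _ _), fun r hr => ?_⟩
  have hA : ‖Z‖ * Real.cos (2 * r - -Z.arg) = P * Real.cos (2 * r) - R * Real.sin (2 * r) := by
    rw [sub_neg_eq_add, Real.cos_add, ← hre, ← him]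
    ring
  rcases le_or_gt R₀ r with h1 | h1
  · have h2 := h r h1
    have e : Real.sqrt r * JJ n r - ‖Z‖ * Real.cos (2 * r - -Z.arg) =
        (PP n r - P) * Real.cos (2 * r) - (RR n r - R) * Real.sin (2 * r) := by
      have := aa_eq (n := n) r
      unfold aa at this
      rw [hA, this]
      ring
    rw [e]
    have a1 : |(PP n r - P) * Real.cos (2 * r)| ≤ K / r := by
      rw [abs_mul]
      calc _ ≤ K / r * 1 := mul_le_mul h2.1 (Real.abs_cos_le_one _) (abs_nonneg _) (by positivity)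
        _ = _ := mul_one _
    have a2 : |(RR n r - R) * Real.sin (2 * r)| ≤ K / r := by
      rw [abs_mul]
      calc _ ≤ K / r * 1 := mul_le_mul h2.2 (Real.abs_sin_le_one _) (abs_nonneg _) (by positivity)
        _ = _ := mul_one _
    refine (abs_sub _ _).trans ?_
    calc _ ≤ K / r + K / r := add_le_add a1 a2
      _ = 2 * K / r := by ring
      _ ≤ _ := by gcongr; exact le_max_left _ _
  · have a1 : |Real.sqrt r * JJ n r| ≤ BB n := by
      have h2 := SS_bd n hr.le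
      apply abs_le_of_sq_le_sq _ BB_pos.le
      unfold BB
      rw [mul_pow, mul_pow, Real.sq_sqrt hr.le, Real.sq_sqrt (by positivity)]
      unfold SS at h2
      nlinarith [sq_nonneg (JJ (n + 1) r), mul_nonneg hr.le (sq_nonneg (JJ (n + 1) r))]
    have a2 : |‖Z‖ * Real.cos (2 * r - -Z.arg)| ≤ ‖Z‖ := by
      rw [abs_mul, abs_of_pos hZ0]
      exact mul_le_of_le_one_right hZ0.le (Real.abs_cos_le_one _)
    refine (abs_sub _ _).trans ((add_le_add a1 a2).trans ?_)
    rw [le_div_iff₀ hr]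
    refine le_trans ?_ (le_max_right _ _)
    have : 0 < BB n := BB_pos
    gcongr

/-- asymptotics of the kernel -/
theorem Ker_asym (n : ℕ) : ∃ A ω C : ℝ, 0 < A ∧ 0 ≤ C ∧ ∀ u v : ℝ, 0 < u → 0 < v →
    |Ker n u v - A * (v ^ ((n:ℝ) / 2 - 1 / 4) * u ^ (-((n:ℝ) / 2 + 1 / 4))) * Real.cos (2 * Real.sqrt (u * v) - ω)| ≤
      C * (v ^ ((n:ℝ) / 2 - 3 / 4) * u ^ (-((n:ℝ) / 2 + 3 / 4))) := by
  obtain ⟨A, ω, C, hA, hC, h⟩ := JJ_asym n
  refine ⟨A, ω, C, hA, hC, fun u v hu hv => ?_⟩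
  have huv : 0 < u * v := mul_pos hu hv
  set r := Real.sqrt (u * v) with hr
  have hr0 : 0 < r := Real.sqrt_pos.2 huv
  have hr2 : r ^ 2 = u * v := Real.sq_sqrt huv.le
  have hre : r = (u * v) ^ (1 / 2 : ℝ) := by rw [hr, Real.sqrt_eq_rpow]
  have h1 := h r hr0
  have e1 : Ker n u v = (v ^ ((n:ℝ) / 2 - 1 / 4) * u ^ (-((n:ℝ) / 2 + 1 / 4))) * (Real.sqrt r * JJ n r) := by
    rw [Ker_eq]
    unfold JJ
    rw [hr2]
    have e2 : (v ^ ((n:ℝ) / 2 - 1 / 4) * u ^ (-((n:ℝ) / 2 + 1 / 4))) * (Real.sqrt r * r ^ n) = v ^ n := by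
      rw [Real.sqrt_eq_rpow, ← Real.rpow_natCast r n, ← Real.rpow_add hr0, hre, ← Real.rpow_mul huv.le,
        Real.mul_rpow hu.le hv.le, ← Real.rpow_natCast v n]
      have e3 : v ^ ((n:ℝ) / 2 - 1 / 4) * u ^ (-((n:ℝ) / 2 + 1 / 4)) *
          (u ^ (1 / 2 * (1 / 2 + (n:ℝ))) * v ^ (1 / 2 * (1 / 2 + (n:ℝ)))) =
          (v ^ ((n:ℝ) / 2 - 1 / 4) * v ^ (1 / 2 * (1 / 2 + (n:ℝ)))) *
          (u ^ (-((n:ℝ) / 2 + 1 / 4)) * u ^ (1 / 2 * (1 / 2 + (n:ℝ)))) := by ring
      rw [e3, ← Real.rpow_add hv, ← Real.rpow_add hu]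
      rw [show -((n:ℝ) / 2 + 1 / 4) + 1 / 2 * (1 / 2 + (n:ℝ)) = 0 by ring, Real.rpow_zero, mul_one]
      congr 1
      ring
    rw [← e2]
    ring
  rw [e1]
  have e4 : (v ^ ((n:ℝ) / 2 - 1 / 4) * u ^ (-((n:ℝ) / 2 + 1 / 4))) * (Real.sqrt r * JJ n r) -
      A * (v ^ ((n:ℝ) / 2 - 1 / 4) * u ^ (-((n:ℝ) / 2 + 1 / 4))) * Real.cos (2 * r - ω) =
      (v ^ ((n:ℝ) / 2 - 1 / 4) * u ^ (-((n:ℝ) / 2 + 1 / 4))) *
        (Real.sqrt r * JJ n r - A * Real.cos (2 * r - ω)) := by ring
  rw [e4, abs_mul, abs_of_pos (by positivity)]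
  calc (v ^ ((n:ℝ) / 2 - 1 / 4) * u ^ (-((n:ℝ) / 2 + 1 / 4))) * |Real.sqrt r * JJ n r - A * Real.cos (2 * r - ω)|
      ≤ (v ^ ((n:ℝ) / 2 - 1 / 4) * u ^ (-((n:ℝ) / 2 + 1 / 4))) * (C / r) := by gcongr
    _ = _ := by
      have e5 : r⁻¹ = v ^ (-(1 / 2) : ℝ) * u ^ (-(1 / 2) : ℝ) := by
        rw [hre, ← Real.rpow_neg huv.le, Real.mul_rpow hu.le hv.le]
        ring
      rw [show C / r = C * r⁻¹ from div_eq_mul_inv _ _, e5]
      have e6 : (v ^ ((n:ℝ) / 2 - 1 / 4) * u ^ (-((n:ℝ) / 2 + 1 / 4))) * (C * (v ^ (-(1 / 2) : ℝ) * u ^ (-(1 / 2) : ℝ))) =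
          C * ((v ^ ((n:ℝ) / 2 - 1 / 4) * v ^ (-(1 / 2) : ℝ)) * (u ^ (-((n:ℝ) / 2 + 1 / 4)) * u ^ (-(1 / 2) : ℝ))) := by
        ring
      rw [e6, ← Real.rpow_add hv, ← Real.rpow_add hu]
      congr 3
      · ring
      · ring

end

end Pool.Agent.H81.HM
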