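import Pool.Agent.H81.HM.Bes
import Pool.Graph.R_seed8.H394R3.BC.Cell

/-!
# The estimate of one cell
-/

set_option autoImplicit false

open MeasureTheory Set Filter Topology

namespace Pool.Agent.H81.HM

open Pool.Agent.H394R3.BC

/-- majorant of the density -/
noncomputable def NV (Q : ℕ) (v : ℝ) : ℝ := if v ≤ 1 then v ^ (4 * Q + 3) else v ^ (2 * (Q:ℝ) + 21 / 16)

/-- gain of a cell -/
noncomputable def vpi (Q : ℕ) (a b : ℝ) : ℝ := a ^ (-(2 * (Q:ℝ) + 7 / 4)) * ((b - a) ^ 2 / a) ^ (1 / 16 : ℝ)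

/-- the constant of the cells -/
noncomputable def C0 (Q : ℕ) : ℝ := 3 * Real.sqrt (16 * Q + 15)

lemma NV_nonneg (Q : ℕ) {v : ℝ} (hv : 0 ≤ v) : 0 ≤ NV Q v := by
  unfold NV; split_ifs <;> positivity

lemma C0_pos (Q : ℕ) : 0 < C0 Q := by unfold C0; positivity

lemma vpi_nonneg (Q : ℕ) {a b : ℝ} (ha : 0 ≤ a) : 0 ≤ vpi Q a b := by unfold vpi; positivity

/-- Taylor bound with a general majorant of the kernel -/
theorem cell_taylor_gen (k m : ℕ) {A u : ℕ → ℝ} {f : ℝ → ℝ} (hf : Continuous f) {S : Finset ℕ} {a b v G : ℝ}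
    (hab : a ≤ b) (hG0 : 0 ≤ G) (hu : ∀ n ∈ S, u n ∈ Icc a b)
    (hG : ∀ w ∈ Icc a b, |Ker (k + m) w v| ≤ G)
    (hm : ∀ i < m, cellB A u f S a b (fun w => (w - a) ^ i) = 0) :
    |cellB A u f S a b (fun w => Ker k w v)| ≤ (b - a) ^ m / m.factorial * G * cellM A f S a b := by
  set P : ℝ → ℝ := fun w => ∑ i ∈ Finset.range m, (w - a) ^ i *
    ((-1) ^ i * Ker (k + i) a v / (i.factorial : ℝ)) with hP
  have hPc : Continuous P := by rw [hP]; fun_prop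
  have h0 := cellB_poly (A := A) (u := u) hf S a b m
    (fun i => (-1) ^ i * Ker (k + i) a v / (i.factorial : ℝ)) hm
  have h1 := cellB_sub (A := A) (u := u) hf (Ker_cont_left k v) hPc S a b
  have h2 : cellB A u f S a b P = 0 := h0
  rw [h2, sub_zero] at h1
  rw [← h1]
  apply cellB_abs_le hf ((Ker_cont_left k v).sub hPc) hab hu
  intro w hw
  have h3 := Ker_taylor_gen k m a w v G (by
    intro s hs
    rw [uIcc_of_le hw.1] at hs
    exact hG s ⟨hs.1, hs.2.trans hw.2⟩)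
  have e : (∑ i ∈ Finset.range m, (w - a) ^ i / (i.factorial : ℝ) * ((-1) ^ i * Ker (k + i) a v)) = P w := by
    rw [hP]
    apply Finset.sum_congr rfl
    intro i _
    ring
  rw [e] at h3
  refine h3.trans ?_
  rw [abs_of_nonneg (by linarith [hw.1] : 0 ≤ w - a)]
  have h4 : (w - a) ^ m ≤ (b - a) ^ m := pow_le_pow_left₀ (by linarith [hw.1]) (by linarith [hw.2]) m
  have h5 := fac_pos m
  gcongr

/-- the estimate of one cell -/
theorem core {Q : ℕ} {A u : ℕ → ℝ} {f : ℝ → ℝ} (hf : Continuous f) {S : Finset ℕ} {a b v : ℝ}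
    (ha : 1 ≤ a) (hab : a < b) (hsq : (b - a) ^ 2 ≤ a) (hu : ∀ n ∈ S, u n ∈ Icc a b) (hv : 0 ≤ v)
    (hm : ∀ i < 4 * Q + 4, cellB A u f S a b (fun w => (w - a) ^ i) = 0) :
    |cellB A u f S a b (fun w => Ker (4 * Q + 3) w v)| ≤ C0 Q * (cellM A f S a b * vpi Q a b) * NV Q v := by
  have ha0 : 0 < a := by linarith
  have hM0 := cellM_nonneg A f S hab.le
  rcases hv.eq_or_lt with h0 | hv0
  · subst h0
    have e : (fun w => Ker (4 * Q + 3) w 0) = fun _ => 0 := by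
      funext w
      rw [Ker_eq, zero_pow (by omega), zero_mul]
    rw [e]
    unfold cellB
    simp only [mul_zero, Finset.sum_const_zero, intervalIntegral.integral_zero, sub_zero, abs_zero]
    have := NV_nonneg Q (le_refl (0:ℝ))
    have := C0_pos Q
    have := vpi_nonneg Q (b := b) ha0.le
    positivity
  set X : ℝ := (b - a) ^ 2 / a with hX
  have hX0 : 0 < X := by
    have : 0 < b - a := by linarith
    positivity
  have hX1 : X ≤ 1 := by rw [hX, div_le_one ha0]; exact hsq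
  have hQ0 : (0:ℝ) ≤ Q := Nat.cast_nonneg Q
  -- trivial bound
  have hC1 : 3 * Real.sqrt (2 * ((4 * Q + 3 : ℕ) : ℝ) + 1) ≤ C0 Q := by
    unfold C0
    apply mul_le_mul_of_nonneg_left _ (by norm_num)
    apply Real.sqrt_le_sqrt
    push_cast
    linarith
  have hC2 : 3 * Real.sqrt (2 * ((4 * Q + 3 + (4 * Q + 4) : ℕ) : ℝ) + 1) ≤ C0 Q := by
    unfold C0
    apply mul_le_mul_of_nonneg_left _ (by norm_num)
    apply Real.sqrt_le_sqrt
    push_cast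
    linarith
  have hT : |cellB A u f S a b (fun w => Ker (4 * Q + 3) w v)| ≤
      C0 Q * (v ^ (2 * (Q:ℝ) + 5 / 4) * a ^ (-(2 * (Q:ℝ) + 7 / 4))) * cellM A f S a b := by
    apply cellB_abs_le hf (Ker_cont_left _ v) hab.le hu
    intro w hw
    have hw0 : 0 < w := ha0.trans_le hw.1
    refine (Ker_dec (4 * Q + 3) hw0 hv0).trans ?_
    rw [show (((4 * Q + 3 : ℕ) : ℝ) / 2 - 1 / 4) = 2 * (Q:ℝ) + 5 / 4 by push_cast; ring,
      show -(((4 * Q + 3 : ℕ) : ℝ) / 2 + 1 / 4) = -(2 * (Q:ℝ) + 7 / 4) by push_cast; ring]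
    apply mul_le_mul hC1 _ (by positivity) (C0_pos Q).le
    apply mul_le_mul_of_nonneg_left _ (by positivity)
    exact Real.rpow_le_rpow_of_nonpos ha0 hw.1 (by linarith)
  have hTay : |cellB A u f S a b (fun w => Ker (4 * Q + 3) w v)| ≤
      C0 Q * (v ^ (4 * (Q:ℝ) + 13 / 4) * a ^ (-(2 * (Q:ℝ) + 7 / 4)) * X ^ (2 * (Q:ℝ) + 2)) * cellM A f S a b := by
    have h1 := cell_taylor_gen (4 * Q + 3) (4 * Q + 4) (A := A) (u := u) hf (S := S) hab.le (v := v)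
      (G := C0 Q * (v ^ (4 * (Q:ℝ) + 13 / 4) * a ^ (-(4 * (Q:ℝ) + 15 / 4)))) (by have := C0_pos Q; positivity) hu (by
      intro w hw
      have hw0 : 0 < w := ha0.trans_le hw.1
      refine (Ker_dec (4 * Q + 3 + (4 * Q + 4)) hw0 hv0).trans ?_
      rw [show (((4 * Q + 3 + (4 * Q + 4) : ℕ) : ℝ) / 2 - 1 / 4) = 4 * (Q:ℝ) + 13 / 4 by push_cast; ring,
        show -(((4 * Q + 3 + (4 * Q + 4) : ℕ) : ℝ) / 2 + 1 / 4) = -(4 * (Q:ℝ) + 15 / 4) by push_cast; ring]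
      apply mul_le_mul hC2 _ (by positivity) (C0_pos Q).le
      apply mul_le_mul_of_nonneg_left _ (by positivity)
      exact Real.rpow_le_rpow_of_nonpos ha0 hw.1 (by linarith)) hm
    refine h1.trans ?_
    apply mul_le_mul_of_nonneg_right _ hM0
    have hba : 0 < b - a := by linarith
    have e1 : (b - a) ^ (4 * Q + 4) * a ^ (-(4 * (Q:ℝ) + 15 / 4)) = a ^ (-(2 * (Q:ℝ) + 7 / 4)) * X ^ (2 * (Q:ℝ) + 2) := by
      have e2 : X ^ (2 * (Q:ℝ) + 2) = (b - a) ^ (4 * Q + 4) * a ^ (-(2 * (Q:ℝ) + 2)) := by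
        rw [hX, Real.div_rpow (by positivity) ha0.le, ← Real.rpow_natCast (b - a) 2, ← Real.rpow_mul hba.le,
          ← Real.rpow_natCast (b - a) (4 * Q + 4), Real.rpow_neg ha0.le, div_eq_mul_inv]
        congr 2
        push_cast
        ring
      rw [e2, ← mul_assoc, mul_comm _ ((b - a) ^ (4 * Q + 4)), mul_assoc, ← Real.rpow_add ha0]
      congr 2
      ring
    have hfac := one_le_fac (4 * Q + 4)
    calc (b - a) ^ (4 * Q + 4) / ((4 * Q + 4).factorial : ℝ) * (C0 Q * (v ^ (4 * (Q:ℝ) + 13 / 4) * a ^ (-(4 * (Q:ℝ) + 15 / 4))))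
        ≤ (b - a) ^ (4 * Q + 4) * (C0 Q * (v ^ (4 * (Q:ℝ) + 13 / 4) * a ^ (-(4 * (Q:ℝ) + 15 / 4)))) := by
          apply mul_le_mul_of_nonneg_right _ (by have := C0_pos Q; positivity)
          exact div_le_self (by positivity) hfac
      _ = C0 Q * (v ^ (4 * (Q:ℝ) + 13 / 4) * ((b - a) ^ (4 * Q + 4) * a ^ (-(4 * (Q:ℝ) + 15 / 4)))) := by ring
      _ = _ := by rw [e1]; ring
  have hP0 : 0 ≤ a ^ (-(2 * (Q:ℝ) + 7 / 4)) := by positivity
  have e0 : C0 Q * (cellM A f S a b * vpi Q a b) * NV Q v =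
      C0 Q * (NV Q v * a ^ (-(2 * (Q:ℝ) + 7 / 4)) * X ^ (1 / 16 : ℝ)) * cellM A f S a b := by
    unfold vpi; ring
  rw [e0]
  rcases le_or_gt v 1 with h1 | h1
  · refine hTay.trans ?_
    apply mul_le_mul_of_nonneg_right _ hM0
    apply mul_le_mul_of_nonneg_left _ (C0_pos Q).le
    have a1 : v ^ (4 * (Q:ℝ) + 13 / 4) ≤ NV Q v := by
      unfold NV
      rw [if_pos h1, ← Real.rpow_natCast v (4 * Q + 3)]
      apply Real.rpow_le_rpow_of_exponent_ge hv0 h1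
      push_cast
      linarith
    have a2 : X ^ (2 * (Q:ℝ) + 2) ≤ X ^ (1 / 16 : ℝ) := Real.rpow_le_rpow_of_exponent_ge hX0 hX1 (by linarith)
    have := NV_nonneg Q hv
    gcongr
  · have eN : NV Q v = v ^ (2 * (Q:ℝ) + 5 / 4) * v ^ (1 / 16 : ℝ) := by
      unfold NV
      rw [if_neg (not_le.2 h1), ← Real.rpow_add hv0]
      congr 1
      ring
    rcases le_or_gt (X * v) 1 with h2 | h2
    · refine hTay.trans ?_
      apply mul_le_mul_of_nonneg_right _ hM0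
      apply mul_le_mul_of_nonneg_left _ (C0_pos Q).le
      rw [eN]
      have a3 : v ^ (4 * (Q:ℝ) + 13 / 4) = v ^ (2 * (Q:ℝ) + 5 / 4) * v ^ (2 * (Q:ℝ) + 2) := by
        rw [← Real.rpow_add hv0]
        congr 1
        ring
      have a4 : v ^ (2 * (Q:ℝ) + 2) * X ^ (2 * (Q:ℝ) + 2) ≤ v ^ (1 / 16 : ℝ) * X ^ (1 / 16 : ℝ) := by
        rw [← Real.mul_rpow hv0.le hX0.le, ← Real.mul_rpow hv0.le hX0.le]
        apply Real.rpow_le_rpow_of_exponent_ge (by positivity) (by linarith) (by linarith)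
      calc v ^ (4 * (Q:ℝ) + 13 / 4) * a ^ (-(2 * (Q:ℝ) + 7 / 4)) * X ^ (2 * (Q:ℝ) + 2)
          = v ^ (2 * (Q:ℝ) + 5 / 4) * a ^ (-(2 * (Q:ℝ) + 7 / 4)) * (v ^ (2 * (Q:ℝ) + 2) * X ^ (2 * (Q:ℝ) + 2)) := by
            rw [a3]; ring
        _ ≤ v ^ (2 * (Q:ℝ) + 5 / 4) * a ^ (-(2 * (Q:ℝ) + 7 / 4)) * (v ^ (1 / 16 : ℝ) * X ^ (1 / 16 : ℝ)) := by
            gcongr
        _ = _ := by ring
    · refine hT.trans ?_
      apply mul_le_mul_of_nonneg_right _ hM0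
      apply mul_le_mul_of_nonneg_left _ (C0_pos Q).le
      rw [eN]
      have a5 : 1 ≤ v ^ (1 / 16 : ℝ) * X ^ (1 / 16 : ℝ) := by
        rw [← Real.mul_rpow hv0.le hX0.le]
        exact Real.one_le_rpow (by linarith) (by norm_num)
      calc v ^ (2 * (Q:ℝ) + 5 / 4) * a ^ (-(2 * (Q:ℝ) + 7 / 4))
          = v ^ (2 * (Q:ℝ) + 5 / 4) * a ^ (-(2 * (Q:ℝ) + 7 / 4)) * 1 := by ring
        _ ≤ v ^ (2 * (Q:ℝ) + 5 / 4) * a ^ (-(2 * (Q:ℝ) + 7 / 4)) * (v ^ (1 / 16 : ℝ) * X ^ (1 / 16 : ℝ)) := by gcongr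
        _ = _ := by ring

end Pool.Agent.H81.HM
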