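import Pool.Agent.H81.HM.Win4
import Pool.Graph.R_seed8.W406.PX.End

/-!
# One system: the element of the Selberg class
-/

set_option autoImplicit false

open Finset MeasureTheory Filter Topology

namespace Pool.Agent.H81.HM

open Pool.Agent.H96R3.BC (vv cf)
open Pool.Agent.W406.PX (Theta)
open Pool.Agent.H13R3.EM (Sel)

/-- mean square asymptotics of exponent `2 - 1 / (8 Q)` -/
def MSq (Q : ℕ) (a : ℕ → ℝ) : Prop := ∃ C K : ℝ, 0 < C ∧ 0 ≤ K ∧ ∀ T : ℝ, 1 ≤ T →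
    |(∫ x in (1:ℝ)..T, EE a x ^ 2) - C * T ^ (2 - 1 / (8 * (Q:ℝ)))| ≤
      K * T ^ (2 - 1 / (8 * (Q:ℝ)) - 1 / (256 * (Q:ℝ)))

/-- large values in the windows -/
def Lrg (q g0 : ℕ) (ξ : ℝ) (a : ℕ → ℝ) : Prop := ∀ c₄ : ℝ, 0 < c₄ →
    ∃ cl : ℝ, 0 < cl ∧ ∀ᶠ k in atTop, ∀ x₁ x₂ : ℝ, XX g0 k + LL ξ (XX g0 k) / 4 ≤ x₁ → x₁ ≤ x₂ →
      x₂ ≤ XX g0 k + LL ξ (XX g0 k) / 2 →
      |EE a x₁| < cl * XX g0 k ^ (1 / 2 + 7 / (1280 * (q:ℝ)) - ξ) →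
      |EE a x₂| < cl * XX g0 k ^ (1 / 2 + 7 / (1280 * (q:ℝ)) - ξ) →
      x₂ - x₁ ≤ c₄ * LL ξ (XX g0 k)

/-- the data of the mean square theorem -/
lemma ds_of {Q j' : ℕ} {y : ℕ → ℝ} (hQ : 4 ≤ Q) (hj : 1 ≤ j') (hT : Theta Q j' y)
    (hz : ∀ n : ℕ, 1 ≤ n → |cf y n| ≤ zz Q n) : Ds Q ((j' : ℝ) ^ (2 * Q)) (cf y) (vv Q j') := by
  refine ⟨hQ, one_le_pow₀ (by exact_mod_cast hj), by simp [cf], ?_, fun n => rfl, fun n hn => hz n hn, fun t ht => hT t ht⟩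
  simp [cf]

theorem single : ∃ q₀ : ℕ, ∀ q : ℕ, q₀ ≤ q → ∀ ξ : ℝ, 59 / 100 ≤ 4 * ((16 * q : ℕ):ℝ) * ξ → 2 * (q:ℝ) * ξ ≤ 1 / 2 →
    ∃ G₀ : ℕ, ∀ g0 : ℕ, G₀ ≤ g0 → ∃ (F : Sel) (a : ℕ → ℝ), F.m0 = 0 ∧ F.deg = 8 * ((16 * q : ℕ):ℝ) ∧
      (∀ n : ℕ, 1 ≤ n → F.a n = ((a n : ℝ) : ℂ)) ∧ MSq (16 * q) a ∧ Lrg q g0 ξ a := by
  obtain ⟨q₀, hsys⟩ := sys
  refine ⟨q₀, fun q hq ξ hξ hξ2 => ?_⟩
  obtain ⟨J₀, hJ⟩ := hsys q hq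
  obtain ⟨w, ω, m, S⟩ := hJ J₀ le_rfl
  have hQ := S.hQ
  have hj := S.hj
  have hκ := S.hκ
  have hξ0 : 0 < ξ := by
    by_contra hc
    rw [not_lt] at hc
    have : 4 * ((16 * q : ℕ):ℝ) * ξ ≤ 0 := mul_nonpos_of_nonneg_of_nonpos (by positivity) hc
    linarith
  obtain ⟨G₀, hG⟩ := wd_of (Q := 16 * q) (j' := J₀) (by omega) (by omega) hξ hκ
  refine ⟨G₀, fun g0 hg0 => ?_⟩
  have W := hG g0 hg0
  have hs := src_of (Q := 16 * q) rfl rfl S W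
  obtain ⟨x, f, hO⟩ := fix S hs
  have hz := zz_zm (16 * q) (by omega)
  have hT := theta_of S hz hs (fun t ht => sF_int W ht) (fun t ht => HF_lap W ht) hO
  have hy := fun n => Out.yle S hz hO n
  obtain ⟨F, hF0, hFd, hFa⟩ := Pool.Agent.W406.PX.End.sel (by omega) (by omega) hy hT
  refine ⟨F, cf (fun n => zz (16 * q) n * x n), hF0, hFd, hFa, ?_, ?_⟩
  · exact (ds_of (by omega) (by omega) hT (fun n hn => a_le S hO hn)).ms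
  · intro c₄ hc₄
    exact win S W hO hξ0 hξ2 hc₄

end Pool.Agent.H81.HM
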