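import Pool.Agent.H81.HM.Fin1

/-!
# Lower bound for the joint moment
-/

set_option autoImplicit false

open Finset MeasureTheory Filter Topology

namespace Pool.Agent.H81.HM

lemma big_int {n : ℕ} (E : Fin n → ℝ → ℝ) (hE : ∀ j, Measurable (E j)) {A B T δ : ℝ}
    (hint : IntervalIntegrable (fun x => ∏ j, E j x ^ 2) volume 1 T)
    (h1 : 1 ≤ A) (hAB : A ≤ B) (hBT : B ≤ T) (lam : Fin n → ℝ) (hlam : ∀ j, 0 ≤ lam j) (hδ : 0 ≤ δ)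
    (hbad : ∀ (j : Fin n) (x₁ x₂ : ℝ), A ≤ x₁ → x₁ ≤ x₂ → x₂ ≤ B → |E j x₁| < lam j → |E j x₂| < lam j → x₂ - x₁ ≤ δ) :
    (∏ j, lam j ^ 2) * (B - A - n * δ) ≤ ∫ x in (1:ℝ)..T, ∏ j, E j x ^ 2 := by
  set b : Fin n → Set ℝ := fun j => {x | A < x ∧ x ≤ B ∧ |E j x| < lam j} with hb
  set S : Set ℝ := Set.Ioc A B \ ⋃ j, b j with hS
  have hbm : ∀ j, MeasurableSet (b j) := by
    intro j
    have e : b j = Set.Ioc A B ∩ (fun x => |E j x|) ⁻¹' (Set.Iio (lam j)) := by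
      ext x
      simp only [hb, Set.mem_ofPred_eq, Set.mem_inter_iff, Set.mem_Ioc, Set.mem_preimage, Set.mem_Iio, and_assoc]
    rw [e]
    have hm : Measurable (fun x => |E j x|) := (hE j).norm
    exact measurableSet_Ioc.inter (hm measurableSet_Iio)
  have hSm : MeasurableSet S := measurableSet_Ioc.diff (MeasurableSet.iUnion hbm)
  have hbv : ∀ j, volume (b j) ≤ ENNReal.ofReal δ := by
    intro j
    refine (Real.volume_le_diam _).trans (Metric.ediam_le_of_forall_dist_le fun x hx y hy => ?_)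
    simp only [hb, Set.mem_ofPred_eq] at hx hy
    rw [Real.dist_eq]
    rcases le_total x y with h | h
    · rw [abs_sub_comm, abs_of_nonneg (by linarith)]
      exact hbad j x y hx.1.le h hy.2.1 hx.2.2 hy.2.2
    · rw [abs_of_nonneg (by linarith)]
      exact hbad j y x hy.1.le h hx.2.1 hy.2.2 hx.2.2
  have hUv : volume (⋃ j, b j) ≤ ENNReal.ofReal (n * δ) := by
    refine (measure_iUnion_fintype_le volume b).trans ?_
    refine (Finset.sum_le_sum fun j _ => hbv j).trans ?_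
    rw [Finset.sum_const, Finset.card_univ, Fintype.card_fin, nsmul_eq_mul, ENNReal.ofReal_mul (Nat.cast_nonneg n),
      ENNReal.ofReal_natCast]
  have hSfin : volume S ≠ ⊤ := by
    refine ne_top_of_le_ne_top ?_ (measure_mono (Set.sdiff_subset : S ⊆ Set.Ioc A B))
    rw [Real.volume_Ioc]
    exact ENNReal.ofReal_ne_top
  have hSv : B - A - n * δ ≤ volume.real S := by
    have h2 : ENNReal.ofReal (B - A - n * δ) ≤ volume S := by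
      have h3 := le_measure_sdiff (μ := volume) (s₁ := Set.Ioc A B) (s₂ := ⋃ j, b j)
      refine le_trans ?_ h3
      rw [Real.volume_Ioc, ENNReal.ofReal_sub _ (by positivity)]
      exact tsub_le_tsub_left hUv _
    exact (ENNReal.ofReal_le_iff_le_toReal hSfin).1 h2
  have hST : S ⊆ Set.Ioc 1 T := by
    intro x hx
    rw [hS] at hx
    exact ⟨by linarith [hx.1.1], hx.1.2.trans hBT⟩
  have hint' : IntegrableOn (fun x => ∏ j, E j x ^ 2) (Set.Ioc 1 T) := by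
    rwa [intervalIntegrable_iff_integrableOn_Ioc_of_le (by linarith)] at hint
  have hlow : ∀ x ∈ S, ∏ j, lam j ^ 2 ≤ ∏ j, E j x ^ 2 := by
    intro x hx
    rw [hS] at hx
    apply Finset.prod_le_prod (fun j _ => sq_nonneg _)
    intro j _
    have h2 : lam j ≤ |E j x| := by
      by_contra hc
      rw [not_le] at hc
      exact hx.2 (Set.mem_iUnion.2 ⟨j, hx.1.1, hx.1.2, hc⟩)
    rw [← sq_abs (E j x)]
    exact pow_le_pow_left₀ (hlam j) h2 2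
  have h4 := setIntegral_ge_of_const_le_real hSm hSfin hlow (hint'.mono_set hST)
  rw [intervalIntegral.integral_of_le (by linarith)]
  have h5 : ∫ x in S, ∏ j, E j x ^ 2 ≤ ∫ x in Set.Ioc 1 T, ∏ j, E j x ^ 2 :=
    setIntegral_mono_set hint' (Eventually.of_forall fun x => Finset.prod_nonneg fun j _ => sq_nonneg _)
      (LE.le.eventuallyLE hST)
  have h6 : 0 ≤ ∏ j, lam j ^ 2 := Finset.prod_nonneg fun j _ => sq_nonneg _
  calc (∏ j, lam j ^ 2) * (B - A - n * δ) ≤ (∏ j, lam j ^ 2) * volume.real S := mul_le_mul_of_nonneg_left hSv h6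
    _ ≤ _ := h4.trans h5

lemma prod_int {n : ℕ} (a : Fin n → ℕ → ℝ) {T : ℝ} (hT : 1 ≤ T) :
    IntervalIntegrable (fun x => ∏ j, EE (a j) x ^ 2) volume 1 T := by
  apply bdd_int (C := ∏ j, (∑ k ∈ Icc 1 ⌊T⌋₊, |a j k|) ^ 2) _ hT
  · intro x hx
    rw [Finset.abs_prod]
    apply Finset.prod_le_prod (fun j _ => abs_nonneg _)
    intro j _
    rw [abs_pow]
    exact pow_le_pow_left₀ (abs_nonneg _) (EE_le (a j) hx.2) 2
  · exact Finset.measurable_fun_prod _ fun j _ => (EE_meas (a j)).pow_const 2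

/-- the exponent gain -/
lemma gain {q : ℕ} (hq : 10000 ≤ q) : ∃ η : ℝ, 0 < η ∧
    1 + ∑ j : Fin 64, (1 - 1 / (128 * ((q + (j:ℕ) : ℕ) : ℝ))) + η ≤
      1 - 59 / (6400 * (q:ℝ)) + ∑ j : Fin 64, 2 * (1 / 2 + 7 / (1280 * ((q + (j:ℕ) : ℕ) : ℝ)) - 59 / (6400 * (q:ℝ))) := by
  have hqR : (10000:ℝ) ≤ q := by exact_mod_cast hq
  have hq0 : (0:ℝ) < q := by linarith
  have hterm : ∀ j : Fin 64, 3 / (160 * ((q:ℝ) + 63)) - 2 * (59 / (6400 * (q:ℝ))) ≤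
      2 * (1 / 2 + 7 / (1280 * ((q + (j:ℕ) : ℕ) : ℝ)) - 59 / (6400 * (q:ℝ))) - (1 - 1 / (128 * ((q + (j:ℕ) : ℕ) : ℝ))) := by
    intro j
    have hj : ((q + (j:ℕ) : ℕ) : ℝ) ≤ (q:ℝ) + 63 := by
      have := j.2
      exact_mod_cast (by omega : q + (j:ℕ) ≤ q + 63)
    have hj0 : (0:ℝ) < ((q + (j:ℕ) : ℕ) : ℝ) := by exact_mod_cast (by omega : 0 < q + (j:ℕ))
    set y := ((q + (j:ℕ) : ℕ) : ℝ)
    have e : 2 * (1 / 2 + 7 / (1280 * y) - 59 / (6400 * (q:ℝ))) - (1 - 1 / (128 * y)) =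
        3 / (160 * y) - 2 * (59 / (6400 * (q:ℝ))) := by
      field_simp
      ring
    rw [e]
    gcongr
  refine ⟨64 * (3 / (160 * ((q:ℝ) + 63)) - 2 * (59 / (6400 * (q:ℝ)))) - 59 / (6400 * (q:ℝ)), ?_, ?_⟩
  · have e : 64 * (3 / (160 * ((q:ℝ) + 63)) - 2 * (59 / (6400 * (q:ℝ)))) - 59 / (6400 * (q:ℝ)) =
        (7680 * q - 7611 * (q + 63)) / (6400 * q * (q + 63)) := by
      field_simp
      ring
    rw [e]
    apply div_pos _ (by positivity)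
    linarith
  · have h := Finset.sum_le_sum fun (j : Fin 64) (_ : j ∈ Finset.univ) => hterm j
    rw [Finset.sum_const, Finset.card_univ, Fintype.card_fin, nsmul_eq_mul, Finset.sum_sub_distrib] at h
    push_cast at h ⊢
    linarith

/-- the joint moment is large, general form -/
lemma joint_gen {n q g0 : ℕ} {ξ σ' : ℝ} (a : Fin n → ℕ → ℝ) (hL : ∀ j : Fin n, Lrg (q + (j:ℕ)) g0 ξ (a j))
    (hn : (n:ℝ) ≤ 64) (hξ0 : 0 < ξ)
    (hσ : σ' ≤ 1 - ξ + ∑ j : Fin n, 2 * (1 / 2 + 7 / (1280 * ((q + (j:ℕ) : ℕ) : ℝ)) - ξ)) :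
    ∃ c : ℝ, 0 < c ∧ ∀ T₀ : ℝ, ∃ T : ℝ, T₀ ≤ T ∧ 1 ≤ T ∧ c * T ^ σ' ≤ ∫ x in (1:ℝ)..T, ∏ j, EE (a j) x ^ 2 := by
  choose cl hcl hev using fun j => hL j (1 / 512) (by norm_num)
  set c := (∏ j, cl j ^ 2) * (1 / 8) * (2:ℝ) ^ (-σ') with hc
  have hcp : 0 < ∏ j, cl j ^ 2 := Finset.prod_pos fun j _ => by have := hcl j; positivity
  refine ⟨c, by positivity, fun T₀ => ?_⟩
  have hevall := Filter.eventually_all.2 hev
  obtain ⟨k, hk1, hk2⟩ := (hevall.and ((XX_tend g0).eventually_ge_atTop T₀)).exists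
  have hXp := XX_pos g0 k
  have hX1 := XX_one g0 k
  have hLX := LL_le (ξ := ξ) hX1 hξ0.le
  have hL0 := LL_pos (ξ := ξ) hXp
  set X := XX g0 k with hX
  refine ⟨2 * X, by linarith, by linarith, ?_⟩
  have hb := big_int (fun j => EE (a j)) (fun j => EE_meas (a j)) (A := X + LL ξ X / 4) (B := X + LL ξ X / 2) (T := 2 * X)
    (δ := 1 / 512 * LL ξ X) (prod_int a (by linarith)) (by linarith) (by linarith) (by linarith)
    (fun j => cl j * X ^ (1 / 2 + 7 / (1280 * ((q + (j:ℕ) : ℕ):ℝ)) - ξ)) (fun j => by have := hcl j; positivity)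
    (by positivity) (fun j => hk1 j)
  refine le_trans ?_ hb
  have e1 : 1 / 8 * X ^ (1 - ξ) ≤ X + LL ξ X / 2 - (X + LL ξ X / 4) - (n:ℝ) * (1 / 512 * LL ξ X) := by
    have h1 : X ^ (1 - ξ) = LL ξ X := by
      unfold LL
      rw [sub_eq_add_neg 1 ξ, Real.rpow_add hXp, Real.rpow_one]
    rw [h1]
    have h2 : (n:ℝ) * (1 / 512 * LL ξ X) ≤ 64 * (1 / 512 * LL ξ X) := by gcongr
    linarith
  have e2 : ∏ j : Fin n, (cl j * X ^ (1 / 2 + 7 / (1280 * ((q + (j:ℕ) : ℕ):ℝ)) - ξ)) ^ 2 =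
      (∏ j, cl j ^ 2) * X ^ (∑ j : Fin n, 2 * (1 / 2 + 7 / (1280 * ((q + (j:ℕ) : ℕ):ℝ)) - ξ)) := by
    rw [Real.rpow_sum_of_pos hXp, ← Finset.prod_mul_distrib]
    apply Finset.prod_congr rfl
    intro j _
    rw [mul_pow, ← Real.rpow_mul_natCast hXp.le]
    congr 2
    push_cast
    ring
  rw [e2]
  have e3 : (2 * X) ^ σ' = (2:ℝ) ^ σ' * X ^ σ' := Real.mul_rpow (by norm_num) hXp.le
  have e4 : c * (2 * X) ^ σ' = (∏ j, cl j ^ 2) * (1 / 8) * X ^ σ' := by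
    rw [hc, e3]
    have : (2:ℝ) ^ (-σ') * (2:ℝ) ^ σ' = 1 := by
      rw [← Real.rpow_add (by norm_num)]
      simp
    calc _ = (∏ j, cl j ^ 2) * (1 / 8) * ((2:ℝ) ^ (-σ') * (2:ℝ) ^ σ') * X ^ σ' := by ring
      _ = _ := by rw [this, mul_one]
  rw [e4]
  set se := ∑ j : Fin n, 2 * (1 / 2 + 7 / (1280 * ((q + (j:ℕ) : ℕ):ℝ)) - ξ) with hse
  calc (∏ j, cl j ^ 2) * (1 / 8) * X ^ σ' ≤ (∏ j, cl j ^ 2) * (1 / 8) * X ^ (1 - ξ + se) := by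
        gcongr
    _ = (∏ j, cl j ^ 2) * X ^ se * (1 / 8 * X ^ (1 - ξ)) := by
        rw [Real.rpow_add hXp]
        ring
    _ ≤ _ := by gcongr

/-- the systems -/
lemma systems {n q : ℕ} {ξ : ℝ}
    (hx : ∀ j : Fin n, ∃ G₀ : ℕ, ∀ g0 : ℕ, G₀ ≤ g0 → ∃ (F : Pool.Agent.H13R3.EM.Sel) (a : ℕ → ℝ), F.m0 = 0 ∧
      F.deg = 8 * ((16 * (q + (j:ℕ)) : ℕ):ℝ) ∧
      (∀ n : ℕ, 1 ≤ n → F.a n = ((a n : ℝ) : ℂ)) ∧ MSq (16 * (q + (j:ℕ))) a ∧ Lrg (q + (j:ℕ)) g0 ξ a) :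
    ∃ (g0 : ℕ) (F : Fin n → Pool.Agent.H13R3.EM.Sel) (a : Fin n → ℕ → ℝ),
    (∀ j : Fin n, (F j).m0 = 0) ∧ (∀ j : Fin n, (F j).deg = 8 * ((16 * (q + (j:ℕ)) : ℕ):ℝ)) ∧
    (∀ j : Fin n, ∀ n : ℕ, 1 ≤ n → (F j).a n = ((a j n : ℝ) : ℂ)) ∧ (∀ j : Fin n, MSq (16 * (q + (j:ℕ))) (a j)) ∧
    ∀ j : Fin n, Lrg (q + (j:ℕ)) g0 ξ (a j) := by
  choose G₀ hG using hx
  set g0 := ∑ j, G₀ j with hg0
  have hge : ∀ j, G₀ j ≤ g0 := fun j => Finset.single_le_sum (f := G₀) (fun _ _ => Nat.zero_le _) (Finset.mem_univ j)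
  choose F a hF0 hFd hFa hM hL using fun j => hG j g0 (hge j)
  exact ⟨g0, F, a, hF0, hFd, hFa, hM, hL⟩

/-- the joint moment is large -/
theorem joint : ∃ (q : ℕ) (F : Fin 64 → Pool.Agent.H13R3.EM.Sel) (a : Fin 64 → ℕ → ℝ), 10000 ≤ q ∧
    (∀ j : Fin 64, (F j).m0 = 0) ∧ (∀ j : Fin 64, (F j).deg = 8 * ((16 * (q + (j:ℕ)) : ℕ):ℝ)) ∧
    (∀ j : Fin 64, ∀ n : ℕ, 1 ≤ n → (F j).a n = ((a j n : ℝ) : ℂ)) ∧ (∀ j : Fin 64, MSq (16 * (q + (j:ℕ))) (a j)) ∧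
    ∃ η c : ℝ, 0 < η ∧ 0 < c ∧ ∀ T₀ : ℝ, ∃ T : ℝ, T₀ ≤ T ∧ 1 ≤ T ∧
      c * T ^ (1 + ∑ j : Fin 64, (1 - 1 / (128 * ((q + (j:ℕ) : ℕ) : ℝ))) + η) ≤ ∫ x in (1:ℝ)..T, ∏ j, EE (a j) x ^ 2 := by
  obtain ⟨q₀, hsingle⟩ := single
  obtain ⟨q, hq1, hq2⟩ : ∃ q : ℕ, 10000 ≤ q ∧ q₀ ≤ q := ⟨max q₀ 10000, le_max_right _ _, le_max_left _ _⟩
  have hqR : (10000:ℝ) ≤ q := by exact_mod_cast hq1
  have hq0 : (0:ℝ) < q := by linarith
  obtain ⟨ξ, hξ⟩ : ∃ ξ : ℝ, ξ = 59 / (6400 * (q:ℝ)) := ⟨_, rfl⟩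
  have hξ0 : 0 < ξ := by rw [hξ]; positivity
  have hx : ∀ j : Fin 64, ∃ G₀ : ℕ, ∀ g0 : ℕ, G₀ ≤ g0 → ∃ (F : Pool.Agent.H13R3.EM.Sel) (a : ℕ → ℝ), F.m0 = 0 ∧
      F.deg = 8 * ((16 * (q + (j:ℕ)) : ℕ):ℝ) ∧
      (∀ n : ℕ, 1 ≤ n → F.a n = ((a n : ℝ) : ℂ)) ∧ MSq (16 * (q + (j:ℕ))) a ∧ Lrg (q + (j:ℕ)) g0 ξ a := by
    intro j
    obtain ⟨i, hi⟩ : ∃ i : ℕ, i = (j:ℕ) := ⟨_, rfl⟩
    have hi64 : i < 64 := by rw [hi]; exact j.2
    rw [← hi]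
    have hj : ((q + i : ℕ) : ℝ) ≤ (q:ℝ) + 63 := by
      exact_mod_cast (by omega : q + i ≤ q + 63)
    have hj1 : (q:ℝ) ≤ ((q + i : ℕ) : ℝ) := by exact_mod_cast (by omega : q ≤ q + i)
    apply hsingle (q + i) (by omega) ξ
    · have h1 : 59 / 100 = 4 * (16 * (q:ℝ)) * ξ := by
        rw [hξ]
        field_simp
        norm_num
      rw [h1]
      have h2 : (((16 * (q + i) : ℕ)) : ℝ) = 16 * ((q + i : ℕ) : ℝ) := by push_cast; ring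
      rw [h2]
      gcongr
    · calc 2 * ((q + i : ℕ) : ℝ) * ξ ≤ 2 * ((q:ℝ) + 63) * ξ := by gcongr
        _ = (2 * ((q:ℝ) + 63) * 59) / (6400 * q) := by rw [hξ]; ring
        _ ≤ 1 / 2 := by
            rw [div_le_div_iff₀ (by positivity) (by norm_num)]
            linarith
  obtain ⟨g0, F, a, hF0, hFd, hFa, hM, hL⟩ := systems hx
  obtain ⟨η, hη, hgain⟩ := gain hq1
  rw [← hξ] at hgain
  obtain ⟨c, hc, h⟩ := joint_gen a hL (by norm_num) hξ0 hgain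
  exact ⟨q, F, a, hq1, hF0, hFd, hFa, hM, η, c, hη, hc, h⟩

end Pool.Agent.H81.HM
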