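import Pool.Agent.H81.HM.Fin2

/-!
# The error terms of the 64 elements of the Selberg class
-/

set_option autoImplicit false

open Finset MeasureTheory Filter Topology

namespace Pool.Agent.H81.HM

open Pool.Agent.H13R3.EM (Sel)

lemma moment_of {F : Sel} (h0 : F.m0 = 0) {a : ℕ → ℝ} (ha : ∀ n : ℕ, 1 ≤ n → F.a n = ((a n : ℝ) : ℂ)) {Q d : ℕ}
    (hQ : 1 ≤ Q) (hd : (d:ℝ) = 8 * (Q:ℝ)) (hM : MSq Q a) : ∃ C : ℝ, 0 < C ∧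
    ∃ δ : ℝ, 0 < δ ∧ ∀ ε : ℝ, 0 < ε → ∃ K : ℝ, ∀ T : ℝ, 1 ≤ T →
      ‖(∫ x in (1:ℝ)..T, F.err x ^ 2) - (C:ℂ) * ((T ^ (1 + ((2:ℕ):ℝ) * ((d:ℝ) - 1) / (2 * (d:ℝ))) : ℝ) : ℂ)‖ ≤
        K * T ^ (1 + ((2:ℕ):ℝ) * ((d:ℝ) - 1) / (2 * (d:ℝ)) - δ + ε) := by
  obtain ⟨C, K, hC, hK, h⟩ := hM
  have hQ' : (0:ℝ) < Q := by exact_mod_cast hQ
  refine ⟨C, hC, 1 / (256 * (Q:ℝ)), by positivity, fun ε hε => ⟨K, fun T hT => ?_⟩⟩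
  have e1 : 1 + ((2:ℕ):ℝ) * ((d:ℝ) - 1) / (2 * (d:ℝ)) = 2 - 1 / (8 * (Q:ℝ)) := by
    rw [hd]
    push_cast
    field_simp
    ring
  have e2 : ∀ x : ℝ, F.err x ^ 2 = ((EE a x ^ 2 : ℝ) : ℂ) := by
    intro x
    rw [Pool.Agent.W406.PX.End.err_eq h0 ha x]
    unfold EE
    push_cast
    rfl
  rw [e1]
  simp_rw [e2]
  rw [intervalIntegral.integral_ofReal, ← Complex.ofReal_mul, ← Complex.ofReal_sub, Complex.norm_real, Real.norm_eq_abs]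
  refine (h T hT).trans ?_
  apply mul_le_mul_of_nonneg_left _ hK
  apply Real.rpow_le_rpow_of_exponent_le hT
  linarith

theorem final : ∃ (d : Fin 64 → ℕ) (F : Fin 64 → Sel) (C : Fin 64 → ℝ), StrictMono d ∧ (∀ j, 2 ≤ d j) ∧
    (∀ j, (F j).deg = (d j : ℝ)) ∧ (∀ j, (F j).m0 = 0) ∧ (∀ j, ∀ n : ℕ, 1 ≤ n → ((F j).a n).im = 0) ∧
    (∀ j, 0 < C j ∧ ∃ δ : ℝ, 0 < δ ∧ ∀ ε : ℝ, 0 < ε → ∃ K : ℝ, ∀ T : ℝ, 1 ≤ T →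
      ‖(∫ x in (1:ℝ)..T, (F j).err x ^ 2) -
        (C j : ℂ) * ((T ^ (1 + ((2:ℕ):ℝ) * ((d j:ℝ) - 1) / (2 * (d j:ℝ))) : ℝ) : ℂ)‖ ≤
        K * T ^ (1 + ((2:ℕ):ℝ) * ((d j:ℝ) - 1) / (2 * (d j:ℝ)) - δ + ε)) ∧
    ∃ η c : ℝ, 0 < η ∧ 0 < c ∧ ∀ T₀ : ℝ, ∃ T : ℝ, T₀ ≤ T ∧ 1 ≤ T ∧
      c * T ^ (1 + (∑ j, ((2:ℕ) : ℝ) * ((d j : ℝ) - 1) / (2 * (d j : ℝ))) + η) ≤
        ‖∫ x in (1:ℝ)..T, ∏ j, (F j).err x ^ 2‖ := by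
  obtain ⟨q, F, a, hq, hF0, hFd, hFa, hM, η, c, hη, hc, h⟩ := joint
  have hdQ : ∀ j : Fin 64, ((128 * (q + (j:ℕ)) : ℕ) : ℝ) = 8 * ((16 * (q + (j:ℕ)) : ℕ) : ℝ) := by
    intro j
    push_cast
    ring
  choose C hC hCM using fun j : Fin 64 => moment_of (hF0 j) (hFa j) (Q := 16 * (q + (j:ℕ))) (by omega) (hdQ j) (hM j)
  refine ⟨fun j => 128 * (q + (j:ℕ)), F, C, ?_, fun j => ?_, fun j => ?_, hF0, fun j n hn => ?_, fun j => ⟨hC j, hCM j⟩,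
    η, c, hη, hc, fun T₀ => ?_⟩
  · intro i j hij
    have : (i:ℕ) < (j:ℕ) := hij
    show 128 * (q + (i:ℕ)) < 128 * (q + (j:ℕ))
    omega
  · show 2 ≤ 128 * (q + (j:ℕ))
    omega
  · show (F j).deg = ((128 * (q + (j:ℕ)) : ℕ) : ℝ)
    rw [hFd j, hdQ j]
  · rw [hFa j n hn]
    exact Complex.ofReal_im _
  · obtain ⟨T, hT0, hT1, hT⟩ := h T₀
    refine ⟨T, hT0, hT1, ?_⟩
    have e1 : ∑ j : Fin 64, ((2:ℕ) : ℝ) * (((128 * (q + (j:ℕ)) : ℕ) : ℝ) - 1) / (2 * ((128 * (q + (j:ℕ)) : ℕ) : ℝ)) =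
        ∑ j : Fin 64, (1 - 1 / (128 * ((q + (j:ℕ) : ℕ) : ℝ))) := by
      apply Finset.sum_congr rfl
      intro j _
      have h1 : (0:ℝ) < ((q + (j:ℕ) : ℕ) : ℝ) := by exact_mod_cast (by omega : 0 < q + (j:ℕ))
      have h2 : ((128 * (q + (j:ℕ)) : ℕ) : ℝ) = 128 * ((q + (j:ℕ) : ℕ) : ℝ) := by push_cast; ring
      rw [h2]
      set y := ((q + (j:ℕ) : ℕ) : ℝ)
      push_cast
      field_simp
    have e2 : ∀ x : ℝ, ∏ j, (F j).err x ^ 2 = ((∏ j, EE (a j) x ^ 2 : ℝ) : ℂ) := by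
      intro x
      rw [Complex.ofReal_prod]
      apply Finset.prod_congr rfl
      intro j _
      rw [Pool.Agent.W406.PX.End.err_eq (hF0 j) (hFa j) x]
      unfold EE
      push_cast
      rfl
    rw [e1]
    simp_rw [e2]
    rw [intervalIntegral.integral_ofReal, Complex.norm_real, Real.norm_eq_abs]
    exact hT.trans (le_abs_self _)

/-- a function exceeding `c T ^ (s + η)` has no asymptotics with the exponent `s` -/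
lemma no_asym {I : ℝ → ℂ} {s η c : ℝ} (hη : 0 < η) (hc : 0 < c)
    (h : ∀ T₀ : ℝ, ∃ T : ℝ, T₀ ≤ T ∧ 1 ≤ T ∧ c * T ^ (s + η) ≤ ‖I T‖) (C : ℂ) :
    ¬ ∃ δ : ℝ, 0 < δ ∧ ∀ ε : ℝ, 0 < ε → ∃ K : ℝ, ∀ T : ℝ, 1 ≤ T →
      ‖I T - C * ((T ^ s : ℝ) : ℂ)‖ ≤ K * T ^ (s - δ + ε) := by
  rintro ⟨δ, hδ, h2⟩
  obtain ⟨K, hK⟩ := h2 δ hδ
  have ht := (tendsto_rpow_atTop hη).eventually_gt_atTop ((K + ‖C‖) / c)
  rw [Filter.eventually_atTop] at ht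
  obtain ⟨T₀, hT₀⟩ := ht
  obtain ⟨T, hT0, hT1, hT⟩ := h T₀
  have h3 := hT₀ T hT0
  have h4 := hK T hT1
  have hTp : 0 < T := by linarith
  have hTs : 0 < T ^ s := by positivity
  rw [sub_add_cancel] at h4
  have h5 : ‖I T‖ ≤ (K + ‖C‖) * T ^ s := by
    have e : I T = (I T - C * ((T ^ s : ℝ) : ℂ)) + C * ((T ^ s : ℝ) : ℂ) := by ring
    rw [e]
    refine (norm_add_le _ _).trans ?_
    rw [norm_mul, Complex.norm_real, Real.norm_of_nonneg hTs.le]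
    linarith
  have h6 : c * T ^ η * T ^ s ≤ (K + ‖C‖) * T ^ s := by
    refine le_trans (le_of_eq ?_) (hT.trans h5)
    rw [Real.rpow_add hTp]
    ring
  have h7 : c * T ^ η ≤ K + ‖C‖ := le_of_mul_le_mul_right h6 hTs
  rw [div_lt_iff₀ hc] at h3
  linarith

end Pool.Agent.H81.HM
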