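import Pool.Agent.H81.HM.Bes2
import Pool.Graph.R_seed8.H993R3.BC.Theta

/-!
# Uniqueness of Laplace transforms and the formula for the Riesz means
-/

set_option autoImplicit false

open MeasureTheory Set Filter Topology

namespace Pool.Agent.H81.HM

open Pool.Agent.H394R3.BC (Ker Ker_eq Ker_cont_right Ker_laplace Ker_laplace_int int_pow_exp)
open Pool.Agent.H993R3.BC (intg)

/-- uniqueness of Laplace transforms -/
theorem lerch {g : ℝ → ℝ} (hg : Continuous g) {K : ℝ} {m : ℕ} (hb : ∀ v : ℝ, 0 ≤ v → |g v| ≤ K * (1 + v) ^ m)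
    (h0 : ∀ t : ℝ, 0 < t → ∫ v in Ioi (0:ℝ), Real.exp (-(v * t)) * g v = 0) {v : ℝ} (hv : 0 < v) : g v = 0 := by
  have hint : ∀ t : ℝ, 0 < t → IntegrableOn (fun v : ℝ => Real.exp (-(v * t)) * g v) (Ioi 0) := intg g hg K m hb
  -- polynomials
  have hpow : ∀ n : ℕ, IntegrableOn (fun v : ℝ => Real.exp (-v) ^ n * (Real.exp (-v) * g v)) (Ioi 0) ∧
      ∫ v in Ioi (0:ℝ), Real.exp (-v) ^ n * (Real.exp (-v) * g v) = 0 := by
    intro n
    have e : ∀ v : ℝ, Real.exp (-v) ^ n * (Real.exp (-v) * g v) = Real.exp (-(v * ((n:ℝ) + 1))) * g v := by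
      intro v
      rw [← Real.exp_nat_mul, ← mul_assoc, ← Real.exp_add]
      congr 2
      ring
    simp_rw [e]
    exact ⟨hint _ (by positivity), h0 _ (by positivity)⟩
  have hpoly : ∀ P : Polynomial ℝ, IntegrableOn (fun v : ℝ => P.eval (Real.exp (-v)) * (Real.exp (-v) * g v)) (Ioi 0) ∧
      ∫ v in Ioi (0:ℝ), P.eval (Real.exp (-v)) * (Real.exp (-v) * g v) = 0 := by
    intro P
    have e : (fun v : ℝ => P.eval (Real.exp (-v)) * (Real.exp (-v) * g v)) = fun v =>
        ∑ i ∈ Finset.range (P.natDegree + 1), P.coeff i * (Real.exp (-v) ^ i * (Real.exp (-v) * g v)) := by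
      funext v
      rw [Polynomial.eval_eq_sum_range, Finset.sum_mul]
      apply Finset.sum_congr rfl
      intro i _
      ring
    rw [e]
    constructor
    · exact integrable_finsetSum _ fun i _ => ((hpow i).1).const_mul _
    · rw [integral_finsetSum _ fun i _ => ((hpow i).1).const_mul _]
      apply Finset.sum_eq_zero
      intro i _
      rw [integral_const_mul, (hpow i).2, mul_zero]
  have h1int : IntegrableOn (fun v : ℝ => Real.exp (-v) * g v) (Ioi 0) := by
    have := hint 1 one_pos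
    simpa using this
  set I : ℝ := ∫ v in Ioi (0:ℝ), ‖Real.exp (-v) * g v‖ with hI
  have hI0 : 0 ≤ I := integral_nonneg fun _ => norm_nonneg _
  -- continuous functions
  have hcont : ∀ F : ℝ → ℝ, Continuous F →
      IntegrableOn (fun v : ℝ => F (Real.exp (-v)) * (Real.exp (-v) * g v)) (Ioi 0) ∧
      ∫ v in Ioi (0:ℝ), F (Real.exp (-v)) * (Real.exp (-v) * g v) = 0 := by
    intro F hF
    obtain ⟨M, hM⟩ := (isCompact_Icc (a := (0:ℝ)) (b := 1)).exists_bound_of_continuousOn hF.continuousOn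
    have hmem : ∀ v ∈ Ioi (0:ℝ), Real.exp (-v) ∈ Icc (0:ℝ) 1 := by
      intro v hv
      refine ⟨(Real.exp_pos _).le, ?_⟩
      rw [Real.exp_le_one_iff]
      have : (0:ℝ) < v := hv
      linarith
    have hFi : IntegrableOn (fun v : ℝ => F (Real.exp (-v)) * (Real.exp (-v) * g v)) (Ioi 0) := by
      refine Integrable.mono' (h1int.norm.const_mul M) ?_ ?_
      · apply Continuous.aestronglyMeasurable
        have : Continuous fun v : ℝ => F (Real.exp (-v)) := hF.comp (by fun_prop)
        fun_prop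
      · rw [ae_restrict_iff' measurableSet_Ioi]
        refine Eventually.of_forall fun v hv => ?_
        rw [norm_mul]
        exact mul_le_mul_of_nonneg_right (hM _ (hmem v hv)) (norm_nonneg _)
    refine ⟨hFi, ?_⟩
    by_contra hne
    set J : ℝ := ∫ v in Ioi (0:ℝ), F (Real.exp (-v)) * (Real.exp (-v) * g v) with hJ
    have hJ0 : 0 < |J| := abs_pos.2 hne
    set ε : ℝ := |J| / (2 * (I + 1)) with hε
    have hε0 : 0 < ε := by positivity
    obtain ⟨P, hP⟩ := exists_polynomial_near_of_continuousOn 0 1 F hF.continuousOn ε hε0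
    have h1 : |J| ≤ ε * I := by
      have e1 : J = ∫ v in Ioi (0:ℝ), (F (Real.exp (-v)) * (Real.exp (-v) * g v) -
          P.eval (Real.exp (-v)) * (Real.exp (-v) * g v)) := by
        rw [integral_sub hFi (hpoly P).1, (hpoly P).2, sub_zero]
      rw [e1, ← Real.norm_eq_abs, hI, ← integral_const_mul]
      apply norm_integral_le_of_norm_le (h1int.norm.const_mul ε)
      rw [ae_restrict_iff' measurableSet_Ioi]
      refine Eventually.of_forall fun v hv => ?_
      rw [← sub_mul, norm_mul]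
      apply mul_le_mul_of_nonneg_right _ (norm_nonneg _)
      rw [Real.norm_eq_abs, abs_sub_comm]
      exact (hP _ (hmem v hv)).le
    have h2 : ε * I < |J| := by
      rw [hε, div_mul_eq_mul_div, div_lt_iff₀ (by positivity)]
      nlinarith
    linarith
  -- conclusion
  have key : ∀ g : ℝ → ℝ, Continuous g → (∀ F : ℝ → ℝ, Continuous F →
      IntegrableOn (fun v : ℝ => F (Real.exp (-v)) * (Real.exp (-v) * g v)) (Ioi 0) ∧
      ∫ v in Ioi (0:ℝ), F (Real.exp (-v)) * (Real.exp (-v) * g v) = 0) → ¬ 0 < g v := by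
    intro g hg hc hpos
    -- a neighbourhood
    set x₀ : ℝ := Real.exp (-v) with hx₀
    have hx0 : 0 < x₀ := Real.exp_pos _
    have hcl : ContinuousAt (fun x : ℝ => g (-Real.log x)) x₀ :=
      hg.continuousAt.comp (Real.continuousAt_log hx0.ne').neg
    have hval : g (-Real.log x₀) = g v := by rw [hx₀, Real.log_exp, neg_neg]
    have hev : ∀ᶠ x in 𝓝 x₀, 0 < g (-Real.log x) := by
      apply hcl.eventually (lt_mem_nhds _)
      show 0 < g (-Real.log x₀)
      rw [hval]
      exact hpos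
    obtain ⟨r, hr0, hr⟩ := Metric.eventually_nhds_iff.1 hev
    set F : ℝ → ℝ := fun x => max 0 (r - |x - x₀|) with hF
    have hFc : Continuous F := by rw [hF]; fun_prop
    obtain ⟨hi, hz⟩ := hc F hFc
    have hnn : ∀ s : ℝ, 0 ≤ F (Real.exp (-s)) * (Real.exp (-s) * g s) := by
      intro s
      by_cases hd : |Real.exp (-s) - x₀| < r
      · have h1 := hr (y := Real.exp (-s)) (by rw [Real.dist_eq]; exact hd)
        rw [Real.log_exp, neg_neg] at h1
        have h2 : 0 ≤ F (Real.exp (-s)) := le_max_left _ _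
        positivity
      · have : F (Real.exp (-s)) = 0 := max_eq_left (by linarith [not_lt.1 hd])
        rw [this, zero_mul]
    -- positivity near v
    have hct : ContinuousAt (fun s : ℝ => Real.exp (-s)) v := by fun_prop
    have hev2 : ∀ᶠ s in 𝓝 v, |Real.exp (-s) - x₀| < r := by
      have := hct.eventually (Metric.ball_mem_nhds x₀ hr0)
      filter_upwards [this] with s hs
      have hs' : dist (Real.exp (-s)) x₀ < r := hs
      rwa [Real.dist_eq] at hs'
    obtain ⟨δ, hδ0, hδ⟩ := Metric.eventually_nhds_iff.1 hev2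
    set η : ℝ := min (δ / 2) (v / 2) with hη
    have hη0 : 0 < η := lt_min (by linarith) (by linarith)
    have hηδ : η < δ := (min_le_left _ _).trans_lt (by linarith)
    have hηv : η < v := (min_le_right _ _).trans_lt (by linarith)
    have hpos2 : 0 < ∫ s in (v - η)..(v + η), F (Real.exp (-s)) * (Real.exp (-s) * g s) := by
      apply intervalIntegral.intervalIntegral_pos_of_pos_on
      · apply Continuous.intervalIntegrable
        have : Continuous fun v : ℝ => F (Real.exp (-v)) := hFc.comp (by fun_prop)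
        fun_prop
      · intro s hs
        have hd : |Real.exp (-s) - x₀| < r := by
          apply hδ
          rw [Real.dist_eq, abs_lt]
          constructor <;> linarith [hs.1, hs.2]
        have h1 := hr (y := Real.exp (-s)) (by rw [Real.dist_eq]; exact hd)
        rw [Real.log_exp, neg_neg] at h1
        have h2 : 0 < F (Real.exp (-s)) := lt_max_of_lt_right (by linarith)
        positivity
      · linarith
    rw [intervalIntegral.integral_of_le (by linarith)] at hpos2
    have h3 : ∫ s in Ioc (v - η) (v + η), F (Real.exp (-s)) * (Real.exp (-s) * g s) ≤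
        ∫ s in Ioi (0:ℝ), F (Real.exp (-s)) * (Real.exp (-s) * g s) := by
      apply setIntegral_mono_set hi (Eventually.of_forall fun s => hnn s)
      apply LE.le.eventuallyLE
      intro s hs
      have := hs.1
      show 0 < s
      linarith
    rw [hz] at h3
    linarith
  have ha := key g hg hcont
  have hb := key (fun s => -g s) hg.neg (fun F hF => by
    obtain ⟨h1, h2⟩ := hcont F hF
    have e : (fun v : ℝ => F (Real.exp (-v)) * (Real.exp (-v) * -g v)) = fun v =>
        -(F (Real.exp (-v)) * (Real.exp (-v) * g v)) := by funext v; ring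
    rw [e]
    exact ⟨h1.neg, by rw [integral_neg, h2, neg_zero]⟩)
  have hb' : ¬ 0 < -g v := hb
  linarith [not_lt.1 ha, not_lt.1 hb']

/-- Laplace transform of the truncated power -/
lemma trunc_lap {u t : ℝ} (hu : 0 ≤ u) (ht : 0 < t) :
    IntegrableOn (fun v : ℝ => Real.exp (-(v * t)) * (max (v - u) 0 ^ 2 / 2)) (Ioi 0) ∧
    ∫ v in Ioi (0:ℝ), Real.exp (-(v * t)) * (max (v - u) 0 ^ 2 / 2) = (t ^ 3)⁻¹ * Real.exp (-(u * t)) := by
  have h2 := int_pow_exp 2 ht
  have hint : IntegrableOn (fun v : ℝ => Real.exp (-(v * t)) * (max (v - u) 0 ^ 2 / 2)) (Ioi 0) := by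
    apply intg (fun v => max (v - u) 0 ^ 2 / 2) (by fun_prop) 1 2 _ t ht
    intro v hv
    rw [one_mul, abs_of_nonneg (by positivity)]
    have h1 : 0 ≤ max (v - u) 0 := le_max_right _ _
    have h3 : max (v - u) 0 ≤ 1 + v := max_le (by linarith) (by linarith)
    have h4 : max (v - u) 0 ^ 2 ≤ (1 + v) ^ 2 := pow_le_pow_left₀ h1 h3 2
    linarith [sq_nonneg (max (v - u) 0)]
  refine ⟨hint, ?_⟩
  have hsub : Ioi u ⊆ Ioi (0:ℝ) := Ioi_subset_Ioi hu
  have e1 : ∫ v in Ioi (0:ℝ), Real.exp (-(v * t)) * (max (v - u) 0 ^ 2 / 2) =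
      ∫ v in Ioi u, Real.exp (-(v * t)) * (max (v - u) 0 ^ 2 / 2) := by
    apply setIntegral_eq_of_subset_of_forall_sdiff_eq_zero measurableSet_Ioi hsub
    intro v hv
    have : v ≤ u := not_lt.1 hv.2
    rw [max_eq_right (by linarith)]
    ring
  have e2 : ∫ v in Ioi u, Real.exp (-(v * t)) * (max (v - u) 0 ^ 2 / 2) =
      ∫ v in Ioi (0:ℝ), Real.exp (-((v + u) * t)) * (v ^ 2 / 2) := by
    rw [← integral_indicator measurableSet_Ioi, ← integral_indicator measurableSet_Ioi,
      ← integral_add_right_eq_self _ u]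
    congr 1
    funext v
    by_cases hv : 0 < v
    · rw [indicator_of_mem (show v + u ∈ Ioi u by rw [mem_Ioi]; linarith), indicator_of_mem (show v ∈ Ioi (0:ℝ) from hv),
        add_sub_cancel_right, max_eq_left hv.le]
    · rw [indicator_of_notMem (show v + u ∉ Ioi u by rw [mem_Ioi]; linarith [not_lt.1 hv]),
        indicator_of_notMem (show v ∉ Ioi (0:ℝ) from hv)]
  rw [e1, e2]
  have e3 : ∀ v : ℝ, Real.exp (-((v + u) * t)) * (v ^ 2 / 2) =
      (Real.exp (-(u * t)) / 2) * (Real.exp (-(v * t)) * v ^ 2) := by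
    intro v
    rw [show -((v + u) * t) = -(v * t) + -(u * t) by ring, Real.exp_add]
    ring
  simp_rw [e3]
  rw [integral_const_mul, h2.2]
  have : (Nat.factorial 2 : ℝ) = 2 := by norm_num
  rw [this]
  field_simp

lemma abs_tsum_le {f : ℕ → ℝ} (hf : Summable f) : |∑' n, f n| ≤ ∑' n, |f n| := by
  have h := norm_tsum_le_tsum_norm hf.norm
  exact h

section riesz

variable {Q : ℕ} {A u : ℕ → ℝ}

/-- the Riesz mean of order two -/
noncomputable def R2 (A u : ℕ → ℝ) (v : ℝ) : ℝ := ∑' n, A n * (max (v - u n) 0 ^ 2 / 2)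

/-- the dual series -/
noncomputable def D2 (Q : ℕ) (A u : ℕ → ℝ) (v : ℝ) : ℝ := ∑' n, A n * Ker (4 * Q + 6) (u n) v

lemma max_bd {u v : ℝ} (hu : 0 < u) (hv : 0 ≤ v) (s : ℝ) (hs : 0 ≤ s) :
    max (v - u) 0 ^ 2 / 2 ≤ u ^ (-s) * v ^ (s + 2) := by
  rcases le_or_gt v u with h | h
  · rw [max_eq_right (by linarith)]
    have : 0 ≤ u ^ (-s) * v ^ (s + 2) := by positivity
    simpa using this
  · have hv0 : 0 < v := by linarith
    rw [max_eq_left (by linarith)]
    have h1 : (v - u) ^ 2 / 2 ≤ v ^ 2 := by nlinarith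
    have h2 : 1 ≤ u ^ (-s) * v ^ s := by
      rw [Real.rpow_neg hu.le, inv_mul_eq_div, one_le_div (by positivity)]
      exact Real.rpow_le_rpow hu.le h.le hs
    have h3 : v ^ (s + 2) = v ^ s * v ^ 2 := by
      rw [Real.rpow_add hv0]
      congr 1
      norm_cast
    rw [h3, ← mul_assoc]
    nlinarith [sq_nonneg v]

/-- the formula for the Riesz mean -/
theorem riesz (hu0 : ∀ n, 0 ≤ u n) (hu : ∀ n, A n ≠ 0 → 0 < u n)
    (hS : Summable fun n => |A n| * u n ^ (-(2 * (Q:ℝ) + 13 / 4)))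
    (hT : ∀ t : ℝ, 0 < t → ∑' n, A n * Real.exp (-(u n / t)) = t ^ (4 * Q + 4) * ∑' n, A n * Real.exp (-(u n * t)))
    {v : ℝ} (hv : 0 < v) : R2 A u v = D2 Q A u v := by
  set s : ℝ := 2 * (Q:ℝ) + 13 / 4 with hs
  have hs0 : 0 ≤ s := by rw [hs]; positivity
  set S : ℕ → ℝ := fun n => |A n| * u n ^ (-s) with hSd
  have hS0 : ∀ n, 0 ≤ S n := fun n => by have := hu0 n; simp only [hSd]; positivity
  set C : ℝ := 3 * Real.sqrt (2 * ((4 * Q + 6 : ℕ) : ℝ) + 1) with hC
  have hC0 : 0 ≤ C := by positivity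
  have hpow : ∀ v : ℝ, 0 ≤ v → ∀ x : ℝ, 0 ≤ x → x ≤ 4 * (Q:ℝ) + 6 → v ^ x ≤ (1 + v) ^ (4 * Q + 6) := by
    intro v hv x hx hx2
    rw [← Real.rpow_natCast]
    calc v ^ x ≤ (1 + v) ^ x := Real.rpow_le_rpow hv (by linarith) hx
      _ ≤ _ := by
        apply Real.rpow_le_rpow_of_exponent_le (by linarith)
        push_cast
        linarith
  have hQ0 : (0:ℝ) ≤ Q := Nat.cast_nonneg Q
  have hR : ∀ n, ∀ v : ℝ, 0 ≤ v → |A n * (max (v - u n) 0 ^ 2 / 2)| ≤ S n * (1 + v) ^ (4 * Q + 6) := by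
    intro n v hv
    by_cases h0 : A n = 0
    · simp [hSd, h0]
    · rw [abs_mul, abs_of_nonneg (a := max (v - u n) 0 ^ 2 / 2) (by positivity)]
      simp only [hSd]
      rw [mul_assoc]
      apply mul_le_mul_of_nonneg_left _ (abs_nonneg _)
      refine (max_bd (hu n h0) hv s hs0).trans ?_
      apply mul_le_mul_of_nonneg_left _ (by have := hu0 n; positivity)
      exact hpow v hv _ (by positivity) (by rw [hs]; linarith)
  have hK : ∀ n, ∀ v : ℝ, 0 ≤ v → |A n * Ker (4 * Q + 6) (u n) v| ≤ C * S n * (1 + v) ^ (4 * Q + 6) := by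
    intro n v hv
    by_cases h0 : A n = 0
    · simp [hSd, h0]
    · rcases hv.eq_or_lt with hv0 | hv0
      · rw [← hv0, Ker_eq, zero_pow (by omega), zero_mul, mul_zero, abs_zero]
        have := hS0 n
        positivity
      · rw [abs_mul]
        have h1 := Ker_dec (4 * Q + 6) (hu n h0) hv0
        rw [show -(((4 * Q + 6 : ℕ) : ℝ) / 2 + 1 / 4) = -s by rw [hs]; push_cast; ring] at h1
        have h2 : v ^ (((4 * Q + 6 : ℕ) : ℝ) / 2 - 1 / 4) ≤ (1 + v) ^ (4 * Q + 6) :=
          hpow v hv _ (by push_cast; linarith) (by push_cast; linarith)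
        calc |A n| * |Ker (4 * Q + 6) (u n) v| ≤ |A n| * (C * (v ^ (((4 * Q + 6 : ℕ) : ℝ) / 2 - 1 / 4) * u n ^ (-s))) := by
              gcongr
          _ ≤ |A n| * (C * ((1 + v) ^ (4 * Q + 6) * u n ^ (-s))) := by
              have := hu0 n
              gcongr
          _ = _ := by simp only [hSd]; ring
  have hCS : Summable fun n => C * S n := hS.mul_left C
  -- summability at every point
  have hRs : ∀ v : ℝ, 0 ≤ v → Summable fun n => A n * (max (v - u n) 0 ^ 2 / 2) := fun v hv =>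
    Summable.of_norm_bounded (hS.mul_right _) fun n => by rw [Real.norm_eq_abs]; exact hR n v hv
  have hKs : ∀ v : ℝ, 0 ≤ v → Summable fun n => A n * Ker (4 * Q + 6) (u n) v := fun v hv =>
    Summable.of_norm_bounded (hCS.mul_right _) fun n => by rw [Real.norm_eq_abs]; exact hK n v hv
  -- continuity
  have hgen : ∀ (f : ℕ → ℝ → ℝ) (K : ℕ → ℝ), Summable K → (∀ n, 0 ≤ K n) → (∀ n, Continuous (f n)) →
      (∀ n, ∀ v : ℝ, 0 ≤ v → |f n v| ≤ K n * (1 + v) ^ (4 * Q + 6)) → Continuous fun v => ∑' n, f n (max v 0) := by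
    intro f K hKs hK0 hf hb
    rw [continuous_iff_continuousAt]
    intro v₀
    have hmax : Continuous fun v : ℝ => max v 0 := continuous_id.max continuous_const
    have hon : ContinuousOn (fun v : ℝ => ∑' n, f n (max v 0)) (Iio (|v₀| + 1)) := by
      refine continuousOn_tsum (u := fun n => K n * (2 + |v₀|) ^ (4 * Q + 6))
        (fun n => ((hf n).comp hmax).continuousOn) (hKs.mul_right _) ?_
      intro n v hv
      rw [Real.norm_eq_abs]
      refine (hb n _ (le_max_right _ _)).trans ?_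
      apply mul_le_mul_of_nonneg_left _ (hK0 n)
      apply pow_le_pow_left₀ (by have := le_max_right v 0; linarith)
      have : max v 0 ≤ |v₀| + 1 := max_le (le_of_lt hv) (by positivity)
      linarith
    refine hon.continuousAt (Iio_mem_nhds ?_)
    have := le_abs_self v₀
    linarith
  have hRc := hgen (fun n v => A n * (max (v - u n) 0 ^ 2 / 2)) S hS hS0 (fun n => by fun_prop) hR
  have hKc := hgen (fun n v => A n * Ker (4 * Q + 6) (u n) v) (fun n => C * S n) hCS
    (fun n => mul_nonneg hC0 (hS0 n)) (fun n => continuous_const.mul (Ker_cont_right _ _)) hK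
  -- growth
  have hRb : ∀ v : ℝ, 0 ≤ v → |R2 A u v| ≤ (∑' n, S n) * (1 + v) ^ (4 * Q + 6) := by
    intro v hv
    have h0 : |R2 A u v| ≤ ∑' n, |A n * (max (v - u n) 0 ^ 2 / 2)| := abs_tsum_le (hRs v hv)
    refine h0.trans ?_
    rw [← tsum_mul_right]
    exact Summable.tsum_le_tsum (fun n => hR n v hv) (hRs v hv).abs (hS.mul_right _)
  have hKb : ∀ v : ℝ, 0 ≤ v → |D2 Q A u v| ≤ (∑' n, C * S n) * (1 + v) ^ (4 * Q + 6) := by
    intro v hv
    have h0 : |D2 Q A u v| ≤ ∑' n, |A n * Ker (4 * Q + 6) (u n) v| := abs_tsum_le (hKs v hv)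
    refine h0.trans ?_
    rw [← tsum_mul_right]
    exact Summable.tsum_le_tsum (fun n => hK n v hv) (hKs v hv).abs (hCS.mul_right _)
  -- Laplace transforms
  have hlap : ∀ (f : ℕ → ℝ → ℝ) (K : ℕ → ℝ), Summable K → (∀ n, Continuous (f n)) →
      (∀ n, ∀ v : ℝ, 0 ≤ v → |f n v| ≤ K n * (1 + v) ^ (4 * Q + 6)) → ∀ t : ℝ, 0 < t →
      ∫ v in Ioi (0:ℝ), Real.exp (-(v * t)) * ∑' n, f n v = ∑' n, ∫ v in Ioi (0:ℝ), Real.exp (-(v * t)) * f n v := by
    intro f K hKs hf hb t ht
    have hint : ∀ n, IntegrableOn (fun v : ℝ => Real.exp (-(v * t)) * f n v) (Ioi 0) := fun n =>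
      intg (f n) (hf n) (K n) (4 * Q + 6) (hb n) t ht
    have hNint : IntegrableOn (fun v : ℝ => Real.exp (-(v * t)) * (1 + v) ^ (4 * Q + 6)) (Ioi 0) :=
      intg (fun v => (1 + v) ^ (4 * Q + 6)) (by fun_prop) 1 (4 * Q + 6) (fun v hv => by
        rw [one_mul, abs_of_nonneg (by positivity)]) t ht
    have hsum : Summable fun n => ∫ v in Ioi (0:ℝ), ‖Real.exp (-(v * t)) * f n v‖ := by
      refine Summable.of_nonneg_of_le (fun n => integral_nonneg fun _ => norm_nonneg _) (fun n => ?_)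
        (hKs.mul_right (∫ v in Ioi (0:ℝ), Real.exp (-(v * t)) * (1 + v) ^ (4 * Q + 6)))
      rw [← integral_const_mul]
      apply setIntegral_mono_on (hint n).norm (hNint.const_mul _) measurableSet_Ioi
      intro v hv
      have hv' : (0:ℝ) ≤ v := le_of_lt hv
      rw [norm_mul, Real.norm_eq_abs, Real.norm_eq_abs, abs_of_pos (Real.exp_pos _)]
      calc Real.exp (-(v * t)) * |f n v| ≤ Real.exp (-(v * t)) * (K n * (1 + v) ^ (4 * Q + 6)) :=
            mul_le_mul_of_nonneg_left (hb n v hv') (Real.exp_pos _).le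
        _ = _ := by ring
    have h1 := hasSum_integral_of_summable_integral_norm (μ := volume.restrict (Ioi (0:ℝ))) hint hsum
    rw [h1.tsum_eq]
    apply setIntegral_congr_fun measurableSet_Ioi
    intro v _
    simp only
    rw [tsum_mul_left]
  have hRl : ∀ t : ℝ, 0 < t → ∫ v in Ioi (0:ℝ), Real.exp (-(v * t)) * R2 A u v =
      (t ^ 3)⁻¹ * ∑' n, A n * Real.exp (-(u n * t)) := by
    intro t ht
    have h1 := hlap (fun n v => A n * (max (v - u n) 0 ^ 2 / 2)) S hS (fun n => by fun_prop) hR t ht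
    have h2 : ∀ v, R2 A u v = ∑' n, A n * (max (v - u n) 0 ^ 2 / 2) := fun v => rfl
    simp_rw [h2]
    rw [h1, ← tsum_mul_left]
    apply tsum_congr
    intro n
    have e : ∀ v : ℝ, Real.exp (-(v * t)) * (A n * (max (v - u n) 0 ^ 2 / 2)) =
        A n * (Real.exp (-(v * t)) * (max (v - u n) 0 ^ 2 / 2)) := fun v => by ring
    simp_rw [e]
    rw [integral_const_mul, (trunc_lap (hu0 n) ht).2]
    ring
  have hKl : ∀ t : ℝ, 0 < t → ∫ v in Ioi (0:ℝ), Real.exp (-(v * t)) * D2 Q A u v =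
      (t ^ (4 * Q + 7))⁻¹ * ∑' n, A n * Real.exp (-(u n / t)) := by
    intro t ht
    have h1 := hlap (fun n v => A n * Ker (4 * Q + 6) (u n) v) (fun n => C * S n) hCS
      (fun n => continuous_const.mul (Ker_cont_right _ _)) hK t ht
    have h2 : ∀ v, D2 Q A u v = ∑' n, A n * Ker (4 * Q + 6) (u n) v := fun v => rfl
    simp_rw [h2]
    rw [h1, ← tsum_mul_left]
    apply tsum_congr
    intro n
    have e : ∀ v : ℝ, Real.exp (-(v * t)) * (A n * Ker (4 * Q + 6) (u n) v) =
        A n * (Real.exp (-(v * t)) * Ker (4 * Q + 6) (u n) v) := fun v => by ring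
    simp_rw [e]
    rw [integral_const_mul, Ker_laplace _ (hu0 n) ht]
    ring
  -- conclusion
  have hfin := lerch (g := fun v => (∑' n, A n * (max (max v 0 - u n) 0 ^ 2 / 2)) - ∑' n, A n * Ker (4 * Q + 6) (u n) (max v 0))
    (hRc.sub hKc) (K := (∑' n, S n) + ∑' n, C * S n) (m := 4 * Q + 6) (by
      intro v hv
      rw [max_eq_left hv, add_mul]
      exact (abs_sub _ _).trans (add_le_add (hRb v hv) (hKb v hv))) (by
      intro t ht
      have h1 := hRl t ht
      have h2 := hKl t ht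
      have hi1 : IntegrableOn (fun v : ℝ => Real.exp (-(v * t)) * (∑' n, A n * (max (max v 0 - u n) 0 ^ 2 / 2))) (Ioi 0) :=
        intg _ hRc (∑' n, S n) (4 * Q + 6) (fun v hv => by rw [max_eq_left hv]; exact hRb v hv) t ht
      have hi2 : IntegrableOn (fun v : ℝ => Real.exp (-(v * t)) * (∑' n, A n * Ker (4 * Q + 6) (u n) (max v 0))) (Ioi 0) :=
        intg _ hKc (∑' n, C * S n) (4 * Q + 6) (fun v hv => by rw [max_eq_left hv]; exact hKb v hv) t ht
      simp only [mul_sub]
      rw [integral_sub hi1 hi2]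
      have e1 : ∫ v in Ioi (0:ℝ), Real.exp (-(v * t)) * (∑' n, A n * (max (max v 0 - u n) 0 ^ 2 / 2)) =
          ∫ v in Ioi (0:ℝ), Real.exp (-(v * t)) * R2 A u v := by
        apply setIntegral_congr_fun measurableSet_Ioi
        intro v hv
        have hv' : (0:ℝ) ≤ v := le_of_lt hv
        simp only [max_eq_left hv']
        rfl
      have e2 : ∫ v in Ioi (0:ℝ), Real.exp (-(v * t)) * (∑' n, A n * Ker (4 * Q + 6) (u n) (max v 0)) =
          ∫ v in Ioi (0:ℝ), Real.exp (-(v * t)) * D2 Q A u v := by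
        apply setIntegral_congr_fun measurableSet_Ioi
        intro v hv
        have hv' : (0:ℝ) ≤ v := le_of_lt hv
        simp only [max_eq_left hv']
        rfl
      rw [e1, e2, h1, h2, hT t ht]
      have ht0 : t ≠ 0 := ht.ne'
      rw [show 4 * Q + 7 = (4 * Q + 4) + 3 by ring, pow_add]
      field_simp
      ring) hv
  simp only [max_eq_left hv.le] at hfin
  have : R2 A u v - D2 Q A u v = 0 := hfin
  linarith

end riesz

end Pool.Agent.H81.HM
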