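import Pool.Agent.H81.HM.Lap

/-!
# The mean square: set up and elementary sums
-/

set_option autoImplicit false

open MeasureTheory Finset

namespace Pool.Agent.H81.HM

open Pool.Agent.H394R3.BC (Ker Ker_cont Ker_cont_left Ker_cont_right)

/-- sum of powers -/
lemma sum_pow_le {s : ℝ} (hs0 : 0 ≤ s) (hs1 : s < 1) (N : ℕ) :
    ∑ n ∈ Icc 1 N, (n:ℝ) ^ (-s) ≤ (N:ℝ) ^ (1 - s) / (1 - s) := by
  induction N with
  | zero =>
    simp only [Icc_eq_empty_of_lt one_pos, sum_empty]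
    have : 0 < 1 - s := by linarith
    positivity
  | succ N ih =>
    rw [sum_Icc_succ_top (by omega)]
    have hp : 0 < 1 - s := by linarith
    have hN : (0:ℝ) ≤ N := Nat.cast_nonneg N
    have h1 : (N:ℝ) ^ (1 - s) ≤ ((N + 1 : ℕ) : ℝ) ^ (1 - s) * (1 + (1 - s) * (-(1 / ((N:ℝ) + 1)))) := by
      have hb := rpow_one_add_le_one_add_mul_self (s := -(1 / ((N:ℝ) + 1))) (p := 1 - s)
        (by rw [neg_le_neg_iff, div_le_one (by positivity)]; linarith) (by linarith) (by linarith)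
      have e : (N:ℝ) = ((N + 1 : ℕ) : ℝ) * (1 + -(1 / ((N:ℝ) + 1))) := by
        push_cast
        field_simp
        ring
      calc (N:ℝ) ^ (1 - s) = (((N + 1 : ℕ) : ℝ) * (1 + -(1 / ((N:ℝ) + 1)))) ^ (1 - s) := by rw [← e]
        _ = ((N + 1 : ℕ) : ℝ) ^ (1 - s) * (1 + -(1 / ((N:ℝ) + 1))) ^ (1 - s) := by
            apply Real.mul_rpow (by positivity)
            rw [← sub_eq_add_neg, sub_nonneg, div_le_one (by positivity)]
            linarith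
        _ ≤ _ := mul_le_mul_of_nonneg_left hb (by positivity)
    have h2 : ((N + 1 : ℕ) : ℝ) ^ (-s) = ((N + 1 : ℕ) : ℝ) ^ (1 - s) * (1 / ((N:ℝ) + 1)) := by
      rw [show (-s) = (1 - s) - 1 by ring, Real.rpow_sub_one (by positivity)]
      push_cast
      ring
    rw [h2]
    calc _ ≤ (N:ℝ) ^ (1 - s) / (1 - s) + ((N + 1 : ℕ) : ℝ) ^ (1 - s) * (1 / ((N:ℝ) + 1)) := by gcongr
      _ ≤ ((N + 1 : ℕ) : ℝ) ^ (1 - s) * (1 + (1 - s) * (-(1 / ((N:ℝ) + 1)))) / (1 - s) +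
          ((N + 1 : ℕ) : ℝ) ^ (1 - s) * (1 / ((N:ℝ) + 1)) := by gcongr
      _ = _ := by field_simp; ring

/-- difference of powers -/
lemma pow_sub_le {a b : ℝ} (hb : 0 ≤ b) (hab : b ≤ a) (ha : 0 < a) (n : ℕ) :
    a ^ (n + 1) - b ^ (n + 1) ≤ (n + 1) * (a - b) * a ^ n := by
  have h1 := one_add_mul_le_pow (a := -((a - b) / a)) (by
    have : (a - b) / a ≤ 1 := by rw [div_le_one ha]; linarith
    linarith) (n + 1)
  have e : 1 + -((a - b) / a) = b / a := by field_simp; ring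
  rw [e, div_pow, le_div_iff₀ (by positivity)] at h1
  push_cast at h1
  have e2 : (1 + ((n:ℝ) + 1) * -((a - b) / a)) * a ^ (n + 1) = a ^ (n + 1) - (n + 1) * (a - b) * a ^ n := by
    rw [pow_succ]
    field_simp
    ring
  rw [e2] at h1
  linarith

/-- the data of the mean square theorem -/
structure Ds (Q : ℕ) (X : ℝ) (a V : ℕ → ℝ) : Prop where
  hQ : 4 ≤ Q
  hX : 1 ≤ X
  a0 : a 0 = 0
  a1 : a 1 ≠ 0
  hV : ∀ n, V n = ((n:ℝ) / X) ^ (1 / (4 * (Q:ℝ)))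
  ha : ∀ n : ℕ, 1 ≤ n → |a n| ≤ (n:ℝ) ^ (-(1 / 2 - 3 / (32 * (Q:ℝ))))
  th : ∀ t : ℝ, 0 < t → ∑' n, (a n * V n ^ 2) * Real.exp (-(V n / t)) =
    t ^ (4 * Q + 4) * ∑' n, (a n * V n ^ 2) * Real.exp (-(V n * t))

/-- number of integers -/
noncomputable def NN (Q : ℕ) (X v : ℝ) : ℕ := ⌊X * v ^ (4 * Q)⌋₊

variable {Q : ℕ} {X : ℝ} {a V : ℕ → ℝ}

namespace Ds

lemma Q0 (D : Ds Q X a V) : (4:ℝ) ≤ Q := by exact_mod_cast D.hQ

lemma Vnn (D : Ds Q X a V) (n : ℕ) : 0 ≤ V n := by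
  rw [D.hV]
  have := D.hX
  positivity

lemma Vpos (D : Ds Q X a V) {n : ℕ} (hn : 1 ≤ n) : 0 < V n := by
  rw [D.hV]
  have h1 := D.hX
  have h2 : (0:ℝ) < n := by exact_mod_cast hn
  positivity

lemma Vpow (D : Ds Q X a V) (n : ℕ) (s : ℝ) : V n ^ s = ((n:ℝ) / X) ^ (s / (4 * (Q:ℝ))) := by
  have h1 := D.hX
  rw [D.hV, ← Real.rpow_mul (by positivity)]
  congr 1
  ring

lemma Vnat (D : Ds Q X a V) (n : ℕ) : V n ^ (4 * Q) = (n:ℝ) / X := by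
  have h1 := D.hX
  have h2 := D.Q0
  rw [← Real.rpow_natCast, D.Vpow]
  push_cast
  rw [div_self (by positivity), Real.rpow_one]

lemma V_le (D : Ds Q X a V) {v : ℝ} (hv : 0 ≤ v) (n : ℕ) : V n ≤ v ↔ (n:ℝ) ≤ X * v ^ (4 * Q) := by
  have h1 := D.hX
  have h2 := D.hQ
  rw [← pow_le_pow_iff_left₀ (D.Vnn n) hv (n := 4 * Q) (by omega), D.Vnat, div_le_iff₀ (by linarith), mul_comm]

lemma mem (D : Ds Q X a V) {v : ℝ} (hv : 0 ≤ v) (n : ℕ) : n ∈ Icc 1 (NN Q X v) ↔ 1 ≤ n ∧ V n ≤ v := by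
  have h1 := D.hX
  rw [mem_Icc, NN, Nat.le_floor_iff (by positivity), D.V_le hv]

lemma Vmono (D : Ds Q X a V) {m n : ℕ} (h : m ≤ n) : V m ≤ V n := by
  rw [D.hV, D.hV]
  have := D.hX
  have h' : (m:ℝ) ≤ n := by exact_mod_cast h
  gcongr

lemma NN_mono (D : Ds Q X a V) {v w : ℝ} (hv : 0 ≤ v) (h : v ≤ w) : NN Q X v ≤ NN Q X w := by
  unfold NN
  have := D.hX
  apply Nat.floor_mono
  gcongr

lemma A_le (D : Ds Q X a V) (n : ℕ) : |a n * V n ^ 2| ≤ V n ^ (-(2 * (Q:ℝ) - 19 / 8)) := by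
  have hX := D.hX
  have hQ := D.Q0
  rcases Nat.eq_zero_or_pos n with h | h
  · rw [h, D.a0, zero_mul, abs_zero]
    have := D.Vnn 0
    positivity
  · have hV := D.Vpos h
    have hn : (0:ℝ) < n := by exact_mod_cast h
    have h1 : (n:ℝ) ^ (-(1 / 2 - 3 / (32 * (Q:ℝ)))) ≤ V n ^ (-(2 * (Q:ℝ) - 3 / 8)) := by
      rw [D.Vpow]
      have e : -(2 * (Q:ℝ) - 3 / 8) / (4 * (Q:ℝ)) = -(1 / 2 - 3 / (32 * (Q:ℝ))) := by
        field_simp
        ring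
      rw [e]
      apply Real.rpow_le_rpow_of_nonpos (by positivity)
      · rw [div_le_iff₀ (by linarith)]
        nlinarith
      · rw [neg_nonpos, sub_nonneg, div_le_div_iff₀ (by positivity) (by norm_num)]
        linarith
    rw [abs_mul, abs_of_nonneg (a := V n ^ 2) (by positivity)]
    calc |a n| * V n ^ 2 ≤ V n ^ (-(2 * (Q:ℝ) - 3 / 8)) * V n ^ 2 := by
          gcongr
          exact (D.ha n h).trans h1
      _ = _ := by
          rw [← Real.rpow_natCast (V n) 2, ← Real.rpow_add hV]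
          congr 1
          push_cast
          ring

lemma sum_A (D : Ds Q X a V) {v : ℝ} (hv : 0 ≤ v) :
    ∑ n ∈ Icc 1 (NN Q X v), |a n * V n ^ 2| ≤ 2 * X * v ^ (2 * (Q:ℝ) + 19 / 8) := by
  have hX := D.hX
  have hQ := D.Q0
  set s : ℝ := 1 / 2 - 19 / (32 * (Q:ℝ)) with hs
  have hq1 : 19 / (32 * (Q:ℝ)) ≤ 1 / 4 := by
    rw [div_le_iff₀ (by positivity)]
    linarith
  have hq2 : 0 < 19 / (32 * (Q:ℝ)) := by positivity
  have hs0 : 0 ≤ s := by rw [hs]; linarith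
  have hs1 : s ≤ 1 / 2 := by rw [hs]; linarith
  have e1 : -(2 * (Q:ℝ) - 19 / 8) / (4 * (Q:ℝ)) = -s := by
    rw [hs]
    field_simp
    ring
  have hN : ((NN Q X v : ℕ) : ℝ) ≤ X * v ^ (4 * Q) := Nat.floor_le (by positivity)
  have h1 : ∑ n ∈ Icc 1 (NN Q X v), |a n * V n ^ 2| ≤ X ^ s * ∑ n ∈ Icc 1 (NN Q X v), (n:ℝ) ^ (-s) := by
    rw [mul_sum]
    apply sum_le_sum
    intro n hn
    refine (D.A_le n).trans (le_of_eq ?_)
    rw [D.Vpow, e1, Real.div_rpow (by positivity) (by positivity), Real.rpow_neg (by positivity : (0:ℝ) ≤ X), div_inv_eq_mul]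
    ring
  have h2 := sum_pow_le hs0 (by linarith : s < 1) (NN Q X v)
  have h3 : ((NN Q X v : ℕ) : ℝ) ^ (1 - s) ≤ X ^ (1 - s) * v ^ (2 * (Q:ℝ) + 19 / 8) := by
    calc ((NN Q X v : ℕ) : ℝ) ^ (1 - s) ≤ (X * v ^ (4 * Q)) ^ (1 - s) :=
          Real.rpow_le_rpow (Nat.cast_nonneg _) hN (by linarith)
      _ = X ^ (1 - s) * v ^ (2 * (Q:ℝ) + 19 / 8) := by
          rw [Real.mul_rpow (by positivity) (by positivity), ← Real.rpow_natCast, ← Real.rpow_mul hv]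
          congr 2
          push_cast
          rw [hs]
          field_simp
          ring
  have h4 : X ^ s * X ^ (1 - s) = X := by
    rw [← Real.rpow_add (by linarith)]
    simp
  calc _ ≤ X ^ s * ∑ n ∈ Icc 1 (NN Q X v), (n:ℝ) ^ (-s) := h1
    _ ≤ X ^ s * (((NN Q X v : ℕ) : ℝ) ^ (1 - s) / (1 - s)) := by gcongr
    _ ≤ X ^ s * (X ^ (1 - s) * v ^ (2 * (Q:ℝ) + 19 / 8) / (1 / 2)) := by
        gcongr
        linarith
    _ = 2 * (X ^ s * X ^ (1 - s)) * v ^ (2 * (Q:ℝ) + 19 / 8) := by ring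
    _ = _ := by rw [h4]

lemma sum_short (D : Ds Q X a V) {v : ℝ} (hv : 1 ≤ v) :
    ∑ n ∈ Ioc (NN Q X v) (NN Q X (v + 2)), |a n * V n ^ 2| ≤
      (8 * Q * 3 ^ (4 * Q) * X + 1) * v ^ (2 * (Q:ℝ) + 11 / 8) := by
  have hX := D.hX
  have hQ := D.Q0
  have hv0 : 0 < v := by linarith
  have hterm : ∀ n ∈ Ioc (NN Q X v) (NN Q X (v + 2)), |a n * V n ^ 2| ≤ v ^ (-(2 * (Q:ℝ) - 19 / 8)) := by
    intro n hn
    rw [mem_Ioc] at hn
    have hn1 : 1 ≤ n := by omega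
    have h1 : v < V n := by
      by_contra hc
      have := (D.mem hv0.le n).2 ⟨hn1, not_lt.1 hc⟩
      rw [mem_Icc] at this
      omega
    refine (D.A_le n).trans ?_
    apply Real.rpow_le_rpow_of_nonpos hv0 h1.le
    linarith
  have hcard : ((Ioc (NN Q X v) (NN Q X (v + 2))).card : ℝ) ≤ X * ((v + 2) ^ (4 * Q) - v ^ (4 * Q)) + 1 := by
    have h1 : NN Q X v ≤ NN Q X (v + 2) := D.NN_mono hv0.le (by linarith)
    rw [Nat.card_Ioc, Nat.cast_sub h1]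
    have h2 : ((NN Q X (v + 2) : ℕ) : ℝ) ≤ X * (v + 2) ^ (4 * Q) := Nat.floor_le (by positivity)
    have h3 : X * v ^ (4 * Q) < ((NN Q X v : ℕ) : ℝ) + 1 := Nat.lt_floor_add_one _
    linarith
  have hpow : (v + 2) ^ (4 * Q) - v ^ (4 * Q) ≤ 8 * Q * 3 ^ (4 * Q) * v ^ (4 * (Q:ℝ) - 1) := by
    obtain ⟨r, hr⟩ : ∃ r, 4 * Q = r + 1 := ⟨4 * Q - 1, by have := D.hQ; omega⟩
    have hrR : (4 * (Q:ℝ)) = r + 1 := by exact_mod_cast hr
    rw [hr]
    refine (pow_sub_le hv0.le (by linarith) (by linarith) r).trans ?_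
    have h1 : (v + 2) ^ r ≤ (3 * v) ^ r := by gcongr; linarith
    have h2 : (3:ℝ) ^ r ≤ 3 ^ (r + 1) := pow_le_pow_right₀ (by norm_num) (by omega)
    have h3 : v ^ (4 * (Q:ℝ) - 1) = v ^ r := by
      rw [← Real.rpow_natCast]
      congr 1
      linarith
    rw [h3]
    have h4 : 8 * (Q:ℝ) = 2 * (r + 1) := by linarith
    rw [h4]
    calc ((r:ℝ) + 1) * (v + 2 - v) * (v + 2) ^ r ≤ ((r:ℝ) + 1) * 2 * (3 * v) ^ r := by
          have : v + 2 - v = 2 := by ring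
          rw [this]
          gcongr
      _ = 2 * ((r:ℝ) + 1) * 3 ^ r * v ^ r := by rw [mul_pow]; ring
      _ ≤ _ := by gcongr
  calc _ ≤ ∑ n ∈ Ioc (NN Q X v) (NN Q X (v + 2)), v ^ (-(2 * (Q:ℝ) - 19 / 8)) := sum_le_sum hterm
    _ = ((Ioc (NN Q X v) (NN Q X (v + 2))).card : ℝ) * v ^ (-(2 * (Q:ℝ) - 19 / 8)) := by
        rw [sum_const, nsmul_eq_mul]
    _ ≤ (X * (8 * Q * 3 ^ (4 * Q) * v ^ (4 * (Q:ℝ) - 1)) + v ^ (4 * (Q:ℝ) - 1)) * v ^ (-(2 * (Q:ℝ) - 19 / 8)) := by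
        gcongr
        refine hcard.trans ?_
        have : 1 ≤ v ^ (4 * (Q:ℝ) - 1) := Real.one_le_rpow hv (by linarith)
        gcongr
    _ = (8 * Q * 3 ^ (4 * Q) * X + 1) * (v ^ (4 * (Q:ℝ) - 1) * v ^ (-(2 * (Q:ℝ) - 19 / 8))) := by ring
    _ = _ := by
        rw [← Real.rpow_add hv0]
        congr 2
        ring

lemma summ (D : Ds Q X a V) : Summable fun n => |a n * V n ^ 2| * V n ^ (-(2 * (Q:ℝ) + 13 / 4)) := by
  have hX := D.hX
  have hQ := D.Q0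
  have h1 : Summable fun n : ℕ => X ^ (1 + 7 / (32 * (Q:ℝ))) * (n:ℝ) ^ (-(1 + 7 / (32 * (Q:ℝ)))) := by
    apply Summable.mul_left
    rw [Real.summable_nat_rpow]
    have : 0 < 7 / (32 * (Q:ℝ)) := by positivity
    linarith
  refine Summable.of_nonneg_of_le (fun n => by have := D.Vnn n; positivity) (fun n => ?_) h1
  rcases Nat.eq_zero_or_pos n with h | h
  · rw [h, D.a0, zero_mul, abs_zero, zero_mul]
    positivity
  · have hV := D.Vpos h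
    calc |a n * V n ^ 2| * V n ^ (-(2 * (Q:ℝ) + 13 / 4)) ≤
        V n ^ (-(2 * (Q:ℝ) - 19 / 8)) * V n ^ (-(2 * (Q:ℝ) + 13 / 4)) := by
          gcongr
          exact D.A_le n
      _ = _ := by
          rw [← Real.rpow_add hV, D.Vpow, Real.div_rpow (by positivity) (by positivity), Real.rpow_neg (by positivity : (0:ℝ) ≤ (n:ℝ)) (1 + 7 / (32 * (Q:ℝ)))]
          have e : (-(2 * (Q:ℝ) - 19 / 8) + -(2 * (Q:ℝ) + 13 / 4)) / (4 * (Q:ℝ)) = -(1 + 7 / (32 * (Q:ℝ))) := by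
            field_simp
            ring
          rw [e, Real.rpow_neg (by positivity), Real.rpow_neg (by positivity), div_inv_eq_mul, mul_comm]

lemma riesz (D : Ds Q X a V) {v : ℝ} (hv : 0 < v) : R2 (fun n => a n * V n ^ 2) V v = D2 Q (fun n => a n * V n ^ 2) V v := by
  apply HM.riesz D.Vnn _ D.summ D.th hv
  intro n hn
  apply D.Vpos
  rcases Nat.eq_zero_or_pos n with h | h
  · rw [h, D.a0] at hn
    simp at hn
  · exact h

/-- bound for the Riesz mean -/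
lemma R2_le (D : Ds Q X a V) : ∃ C : ℝ, 0 ≤ C ∧ ∀ v : ℝ, 0 < v →
    |R2 (fun n => a n * V n ^ 2) V v| ≤ C * v ^ (2 * (Q:ℝ) + 11 / 4) := by
  set S := ∑' n, |a n * V n ^ 2| * V n ^ (-(2 * (Q:ℝ) + 13 / 4)) with hS
  set K : ℝ := 3 * Real.sqrt (2 * ((4 * Q + 6 : ℕ) : ℝ) + 1) with hK
  have hK0 : 0 ≤ K := by positivity
  have hS0 : 0 ≤ S := tsum_nonneg fun n => by have := D.Vnn n; positivity
  refine ⟨K * S, by positivity, fun v hv => ?_⟩
  rw [D.riesz hv]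
  unfold D2
  have hb : ∀ n, |(a n * V n ^ 2) * Ker (4 * Q + 6) (V n) v| ≤
      K * v ^ (2 * (Q:ℝ) + 11 / 4) * (|a n * V n ^ 2| * V n ^ (-(2 * (Q:ℝ) + 13 / 4))) := by
    intro n
    rcases Nat.eq_zero_or_pos n with h | h
    · rw [h, D.a0]
      simp
    · rw [abs_mul]
      have h1 := Ker_dec (4 * Q + 6) (D.Vpos h) hv
      rw [show ((4 * Q + 6 : ℕ) : ℝ) / 2 - 1 / 4 = 2 * (Q:ℝ) + 11 / 4 by push_cast; ring,
        show -(((4 * Q + 6 : ℕ) : ℝ) / 2 + 1 / 4) = -(2 * (Q:ℝ) + 13 / 4) by push_cast; ring] at h1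
      calc _ ≤ |a n * V n ^ 2| * (K * (v ^ (2 * (Q:ℝ) + 11 / 4) * V n ^ (-(2 * (Q:ℝ) + 13 / 4)))) := by gcongr
        _ = _ := by ring
  have hsum : Summable fun n => K * v ^ (2 * (Q:ℝ) + 11 / 4) * (|a n * V n ^ 2| * V n ^ (-(2 * (Q:ℝ) + 13 / 4))) :=
    D.summ.mul_left _
  have hsa : Summable fun n => |(a n * V n ^ 2) * Ker (4 * Q + 6) (V n) v| :=
    Summable.of_nonneg_of_le (fun n => abs_nonneg _) hb hsum
  calc _ ≤ ∑' n, |(a n * V n ^ 2) * Ker (4 * Q + 6) (V n) v| := abs_tsum_le hsa.of_abs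
    _ ≤ ∑' n, K * v ^ (2 * (Q:ℝ) + 11 / 4) * (|a n * V n ^ 2| * V n ^ (-(2 * (Q:ℝ) + 13 / 4))) :=
        hsa.tsum_le_tsum hb hsum
    _ = _ := by rw [tsum_mul_left]; ring

end Ds

end Pool.Agent.H81.HM
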