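import Pool.Agent.H81.HM.MS1

/-!
# The mean square: from the Riesz mean to the summatory function
-/

set_option autoImplicit false

open MeasureTheory Finset

namespace Pool.Agent.H81.HM

/-- the Riesz mean of order one -/
noncomputable def R1 (A u : ℕ → ℝ) (v : ℝ) : ℝ := ∑' n, A n * max (v - u n) 0

lemma tay (V : ℝ) {v h : ℝ} (hh : 0 ≤ h) :
    0 ≤ max (v + h - V) 0 ^ 2 / 2 - max (v - V) 0 ^ 2 / 2 - h * max (v - V) 0 ∧
    max (v + h - V) 0 ^ 2 / 2 - max (v - V) 0 ^ 2 / 2 - h * max (v - V) 0 ≤ h ^ 2 / 2 := by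
  rcases le_total V v with h1 | h1
  · rw [max_eq_left (by linarith), max_eq_left (by linarith)]
    constructor <;> nlinarith
  · rw [max_eq_right (by linarith : v - V ≤ 0)]
    rcases le_total V (v + h) with h2 | h2
    · rw [max_eq_left (by linarith)]
      constructor <;> nlinarith
    · rw [max_eq_right (by linarith)]
      constructor <;> nlinarith

lemma int_one {V v w : ℝ} (hw : 0 < w) (hV : w ≤ V) (hv : V ≤ v) :
    V⁻¹ ^ 2 - v⁻¹ ^ 2 = 2 * v⁻¹ ^ 3 * (v - V) + 6 * ∫ s in w..v, s⁻¹ ^ 4 * max (s - V) 0 := by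
  have hV0 : 0 < V := by linarith
  have hv0 : 0 < v := by linarith
  have hcont : ∀ p q : ℝ, 0 < p → p ≤ q → IntervalIntegrable (fun s : ℝ => s⁻¹ ^ 4 * max (s - V) 0) volume p q := by
    intro p q hp hq
    apply ContinuousOn.intervalIntegrable
    rw [Set.uIcc_of_le hq]
    apply ContinuousOn.mul
    · apply ContinuousOn.pow
      apply ContinuousOn.inv₀ continuousOn_id
      intro x hx
      exact (by linarith [hx.1] : (0:ℝ) < x).ne'
    · fun_prop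
  have h1 : ∫ s in w..V, s⁻¹ ^ 4 * max (s - V) 0 = 0 := by
    rw [intervalIntegral.integral_congr (g := fun _ => (0:ℝ))]
    · simp
    · intro s hs
      rw [Set.uIcc_of_le hV] at hs
      show s⁻¹ ^ 4 * max (s - V) 0 = 0
      rw [max_eq_right (by linarith [hs.2]), mul_zero]
  have h2 : ∫ s in V..v, s⁻¹ ^ 4 * max (s - V) 0 =
      (-(v⁻¹ ^ 2 / 2) + V * v⁻¹ ^ 3 / 3) - (-(V⁻¹ ^ 2 / 2) + V * V⁻¹ ^ 3 / 3) := by
    have hd : ∀ s ∈ Set.uIcc V v, HasDerivAt (fun s : ℝ => -(s⁻¹ ^ 2 / 2) + V * s⁻¹ ^ 3 / 3) (s⁻¹ ^ 4 * max (s - V) 0) s := by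
      intro s hs
      rw [Set.uIcc_of_le hv] at hs
      have hs0 : 0 < s := by linarith [hs.1]
      rw [max_eq_left (by linarith [hs.1])]
      have hi : HasDerivAt (fun s : ℝ => s⁻¹) (-(s ^ 2)⁻¹) s := hasDerivAt_inv hs0.ne'
      have h3 := ((hi.pow 2).div_const 2).neg.add (((hi.pow 3).const_mul V).div_const 3)
      refine h3.congr_deriv ?_
      simp only [Nat.reduceSub, pow_one]
      push_cast
      field_simp
      ring
    exact intervalIntegral.integral_eq_sub_of_hasDerivAt hd (hcont V v hV0 hv)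
  rw [← intervalIntegral.integral_add_adjacent_intervals (hcont w V hw hV) (hcont V v hV0 hv), h1, h2]
  field_simp
  ring

variable {Q : ℕ} {X : ℝ} {a V : ℕ → ℝ}

namespace Ds

lemma outside (D : Ds Q X a V) {v : ℝ} (hv : 0 ≤ v) {M : ℕ} (hM : NN Q X v ≤ M) {n : ℕ} (hn : n ∉ Icc 1 M) :
    a n = 0 ∨ v < V n := by
  rcases Nat.eq_zero_or_pos n with h | h
  · left; rw [h, D.a0]
  · right
    by_contra hc
    have := (D.mem hv n).2 ⟨h, not_lt.1 hc⟩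
    rw [mem_Icc] at this hn
    omega

lemma R2_fin (D : Ds Q X a V) {v : ℝ} (hv : 0 ≤ v) {M : ℕ} (hM : NN Q X v ≤ M) :
    R2 (fun n => a n * V n ^ 2) V v = ∑ n ∈ Icc 1 M, a n * V n ^ 2 * (max (v - V n) 0 ^ 2 / 2) := by
  unfold R2
  apply tsum_eq_sum
  intro n hn
  show a n * V n ^ 2 * (max (v - V n) 0 ^ 2 / 2) = 0
  rcases D.outside hv hM hn with h | h
  · rw [h]; ring
  · rw [max_eq_right (by linarith)]; ring

lemma R1_fin (D : Ds Q X a V) {v : ℝ} (hv : 0 ≤ v) {M : ℕ} (hM : NN Q X v ≤ M) :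
    R1 (fun n => a n * V n ^ 2) V v = ∑ n ∈ Icc 1 M, a n * V n ^ 2 * max (v - V n) 0 := by
  unfold R1
  apply tsum_eq_sum
  intro n hn
  show a n * V n ^ 2 * max (v - V n) 0 = 0
  rcases D.outside hv hM hn with h | h
  · rw [h]; ring
  · rw [max_eq_right (by linarith)]; ring

lemma R1_tay (D : Ds Q X a V) {v h : ℝ} (hv : 0 ≤ v) (hh : 0 ≤ h) :
    |R2 (fun n => a n * V n ^ 2) V (v + h) - R2 (fun n => a n * V n ^ 2) V v - h * R1 (fun n => a n * V n ^ 2) V v| ≤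
      h ^ 2 / 2 * ∑ n ∈ Icc 1 (NN Q X (v + h)), |a n * V n ^ 2| := by
  rw [D.R2_fin (by linarith : 0 ≤ v + h) le_rfl, D.R2_fin hv (D.NN_mono hv (by linarith : v ≤ v + h)),
    D.R1_fin hv (D.NN_mono hv (by linarith : v ≤ v + h)), mul_sum, ← sum_sub_distrib, ← sum_sub_distrib, mul_sum]
  refine (abs_sum_le_sum_abs _ _).trans (sum_le_sum fun n _ => ?_)
  have := tay (V n) (v := v) hh
  rw [show a n * V n ^ 2 * (max (v + h - V n) 0 ^ 2 / 2) - a n * V n ^ 2 * (max (v - V n) 0 ^ 2 / 2) -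
    h * (a n * V n ^ 2 * max (v - V n) 0) = (a n * V n ^ 2) *
      (max (v + h - V n) 0 ^ 2 / 2 - max (v - V n) 0 ^ 2 / 2 - h * max (v - V n) 0) by ring, abs_mul,
    abs_of_nonneg this.1, mul_comm]
  exact mul_le_mul_of_nonneg_right this.2 (abs_nonneg _)

lemma R1_le (D : Ds Q X a V) : ∃ C : ℝ, 0 ≤ C ∧ ∀ v : ℝ, 1 ≤ v →
    |R1 (fun n => a n * V n ^ 2) V v| ≤ C * v ^ (2 * (Q:ℝ) + 41 / 16) := by
  obtain ⟨C, hC0, hC⟩ := D.R2_le
  have hX := D.hX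
  have hQ := D.Q0
  refine ⟨C * 2 ^ (2 * (Q:ℝ) + 11 / 4) + C + X * 2 ^ (2 * (Q:ℝ) + 19 / 8), by positivity, fun v hv => ?_⟩
  have hv0 : 0 < v := by linarith
  set h : ℝ := v ^ (3 / 16 : ℝ) with hh
  have hh0 : 0 < h := by positivity
  have hhv : h ≤ v := by
    calc h ≤ v ^ (1:ℝ) := Real.rpow_le_rpow_of_exponent_le hv (by norm_num)
      _ = v := Real.rpow_one v
  have h1 := D.R1_tay hv0.le hh0.le
  have h2 := hC (v + h) (by linarith)
  have h3 := hC v hv0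
  have h4 := D.sum_A (by linarith : 0 ≤ v + h)
  have h5 : (v + h) ^ (2 * (Q:ℝ) + 11 / 4) ≤ 2 ^ (2 * (Q:ℝ) + 11 / 4) * v ^ (2 * (Q:ℝ) + 11 / 4) := by
    rw [← Real.mul_rpow (by norm_num) hv0.le]
    apply Real.rpow_le_rpow (by linarith) (by linarith) (by linarith)
  have h6 : (v + h) ^ (2 * (Q:ℝ) + 19 / 8) ≤ 2 ^ (2 * (Q:ℝ) + 19 / 8) * v ^ (2 * (Q:ℝ) + 19 / 8) := by
    rw [← Real.mul_rpow (by norm_num) hv0.le]
    apply Real.rpow_le_rpow (by linarith) (by linarith) (by linarith)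
  set r2 := R2 (fun n => a n * V n ^ 2) V (v + h)
  set r2' := R2 (fun n => a n * V n ^ 2) V v
  set r1 := R1 (fun n => a n * V n ^ 2) V v
  have h7 : h * |r1| ≤ |r2| + |r2'| + h ^ 2 / 2 * (2 * X * (v + h) ^ (2 * (Q:ℝ) + 19 / 8)) := by
    have e : h * |r1| = |h * r1| := by rw [abs_mul, abs_of_pos hh0]
    rw [e]
    have e2 : h * r1 = r2 - r2' - (r2 - r2' - h * r1) := by ring
    rw [e2]
    calc _ ≤ |r2 - r2'| + |r2 - r2' - h * r1| := abs_sub _ _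
      _ ≤ (|r2| + |r2'|) + h ^ 2 / 2 * (2 * X * (v + h) ^ (2 * (Q:ℝ) + 19 / 8)) := by
          apply add_le_add (abs_sub _ _)
          refine h1.trans ?_
          gcongr
  have e1 : v ^ (2 * (Q:ℝ) + 11 / 4) = h * v ^ (2 * (Q:ℝ) + 41 / 16) := by
    rw [hh, ← Real.rpow_add hv0]
    congr 1
    ring
  have e2 : h ^ 2 * v ^ (2 * (Q:ℝ) + 19 / 8) = h * v ^ (2 * (Q:ℝ) + 41 / 16) := by
    rw [pow_two, mul_assoc, hh, ← Real.rpow_add hv0]
    congr 2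
    ring
  have h8 : h * |r1| ≤ h * ((C * 2 ^ (2 * (Q:ℝ) + 11 / 4) + C + X * 2 ^ (2 * (Q:ℝ) + 19 / 8)) * v ^ (2 * (Q:ℝ) + 41 / 16)) := by
    calc h * |r1| ≤ C * (2 ^ (2 * (Q:ℝ) + 11 / 4) * v ^ (2 * (Q:ℝ) + 11 / 4)) + C * v ^ (2 * (Q:ℝ) + 11 / 4) +
          h ^ 2 / 2 * (2 * X * (2 ^ (2 * (Q:ℝ) + 19 / 8) * v ^ (2 * (Q:ℝ) + 19 / 8))) := by
          refine h7.trans ?_
          gcongr
          exact h2.trans (by gcongr)
      _ = C * (2 ^ (2 * (Q:ℝ) + 11 / 4) * v ^ (2 * (Q:ℝ) + 11 / 4)) + C * v ^ (2 * (Q:ℝ) + 11 / 4) +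
          X * 2 ^ (2 * (Q:ℝ) + 19 / 8) * (h ^ 2 * v ^ (2 * (Q:ℝ) + 19 / 8)) := by ring
      _ = _ := by rw [e1, e2]; ring
  exact le_of_mul_le_mul_left h8 hh0

/-- the second difference of the Riesz mean -/
noncomputable def DD (A u : ℕ → ℝ) (v : ℝ) : ℝ := R2 A u (v + 2) - 2 * R2 A u (v + 1) + R2 A u v

lemma DD_R0 (D : Ds Q X a V) {v : ℝ} (hv : 1 ≤ v) :
    |DD (fun n => a n * V n ^ 2) V v - ∑ n ∈ Icc 1 (NN Q X v), a n * V n ^ 2| ≤
      (8 * Q * 3 ^ (4 * Q) * X + 1) * v ^ (2 * (Q:ℝ) + 11 / 8) := by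
  have hv0 : 0 ≤ v := by linarith
  refine le_trans ?_ (D.sum_short hv)
  unfold DD
  have hm1 : NN Q X v ≤ NN Q X (v + 2) := D.NN_mono hv0 (by linarith)
  rw [D.R2_fin (by linarith : 0 ≤ v + 2) le_rfl, D.R2_fin (by linarith : 0 ≤ v + 1) (D.NN_mono (by linarith) (by linarith : v + 1 ≤ v + 2)),
    D.R2_fin hv0 hm1]
  have hsplit : Icc 1 (NN Q X (v + 2)) = Icc 1 (NN Q X v) ∪ Ioc (NN Q X v) (NN Q X (v + 2)) := by
    ext n
    simp only [mem_Icc, mem_union, mem_Ioc]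
    omega
  have hdisj : Disjoint (Icc 1 (NN Q X v)) (Ioc (NN Q X v) (NN Q X (v + 2))) := by
    rw [disjoint_left]
    intro n
    simp only [mem_Icc, mem_Ioc]
    omega
  rw [mul_sum, ← sum_sub_distrib, ← sum_add_distrib, hsplit, sum_union hdisj]
  have h1 : ∑ n ∈ Icc 1 (NN Q X v), (a n * V n ^ 2 * (max (v + 2 - V n) 0 ^ 2 / 2) -
      2 * (a n * V n ^ 2 * (max (v + 1 - V n) 0 ^ 2 / 2)) + a n * V n ^ 2 * (max (v - V n) 0 ^ 2 / 2)) =
      ∑ n ∈ Icc 1 (NN Q X v), a n * V n ^ 2 := by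
    apply sum_congr rfl
    intro n hn
    have h2 := ((D.mem hv0 n).1 hn).2
    rw [max_eq_left (by linarith), max_eq_left (by linarith), max_eq_left (by linarith)]
    ring
  rw [h1, add_sub_cancel_left]
  refine (abs_sum_le_sum_abs _ _).trans (sum_le_sum fun n hn => ?_)
  rw [mem_Ioc] at hn
  have h2 : v < V n := by
    by_contra hc
    have := (D.mem hv0 n).2 ⟨by omega, not_lt.1 hc⟩
    rw [mem_Icc] at this
    omega
  have h3 : V n ≤ v + 2 := ((D.mem (by linarith : 0 ≤ v + 2) n).1 (by rw [mem_Icc]; omega)).2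
  rw [show a n * V n ^ 2 * (max (v + 2 - V n) 0 ^ 2 / 2) - 2 * (a n * V n ^ 2 * (max (v + 1 - V n) 0 ^ 2 / 2)) +
    a n * V n ^ 2 * (max (v - V n) 0 ^ 2 / 2) = (a n * V n ^ 2) * (max (v + 2 - V n) 0 ^ 2 / 2 -
      2 * (max (v + 1 - V n) 0 ^ 2 / 2) + max (v - V n) 0 ^ 2 / 2) by ring, abs_mul]
  apply mul_le_of_le_one_right (abs_nonneg _)
  rw [max_eq_left (by linarith : 0 ≤ v + 2 - V n), max_eq_right (by linarith : v - V n ≤ 0)]
  rcases le_total (V n) (v + 1) with h | h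
  · rw [max_eq_left (by linarith), abs_le]
    constructor <;> nlinarith
  · rw [max_eq_right (by linarith), abs_le]
    constructor <;> nlinarith

lemma e_R0 (D : Ds Q X a V) : ∃ C : ℝ, 0 ≤ C ∧ ∀ v : ℝ, 1 ≤ v →
    |∑ n ∈ Icc 1 (NN Q X v), a n - v⁻¹ ^ 2 * ∑ n ∈ Icc 1 (NN Q X v), a n * V n ^ 2| ≤ C * v ^ (2 * (Q:ℝ) - 7 / 16) := by
  obtain ⟨C, hC0, hC⟩ := D.R1_le
  have hX := D.hX
  have hQ := D.Q0
  have hV1 := D.Vpos le_rfl
  have hV11 : V 1 ≤ 1 := by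
    rw [D.V_le zero_le_one]
    simpa using hX
  refine ⟨2 * C + 6 * ((V 1)⁻¹ ^ 4 * (2 * X + C)), by positivity, fun v hv => ?_⟩
  have hv0 : 0 < v := by linarith
  have e0 : ∑ n ∈ Icc 1 (NN Q X v), a n - v⁻¹ ^ 2 * ∑ n ∈ Icc 1 (NN Q X v), a n * V n ^ 2 =
      2 * v⁻¹ ^ 3 * R1 (fun n => a n * V n ^ 2) V v + 6 * ∫ s in (V 1)..v, s⁻¹ ^ 4 * R1 (fun n => a n * V n ^ 2) V s := by
    have e1 : ∫ s in (V 1)..v, s⁻¹ ^ 4 * R1 (fun n => a n * V n ^ 2) V s =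
        ∑ n ∈ Icc 1 (NN Q X v), a n * V n ^ 2 * ∫ s in (V 1)..v, s⁻¹ ^ 4 * max (s - V n) 0 := by
      rw [intervalIntegral.integral_congr (g := fun s => ∑ n ∈ Icc 1 (NN Q X v), a n * V n ^ 2 * (s⁻¹ ^ 4 * max (s - V n) 0)),
        intervalIntegral.integral_finsetSum]
      · apply sum_congr rfl
        intro n _
        rw [intervalIntegral.integral_const_mul]
      · intro n _
        apply ContinuousOn.intervalIntegrable
        rw [Set.uIcc_of_le (by linarith)]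
        apply ContinuousOn.mul continuousOn_const
        apply ContinuousOn.mul
        · apply ContinuousOn.pow
          apply ContinuousOn.inv₀ continuousOn_id
          intro x hx
          exact (by linarith [hx.1] : (0:ℝ) < x).ne'
        · fun_prop
      · intro s hs
        rw [Set.uIcc_of_le (by linarith)] at hs
        have hs0 : 0 ≤ s := by linarith [hs.1]
        show s⁻¹ ^ 4 * R1 (fun n => a n * V n ^ 2) V s = _
        rw [D.R1_fin hs0 (D.NN_mono hs0 hs.2), mul_sum]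
        apply sum_congr rfl
        intro n _
        ring
    rw [e1, D.R1_fin hv0.le le_rfl, mul_sum, mul_sum, mul_sum, ← sum_sub_distrib, ← sum_add_distrib]
    apply sum_congr rfl
    intro n hn
    have h1 := (D.mem hv0.le n).1 hn
    have hVn := D.Vpos h1.1
    have h2 := int_one hV1 (D.Vmono h1.1) h1.2
    rw [max_eq_left (by linarith [h1.2])]
    have e2 : a n = a n * V n ^ 2 * (V n)⁻¹ ^ 2 := by
      field_simp
    calc a n - v⁻¹ ^ 2 * (a n * V n ^ 2) = a n * V n ^ 2 * ((V n)⁻¹ ^ 2 - v⁻¹ ^ 2) := by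
          rw [mul_sub, ← e2]; ring
      _ = _ := by rw [h2]; ring
  rw [e0]
  have b1 : |2 * v⁻¹ ^ 3 * R1 (fun n => a n * V n ^ 2) V v| ≤ 2 * C * v ^ (2 * (Q:ℝ) - 7 / 16) := by
    rw [abs_mul, abs_of_nonneg (by positivity : 0 ≤ 2 * v⁻¹ ^ 3)]
    calc _ ≤ 2 * v⁻¹ ^ 3 * (C * v ^ (2 * (Q:ℝ) + 41 / 16)) := by gcongr; exact hC v hv
      _ = 2 * C * v ^ (2 * (Q:ℝ) + 41 / 16 - (3:ℕ)) := by
          rw [Real.rpow_sub_natCast hv0.ne', inv_pow]
          ring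
      _ = _ := by
          congr 2
          push_cast
          ring
  have hb : ∀ s ∈ Set.uIoc (V 1) v, ‖s⁻¹ ^ 4 * R1 (fun n => a n * V n ^ 2) V s‖ ≤
      (V 1)⁻¹ ^ 4 * (2 * X + C) * v ^ (2 * (Q:ℝ) - 23 / 16) := by
    intro s hs
    rw [Set.uIoc_of_le (by linarith)] at hs
    have hs0 : 0 < s := by linarith [hs.1]
    have hvp : 1 ≤ v ^ (2 * (Q:ℝ) - 23 / 16) := Real.one_le_rpow hv (by linarith)
    have hsi : s⁻¹ ≤ (V 1)⁻¹ := inv_anti₀ hV1 hs.1.le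
    rw [Real.norm_eq_abs, abs_mul, abs_of_nonneg (by positivity : 0 ≤ s⁻¹ ^ 4)]
    rcases le_total s 1 with h | h
    · have h1 : |R1 (fun n => a n * V n ^ 2) V s| ≤ 2 * X := by
        rw [D.R1_fin hs0.le (D.NN_mono hs0.le h)]
        refine (abs_sum_le_sum_abs _ _).trans ?_
        have h2 := D.sum_A (v := 1) zero_le_one
        rw [Real.one_rpow, mul_one] at h2
        refine le_trans (sum_le_sum fun n _ => ?_) h2
        rw [abs_mul]
        apply mul_le_of_le_one_right (abs_nonneg _)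
        rw [abs_of_nonneg (le_max_right _ _)]
        apply max_le _ zero_le_one
        linarith [D.Vnn n]
      calc s⁻¹ ^ 4 * |R1 (fun n => a n * V n ^ 2) V s| ≤ (V 1)⁻¹ ^ 4 * (2 * X) := by gcongr
        _ ≤ (V 1)⁻¹ ^ 4 * (2 * X + C) := by gcongr; linarith
        _ ≤ _ := le_mul_of_one_le_right (by positivity) hvp
    · have h1 : s⁻¹ ^ 4 * |R1 (fun n => a n * V n ^ 2) V s| ≤ C * s ^ (2 * (Q:ℝ) - 23 / 16) := by
        calc _ ≤ s⁻¹ ^ 4 * (C * s ^ (2 * (Q:ℝ) + 41 / 16)) := by gcongr; exact hC s h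
          _ = C * s ^ (2 * (Q:ℝ) + 41 / 16 - (4:ℕ)) := by
              rw [Real.rpow_sub_natCast hs0.ne', inv_pow]
              ring
          _ = _ := by
              congr 2
              push_cast
              ring
      have h2 : s ^ (2 * (Q:ℝ) - 23 / 16) ≤ v ^ (2 * (Q:ℝ) - 23 / 16) := Real.rpow_le_rpow hs0.le hs.2 (by linarith)
      have h3 : 1 ≤ (V 1)⁻¹ ^ 4 := one_le_pow₀ ((one_le_inv₀ hV1).2 hV11)
      calc _ ≤ C * s ^ (2 * (Q:ℝ) - 23 / 16) := h1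
        _ ≤ C * v ^ (2 * (Q:ℝ) - 23 / 16) := by gcongr
        _ ≤ (2 * X + C) * v ^ (2 * (Q:ℝ) - 23 / 16) := by gcongr; linarith
        _ ≤ _ := by
            rw [mul_assoc]
            exact le_mul_of_one_le_left (by positivity) h3
  have b2 := intervalIntegral.norm_integral_le_of_norm_le_const hb
  rw [Real.norm_eq_abs] at b2
  have b3 : |v - V 1| ≤ v := by
    rw [abs_of_nonneg (by linarith)]
    linarith
  have e3 : v ^ (2 * (Q:ℝ) - 23 / 16) * v = v ^ (2 * (Q:ℝ) - 7 / 16) := by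
    nth_rw 2 [← Real.rpow_one v]
    rw [← Real.rpow_add hv0]
    congr 1
    ring
  calc _ ≤ |2 * v⁻¹ ^ 3 * R1 (fun n => a n * V n ^ 2) V v| +
        |6 * ∫ s in (V 1)..v, s⁻¹ ^ 4 * R1 (fun n => a n * V n ^ 2) V s| := abs_add_le _ _
    _ ≤ 2 * C * v ^ (2 * (Q:ℝ) - 7 / 16) + 6 * ((V 1)⁻¹ ^ 4 * (2 * X + C) * v ^ (2 * (Q:ℝ) - 23 / 16) * v) := by
        refine add_le_add b1 ?_
        rw [abs_mul, abs_of_pos (by norm_num : (0:ℝ) < 6)]
        gcongr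
        refine b2.trans ?_
        gcongr
    _ = _ := by
        rw [mul_assoc ((V 1)⁻¹ ^ 4 * (2 * X + C)), e3]
        ring

/-- the summatory function is close to the second difference of the Riesz mean -/
theorem approx (D : Ds Q X a V) : ∃ C : ℝ, 0 ≤ C ∧ ∀ v : ℝ, 1 ≤ v →
    |∑ n ∈ Icc 1 (NN Q X v), a n - v⁻¹ ^ 2 * DD (fun n => a n * V n ^ 2) V v| ≤ C * v ^ (2 * (Q:ℝ) - 7 / 16) := by
  obtain ⟨C, hC0, hC⟩ := D.e_R0
  have hX := D.hX
  refine ⟨C + (8 * Q * 3 ^ (4 * Q) * X + 1), by positivity, fun v hv => ?_⟩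
  have hv0 : 0 < v := by linarith
  have h1 := hC v hv
  have h2 := D.DD_R0 hv
  have e : ∑ n ∈ Icc 1 (NN Q X v), a n - v⁻¹ ^ 2 * DD (fun n => a n * V n ^ 2) V v =
    (∑ n ∈ Icc 1 (NN Q X v), a n - v⁻¹ ^ 2 * ∑ n ∈ Icc 1 (NN Q X v), a n * V n ^ 2) -
      v⁻¹ ^ 2 * (DD (fun n => a n * V n ^ 2) V v - ∑ n ∈ Icc 1 (NN Q X v), a n * V n ^ 2) := by ring
  rw [e]
  calc _ ≤ C * v ^ (2 * (Q:ℝ) - 7 / 16) + v⁻¹ ^ 2 * ((8 * Q * 3 ^ (4 * Q) * X + 1) * v ^ (2 * (Q:ℝ) + 11 / 8)) := by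
        refine (abs_sub _ _).trans (add_le_add h1 ?_)
        rw [abs_mul, abs_of_nonneg (by positivity : 0 ≤ v⁻¹ ^ 2)]
        gcongr
    _ = C * v ^ (2 * (Q:ℝ) - 7 / 16) + (8 * Q * 3 ^ (4 * Q) * X + 1) * v ^ (2 * (Q:ℝ) + 11 / 8 - (2:ℕ)) := by
        rw [Real.rpow_sub_natCast hv0.ne', inv_pow]
        ring
    _ ≤ C * v ^ (2 * (Q:ℝ) - 7 / 16) + (8 * Q * 3 ^ (4 * Q) * X + 1) * v ^ (2 * (Q:ℝ) - 7 / 16) := by
        have h3 : v ^ (2 * (Q:ℝ) + 11 / 8 - ((2:ℕ):ℝ)) ≤ v ^ (2 * (Q:ℝ) - 7 / 16) :=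
          Real.rpow_le_rpow_of_exponent_le hv (by push_cast; linarith)
        have h4 := mul_le_mul_of_nonneg_left h3 (by positivity : 0 ≤ 8 * Q * 3 ^ (4 * Q) * X + 1)
        linarith
    _ = _ := by ring

end Ds

end Pool.Agent.H81.HM
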