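import Mathlib

/-!
# Near-orthogonality of the frequencies `λ n = c₀ n ^ (4 ϵ)`
-/

set_option autoImplicit false

open MeasureTheory Finset

namespace Pool.Agent.H81.HM

/-- an oscillating integral -/
lemma osc {P : ℝ} (hP : 0 ≤ P) {l : ℝ} (hl : 0 < l) (φ : ℝ) {W : ℝ} (hW : 1 ≤ W) :
    |∫ w in (1:ℝ)..W, w ^ P * Real.cos (l * Real.sqrt w - φ)| ≤ 4 * W ^ (P + 1 / 2) / l := by
  have hd : ∀ w ∈ Set.uIcc 1 W, HasDerivAt (fun w : ℝ => 2 / l * (w ^ (P + 1 / 2) * Real.sin (l * Real.sqrt w - φ)))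
      (w ^ P * Real.cos (l * Real.sqrt w - φ) +
        2 / l * ((P + 1 / 2) * w ^ (P - 1 / 2) * Real.sin (l * Real.sqrt w - φ))) w := by
    intro w hw
    rw [Set.uIcc_of_le hW] at hw
    have hw0 : 0 < w := by linarith [hw.1]
    have h1 : HasDerivAt (fun w : ℝ => w ^ (P + 1 / 2)) ((P + 1 / 2) * w ^ (P + 1 / 2 - 1)) w :=
      Real.hasDerivAt_rpow_const (Or.inl hw0.ne')
    have h2 : HasDerivAt (fun w : ℝ => l * Real.sqrt w - φ) (l * (1 / (2 * Real.sqrt w))) w :=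
      ((Real.hasDerivAt_sqrt hw0.ne').const_mul l).sub_const φ
    have h3 := (h1.mul h2.sin).const_mul (2 / l)
    refine h3.congr_deriv ?_
    have e1 : w ^ (P + 1 / 2 - 1) = w ^ (P - 1 / 2) := by congr 1; ring
    have e2 : w ^ (P + 1 / 2) = w ^ P * Real.sqrt w := by
      rw [Real.rpow_add hw0, Real.sqrt_eq_rpow]
    have hs : Real.sqrt w ≠ 0 := (Real.sqrt_pos.2 hw0).ne'
    rw [e1, e2]
    field_simp
    ring
  have hc1 : ContinuousOn (fun w : ℝ => w ^ P * Real.cos (l * Real.sqrt w - φ)) (Set.uIcc 1 W) := by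
    apply Continuous.continuousOn
    exact (Real.continuous_rpow_const hP).mul (by fun_prop)
  have hc2 : ContinuousOn (fun w : ℝ => 2 / l * ((P + 1 / 2) * w ^ (P - 1 / 2) * Real.sin (l * Real.sqrt w - φ)))
      (Set.uIcc 1 W) := by
    rw [Set.uIcc_of_le hW]
    apply ContinuousOn.mul continuousOn_const
    apply ContinuousOn.mul
    · apply ContinuousOn.mul continuousOn_const
      intro w hw
      exact (Real.continuousAt_rpow_const w _ (Or.inl (by linarith [hw.1]))).continuousWithinAt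
    · exact (by fun_prop : Continuous fun w : ℝ => Real.sin (l * Real.sqrt w - φ)).continuousOn
  have hi1 := hc1.intervalIntegrable (μ := volume)
  have hi2 := hc2.intervalIntegrable (μ := volume)
  have h1 := intervalIntegral.integral_eq_sub_of_hasDerivAt hd (hi1.add hi2)
  rw [intervalIntegral.integral_add hi1 hi2] at h1
  have h2 : |∫ w in (1:ℝ)..W, 2 / l * ((P + 1 / 2) * w ^ (P - 1 / 2) * Real.sin (l * Real.sqrt w - φ))| ≤
      2 / l * (W ^ (P + 1 / 2) - 1) := by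
    have h3 : ‖∫ w in (1:ℝ)..W, 2 / l * ((P + 1 / 2) * w ^ (P - 1 / 2) * Real.sin (l * Real.sqrt w - φ))‖ ≤
        ∫ w in (1:ℝ)..W, 2 / l * ((P + 1 / 2) * w ^ (P - 1 / 2)) := by
      apply intervalIntegral.norm_integral_le_of_norm_le hW
      · refine Filter.Eventually.of_forall fun w hw => ?_
        have hw0 : 0 < w := by linarith [hw.1]
        rw [norm_mul, norm_mul, Real.norm_of_nonneg (by positivity), Real.norm_of_nonneg (by positivity)]
        apply mul_le_mul_of_nonneg_left _ (by positivity)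
        apply mul_le_of_le_one_right (by positivity)
        exact Real.abs_sin_le_one _
      · apply ContinuousOn.intervalIntegrable
        rw [Set.uIcc_of_le hW]
        apply ContinuousOn.mul continuousOn_const
        apply ContinuousOn.mul continuousOn_const
        intro w hw
        exact (Real.continuousAt_rpow_const w _ (Or.inl (by linarith [hw.1]))).continuousWithinAt
    rw [Real.norm_eq_abs] at h3
    refine h3.trans (le_of_eq ?_)
    rw [intervalIntegral.integral_const_mul, intervalIntegral.integral_const_mul,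
      integral_rpow (Or.inl (by linarith))]
    have : P - 1 / 2 + 1 = P + 1 / 2 := by ring
    rw [this, Real.one_rpow]
    have : P + 1 / 2 ≠ 0 := by positivity
    field_simp
  have e : ∫ w in (1:ℝ)..W, w ^ P * Real.cos (l * Real.sqrt w - φ) =
      2 / l * (W ^ (P + 1 / 2) * Real.sin (l * Real.sqrt W - φ)) - 2 / l * (1 * Real.sin (l * 1 - φ)) -
      ∫ w in (1:ℝ)..W, 2 / l * ((P + 1 / 2) * w ^ (P - 1 / 2) * Real.sin (l * Real.sqrt w - φ)) := by
    rw [Real.sqrt_one, Real.one_rpow] at h1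
    linarith
  rw [e]
  have hWp : 0 ≤ W ^ (P + 1 / 2) := by positivity
  have a1 : |2 / l * (W ^ (P + 1 / 2) * Real.sin (l * Real.sqrt W - φ))| ≤ 2 / l * W ^ (P + 1 / 2) := by
    rw [abs_mul, abs_of_pos (by positivity), abs_mul, abs_of_nonneg hWp]
    apply mul_le_mul_of_nonneg_left _ (by positivity)
    exact mul_le_of_le_one_right hWp (Real.abs_sin_le_one _)
  have a2 : |2 / l * (1 * Real.sin (l * 1 - φ))| ≤ 2 / l := by
    rw [abs_mul, abs_of_pos (by positivity), one_mul]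
    exact mul_le_of_le_one_right (by positivity) (Real.abs_sin_le_one _)
  calc _ ≤ 2 / l * W ^ (P + 1 / 2) + 2 / l + 2 / l * (W ^ (P + 1 / 2) - 1) := by
        refine (abs_sub _ _).trans (add_le_add ((abs_sub _ _).trans (add_le_add a1 a2)) h2)
    _ = _ := by ring

/-- the harmonic sum -/
lemma harm_le {ϵ : ℝ} (hϵ : 0 < ϵ) {m : ℕ} (hm : 1 ≤ m) :
    ∑ n ∈ Icc 1 m, (1:ℝ) / n ≤ (1 + 1 / ϵ) * (m:ℝ) ^ ϵ := by
  have h1 := harmonic_le_one_add_log m
  have h2 : ((harmonic m : ℚ) : ℝ) = ∑ n ∈ Icc 1 m, (1:ℝ) / n := by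
    rw [harmonic_eq_sum_Icc]
    push_cast
    simp only [one_div]
  have hm1 : (1:ℝ) ≤ m := by exact_mod_cast hm
  have h3 : Real.log m ≤ (m:ℝ) ^ ϵ / ϵ := Real.log_le_rpow_div (by positivity) hϵ
  have h4 : 1 ≤ (m:ℝ) ^ ϵ := Real.one_le_rpow hm1 hϵ.le
  rw [← h2]
  calc ((harmonic m : ℚ) : ℝ) ≤ 1 + Real.log m := h1
    _ ≤ (m:ℝ) ^ ϵ + (m:ℝ) ^ ϵ / ϵ := add_le_add h4 h3
    _ = _ := by ring

/-- the kernel of the double sum -/
noncomputable def kk (ϵ c₀ : ℝ) (m n : ℕ) : ℝ := (m:ℝ) ^ (1 - 4 * ϵ) / (c₀ * (4 * ϵ) * max 1 ((m:ℝ) - n))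

lemma kk_nonneg {ϵ c₀ : ℝ} (hϵ : 0 < ϵ) (hc : 0 < c₀) (m n : ℕ) : 0 ≤ kk ϵ c₀ m n := by
  unfold kk
  have : 0 < max 1 ((m:ℝ) - n) := lt_max_of_lt_left one_pos
  positivity

/-- inner sum -/
lemma inner {ϵ : ℝ} (hϵ : 0 < ϵ) (hϵ1 : ϵ ≤ 1 / 8) {m : ℕ} (hm : 1 ≤ m) :
    ∑ n ∈ Icc 1 m, (n:ℝ) ^ (-1 + ϵ) / max 1 ((m:ℝ) - n) ≤ (3 + 2 / ϵ) * (m:ℝ) ^ (-1 + 2 * ϵ) := by
  have hm1 : (1:ℝ) ≤ m := by exact_mod_cast hm
  have hm0 : (0:ℝ) < m := by linarith
  have hterm : ∀ n ∈ Icc 1 m, (n:ℝ) ^ (-1 + ϵ) / max 1 ((m:ℝ) - n) ≤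
      (m:ℝ) ^ (-1 + ϵ) * (1 / n + (if n = m then (1:ℝ) else 1 / ((m:ℝ) - n))) := by
    intro n hn
    rw [mem_Icc] at hn
    have hn1 : (1:ℝ) ≤ n := by exact_mod_cast hn.1
    have hn0 : (0:ℝ) < n := by linarith
    split_ifs with h
    · rw [h, sub_self, max_eq_left zero_le_one, div_one]
      have : 0 ≤ (m:ℝ) ^ (-1 + ϵ) * (1 / m) := by positivity
      nlinarith
    · have hlt : n + 1 ≤ m := by omega
      have hlt' : (n:ℝ) + 1 ≤ m := by exact_mod_cast hlt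
      rw [max_eq_right (by linarith)]
      have hmn : 0 < (m:ℝ) - n := by linarith
      have e1 : (n:ℝ) ^ (-1 + ϵ) = (n:ℝ) ^ ϵ / n := by
        rw [show -1 + ϵ = ϵ - 1 by ring, Real.rpow_sub_one hn0.ne']
      have e2 : (m:ℝ) ^ (-1 + ϵ) = (m:ℝ) ^ ϵ / m := by
        rw [show -1 + ϵ = ϵ - 1 by ring, Real.rpow_sub_one hm0.ne']
      have h3 : (n:ℝ) ^ ϵ ≤ (m:ℝ) ^ ϵ := Real.rpow_le_rpow hn0.le (by linarith) hϵ.le
      rw [e1, e2]
      calc (n:ℝ) ^ ϵ / n / ((m:ℝ) - n) ≤ (m:ℝ) ^ ϵ / n / ((m:ℝ) - n) := by gcongr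
        _ = _ := by field_simp; ring
  refine (sum_le_sum hterm).trans ?_
  rw [← mul_sum, sum_add_distrib]
  have h2 : ∑ n ∈ Icc 1 m, (if n = m then (1:ℝ) else 1 / ((m:ℝ) - n)) ≤ 1 + ∑ n ∈ Icc 1 m, (1:ℝ) / n := by
    have e : Icc 1 m = insert m (Icc 1 (m - 1)) := by
      ext n
      simp only [mem_Icc, mem_insert]
      omega
    rw [e, sum_insert (by simp; omega), if_pos rfl]
    apply add_le_add le_rfl
    have h4 : ∑ n ∈ Icc 1 (m - 1), (if n = m then (1:ℝ) else 1 / ((m:ℝ) - n)) = ∑ n ∈ Icc 1 (m - 1), (1:ℝ) / n := by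
      apply sum_nbij' (fun n => m - n) (fun n => m - n)
      · intro n hn; rw [mem_Icc] at hn ⊢; omega
      · intro n hn; rw [mem_Icc] at hn ⊢; omega
      · intro n hn; rw [mem_Icc] at hn; omega
      · intro n hn; rw [mem_Icc] at hn; omega
      · intro n hn
        rw [mem_Icc] at hn
        rw [if_neg (by omega), Nat.cast_sub (by omega)]
    rw [h4, ← e]
    apply sum_le_sum_of_subset_of_nonneg
    · intro n hn
      rw [mem_Icc] at hn ⊢
      omega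
    · intro n _ _
      positivity
  have h3 := harm_le hϵ hm
  have h5 : 1 ≤ (m:ℝ) ^ ϵ := Real.one_le_rpow hm1 hϵ.le
  have e3 : (m:ℝ) ^ (-1 + 2 * ϵ) = (m:ℝ) ^ (-1 + ϵ) * (m:ℝ) ^ ϵ := by
    rw [← Real.rpow_add hm0]
    congr 1
    ring
  rw [e3]
  calc (m:ℝ) ^ (-1 + ϵ) * (∑ n ∈ Icc 1 m, (1:ℝ) / n + ∑ n ∈ Icc 1 m, (if n = m then (1:ℝ) else 1 / ((m:ℝ) - n)))
      ≤ (m:ℝ) ^ (-1 + ϵ) * ((1 + 1 / ϵ) * (m:ℝ) ^ ϵ + ((m:ℝ) ^ ϵ + (1 + 1 / ϵ) * (m:ℝ) ^ ϵ)) := by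
        gcongr
        exact h2.trans (add_le_add h5 h3)
    _ = _ := by ring

/-- the data: coefficients and frequencies -/
structure Fr (ϵ B c₀ : ℝ) (b l : ℕ → ℝ) : Prop where
  pos : 0 < ϵ
  le : ϵ ≤ 1 / 8
  Bp : 0 ≤ B
  c0 : 0 < c₀
  bb : ∀ n : ℕ, 1 ≤ n → |b n| ≤ B * (n:ℝ) ^ (-1 + ϵ)
  ll : ∀ n : ℕ, 1 ≤ n → l n = c₀ * (n:ℝ) ^ (4 * ϵ)

section

variable {ϵ B c₀ : ℝ} {b l : ℕ → ℝ}

lemma Fr.lpos (F : Fr ϵ B c₀ b l) {n : ℕ} (hn : 1 ≤ n) : 0 < l n := by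
  rw [F.ll n hn]
  have := F.c0
  have : (0:ℝ) < n := by exact_mod_cast hn
  positivity

lemma pow_diff {ϵ : ℝ} (h0 : 0 < ϵ) (h1 : ϵ ≤ 1 / 8) {m n : ℕ} (hn : 1 ≤ n) (hm : n < m) :
    4 * ϵ * (m:ℝ) ^ (4 * ϵ - 1) * ((m:ℝ) - n) ≤ (m:ℝ) ^ (4 * ϵ) - (n:ℝ) ^ (4 * ϵ) := by
  have hn1 : (1:ℝ) ≤ n := by exact_mod_cast hn
  have hmn : (n:ℝ) < m := by exact_mod_cast hm
  have hm0 : (0:ℝ) < m := by linarith
  have h2 := rpow_one_add_le_one_add_mul_self (s := (n:ℝ) / m - 1) (p := 4 * ϵ) (by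
    have : 0 ≤ (n:ℝ) / m := by positivity
    linarith) (by positivity) (by linarith)
  rw [add_sub_cancel, Real.div_rpow (by linarith) hm0.le, div_le_iff₀ (by positivity)] at h2
  have e : (m:ℝ) ^ (4 * ϵ - 1) = (m:ℝ) ^ (4 * ϵ) / m := Real.rpow_sub_one hm0.ne' _
  rw [e]
  have e2 : 4 * ϵ * ((m:ℝ) ^ (4 * ϵ) / m) * ((m:ℝ) - n) = -(4 * ϵ * ((n:ℝ) / m - 1) * (m:ℝ) ^ (4 * ϵ)) := by
    field_simp
    ring
  rw [e2]
  linarith

lemma Fr.diff (F : Fr ϵ B c₀ b l) {m n : ℕ} (hn : 1 ≤ n) (hm : n < m) :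
    0 < l m - l n ∧ 1 / (l m - l n) ≤ kk ϵ c₀ m n := by
  have h0 := F.pos
  have h1 := F.le
  have hc := F.c0
  have hn1 : (1:ℝ) ≤ n := by exact_mod_cast hn
  have hmn : (n:ℝ) + 1 ≤ m := by exact_mod_cast hm
  have hm0 : (0:ℝ) < m := by linarith
  have h2 := pow_diff h0 h1 hn hm
  have hp : 0 < (m:ℝ) - n := by linarith
  have h3 : 0 < 4 * ϵ * (m:ℝ) ^ (4 * ϵ - 1) * ((m:ℝ) - n) := by positivity
  rw [F.ll m (by omega), F.ll n hn, ← mul_sub]
  refine ⟨mul_pos hc (by linarith), ?_⟩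
  unfold kk
  rw [max_eq_right (by linarith)]
  have e : (m:ℝ) ^ (1 - 4 * ϵ) / (c₀ * (4 * ϵ) * ((m:ℝ) - n)) = 1 / (c₀ * (4 * ϵ * (m:ℝ) ^ (4 * ϵ - 1) * ((m:ℝ) - n))) := by
    have : (m:ℝ) ^ (4 * ϵ - 1) = ((m:ℝ) ^ (1 - 4 * ϵ))⁻¹ := by
      rw [← Real.rpow_neg hm0.le]
      congr 1
      ring
    rw [this]
    field_simp
  rw [e]
  apply one_div_le_one_div_of_le (by positivity)
  gcongr

lemma Fr.summ (F : Fr ϵ B c₀ b l) {m n : ℕ} (hn : 1 ≤ n) (hm : n ≤ m) :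
    0 < l m + l n ∧ 1 / (l m + l n) ≤ kk ϵ c₀ m n := by
  have h0 := F.pos
  have h1 := F.le
  have hc := F.c0
  have hl1 := F.lpos hn
  have hl2 := F.lpos (hn.trans hm)
  have hn1 : (1:ℝ) ≤ n := by exact_mod_cast hn
  have hmn : (n:ℝ) ≤ m := by exact_mod_cast hm
  have hm0 : (0:ℝ) < m := by linarith
  refine ⟨by linarith, ?_⟩
  unfold kk
  have hmax : 0 < max 1 ((m:ℝ) - n) := lt_max_of_lt_left one_pos
  have hmax2 : max 1 ((m:ℝ) - n) ≤ m := max_le (by linarith) (by linarith)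
  calc 1 / (l m + l n) ≤ 1 / l m := by
        apply one_div_le_one_div_of_le hl2
        linarith
    _ = (m:ℝ) ^ (1 - 4 * ϵ) / (c₀ * 1 * m) := by
        rw [F.ll m (by omega), show (1:ℝ) - 4 * ϵ = -(4 * ϵ) + 1 by ring, Real.rpow_add_one hm0.ne',
          Real.rpow_neg hm0.le]
        field_simp
    _ ≤ (m:ℝ) ^ (1 - 4 * ϵ) / (c₀ * (4 * ϵ) * max 1 ((m:ℝ) - n)) := by
        apply div_le_div_of_nonneg_left (by positivity) (by positivity)
        apply mul_le_mul _ hmax2 hmax.le (by positivity)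
        apply mul_le_mul_of_nonneg_left _ hc.le
        linarith

/-- the symmetric double sum -/
lemma Fr.double (F : Fr ϵ B c₀ b l) : ∃ C : ℝ, 0 ≤ C ∧ ∀ N : ℕ,
    ∑ m ∈ Icc 1 N, ∑ n ∈ Icc 1 N, |b m| * |b n| * kk ϵ c₀ (max m n) (min m n) ≤ C := by
  have h0 := F.pos
  have h1 := F.le
  have hc := F.c0
  have hB := F.Bp
  have hs : Summable fun m : ℕ => (m:ℝ) ^ (-1 - ϵ) := Real.summable_nat_rpow.2 (by linarith)
  set K : ℝ := B ^ 2 * (3 + 2 / ϵ) / (c₀ * (4 * ϵ)) with hK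
  have hK0 : 0 ≤ K := by positivity
  refine ⟨2 * (K * ∑' m : ℕ, (m:ℝ) ^ (-1 - ϵ)), by
    have : 0 ≤ ∑' m : ℕ, (m:ℝ) ^ (-1 - ϵ) := tsum_nonneg fun m => by positivity
    positivity, fun N => ?_⟩
  have hhalf : ∑ m ∈ Icc 1 N, ∑ n ∈ Icc 1 m, |b m| * |b n| * kk ϵ c₀ m n ≤ K * ∑' m : ℕ, (m:ℝ) ^ (-1 - ϵ) := by
    have hm : ∀ m ∈ Icc 1 N, ∑ n ∈ Icc 1 m, |b m| * |b n| * kk ϵ c₀ m n ≤ K * (m:ℝ) ^ (-1 - ϵ) := by
      intro m hm
      rw [mem_Icc] at hm
      have hm1 : (1:ℝ) ≤ m := by exact_mod_cast hm.1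
      have hm0 : (0:ℝ) < m := by linarith
      have hin := inner h0 h1 hm.1
      have hbm := F.bb m hm.1
      calc ∑ n ∈ Icc 1 m, |b m| * |b n| * kk ϵ c₀ m n
          ≤ ∑ n ∈ Icc 1 m, (B * (m:ℝ) ^ (-1 + ϵ)) * ((m:ℝ) ^ (1 - 4 * ϵ) / (c₀ * (4 * ϵ))) * B *
              ((n:ℝ) ^ (-1 + ϵ) / max 1 ((m:ℝ) - n)) := by
            apply sum_le_sum
            intro n hn
            rw [mem_Icc] at hn
            have hbn := F.bb n hn.1
            have hmax : 0 < max 1 ((m:ℝ) - n) := lt_max_of_lt_left one_pos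
            unfold kk
            calc |b m| * |b n| * ((m:ℝ) ^ (1 - 4 * ϵ) / (c₀ * (4 * ϵ) * max 1 ((m:ℝ) - n)))
                ≤ (B * (m:ℝ) ^ (-1 + ϵ)) * (B * (n:ℝ) ^ (-1 + ϵ)) *
                  ((m:ℝ) ^ (1 - 4 * ϵ) / (c₀ * (4 * ϵ) * max 1 ((m:ℝ) - n))) := by gcongr
              _ = _ := by field_simp
        _ = (B * (m:ℝ) ^ (-1 + ϵ)) * ((m:ℝ) ^ (1 - 4 * ϵ) / (c₀ * (4 * ϵ))) * B *
              ∑ n ∈ Icc 1 m, ((n:ℝ) ^ (-1 + ϵ) / max 1 ((m:ℝ) - n)) := by rw [mul_sum]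
        _ ≤ (B * (m:ℝ) ^ (-1 + ϵ)) * ((m:ℝ) ^ (1 - 4 * ϵ) / (c₀ * (4 * ϵ))) * B *
              ((3 + 2 / ϵ) * (m:ℝ) ^ (-1 + 2 * ϵ)) := by gcongr
        _ = K * ((m:ℝ) ^ (-1 + ϵ) * (m:ℝ) ^ (1 - 4 * ϵ) * (m:ℝ) ^ (-1 + 2 * ϵ)) := by rw [hK]; ring
        _ = _ := by
            rw [← Real.rpow_add hm0, ← Real.rpow_add hm0]
            congr 2
            ring
    refine (sum_le_sum hm).trans ?_
    rw [← mul_sum]
    apply mul_le_mul_of_nonneg_left _ hK0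
    exact hs.sum_le_tsum _ fun m _ => by positivity
  have hsplit : ∀ m ∈ Icc 1 N, ∀ n ∈ Icc 1 N, |b m| * |b n| * kk ϵ c₀ (max m n) (min m n) ≤
      (if n ≤ m then |b m| * |b n| * kk ϵ c₀ m n else 0) + (if m ≤ n then |b n| * |b m| * kk ϵ c₀ n m else 0) := by
    intro m _ n _
    have k1 := mul_nonneg (mul_nonneg (abs_nonneg (b m)) (abs_nonneg (b n))) (kk_nonneg h0 hc m n)
    have k2 := mul_nonneg (mul_nonneg (abs_nonneg (b n)) (abs_nonneg (b m))) (kk_nonneg h0 hc n m)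
    rcases le_total n m with h | h
    · rw [max_eq_left h, min_eq_right h, if_pos h]
      split_ifs <;> linarith
    · rw [max_eq_right h, min_eq_left h, if_pos h]
      split_ifs <;> linarith
  have hfil : ∀ f : ℕ → ℕ → ℝ, ∑ m ∈ Icc 1 N, ∑ n ∈ Icc 1 N, (if n ≤ m then f m n else 0) =
      ∑ m ∈ Icc 1 N, ∑ n ∈ Icc 1 m, f m n := by
    intro f
    apply sum_congr rfl
    intro m hm
    rw [mem_Icc] at hm
    rw [← sum_filter]
    apply sum_congr _ (fun _ _ => rfl)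
    ext n
    simp only [mem_filter, mem_Icc]
    omega
  calc ∑ m ∈ Icc 1 N, ∑ n ∈ Icc 1 N, |b m| * |b n| * kk ϵ c₀ (max m n) (min m n)
      ≤ ∑ m ∈ Icc 1 N, ∑ n ∈ Icc 1 N, ((if n ≤ m then |b m| * |b n| * kk ϵ c₀ m n else 0) +
          (if m ≤ n then |b n| * |b m| * kk ϵ c₀ n m else 0)) :=
        sum_le_sum fun m hm => sum_le_sum fun n hn => hsplit m hm n hn
    _ = ∑ m ∈ Icc 1 N, ∑ n ∈ Icc 1 N, (if n ≤ m then |b m| * |b n| * kk ϵ c₀ m n else 0) +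
        ∑ m ∈ Icc 1 N, ∑ n ∈ Icc 1 N, (if m ≤ n then |b n| * |b m| * kk ϵ c₀ n m else 0) := by
        rw [← sum_add_distrib]
        exact sum_congr rfl fun m _ => sum_add_distrib
    _ = ∑ m ∈ Icc 1 N, ∑ n ∈ Icc 1 m, |b m| * |b n| * kk ϵ c₀ m n +
        ∑ m ∈ Icc 1 N, ∑ n ∈ Icc 1 m, |b m| * |b n| * kk ϵ c₀ m n := by
        rw [hfil (fun m n => |b m| * |b n| * kk ϵ c₀ m n)]
        congr 1
        rw [sum_comm, hfil (fun n m => |b n| * |b m| * kk ϵ c₀ n m)]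
    _ ≤ _ := by linarith

/-- the trigonometric sum -/
noncomputable def SI (b l : ℕ → ℝ) (ω : ℝ) (I : Finset ℕ) (w : ℝ) : ℝ :=
  ∑ n ∈ I, b n * Real.cos (l n * Real.sqrt w - ω)

lemma SI_cont (b l : ℕ → ℝ) (ω : ℝ) (I : Finset ℕ) : Continuous (SI b l ω I) := by
  unfold SI
  fun_prop

/-- near-orthogonality -/
theorem Fr.orth (F : Fr ϵ B c₀ b l) (ω : ℝ) {P : ℝ} (hP : 0 ≤ P) : ∃ C : ℝ, 0 ≤ C ∧ ∀ (N : ℕ) (I : Finset ℕ),
    I ⊆ Icc 1 N → ∀ W : ℝ, 1 ≤ W →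
    |(∫ w in (1:ℝ)..W, w ^ P * SI b l ω I w ^ 2) - 1 / 2 * (∑ n ∈ I, b n ^ 2) * ∫ w in (1:ℝ)..W, w ^ P| ≤
      C * W ^ (P + 1 / 2) := by
  obtain ⟨C, hC0, hC⟩ := F.double
  refine ⟨4 * C, by positivity, fun N I hI W hW => ?_⟩
  have hpos : ∀ n ∈ I, 1 ≤ n := fun n hn => (mem_Icc.1 (hI hn)).1
  have hcc : ∀ l φ : ℝ, Continuous (fun w : ℝ => w ^ P * Real.cos (l * Real.sqrt w - φ)) := fun l φ =>
    (Real.continuous_rpow_const hP).mul (by fun_prop)
  have hci : ∀ l φ : ℝ, IntervalIntegrable (fun w : ℝ => w ^ P * Real.cos (l * Real.sqrt w - φ)) volume 1 W :=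
    fun l φ => (hcc l φ).intervalIntegrable _ _
  have e1 : ∀ w : ℝ, w ^ P * SI b l ω I w ^ 2 = ∑ m ∈ I, ∑ n ∈ I,
      (b m * b n / 2 * (w ^ P * Real.cos ((l m - l n) * Real.sqrt w - 0)) +
      b m * b n / 2 * (w ^ P * Real.cos ((l m + l n) * Real.sqrt w - 2 * ω))) := by
    intro w
    unfold SI
    rw [sq, sum_mul_sum, mul_sum]
    apply sum_congr rfl
    intro m _
    rw [mul_sum]
    apply sum_congr rfl
    intro n _
    have h1 := Real.cos_add (l m * Real.sqrt w - ω) (l n * Real.sqrt w - ω)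
    have h2 := Real.cos_sub (l m * Real.sqrt w - ω) (l n * Real.sqrt w - ω)
    have h3 : (l m - l n) * Real.sqrt w - 0 = (l m * Real.sqrt w - ω) - (l n * Real.sqrt w - ω) := by ring
    have h4 : (l m + l n) * Real.sqrt w - 2 * ω = (l m * Real.sqrt w - ω) + (l n * Real.sqrt w - ω) := by ring
    rw [h3, h4, h1, h2]
    ring
  have e2 : ∫ w in (1:ℝ)..W, w ^ P * SI b l ω I w ^ 2 = ∑ m ∈ I, ∑ n ∈ I,
      (b m * b n / 2 * (∫ w in (1:ℝ)..W, w ^ P * Real.cos ((l m - l n) * Real.sqrt w - 0)) +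
      b m * b n / 2 * (∫ w in (1:ℝ)..W, w ^ P * Real.cos ((l m + l n) * Real.sqrt w - 2 * ω))) := by
    simp_rw [e1]
    rw [intervalIntegral.integral_finsetSum]
    · apply sum_congr rfl
      intro m _
      rw [intervalIntegral.integral_finsetSum]
      · apply sum_congr rfl
        intro n _
        rw [intervalIntegral.integral_add ((hci _ _).const_mul _) ((hci _ _).const_mul _),
          intervalIntegral.integral_const_mul, intervalIntegral.integral_const_mul]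
      · intro n _
        exact ((hci _ _).const_mul _).add ((hci _ _).const_mul _)
    · intro m _
      apply Continuous.intervalIntegrable
      exact continuous_finsetSum _ fun n _ =>
        (continuous_const.mul (hcc _ _)).add (continuous_const.mul (hcc _ _))
  have e3 : 1 / 2 * (∑ n ∈ I, b n ^ 2) * ∫ w in (1:ℝ)..W, w ^ P = ∑ m ∈ I, ∑ n ∈ I,
      (if m = n then b m * b n / 2 * ∫ w in (1:ℝ)..W, w ^ P else 0) := by
    rw [mul_sum, sum_mul]
    apply sum_congr rfl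
    intro m hm
    rw [sum_ite_eq, if_pos hm]
    ring
  rw [e2, e3, ← sum_sub_distrib]
  simp_rw [← sum_sub_distrib]
  have hterm : ∀ m ∈ I, ∀ n ∈ I, |(b m * b n / 2 * (∫ w in (1:ℝ)..W, w ^ P * Real.cos ((l m - l n) * Real.sqrt w - 0)) +
      b m * b n / 2 * (∫ w in (1:ℝ)..W, w ^ P * Real.cos ((l m + l n) * Real.sqrt w - 2 * ω))) -
      (if m = n then b m * b n / 2 * ∫ w in (1:ℝ)..W, w ^ P else 0)| ≤
      4 * W ^ (P + 1 / 2) * (|b m| * |b n| * kk ϵ c₀ (max m n) (min m n)) := by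
    intro m hm n hn
    have hm1 := hpos m hm
    have hn1 := hpos n hn
    set K := kk ϵ c₀ (max m n) (min m n) with hK
    have hK0 : 0 ≤ K := kk_nonneg F.pos F.c0 _ _
    have hWp : 0 ≤ W ^ (P + 1 / 2) := by positivity
    have hbb : |b m * b n / 2| = |b m| * |b n| / 2 := by
      rw [abs_div, abs_mul, abs_of_pos (by norm_num : (0:ℝ) < 2)]
    -- sum of frequencies
    have a1 : |b m * b n / 2 * (∫ w in (1:ℝ)..W, w ^ P * Real.cos ((l m + l n) * Real.sqrt w - 2 * ω))| ≤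
        2 * W ^ (P + 1 / 2) * (|b m| * |b n| * K) := by
      have hlK : 0 < l m + l n ∧ 1 / (l m + l n) ≤ K := by
        rcases le_total n m with h | h
        · rw [hK, max_eq_left h, min_eq_right h]
          exact F.summ hn1 h
        · rw [hK, max_eq_right h, min_eq_left h, add_comm (l m)]
          exact F.summ hm1 h
      rw [abs_mul, hbb]
      calc |b m| * |b n| / 2 * _ ≤ |b m| * |b n| / 2 * (4 * W ^ (P + 1 / 2) / (l m + l n)) := by
            gcongr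
            exact osc hP hlK.1 _ hW
        _ = 2 * W ^ (P + 1 / 2) * (|b m| * |b n| * (1 / (l m + l n))) := by ring
        _ ≤ _ := by gcongr; exact hlK.2
    split_ifs with h
    · subst h
      have h0 : ∫ w in (1:ℝ)..W, w ^ P * Real.cos ((l m - l m) * Real.sqrt w - 0) = ∫ w in (1:ℝ)..W, w ^ P := by
        apply intervalIntegral.integral_congr
        intro w _
        simp
      rw [h0, add_sub_right_comm, sub_self, zero_add]
      refine a1.trans ?_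
      have : 0 ≤ W ^ (P + 1 / 2) * (|b m| * |b m| * K) := by positivity
      linarith
    · rw [sub_zero]
      refine (abs_add_le _ _).trans ?_
      have a2 : |b m * b n / 2 * (∫ w in (1:ℝ)..W, w ^ P * Real.cos ((l m - l n) * Real.sqrt w - 0))| ≤
          2 * W ^ (P + 1 / 2) * (|b m| * |b n| * K) := by
        rw [abs_mul, hbb]
        rcases Nat.lt_or_gt_of_ne h with hlt | hlt
        · obtain ⟨hd, hk⟩ := F.diff hm1 hlt
          have hsym : ∫ w in (1:ℝ)..W, w ^ P * Real.cos ((l m - l n) * Real.sqrt w - 0) =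
              ∫ w in (1:ℝ)..W, w ^ P * Real.cos ((l n - l m) * Real.sqrt w - 0) := by
            apply intervalIntegral.integral_congr
            intro w _
            simp only
            rw [show (l m - l n) * Real.sqrt w - 0 = -((l n - l m) * Real.sqrt w - 0) by ring, Real.cos_neg]
          rw [hsym]
          calc |b m| * |b n| / 2 * _ ≤ |b m| * |b n| / 2 * (4 * W ^ (P + 1 / 2) / (l n - l m)) := by
                gcongr
                exact osc hP hd _ hW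
            _ = 2 * W ^ (P + 1 / 2) * (|b m| * |b n| * (1 / (l n - l m))) := by ring
            _ ≤ _ := by
                rw [hK, max_eq_right hlt.le, min_eq_left hlt.le]
                gcongr
        · obtain ⟨hd, hk⟩ := F.diff hn1 hlt
          calc |b m| * |b n| / 2 * _ ≤ |b m| * |b n| / 2 * (4 * W ^ (P + 1 / 2) / (l m - l n)) := by
                gcongr
                exact osc hP hd _ hW
            _ = 2 * W ^ (P + 1 / 2) * (|b m| * |b n| * (1 / (l m - l n))) := by ring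
            _ ≤ _ := by
                rw [hK, max_eq_left hlt.le, min_eq_right hlt.le]
                gcongr
      linarith
  refine (abs_sum_le_sum_abs _ _).trans ?_
  calc ∑ m ∈ I, |∑ n ∈ I, _| ≤ ∑ m ∈ I, ∑ n ∈ I, 4 * W ^ (P + 1 / 2) * (|b m| * |b n| * kk ϵ c₀ (max m n) (min m n)) := by
        apply sum_le_sum
        intro m hm
        refine (abs_sum_le_sum_abs _ _).trans ?_
        exact sum_le_sum fun n hn => hterm m hm n hn
    _ = 4 * W ^ (P + 1 / 2) * ∑ m ∈ I, ∑ n ∈ I, (|b m| * |b n| * kk ϵ c₀ (max m n) (min m n)) := by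
        rw [mul_sum]
        exact sum_congr rfl fun m _ => by rw [mul_sum]
    _ ≤ 4 * W ^ (P + 1 / 2) * C := by
        apply mul_le_mul_of_nonneg_left _ (by positivity)
        refine le_trans ?_ (hC N)
        have hnn : ∀ m n : ℕ, 0 ≤ |b m| * |b n| * kk ϵ c₀ (max m n) (min m n) := fun m n =>
          mul_nonneg (mul_nonneg (abs_nonneg _) (abs_nonneg _)) (kk_nonneg F.pos F.c0 _ _)
        calc ∑ m ∈ I, ∑ n ∈ I, |b m| * |b n| * kk ϵ c₀ (max m n) (min m n)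
            ≤ ∑ m ∈ I, ∑ n ∈ Icc 1 N, |b m| * |b n| * kk ϵ c₀ (max m n) (min m n) :=
              sum_le_sum fun m _ => sum_le_sum_of_subset_of_nonneg hI fun n _ _ => hnn m n
          _ ≤ _ := sum_le_sum_of_subset_of_nonneg hI fun m _ _ => sum_nonneg fun n _ => hnn m n
    _ = _ := by ring

end

end Pool.Agent.H81.HM
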