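import Mathlib

/-!
# Second differences and averages
-/

set_option autoImplicit false

open MeasureTheory Finset

namespace Pool.Agent.H81.HM

/-- Cauchy-Schwarz on an interval of length one -/
lemma cs1 {g : ℝ → ℝ} (hg : Continuous g) (w : ℝ) : (∫ t in w..(w + 1), g t) ^ 2 ≤ ∫ t in w..(w + 1), g t ^ 2 := by
  set c : ℝ := ∫ t in w..(w + 1), g t with hc
  have h1 : 0 ≤ ∫ t in w..(w + 1), (g t - c) ^ 2 :=
    intervalIntegral.integral_nonneg (by linarith) fun t _ => sq_nonneg _
  have e : ∫ t in w..(w + 1), (g t - c) ^ 2 = (∫ t in w..(w + 1), g t ^ 2) - c ^ 2 := by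
    have e1 : ∀ t, (g t - c) ^ 2 = g t ^ 2 - 2 * c * g t + c ^ 2 := fun t => by ring
    simp_rw [e1]
    rw [intervalIntegral.integral_add, intervalIntegral.integral_sub, intervalIntegral.integral_const_mul, ← hc]
    · simp
      ring
    · exact (hg.pow 2).intervalIntegrable _ _
    · exact (hg.const_mul _).intervalIntegrable _ _
    · exact ((hg.pow 2).sub (hg.const_mul _)).intervalIntegrable _ _
    · exact continuous_const.intervalIntegrable _ _
  rw [e] at h1
  linarith

section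

variable {g K1 K2 : ℝ → ℝ}

lemma K1_sub (hg : Continuous g) (h1 : ∀ x, HasDerivAt K1 (g x) x) (w : ℝ) :
    K1 (w + 1) - K1 w = ∫ t in w..(w + 1), g t :=
  (intervalIntegral.integral_eq_sub_of_hasDerivAt (fun x _ => h1 x) (hg.intervalIntegrable _ _)).symm

lemma sd_rep (h1 : ∀ x, HasDerivAt K1 (g x) x) (h2 : ∀ x, HasDerivAt K2 (K1 x) x) (v : ℝ) :
    K2 (v + 2) - 2 * K2 (v + 1) + K2 v = ∫ w in v..(v + 1), (K1 (w + 1) - K1 w) := by
  have hc : Continuous K1 := continuous_iff_continuousAt.2 fun x => (h1 x).continuousAt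
  have hd : ∀ w ∈ Set.uIcc v (v + 1), HasDerivAt (fun w => K2 (w + 1) - K2 w) (K1 (w + 1) - K1 w) w := by
    intro w _
    have := (h2 (w + 1)).comp_add_const w 1
    exact this.sub (h2 w)
  have := intervalIntegral.integral_eq_sub_of_hasDerivAt hd (by
    apply Continuous.intervalIntegrable
    fun_prop)
  rw [this]
  rw [show v + 1 + 1 = v + 2 by ring]
  ring

/-- second differences, mean square -/
lemma sd_sq (hg : Continuous g) (h1 : ∀ x, HasDerivAt K1 (g x) x) (h2 : ∀ x, HasDerivAt K2 (K1 x) x) (v : ℝ) :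
    (K2 (v + 2) - 2 * K2 (v + 1) + K2 v) ^ 2 ≤ ∫ t in v..(v + 2), g t ^ 2 := by
  set M : ℝ := ∫ t in v..(v + 2), g t ^ 2 with hM
  have hM0 : 0 ≤ M := intervalIntegral.integral_nonneg (by linarith) fun t _ => sq_nonneg _
  have hpt : ∀ w ∈ Set.uIoc v (v + 1), ‖K1 (w + 1) - K1 w‖ ≤ Real.sqrt M := by
    intro w hw
    rw [Set.uIoc_of_le (by linarith)] at hw
    rw [Real.norm_eq_abs]
    apply Real.abs_le_sqrt
    rw [K1_sub hg h1]
    refine (cs1 hg w).trans ?_
    rw [hM]
    apply intervalIntegral.integral_mono_interval hw.1.le (by linarith) (by linarith [hw.2])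
    · exact Filter.Eventually.of_forall fun t => sq_nonneg _
    · exact (hg.pow 2).intervalIntegrable _ _
  have h3 := intervalIntegral.norm_integral_le_of_norm_le_const hpt
  rw [← sd_rep h1 h2 v, Real.norm_eq_abs] at h3
  rw [show v + 1 - v = 1 by ring, abs_one, mul_one] at h3
  calc (K2 (v + 2) - 2 * K2 (v + 1) + K2 v) ^ 2 = |K2 (v + 2) - 2 * K2 (v + 1) + K2 v| ^ 2 := (sq_abs _).symm
    _ ≤ (Real.sqrt M) ^ 2 := pow_le_pow_left₀ (abs_nonneg _) h3 2
    _ = M := Real.sq_sqrt hM0

/-- second differences, pointwise -/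
lemma sd_lin (hg : Continuous g) (h1 : ∀ x, HasDerivAt K1 (g x) x) (h2 : ∀ x, HasDerivAt K2 (K1 x) x) {v G : ℝ}
    (hG : ∀ t, v ≤ t → t ≤ v + 2 → |g t - g v| ≤ G) :
    |K2 (v + 2) - 2 * K2 (v + 1) + K2 v - g v| ≤ G := by
  have hc : Continuous K1 := continuous_iff_continuousAt.2 fun x => (h1 x).continuousAt
  have e : K2 (v + 2) - 2 * K2 (v + 1) + K2 v - g v = ∫ w in v..(v + 1), ((K1 (w + 1) - K1 w) - g v) := by
    rw [intervalIntegral.integral_sub, ← sd_rep h1 h2 v]
    · simp
    · apply Continuous.intervalIntegrable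
      fun_prop
    · exact continuous_const.intervalIntegrable _ _
  have hpt : ∀ w ∈ Set.uIoc v (v + 1), ‖(K1 (w + 1) - K1 w) - g v‖ ≤ G := by
    intro w hw
    rw [Set.uIoc_of_le (by linarith)] at hw
    have e2 : (K1 (w + 1) - K1 w) - g v = ∫ t in w..(w + 1), (g t - g v) := by
      rw [intervalIntegral.integral_sub (hg.intervalIntegrable _ _) (continuous_const.intervalIntegrable _ _),
        K1_sub hg h1]
      simp
    rw [e2]
    have h3 : ‖∫ t in w..(w + 1), (g t - g v)‖ ≤ G * |w + 1 - w| := by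
      apply intervalIntegral.norm_integral_le_of_norm_le_const
      intro t ht
      rw [Set.uIoc_of_le (by linarith)] at ht
      exact hG t (by linarith [ht.1, hw.1]) (by linarith [ht.2, hw.2])
    rwa [show w + 1 - w = 1 by ring, abs_one, mul_one] at h3
  rw [e]
  have h3 := intervalIntegral.norm_integral_le_of_norm_le_const hpt
  rwa [show v + 1 - v = 1 by ring, abs_one, mul_one] at h3

end

/-- integrals of averages -/
lemma shift_int {f : ℝ → ℝ} (hf : Continuous f) (hf0 : ∀ t, 1 ≤ t → 0 ≤ f t) {W : ℝ} (hW : 1 ≤ W) :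
    ∫ v in (1:ℝ)..W, (∫ t in v..(v + 2), f t) ≤ 2 * ∫ t in (1:ℝ)..(W + 2), f t := by
  set Φ : ℝ → ℝ := fun x => ∫ t in (1:ℝ)..x, f t with hΦ
  have hΦc : Continuous Φ := intervalIntegral.continuous_primitive (fun a b => hf.intervalIntegrable a b) 1
  have e1 : ∀ v : ℝ, ∫ t in v..(v + 2), f t = Φ (v + 2) - Φ v := by
    intro v
    simp only [hΦ]
    rw [intervalIntegral.integral_interval_sub_left (hf.intervalIntegrable _ _) (hf.intervalIntegrable _ _)]
  simp_rw [e1]
  have hc2 : Continuous fun v : ℝ => Φ (v + 2) := hΦc.comp (continuous_id.add continuous_const)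
  rw [intervalIntegral.integral_sub (hc2.intervalIntegrable _ _) (hΦc.intervalIntegrable _ _),
    intervalIntegral.integral_comp_add_right (fun x => Φ x) 2]
  have h2 : ∫ x in (1:ℝ) + 2..W + 2, Φ x = (∫ x in (1:ℝ)..W + 2, Φ x) - ∫ x in (1:ℝ)..1 + 2, Φ x := by
    rw [intervalIntegral.integral_interval_sub_left (hΦc.intervalIntegrable _ _) (hΦc.intervalIntegrable _ _)]
  have h3 : ∫ x in (1:ℝ)..W, Φ x = (∫ x in (1:ℝ)..W + 2, Φ x) - ∫ x in W..W + 2, Φ x := by
    rw [eq_sub_iff_add_eq, intervalIntegral.integral_add_adjacent_intervals (hΦc.intervalIntegrable _ _)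
      (hΦc.intervalIntegrable _ _)]
  rw [h2, h3]
  have h4 : 0 ≤ ∫ x in (1:ℝ)..1 + 2, Φ x := by
    apply intervalIntegral.integral_nonneg (by norm_num)
    intro x hx
    exact intervalIntegral.integral_nonneg hx.1 fun t ht => hf0 t ht.1
  have h5 : ∫ x in W..W + 2, Φ x ≤ 2 * Φ (W + 2) := by
    have h6 : ∫ x in W..W + 2, Φ x ≤ ∫ _x in W..W + 2, Φ (W + 2) := by
      apply intervalIntegral.integral_mono_on (by linarith) (hΦc.intervalIntegrable _ _)
        (continuous_const.intervalIntegrable _ _)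
      intro x hx
      simp only [hΦ]
      have : (∫ t in (1:ℝ)..(W + 2), f t) - ∫ t in (1:ℝ)..x, f t = ∫ t in x..(W + 2), f t := by
        rw [intervalIntegral.integral_interval_sub_left (hf.intervalIntegrable _ _) (hf.intervalIntegrable _ _)]
      have h7 : 0 ≤ ∫ t in x..(W + 2), f t :=
        intervalIntegral.integral_nonneg hx.2 fun t ht => hf0 t (by linarith [ht.1, hx.1])
      linarith
    rw [intervalIntegral.integral_const, smul_eq_mul] at h6
    linarith
  linarith

end Pool.Agent.H81.HM
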