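import Pool.Agent.H81.HM.MS2
import Pool.Agent.H81.HM.Bes2
import Pool.Agent.H81.HM.Orth
import Pool.Agent.H81.HM.Sd

/-!
# The mean square: the dual side
-/

set_option autoImplicit false

open MeasureTheory Finset

namespace Pool.Agent.H81.HM

open Pool.Agent.H394R3.BC (Ker Ker_cont Ker_cont_left Ker_cont_right phi phi_deriv phi_rec Ker_eq)

lemma Ker_dv (n : ℕ) (u v : ℝ) : HasDerivAt (fun v => Ker (n + 1) u v) (Ker n u v) v := by
  have h1 : HasDerivAt (fun v : ℝ => u * v) u v := by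
    simpa using (hasDerivAt_id v).const_mul u
  have h2 := (hasDerivAt_pow (n + 1) v).mul ((phi_deriv (n + 1) (u * v)).comp v h1)
  have e : Ker n u v = ((n + 1 : ℕ) : ℝ) * v ^ (n + 1 - 1) * phi (n + 1) (u * v) +
      v ^ (n + 1) * (-(phi (n + 1 + 1) (u * v)) * u) := by
    have h3 := phi_rec n (u * v)
    rw [Ker_eq, Nat.add_sub_cancel]
    have : phi n (u * v) = (n + 1) * phi (n + 1) (u * v) - u * v * phi (n + 2) (u * v) := by linarith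
    rw [this]
    push_cast
    ring
  rw [e]
  exact h2

/-- finite sums of kernels -/
noncomputable def GK (A u : ℕ → ℝ) (I : Finset ℕ) (m : ℕ) (v : ℝ) : ℝ := ∑ n ∈ I, A n * Ker m (u n) v

lemma GK_cont (A u : ℕ → ℝ) (I : Finset ℕ) (m : ℕ) : Continuous (GK A u I m) := by
  unfold GK
  exact continuous_finsetSum _ fun n _ => continuous_const.mul (Ker_cont_right m (u n))

lemma GK_deriv (A u : ℕ → ℝ) (I : Finset ℕ) (m : ℕ) (v : ℝ) : HasDerivAt (GK A u I (m + 1)) (GK A u I m v) v := by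
  have h : HasDerivAt (fun v => ∑ n ∈ I, A n * Ker (m + 1) (u n) v) (∑ n ∈ I, A n * Ker m (u n) v) v :=
    HasDerivAt.fun_sum fun n _ => (Ker_dv m (u n) v).const_mul (A n)
  exact h

/-- second differences -/
noncomputable def sd (K : ℝ → ℝ) (v : ℝ) : ℝ := K (v + 2) - 2 * K (v + 1) + K v

variable {Q : ℕ} {X : ℝ} {a V : ℕ → ℝ}

namespace Ds

lemma tail (D : Ds Q X a V) {η : ℝ} (hη : 0 < η) : ∃ N₀ : ℕ, ∀ N : ℕ, N₀ ≤ N → ∀ v : ℝ, 0 < v →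
    |D2 Q (fun n => a n * V n ^ 2) V v - GK (fun n => a n * V n ^ 2) V (Icc 1 N) (4 * Q + 6) v| ≤
      η * v ^ (2 * (Q:ℝ) + 11 / 4) := by
  set S : ℕ → ℝ := fun n => |a n * V n ^ 2| * V n ^ (-(2 * (Q:ℝ) + 13 / 4)) with hS
  have hSs : Summable S := D.summ
  have hS0 : ∀ n, 0 ≤ S n := fun n => by have := D.Vnn n; simp only [hS]; positivity
  set K : ℝ := 3 * Real.sqrt (2 * ((4 * Q + 6 : ℕ) : ℝ) + 1) with hK
  have hK0 : 0 < K := by positivity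
  have ht := tendsto_sum_nat_add S
  have hev := ht.eventually (gt_mem_nhds (show (0:ℝ) < η / K by positivity))
  rw [Filter.eventually_atTop] at hev
  obtain ⟨N₀, hN₀⟩ := hev
  refine ⟨N₀, fun N hN v hv => ?_⟩
  have hb : ∀ n, |(a n * V n ^ 2) * Ker (4 * Q + 6) (V n) v| ≤ K * v ^ (2 * (Q:ℝ) + 11 / 4) * S n := by
    intro n
    rcases Nat.eq_zero_or_pos n with h | h
    · simp only [hS]
      rw [h, D.a0]
      simp
    · rw [abs_mul]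
      have h1 := Ker_dec (4 * Q + 6) (D.Vpos h) hv
      rw [show ((4 * Q + 6 : ℕ) : ℝ) / 2 - 1 / 4 = 2 * (Q:ℝ) + 11 / 4 by push_cast; ring,
        show -(((4 * Q + 6 : ℕ) : ℝ) / 2 + 1 / 4) = -(2 * (Q:ℝ) + 13 / 4) by push_cast; ring] at h1
      calc _ ≤ |a n * V n ^ 2| * (K * (v ^ (2 * (Q:ℝ) + 11 / 4) * V n ^ (-(2 * (Q:ℝ) + 13 / 4)))) := by gcongr
        _ = _ := by simp only [hS]; ring
  have hsa : Summable fun n => |(a n * V n ^ 2) * Ker (4 * Q + 6) (V n) v| :=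
    Summable.of_nonneg_of_le (fun n => abs_nonneg _) hb (hSs.mul_left _)
  have hs : Summable fun n => (a n * V n ^ 2) * Ker (4 * Q + 6) (V n) v := hsa.of_abs
  have hr : range (N + 1) = insert 0 (Icc 1 N) := by
    ext n
    simp only [mem_range, mem_insert, mem_Icc]
    omega
  have e1 : GK (fun n => a n * V n ^ 2) V (Icc 1 N) (4 * Q + 6) v =
      ∑ n ∈ range (N + 1), (a n * V n ^ 2) * Ker (4 * Q + 6) (V n) v := by
    unfold GK
    rw [hr, sum_insert (by simp), D.a0]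
    simp
  have e2 := hs.sum_add_tsum_nat_add (N + 1)
  have e3 : D2 Q (fun n => a n * V n ^ 2) V v - GK (fun n => a n * V n ^ 2) V (Icc 1 N) (4 * Q + 6) v =
      ∑' i, (a (i + (N + 1)) * V (i + (N + 1)) ^ 2) * Ker (4 * Q + 6) (V (i + (N + 1))) v := by
    rw [e1]
    have e4 : D2 Q (fun n => a n * V n ^ 2) V v = ∑' n, (a n * V n ^ 2) * Ker (4 * Q + 6) (V n) v := rfl
    rw [e4, ← e2, add_sub_cancel_left]
  rw [e3]
  have hsa' : Summable fun i => |(a (i + (N + 1)) * V (i + (N + 1)) ^ 2) * Ker (4 * Q + 6) (V (i + (N + 1))) v| :=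
    (summable_nat_add_iff (f := fun n => |(a n * V n ^ 2) * Ker (4 * Q + 6) (V n) v|) (N + 1)).2 hsa
  have hSs' : Summable fun i => S (i + (N + 1)) := (summable_nat_add_iff (N + 1)).2 hSs
  calc _ ≤ ∑' i, |(a (i + (N + 1)) * V (i + (N + 1)) ^ 2) * Ker (4 * Q + 6) (V (i + (N + 1))) v| :=
        abs_tsum_le hsa'.of_abs
    _ ≤ ∑' i, K * v ^ (2 * (Q:ℝ) + 11 / 4) * S (i + (N + 1)) :=
        hsa'.tsum_le_tsum (fun i => hb _) (hSs'.mul_left _)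
    _ = K * v ^ (2 * (Q:ℝ) + 11 / 4) * ∑' i, S (i + (N + 1)) := tsum_mul_left
    _ ≤ K * v ^ (2 * (Q:ℝ) + 11 / 4) * (η / K) := by
        gcongr
        exact (hN₀ (N + 1) (by omega)).le
    _ = _ := by field_simp

/-- the frequencies -/
noncomputable def fb (Q : ℕ) (a V : ℕ → ℝ) (n : ℕ) : ℝ := a n * V n ^ 2 * V n ^ (-(2 * (Q:ℝ) + 9 / 4))

lemma V_rpow_le (D : Ds Q X a V) {n : ℕ} (hn : 1 ≤ n) (s : ℝ) (e : ℝ)
    (he : (-(2 * (Q:ℝ) - 19 / 8) + s) / (4 * (Q:ℝ)) = -e) (he0 : e ≤ 1) (he1 : 0 ≤ e) :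
    |a n * V n ^ 2| * V n ^ s ≤ X * (n:ℝ) ^ (-e) := by
  have hX := D.hX
  have hV := D.Vpos hn
  have hn0 : (0:ℝ) < n := by exact_mod_cast hn
  calc |a n * V n ^ 2| * V n ^ s ≤ V n ^ (-(2 * (Q:ℝ) - 19 / 8)) * V n ^ s := by
        gcongr
        exact D.A_le n
    _ = X ^ e * (n:ℝ) ^ (-e) := by
        rw [← Real.rpow_add hV, D.Vpow, he, Real.div_rpow (by positivity) (by positivity), Real.rpow_neg (by linarith : 0 ≤ X),
          div_inv_eq_mul, mul_comm]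
    _ ≤ X * (n:ℝ) ^ (-e) := by
        gcongr
        calc X ^ e ≤ X ^ (1:ℝ) := Real.rpow_le_rpow_of_exponent_le hX he0
          _ = X := Real.rpow_one X

lemma V_rpow_le' (D : Ds Q X a V) {n : ℕ} (hn : 1 ≤ n) (s : ℝ) (e : ℝ)
    (he : (-(2 * (Q:ℝ) - 19 / 8) + s) / (4 * (Q:ℝ)) = -e) (he0 : e ≤ 2) (he1 : 0 ≤ e) :
    |a n * V n ^ 2| * V n ^ s ≤ X ^ (2:ℝ) * (n:ℝ) ^ (-e) := by
  have hX := D.hX
  have hV := D.Vpos hn
  have hn0 : (0:ℝ) < n := by exact_mod_cast hn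
  calc |a n * V n ^ 2| * V n ^ s ≤ V n ^ (-(2 * (Q:ℝ) - 19 / 8)) * V n ^ s := by
        gcongr
        exact D.A_le n
    _ = X ^ e * (n:ℝ) ^ (-e) := by
        rw [← Real.rpow_add hV, D.Vpow, he, Real.div_rpow (by positivity) (by positivity), Real.rpow_neg (by linarith : 0 ≤ X),
          div_inv_eq_mul, mul_comm]
    _ ≤ X ^ (2:ℝ) * (n:ℝ) ^ (-e) := by
        gcongr

/-- the frame of the frequencies -/
lemma fr (D : Ds Q X a V) : Fr (1 / (32 * (Q:ℝ))) X (2 * X ^ (-(1 / (8 * (Q:ℝ)))))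
    (fb Q a V) (fun n => 2 * Real.sqrt (V n)) := by
  have hX := D.hX
  have hQ := D.Q0
  refine ⟨by positivity, ?_, by linarith, by positivity, fun n hn => ?_, fun n hn => ?_⟩
  · rw [div_le_div_iff₀ (by positivity) (by norm_num)]
    linarith
  · have hV := D.Vpos hn
    unfold fb
    rw [abs_mul, abs_of_nonneg (a := V n ^ (-(2 * (Q:ℝ) + 9 / 4))) (by positivity)]
    have h := D.V_rpow_le hn (-(2 * (Q:ℝ) + 9 / 4)) (1 - 1 / (32 * (Q:ℝ))) (by field_simp; ring)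
      (by have : 0 ≤ 1 / (32 * (Q:ℝ)) := by positivity
          linarith)
      (by have : 1 / (32 * (Q:ℝ)) ≤ 1 := by
            rw [div_le_one (by positivity)]
            linarith
          linarith)
    rwa [show -(1 - 1 / (32 * (Q:ℝ))) = -1 + 1 / (32 * (Q:ℝ)) by ring] at h
  · have hn0 : (0:ℝ) < n := by exact_mod_cast hn
    rw [Real.sqrt_eq_rpow, D.Vpow, Real.div_rpow (by positivity) (by positivity), Real.rpow_neg (by linarith : 0 ≤ X)]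
    have e1 : 1 / 2 / (4 * (Q:ℝ)) = 1 / (8 * (Q:ℝ)) := by field_simp; ring
    have e2 : 4 * (1 / (32 * (Q:ℝ))) = 1 / (8 * (Q:ℝ)) := by field_simp; ring
    rw [e1, e2]
    ring

/-- the second order terms are summable -/
lemma summ2 (D : Ds Q X a V) : Summable fun n => |a n * V n ^ 2| * V n ^ (-(2 * (Q:ℝ) + 11 / 4)) := by
  have hX := D.hX
  have hQ := D.Q0
  have h1 : Summable fun n : ℕ => X ^ (2:ℝ) * (n:ℝ) ^ (-(1 + 3 / (32 * (Q:ℝ)))) := by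
    apply Summable.mul_left
    rw [Real.summable_nat_rpow]
    have : 0 < 3 / (32 * (Q:ℝ)) := by positivity
    linarith
  refine Summable.of_nonneg_of_le (fun n => by have := D.Vnn n; positivity) (fun n => ?_) h1
  rcases Nat.eq_zero_or_pos n with h | h
  · rw [h, D.a0, zero_mul, abs_zero, zero_mul]
    positivity
  · apply D.V_rpow_le' h
    · field_simp
      ring
    · have : 3 / (32 * (Q:ℝ)) ≤ 1 := by
        rw [div_le_one (by positivity)]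
        linarith
      linarith
    · positivity

/-- the first order terms -/
lemma sum_first (D : Ds Q X a V) (N : ℕ) :
    ∑ n ∈ Icc 1 N, |a n * V n ^ 2| * V n ^ (-(2 * (Q:ℝ) + 7 / 4)) ≤ X * (32 * Q / 5) * (N:ℝ) ^ (5 / (32 * (Q:ℝ))) := by
  have hX := D.hX
  have hQ := D.Q0
  have h5 : 5 / (32 * (Q:ℝ)) ≤ 1 := by
    rw [div_le_one (by positivity)]
    linarith
  have h50 : 0 < 5 / (32 * (Q:ℝ)) := by positivity
  have h1 : ∀ n ∈ Icc 1 N, |a n * V n ^ 2| * V n ^ (-(2 * (Q:ℝ) + 7 / 4)) ≤ X * (n:ℝ) ^ (-(1 - 5 / (32 * (Q:ℝ)))) := by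
    intro n hn
    apply D.V_rpow_le (mem_Icc.1 hn).1
    · field_simp
      ring
    · linarith
    · linarith
  refine (sum_le_sum h1).trans ?_
  rw [← mul_sum]
  have h2 := sum_pow_le (s := 1 - 5 / (32 * (Q:ℝ))) (by linarith) (by linarith) N
  calc _ ≤ X * ((N:ℝ) ^ (1 - (1 - 5 / (32 * (Q:ℝ)))) / (1 - (1 - 5 / (32 * (Q:ℝ))))) := by gcongr
    _ = _ := by
        rw [sub_sub_cancel]
        field_simp

/-- the squares of the coefficients -/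
lemma b_sq (D : Ds Q X a V) (n : ℕ) : fb Q a V n ^ 2 ≤ X ^ 2 * (n:ℝ) ^ (-(7 / 4) : ℝ) := by
  rcases Nat.eq_zero_or_pos n with h | h
  · unfold fb
    rw [h, D.a0]
    have : 0 ≤ X ^ 2 * ((0:ℕ):ℝ) ^ (-(7 / 4) : ℝ) := by positivity
    simpa using this
  · have hQ := D.Q0
    have hn : (1:ℝ) ≤ n := by exact_mod_cast h
    have h1 := D.fr.bb n h
    rw [← sq_abs]
    calc |fb Q a V n| ^ 2 ≤ (X * (n:ℝ) ^ (-1 + 1 / (32 * (Q:ℝ)))) ^ 2 := by gcongr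
      _ = X ^ 2 * (n:ℝ) ^ ((-1 + 1 / (32 * (Q:ℝ))) * 2) := by
          rw [mul_pow, ← Real.rpow_mul_natCast (by positivity)]
          norm_cast
      _ ≤ X ^ 2 * (n:ℝ) ^ (-(7 / 4) : ℝ) := by
          apply mul_le_mul_of_nonneg_left _ (by positivity)
          apply Real.rpow_le_rpow_of_exponent_le hn
          have : 1 / (32 * (Q:ℝ)) ≤ 1 / 128 := by
            rw [div_le_div_iff₀ (by positivity) (by norm_num)]
            linarith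
          linarith

lemma b_summ (D : Ds Q X a V) : Summable fun n => fb Q a V n ^ 2 := by
  refine Summable.of_nonneg_of_le (fun n => sq_nonneg _) (fun n => D.b_sq n) ?_
  apply Summable.mul_left
  rw [Real.summable_nat_rpow]
  norm_num

/-- the tail of the squares -/
lemma b_tail (D : Ds Q X a V) {N₁ : ℕ} (hN : 1 ≤ N₁) {I : Finset ℕ} (hI : ∀ n ∈ I, N₁ < n) :
    ∑ n ∈ I, fb Q a V n ^ 2 ≤ X ^ 2 * (∑' n : ℕ, (n:ℝ) ^ (-(5 / 4) : ℝ)) * (N₁:ℝ) ^ (-(1 / 2) : ℝ) := by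
  have hN0 : (0:ℝ) < N₁ := by exact_mod_cast hN
  have hs : Summable fun n : ℕ => (n:ℝ) ^ (-(5 / 4) : ℝ) := by
    rw [Real.summable_nat_rpow]
    norm_num
  have h1 : ∀ n ∈ I, fb Q a V n ^ 2 ≤ X ^ 2 * (N₁:ℝ) ^ (-(1 / 2) : ℝ) * (n:ℝ) ^ (-(5 / 4) : ℝ) := by
    intro n hn
    have hlt := hI n hn
    have hn0 : (0:ℝ) < n := by exact_mod_cast (by omega : 0 < n)
    refine (D.b_sq n).trans ?_
    have e : (n:ℝ) ^ (-(7 / 4) : ℝ) = (n:ℝ) ^ (-(1 / 2) : ℝ) * (n:ℝ) ^ (-(5 / 4) : ℝ) := by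
      rw [← Real.rpow_add hn0]
      norm_num
    rw [e, mul_assoc]
    have h2 : (n:ℝ) ^ (-(1 / 2) : ℝ) ≤ (N₁:ℝ) ^ (-(1 / 2) : ℝ) :=
      Real.rpow_le_rpow_of_nonpos hN0 (by exact_mod_cast hlt.le) (by norm_num)
    gcongr
  refine (sum_le_sum h1).trans ?_
  rw [← mul_sum]
  calc _ ≤ X ^ 2 * (N₁:ℝ) ^ (-(1 / 2) : ℝ) * ∑' n : ℕ, (n:ℝ) ^ (-(5 / 4) : ℝ) := by
        gcongr
        exact hs.sum_le_tsum _ fun n _ => by positivity
    _ = _ := by ring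

/-- the asymptotics of the finite sums -/
lemma GK_asym (D : Ds Q X a V) : ∃ A₀ ω C : ℝ, 0 < A₀ ∧ 0 ≤ C ∧ ∀ (I : Finset ℕ) (v : ℝ), (∀ n ∈ I, 1 ≤ n) → 0 < v →
    |GK (fun n => a n * V n ^ 2) V I (4 * Q + 4) v - A₀ * v ^ (2 * (Q:ℝ) + 7 / 4) *
      SI (fb Q a V) (fun n => 2 * Real.sqrt (V n)) ω I v| ≤ C * v ^ (2 * (Q:ℝ) + 5 / 4) := by
  obtain ⟨A₀, ω, C, hA, hC, h⟩ := Ker_asym (4 * Q + 4)
  set τ := ∑' n, |a n * V n ^ 2| * V n ^ (-(2 * (Q:ℝ) + 11 / 4)) with hτ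
  have hτ0 : 0 ≤ τ := tsum_nonneg fun n => by have := D.Vnn n; positivity
  refine ⟨A₀, ω, C * τ, hA, by positivity, fun I v hI hv => ?_⟩
  unfold GK SI
  rw [mul_sum, ← sum_sub_distrib]
  have h1 : ∀ n ∈ I, |a n * V n ^ 2 * Ker (4 * Q + 4) (V n) v - A₀ * v ^ (2 * (Q:ℝ) + 7 / 4) *
      (fb Q a V n * Real.cos (2 * Real.sqrt (V n) * Real.sqrt v - ω))| ≤
      C * v ^ (2 * (Q:ℝ) + 5 / 4) * (|a n * V n ^ 2| * V n ^ (-(2 * (Q:ℝ) + 11 / 4))) := by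
    intro n hn
    have hVn := D.Vpos (hI n hn)
    have h2 := h (V n) v hVn hv
    rw [show ((4 * Q + 4 : ℕ) : ℝ) / 2 - 1 / 4 = 2 * (Q:ℝ) + 7 / 4 by push_cast; ring,
      show -(((4 * Q + 4 : ℕ) : ℝ) / 2 + 1 / 4) = -(2 * (Q:ℝ) + 9 / 4) by push_cast; ring,
      show ((4 * Q + 4 : ℕ) : ℝ) / 2 - 3 / 4 = 2 * (Q:ℝ) + 5 / 4 by push_cast; ring,
      show -(((4 * Q + 4 : ℕ) : ℝ) / 2 + 3 / 4) = -(2 * (Q:ℝ) + 11 / 4) by push_cast; ring,
      Real.sqrt_mul hVn.le, ← mul_assoc 2] at h2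
    have e : a n * V n ^ 2 * Ker (4 * Q + 4) (V n) v - A₀ * v ^ (2 * (Q:ℝ) + 7 / 4) *
      (fb Q a V n * Real.cos (2 * Real.sqrt (V n) * Real.sqrt v - ω)) = (a n * V n ^ 2) *
      (Ker (4 * Q + 4) (V n) v - A₀ * (v ^ (2 * (Q:ℝ) + 7 / 4) * V n ^ (-(2 * (Q:ℝ) + 9 / 4))) *
        Real.cos (2 * Real.sqrt (V n) * Real.sqrt v - ω)) := by
      unfold fb
      ring
    rw [e, abs_mul]
    calc _ ≤ |a n * V n ^ 2| * (C * (v ^ (2 * (Q:ℝ) + 5 / 4) * V n ^ (-(2 * (Q:ℝ) + 11 / 4)))) := by gcongr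
      _ = _ := by ring
  refine (abs_sum_le_sum_abs _ _).trans ((sum_le_sum h1).trans ?_)
  rw [← mul_sum]
  calc _ ≤ C * v ^ (2 * (Q:ℝ) + 5 / 4) * τ := by
        gcongr
        exact D.summ2.sum_le_tsum _ fun n _ => by have := D.Vnn n; positivity
    _ = _ := by ring

/-- the head of the series -/
lemma head (D : Ds Q X a V) : ∃ C : ℝ, 0 ≤ C ∧ ∀ (N : ℕ) (v : ℝ), 1 ≤ v →
    |sd (GK (fun n => a n * V n ^ 2) V (Icc 1 N) (4 * Q + 6)) v - GK (fun n => a n * V n ^ 2) V (Icc 1 N) (4 * Q + 4) v| ≤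
      C * v ^ (2 * (Q:ℝ) + 5 / 4) * (N:ℝ) ^ (5 / (32 * (Q:ℝ))) := by
  have hX := D.hX
  have hQ := D.Q0
  set K : ℝ := 3 * Real.sqrt (2 * ((4 * Q + 3 : ℕ) : ℝ) + 1) with hK
  have hK0 : 0 < K := by positivity
  refine ⟨2 * K * 3 ^ (2 * (Q:ℝ) + 5 / 4) * (X * (32 * Q / 5)), by positivity, fun N v hv => ?_⟩
  have hv0 : 0 < v := by linarith
  unfold sd
  apply sd_lin (K1 := GK (fun n => a n * V n ^ 2) V (Icc 1 N) (4 * Q + 5)) (GK_cont _ _ _ _)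
    (fun x => GK_deriv _ _ _ _ x) (fun x => GK_deriv _ _ _ _ x)
  intro t ht1 ht2
  have hder : ∀ x ∈ Set.Icc v (v + 2), HasDerivWithinAt (GK (fun n => a n * V n ^ 2) V (Icc 1 N) (4 * Q + 4))
      (GK (fun n => a n * V n ^ 2) V (Icc 1 N) (4 * Q + 3) x) (Set.Icc v (v + 2)) x := fun x _ =>
    (GK_deriv _ _ _ (4 * Q + 3) x).hasDerivWithinAt
  have hbd : ∀ x ∈ Set.Icc v (v + 2), ‖GK (fun n => a n * V n ^ 2) V (Icc 1 N) (4 * Q + 3) x‖ ≤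
      K * 3 ^ (2 * (Q:ℝ) + 5 / 4) * v ^ (2 * (Q:ℝ) + 5 / 4) * (X * (32 * Q / 5) * (N:ℝ) ^ (5 / (32 * (Q:ℝ)))) := by
    intro x hx
    have hx0 : 0 < x := by linarith [hx.1]
    rw [Real.norm_eq_abs]
    unfold GK
    refine (abs_sum_le_sum_abs _ _).trans ?_
    have h3 : ∀ n ∈ Icc 1 N, |a n * V n ^ 2 * Ker (4 * Q + 3) (V n) x| ≤
        K * 3 ^ (2 * (Q:ℝ) + 5 / 4) * v ^ (2 * (Q:ℝ) + 5 / 4) * (|a n * V n ^ 2| * V n ^ (-(2 * (Q:ℝ) + 7 / 4))) := by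
      intro n hn
      have hVn := D.Vpos (mem_Icc.1 hn).1
      have h4 := Ker_dec (4 * Q + 3) hVn hx0
      rw [show ((4 * Q + 3 : ℕ) : ℝ) / 2 - 1 / 4 = 2 * (Q:ℝ) + 5 / 4 by push_cast; ring,
        show -(((4 * Q + 3 : ℕ) : ℝ) / 2 + 1 / 4) = -(2 * (Q:ℝ) + 7 / 4) by push_cast; ring] at h4
      have h5 : x ^ (2 * (Q:ℝ) + 5 / 4) ≤ 3 ^ (2 * (Q:ℝ) + 5 / 4) * v ^ (2 * (Q:ℝ) + 5 / 4) := by
        rw [← Real.mul_rpow (by norm_num) hv0.le]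
        apply Real.rpow_le_rpow hx0.le (by linarith [hx.2]) (by linarith)
      rw [abs_mul]
      calc _ ≤ |a n * V n ^ 2| * (K * (x ^ (2 * (Q:ℝ) + 5 / 4) * V n ^ (-(2 * (Q:ℝ) + 7 / 4)))) := by gcongr
        _ ≤ |a n * V n ^ 2| * (K * ((3 ^ (2 * (Q:ℝ) + 5 / 4) * v ^ (2 * (Q:ℝ) + 5 / 4)) * V n ^ (-(2 * (Q:ℝ) + 7 / 4)))) := by
            gcongr
        _ = _ := by ring
    refine (sum_le_sum h3).trans ?_
    rw [← mul_sum]
    gcongr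
    exact D.sum_first N
  have h6 := Convex.norm_image_sub_le_of_norm_hasDerivWithin_le hder hbd (convex_Icc v (v + 2))
    (Set.left_mem_Icc.2 (by linarith)) (⟨ht1, ht2⟩ : t ∈ Set.Icc v (v + 2))
  rw [Real.norm_eq_abs, Real.norm_eq_abs] at h6
  refine h6.trans ?_
  have h7 : |t - v| ≤ 2 := by
    rw [abs_of_nonneg (by linarith)]
    linarith
  calc _ ≤ K * 3 ^ (2 * (Q:ℝ) + 5 / 4) * v ^ (2 * (Q:ℝ) + 5 / 4) * (X * (32 * Q / 5) * (N:ℝ) ^ (5 / (32 * (Q:ℝ)))) * 2 := by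
        gcongr
    _ = _ := by ring

end Ds

end Pool.Agent.H81.HM
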