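import Pool.Agent.H81.HM.MS3

/-!
# The mean square: the integrals
-/

set_option autoImplicit false

open MeasureTheory Finset

namespace Pool.Agent.H81.HM

open Pool.Agent.H394R3.BC (Ker)

/-- the summatory function -/
noncomputable def ee (Q : ℕ) (X : ℝ) (a : ℕ → ℝ) (v : ℝ) : ℝ := ∑ n ∈ Icc 1 (NN Q X v), a n

lemma bdd_int {g : ℝ → ℝ} (hg : Measurable g) {p q C : ℝ} (hpq : p ≤ q) (hC : ∀ x ∈ Set.Ioc p q, |g x| ≤ C) :
    IntervalIntegrable g volume p q := by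
  rw [intervalIntegrable_iff_integrableOn_Ioc_of_le hpq]
  apply Measure.integrableOn_of_bounded (M := C)
  · rw [Real.volume_Ioc]
    exact ENNReal.ofReal_ne_top
  · exact hg.aestronglyMeasurable
  · rw [ae_restrict_iff' measurableSet_Ioc]
    exact Filter.Eventually.of_forall fun x hx => by rw [Real.norm_eq_abs]; exact hC x hx

variable {Q : ℕ} {X : ℝ} {a V : ℕ → ℝ}

namespace Ds

/-- measurable version of the summatory function -/
lemma e_meas (D : Ds Q X a V) (W : ℝ) : ∃ (g : ℝ → ℝ) (C : ℝ), Measurable g ∧ (∀ x, |g x| ≤ C) ∧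
    ∀ v : ℝ, 0 ≤ v → v ≤ W → ee Q X a v = g v := by
  refine ⟨fun v => ∑ n ∈ Icc 1 (NN Q X W), (Set.Ici (V n)).indicator (fun _ => a n) v,
    ∑ n ∈ Icc 1 (NN Q X W), |a n|, ?_, fun x => ?_, fun v hv hvW => ?_⟩
  · exact Finset.measurable_fun_sum _ fun n _ => measurable_const.indicator measurableSet_Ici
  · refine (abs_sum_le_sum_abs _ _).trans (sum_le_sum fun n _ => ?_)
    unfold Set.indicator
    split_ifs
    · exact le_rfl
    · simp
  · have hsub : Icc 1 (NN Q X v) ⊆ Icc 1 (NN Q X W) := by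
      intro n hn
      rw [mem_Icc] at hn ⊢
      exact ⟨hn.1, hn.2.trans (D.NN_mono hv hvW)⟩
    show ∑ n ∈ Icc 1 (NN Q X v), a n = ∑ n ∈ Icc 1 (NN Q X W), (Set.Ici (V n)).indicator (fun _ => a n) v
    rw [← sum_subset hsub]
    · apply sum_congr rfl
      intro n hn
      have := ((D.mem hv n).1 hn).2
      rw [Set.indicator_of_mem (show v ∈ Set.Ici (V n) from this)]
    · intro n hn hn'
      rw [Set.indicator_of_notMem]
      intro hc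
      exact hn' ((D.mem hv n).2 ⟨(mem_Icc.1 hn).1, hc⟩)

/-- medium frequencies -/
lemma med (D : Ds Q X a V) : ∃ C : ℝ, 0 ≤ C ∧ ∀ (N₁ N : ℕ) (W : ℝ), 1 ≤ N₁ → 1 ≤ W →
    ∫ v in (1:ℝ)..W, v ^ (4 * (Q:ℝ) - 5) * sd (GK (fun n => a n * V n ^ 2) V (Ioc N₁ N) (4 * Q + 6)) v ^ 2 ≤
      C * (W ^ (8 * (Q:ℝ) - 1 / 2) * (N₁:ℝ) ^ (-(1 / 2) : ℝ) + W ^ (8 * (Q:ℝ) - 1)) := by
  have hX := D.hX
  have hQ := D.Q0
  obtain ⟨A₀, ω, C, hA, hC0, hC⟩ := D.GK_asym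
  obtain ⟨C', hC'0, hC'⟩ := D.fr.orth ω (P := 8 * (Q:ℝ) - 3 / 2) (by linarith)
  set S5 := ∑' n : ℕ, (n:ℝ) ^ (-(5 / 4) : ℝ) with hS5
  have hS50 : 0 ≤ S5 := tsum_nonneg fun n => by positivity
  refine ⟨4 * (A₀ ^ 2 * (X ^ 2 * S5) + A₀ ^ 2 * C' + C ^ 2) * 3 ^ (8 * (Q:ℝ) - 1 / 2), by positivity,
    fun N₁ N W hN hW => ?_⟩
  set I := Ioc N₁ N with hI
  set g := GK (fun n => a n * V n ^ 2) V I (4 * Q + 4) with hg
  have hgc : Continuous g := GK_cont _ _ _ _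
  set f : ℝ → ℝ := fun t => t ^ (4 * (Q:ℝ) - 5) * g t ^ 2 with hf
  have hfc : Continuous f := (Real.continuous_rpow_const (by linarith)).mul (hgc.pow 2)
  have hf0 : ∀ t, 1 ≤ t → 0 ≤ f t := fun t ht => by simp only [hf]; positivity
  have hI1 : ∀ n ∈ I, 1 ≤ n := by
    intro n hn
    rw [hI, mem_Ioc] at hn
    omega
  have hsub : I ⊆ Icc 1 N := by
    intro n hn
    rw [hI, mem_Ioc] at hn
    rw [mem_Icc]
    omega
  set T := SI (fb Q a V) (fun n => 2 * Real.sqrt (V n)) ω I with hT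
  have hTc : Continuous T := SI_cont _ _ _ _
  have hsdc : Continuous (sd (GK (fun n => a n * V n ^ 2) V I (4 * Q + 6))) := by
    have h := GK_cont (fun n => a n * V n ^ 2) V I (4 * Q + 6)
    unfold sd
    fun_prop
  -- step a, b
  have hab : ∫ v in (1:ℝ)..W, v ^ (4 * (Q:ℝ) - 5) * sd (GK (fun n => a n * V n ^ 2) V I (4 * Q + 6)) v ^ 2 ≤
      2 * ∫ t in (1:ℝ)..(W + 2), f t := by
    refine le_trans ?_ (shift_int hfc hf0 hW)
    apply intervalIntegral.integral_mono_on hW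
    · apply Continuous.intervalIntegrable
      exact (Real.continuous_rpow_const (by linarith)).mul (hsdc.pow 2)
    · apply Continuous.intervalIntegrable
      have h1 : (fun v : ℝ => ∫ t in v..(v + 2), f t) = fun v => (∫ t in (0:ℝ)..(v + 2), f t) - ∫ t in (0:ℝ)..v, f t := by
        funext v
        rw [intervalIntegral.integral_interval_sub_left (hfc.intervalIntegrable (μ := volume) _ _)
          (hfc.intervalIntegrable (μ := volume) _ _)]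
      rw [h1]
      have h2 := intervalIntegral.continuous_primitive (μ := volume) (fun a b => hfc.intervalIntegrable a b) 0
      exact (h2.comp (continuous_id.add continuous_const)).sub h2
    · intro v hv
      have hv1 : 1 ≤ v := hv.1
      have h1 := sd_sq (K1 := GK (fun n => a n * V n ^ 2) V I (4 * Q + 5)) (K2 := GK (fun n => a n * V n ^ 2) V I (4 * Q + 6))
        hgc (fun x => GK_deriv _ _ _ _ x) (fun x => GK_deriv _ _ _ _ x) v
      calc v ^ (4 * (Q:ℝ) - 5) * sd (GK (fun n => a n * V n ^ 2) V I (4 * Q + 6)) v ^ 2 ≤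
          v ^ (4 * (Q:ℝ) - 5) * ∫ t in v..(v + 2), g t ^ 2 := by
            unfold sd
            gcongr
        _ = ∫ t in v..(v + 2), v ^ (4 * (Q:ℝ) - 5) * g t ^ 2 := by rw [intervalIntegral.integral_const_mul]
        _ ≤ ∫ t in v..(v + 2), f t := by
            apply intervalIntegral.integral_mono_on (by linarith)
            · exact ((hgc.pow 2).const_smul (v ^ (4 * (Q:ℝ) - 5))).intervalIntegrable _ _
            · exact hfc.intervalIntegrable _ _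
            · intro t ht
              simp only [hf]
              apply mul_le_mul_of_nonneg_right _ (sq_nonneg _)
              exact Real.rpow_le_rpow (by linarith) ht.1 (by linarith)
  -- step c
  have hstep : ∀ t ∈ Set.Icc 1 (W + 2), f t ≤ 2 * A₀ ^ 2 * (t ^ (8 * (Q:ℝ) - 3 / 2) * T t ^ 2) +
      2 * C ^ 2 * t ^ (8 * (Q:ℝ) - 5 / 2) := by
    intro t ht
    have ht0 : 0 < t := by linarith [ht.1]
    have h1 := hC I t hI1 ht0
    rw [← hg, ← hT] at h1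
    have h2 : g t ^ 2 ≤ 2 * (A₀ * t ^ (2 * (Q:ℝ) + 7 / 4) * T t) ^ 2 + 2 * (C * t ^ (2 * (Q:ℝ) + 5 / 4)) ^ 2 := by
      have h3 : (g t - A₀ * t ^ (2 * (Q:ℝ) + 7 / 4) * T t) ^ 2 ≤ (C * t ^ (2 * (Q:ℝ) + 5 / 4)) ^ 2 := by
        rw [← sq_abs]
        gcongr
      nlinarith [sq_nonneg (g t - 2 * (A₀ * t ^ (2 * (Q:ℝ) + 7 / 4) * T t))]
    have e1 : t ^ (4 * (Q:ℝ) - 5) * (t ^ (2 * (Q:ℝ) + 7 / 4)) ^ 2 = t ^ (8 * (Q:ℝ) - 3 / 2) := by
      rw [← Real.rpow_mul_natCast ht0.le, ← Real.rpow_add ht0]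
      congr 1
      push_cast
      ring
    have e2 : t ^ (4 * (Q:ℝ) - 5) * (t ^ (2 * (Q:ℝ) + 5 / 4)) ^ 2 = t ^ (8 * (Q:ℝ) - 5 / 2) := by
      rw [← Real.rpow_mul_natCast ht0.le, ← Real.rpow_add ht0]
      congr 1
      push_cast
      ring
    simp only [hf]
    calc t ^ (4 * (Q:ℝ) - 5) * g t ^ 2 ≤ t ^ (4 * (Q:ℝ) - 5) *
          (2 * (A₀ * t ^ (2 * (Q:ℝ) + 7 / 4) * T t) ^ 2 + 2 * (C * t ^ (2 * (Q:ℝ) + 5 / 4)) ^ 2) := by gcongr
      _ = 2 * A₀ ^ 2 * ((t ^ (4 * (Q:ℝ) - 5) * (t ^ (2 * (Q:ℝ) + 7 / 4)) ^ 2) * T t ^ 2) +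
          2 * C ^ 2 * (t ^ (4 * (Q:ℝ) - 5) * (t ^ (2 * (Q:ℝ) + 5 / 4)) ^ 2) := by ring
      _ = _ := by rw [e1, e2]
  have hW2 : 1 ≤ W + 2 := by linarith
  have hi1 : IntervalIntegrable (fun t : ℝ => t ^ (8 * (Q:ℝ) - 3 / 2) * T t ^ 2) volume 1 (W + 2) := by
    apply Continuous.intervalIntegrable
    exact (Real.continuous_rpow_const (by linarith)).mul (hTc.pow 2)
  have hi2 : IntervalIntegrable (fun t : ℝ => t ^ (8 * (Q:ℝ) - 5 / 2)) volume 1 (W + 2) := by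
    apply Continuous.intervalIntegrable
    exact Real.continuous_rpow_const (by linarith)
  have hintf : ∫ t in (1:ℝ)..(W + 2), f t ≤ 2 * A₀ ^ 2 * (∫ t in (1:ℝ)..(W + 2), t ^ (8 * (Q:ℝ) - 3 / 2) * T t ^ 2) +
      2 * C ^ 2 * ∫ t in (1:ℝ)..(W + 2), t ^ (8 * (Q:ℝ) - 5 / 2) := by
    rw [← intervalIntegral.integral_const_mul, ← intervalIntegral.integral_const_mul, ← intervalIntegral.integral_add]
    · exact intervalIntegral.integral_mono_on hW2 (hfc.intervalIntegrable _ _)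
        ((hi1.const_mul _).add (hi2.const_mul _)) hstep
    · exact hi1.const_mul _
    · exact hi2.const_mul _
  have hpowint : ∀ P : ℝ, 0 ≤ P → ∫ t in (1:ℝ)..(W + 2), t ^ P ≤ (W + 2) ^ (P + 1) := by
    intro P hP
    rw [integral_rpow (Or.inl (by linarith)), Real.one_rpow]
    have h1 : 0 ≤ (W + 2) ^ (P + 1) := by positivity
    rw [div_le_iff₀ (by linarith)]
    nlinarith
  have ho := hC' N I hsub (W + 2) hW2
  rw [← hT] at ho
  have hb := D.b_tail hN (I := I) (fun n hn => (mem_Ioc.1 hn).1)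
  rw [← hS5] at hb
  have hb0 : 0 ≤ ∑ n ∈ I, fb Q a V n ^ 2 := sum_nonneg fun n _ => sq_nonneg _
  have hb1 : 0 ≤ X ^ 2 * S5 * (N₁:ℝ) ^ (-(1 / 2) : ℝ) := by positivity
  have h3 : ∫ t in (1:ℝ)..(W + 2), t ^ (8 * (Q:ℝ) - 3 / 2) * T t ^ 2 ≤
      1 / 2 * (X ^ 2 * S5 * (N₁:ℝ) ^ (-(1 / 2) : ℝ)) * (W + 2) ^ (8 * (Q:ℝ) - 1 / 2) + C' * (W + 2) ^ (8 * (Q:ℝ) - 1) := by
    have h4 := hpowint (8 * (Q:ℝ) - 3 / 2) (by linarith)
    rw [show 8 * (Q:ℝ) - 3 / 2 + 1 = 8 * (Q:ℝ) - 1 / 2 by ring] at h4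
    rw [show 8 * (Q:ℝ) - 3 / 2 + 1 / 2 = 8 * (Q:ℝ) - 1 by ring] at ho
    have h5 := (abs_le.1 ho).2
    have h6 : 1 / 2 * (∑ n ∈ I, fb Q a V n ^ 2) * ∫ t in (1:ℝ)..(W + 2), t ^ (8 * (Q:ℝ) - 3 / 2) ≤
        1 / 2 * (X ^ 2 * S5 * (N₁:ℝ) ^ (-(1 / 2) : ℝ)) * (W + 2) ^ (8 * (Q:ℝ) - 1 / 2) := by
      apply mul_le_mul _ h4 _ (by positivity)
      · gcongr
      · apply intervalIntegral.integral_nonneg hW2
        intro t ht
        have : 0 < t := by linarith [ht.1]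
        positivity
    linarith
  have h7 := hpowint (8 * (Q:ℝ) - 5 / 2) (by linarith)
  rw [show 8 * (Q:ℝ) - 5 / 2 + 1 = 8 * (Q:ℝ) - 3 / 2 by ring] at h7
  have hW3 : ∀ P : ℝ, 0 ≤ P → P ≤ 8 * (Q:ℝ) - 1 / 2 → (W + 2) ^ P ≤ 3 ^ (8 * (Q:ℝ) - 1 / 2) * W ^ P := by
    intro P hP hP2
    calc (W + 2) ^ P ≤ (3 * W) ^ P := Real.rpow_le_rpow (by linarith) (by linarith) hP
      _ = 3 ^ P * W ^ P := Real.mul_rpow (by norm_num) (by linarith)
      _ ≤ _ := by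
          gcongr
          norm_num
  have h8 := hW3 (8 * (Q:ℝ) - 1 / 2) (by linarith) le_rfl
  have h9 := hW3 (8 * (Q:ℝ) - 1) (by linarith) (by linarith)
  have h10 := hW3 (8 * (Q:ℝ) - 3 / 2) (by linarith) (by linarith)
  have h11 : W ^ (8 * (Q:ℝ) - 3 / 2) ≤ W ^ (8 * (Q:ℝ) - 1) := Real.rpow_le_rpow_of_exponent_le hW (by linarith)
  have hW0 : 0 < W := by linarith
  calc _ ≤ 2 * ∫ t in (1:ℝ)..(W + 2), f t := hab
    _ ≤ 2 * (2 * A₀ ^ 2 * (1 / 2 * (X ^ 2 * S5 * (N₁:ℝ) ^ (-(1 / 2) : ℝ)) * (3 ^ (8 * (Q:ℝ) - 1 / 2) * W ^ (8 * (Q:ℝ) - 1 / 2)) +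
        C' * (3 ^ (8 * (Q:ℝ) - 1 / 2) * W ^ (8 * (Q:ℝ) - 1))) + 2 * C ^ 2 * (3 ^ (8 * (Q:ℝ) - 1 / 2) * W ^ (8 * (Q:ℝ) - 1))) := by
        refine mul_le_mul_of_nonneg_left (hintf.trans (add_le_add ?_ ?_)) (by norm_num)
        · refine mul_le_mul_of_nonneg_left (h3.trans (add_le_add ?_ ?_)) (by positivity)
          · exact mul_le_mul_of_nonneg_left h8 (by positivity)
          · exact mul_le_mul_of_nonneg_left h9 hC'0
        · refine mul_le_mul_of_nonneg_left (h7.trans (h10.trans ?_)) (by positivity)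
          exact mul_le_mul_of_nonneg_left h11 (by positivity)
    _ ≤ _ := by
        have hn : 0 ≤ (N₁:ℝ) ^ (-(1 / 2) : ℝ) := by positivity
        have p1 : 0 ≤ W ^ (8 * (Q:ℝ) - 1 / 2) := by positivity
        have p2 : 0 ≤ W ^ (8 * (Q:ℝ) - 1) := by positivity
        have p3 : (0:ℝ) ≤ 3 ^ (8 * (Q:ℝ) - 1 / 2) := by positivity
        set n1 := (N₁:ℝ) ^ (-(1 / 2) : ℝ)
        set w1 := W ^ (8 * (Q:ℝ) - 1 / 2)
        set w2 := W ^ (8 * (Q:ℝ) - 1)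
        set t3 := (3:ℝ) ^ (8 * (Q:ℝ) - 1 / 2)
        have q1 : 0 ≤ A₀ ^ 2 * (X ^ 2 * S5) * t3 * w1 * n1 := by positivity
        have q2 : 0 ≤ A₀ ^ 2 * (X ^ 2 * S5) * t3 * w2 := by positivity
        have q3 : 0 ≤ A₀ ^ 2 * C' * t3 * w1 * n1 := by positivity
        have q4 : 0 ≤ C ^ 2 * t3 * w1 * n1 := by positivity
        nlinarith

end Ds

end Pool.Agent.H81.HM
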