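import Pool.Agent.H81.HM.MS4

/-!
# The mean square: conclusion in the variable `v`
-/

set_option autoImplicit false

open MeasureTheory Finset

namespace Pool.Agent.H81.HM

open Pool.Agent.H394R3.BC (Ker)

variable {Q : ℕ} {X : ℝ} {a V : ℕ → ℝ}

lemma GK_union (A u : ℕ → ℝ) {N₁ N : ℕ} (h : N₁ ≤ N) (m : ℕ) (v : ℝ) :
    GK A u (Icc 1 N) m v = GK A u (Icc 1 N₁) m v + GK A u (Ioc N₁ N) m v := by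
  unfold GK
  have hsplit : Icc 1 N = Icc 1 N₁ ∪ Ioc N₁ N := by
    ext n
    simp only [mem_Icc, mem_union, mem_Ioc]
    omega
  have hdisj : Disjoint (Icc 1 N₁) (Ioc N₁ N) := by
    rw [disjoint_left]
    intro n
    simp only [mem_Icc, mem_Ioc]
    omega
  rw [hsplit, sum_union hdisj]

namespace Ds

/-- the pointwise bound -/
lemma pb (D : Ds Q X a V) : ∃ A₀ ω C : ℝ, 0 < A₀ ∧ 0 ≤ C ∧ ∀ W : ℝ, 1 ≤ W → ∃ N₁ N : ℕ, 1 ≤ N₁ ∧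
    W ^ (1 / 16 : ℝ) ≤ 2 * N₁ ∧ ∀ v : ℝ, 1 ≤ v → v ≤ W →
    |ee Q X a v - A₀ * v ^ (2 * (Q:ℝ) - 1 / 4) * SI (fb Q a V) (fun n => 2 * Real.sqrt (V n)) ω (Icc 1 N₁) v -
      v⁻¹ ^ 2 * sd (GK (fun n => a n * V n ^ 2) V (Ioc N₁ N) (4 * Q + 6)) v| ≤ C * W ^ (2 * (Q:ℝ) - 7 / 16) := by
  have hX := D.hX
  have hQ := D.Q0
  obtain ⟨A₀, ω, C₁, hA, hC₁0, hC₁⟩ := D.GK_asym
  obtain ⟨C₂, hC₂0, hC₂⟩ := D.approx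
  obtain ⟨C₃, hC₃0, hC₃⟩ := D.head
  refine ⟨A₀, ω, C₂ + 4 * 3 ^ (2 * (Q:ℝ) + 11 / 4) + C₃ + C₁, hA, by positivity, fun W hW => ?_⟩
  have hW0 : 0 < W := by linarith
  obtain ⟨N₀, hN₀⟩ := D.tail (η := W⁻¹ ^ 2) (by positivity)
  set N₁ := ⌊W ^ (1 / 16 : ℝ)⌋₊ with hN₁
  have hWp : 1 ≤ W ^ (1 / 16 : ℝ) := Real.one_le_rpow hW (by norm_num)
  have hN₁1 : 1 ≤ N₁ := by
    rw [hN₁, Nat.le_floor_iff (by linarith)]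
    simpa using hWp
  have hN₁R : (1:ℝ) ≤ N₁ := by exact_mod_cast hN₁1
  have hN₁u : (N₁:ℝ) ≤ W ^ (1 / 16 : ℝ) := Nat.floor_le (by linarith)
  refine ⟨N₁, max N₀ N₁, hN₁1, ?_, fun v hv hvW => ?_⟩
  · have := Nat.lt_floor_add_one (W ^ (1 / 16 : ℝ))
    rw [← hN₁] at this
    linarith
  have hv0 : 0 < v := by linarith
  set N := max N₀ N₁ with hN
  have t1 := hC₂ v hv
  have t2 : |DD (fun n => a n * V n ^ 2) V v - sd (GK (fun n => a n * V n ^ 2) V (Icc 1 N) (4 * Q + 6)) v| ≤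
      4 * (W⁻¹ ^ 2 * (3 ^ (2 * (Q:ℝ) + 11 / 4) * v ^ (2 * (Q:ℝ) + 11 / 4))) := by
    unfold DD sd
    rw [D.riesz (by linarith : 0 < v + 2), D.riesz (by linarith : 0 < v + 1), D.riesz hv0]
    have h1 := hN₀ N (le_max_left _ _) (v + 2) (by linarith)
    have h2 := hN₀ N (le_max_left _ _) (v + 1) (by linarith)
    have h3 := hN₀ N (le_max_left _ _) v hv0
    have hp : ∀ x : ℝ, 0 ≤ x → x ≤ 3 * v → W⁻¹ ^ 2 * x ^ (2 * (Q:ℝ) + 11 / 4) ≤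
        W⁻¹ ^ 2 * (3 ^ (2 * (Q:ℝ) + 11 / 4) * v ^ (2 * (Q:ℝ) + 11 / 4)) := by
      intro x hx hx3
      rw [← Real.mul_rpow (by norm_num) hv0.le]
      gcongr
    have p1 := hp (v + 2) (by linarith) (by linarith)
    have p2 := hp (v + 1) (by linarith) (by linarith)
    have p3 := hp v (by linarith) (by linarith)
    set B := W⁻¹ ^ 2 * (3 ^ (2 * (Q:ℝ) + 11 / 4) * v ^ (2 * (Q:ℝ) + 11 / 4))
    rw [abs_le] at h1 h2 h3 ⊢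
    constructor <;> linarith [h1.1, h1.2, h2.1, h2.2, h3.1, h3.2]
  have t3 := hC₃ N₁ v hv
  have t4 := hC₁ (Icc 1 N₁) v (fun n hn => (mem_Icc.1 hn).1) hv0
  have t5 : sd (GK (fun n => a n * V n ^ 2) V (Icc 1 N) (4 * Q + 6)) v =
      sd (GK (fun n => a n * V n ^ 2) V (Icc 1 N₁) (4 * Q + 6)) v + sd (GK (fun n => a n * V n ^ 2) V (Ioc N₁ N) (4 * Q + 6)) v := by
    unfold sd
    rw [GK_union _ _ (le_max_right N₀ N₁), GK_union _ _ (le_max_right N₀ N₁), GK_union _ _ (le_max_right N₀ N₁)]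
    ring
  have hvi : v⁻¹ ^ 2 * v ^ (2 * (Q:ℝ) + 7 / 4) = v ^ (2 * (Q:ℝ) - 1 / 4) := by
    rw [show 2 * (Q:ℝ) - 1 / 4 = 2 * (Q:ℝ) + 7 / 4 - (2:ℕ) by push_cast; ring, Real.rpow_sub_natCast hv0.ne', inv_pow]
    ring
  set dd := DD (fun n => a n * V n ^ 2) V v
  set s0 := sd (GK (fun n => a n * V n ^ 2) V (Icc 1 N) (4 * Q + 6)) v
  set s1 := sd (GK (fun n => a n * V n ^ 2) V (Icc 1 N₁) (4 * Q + 6)) v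
  set s2 := sd (GK (fun n => a n * V n ^ 2) V (Ioc N₁ N) (4 * Q + 6)) v
  set g1 := GK (fun n => a n * V n ^ 2) V (Icc 1 N₁) (4 * Q + 4) v
  set S := SI (fb Q a V) (fun n => 2 * Real.sqrt (V n)) ω (Icc 1 N₁) v
  have e : ee Q X a v - A₀ * v ^ (2 * (Q:ℝ) - 1 / 4) * S - v⁻¹ ^ 2 * s2 =
      (∑ n ∈ Icc 1 (NN Q X v), a n - v⁻¹ ^ 2 * dd) + v⁻¹ ^ 2 * ((dd - s0) + (s1 - g1) + (g1 - A₀ * v ^ (2 * (Q:ℝ) + 7 / 4) * S)) := by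
    rw [← hvi]
    unfold ee
    rw [t5]
    ring
  rw [e]
  have q1 : v ^ (2 * (Q:ℝ) - 7 / 16) ≤ W ^ (2 * (Q:ℝ) - 7 / 16) := Real.rpow_le_rpow hv0.le hvW (by linarith)
  have q2 : v⁻¹ ^ 2 * (4 * (W⁻¹ ^ 2 * (3 ^ (2 * (Q:ℝ) + 11 / 4) * v ^ (2 * (Q:ℝ) + 11 / 4)))) ≤
      4 * 3 ^ (2 * (Q:ℝ) + 11 / 4) * W ^ (2 * (Q:ℝ) - 7 / 16) := by
    have h1 : v⁻¹ ^ 2 * v ^ (2 * (Q:ℝ) + 11 / 4) ≤ W ^ (2 * (Q:ℝ) + 3 / 4) := by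
      have h2 : v⁻¹ ^ 2 * v ^ (2 * (Q:ℝ) + 11 / 4) = v ^ (2 * (Q:ℝ) + 3 / 4) := by
        rw [show 2 * (Q:ℝ) + 3 / 4 = 2 * (Q:ℝ) + 11 / 4 - (2:ℕ) by push_cast; ring, Real.rpow_sub_natCast hv0.ne', inv_pow]
        ring
      rw [h2]
      exact Real.rpow_le_rpow hv0.le hvW (by linarith)
    have h3 : W⁻¹ ^ 2 * W ^ (2 * (Q:ℝ) + 3 / 4) ≤ W ^ (2 * (Q:ℝ) - 7 / 16) := by
      have h2 : W⁻¹ ^ 2 * W ^ (2 * (Q:ℝ) + 3 / 4) = W ^ (2 * (Q:ℝ) - 5 / 4) := by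
        rw [show 2 * (Q:ℝ) - 5 / 4 = 2 * (Q:ℝ) + 3 / 4 - (2:ℕ) by push_cast; ring, Real.rpow_sub_natCast hW0.ne', inv_pow]
        ring
      rw [h2]
      exact Real.rpow_le_rpow_of_exponent_le hW (by linarith)
    calc _ = 4 * 3 ^ (2 * (Q:ℝ) + 11 / 4) * (W⁻¹ ^ 2 * (v⁻¹ ^ 2 * v ^ (2 * (Q:ℝ) + 11 / 4))) := by ring
      _ ≤ 4 * 3 ^ (2 * (Q:ℝ) + 11 / 4) * (W⁻¹ ^ 2 * W ^ (2 * (Q:ℝ) + 3 / 4)) := by gcongr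
      _ ≤ _ := by gcongr
  have q34 : v⁻¹ ^ 2 * v ^ (2 * (Q:ℝ) + 5 / 4) = v ^ (2 * (Q:ℝ) - 3 / 4) := by
    rw [show 2 * (Q:ℝ) - 3 / 4 = 2 * (Q:ℝ) + 5 / 4 - (2:ℕ) by push_cast; ring, Real.rpow_sub_natCast hv0.ne', inv_pow]
    ring
  have q3 : v⁻¹ ^ 2 * (C₃ * v ^ (2 * (Q:ℝ) + 5 / 4) * (N₁:ℝ) ^ (5 / (32 * (Q:ℝ)))) ≤ C₃ * W ^ (2 * (Q:ℝ) - 7 / 16) := by
    have h1 : (N₁:ℝ) ^ (5 / (32 * (Q:ℝ))) ≤ W ^ (1 / 16 : ℝ) := by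
      calc (N₁:ℝ) ^ (5 / (32 * (Q:ℝ))) ≤ (N₁:ℝ) ^ (1:ℝ) := by
            apply Real.rpow_le_rpow_of_exponent_le hN₁R
            rw [div_le_one (by positivity)]
            linarith
        _ = N₁ := Real.rpow_one _
        _ ≤ _ := hN₁u
    have h2 : v ^ (2 * (Q:ℝ) - 3 / 4) ≤ W ^ (2 * (Q:ℝ) - 3 / 4) := Real.rpow_le_rpow hv0.le hvW (by linarith)
    calc _ = C₃ * (v⁻¹ ^ 2 * v ^ (2 * (Q:ℝ) + 5 / 4)) * (N₁:ℝ) ^ (5 / (32 * (Q:ℝ))) := by ring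
      _ ≤ C₃ * W ^ (2 * (Q:ℝ) - 3 / 4) * W ^ (1 / 16 : ℝ) := by rw [q34]; gcongr
      _ = C₃ * W ^ (2 * (Q:ℝ) - 3 / 4 + 1 / 16) := by rw [mul_assoc, ← Real.rpow_add hW0]
      _ ≤ _ := by
          apply mul_le_mul_of_nonneg_left _ hC₃0
          exact Real.rpow_le_rpow_of_exponent_le hW (by linarith)
  have q4 : v⁻¹ ^ 2 * (C₁ * v ^ (2 * (Q:ℝ) + 5 / 4)) ≤ C₁ * W ^ (2 * (Q:ℝ) - 7 / 16) := by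
    calc _ = C₁ * (v⁻¹ ^ 2 * v ^ (2 * (Q:ℝ) + 5 / 4)) := by ring
      _ = C₁ * v ^ (2 * (Q:ℝ) - 3 / 4) := by rw [q34]
      _ ≤ C₁ * W ^ (2 * (Q:ℝ) - 3 / 4) := by
          apply mul_le_mul_of_nonneg_left _ hC₁0
          exact Real.rpow_le_rpow hv0.le hvW (by linarith)
      _ ≤ _ := by
          apply mul_le_mul_of_nonneg_left _ hC₁0
          exact Real.rpow_le_rpow_of_exponent_le hW (by linarith)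
  have hvi0 : 0 ≤ v⁻¹ ^ 2 := by positivity
  calc _ ≤ C₂ * v ^ (2 * (Q:ℝ) - 7 / 16) + v⁻¹ ^ 2 * ((4 * (W⁻¹ ^ 2 * (3 ^ (2 * (Q:ℝ) + 11 / 4) * v ^ (2 * (Q:ℝ) + 11 / 4)))) +
        (C₃ * v ^ (2 * (Q:ℝ) + 5 / 4) * (N₁:ℝ) ^ (5 / (32 * (Q:ℝ)))) + (C₁ * v ^ (2 * (Q:ℝ) + 5 / 4))) := by
        refine (abs_add_le _ _).trans (add_le_add t1 ?_)
        rw [abs_mul, abs_of_nonneg hvi0]
        apply mul_le_mul_of_nonneg_left _ hvi0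
        refine (abs_add_le _ _).trans (add_le_add ((abs_add_le _ _).trans (add_le_add t2 t3)) t4)
    _ = C₂ * v ^ (2 * (Q:ℝ) - 7 / 16) + (v⁻¹ ^ 2 * (4 * (W⁻¹ ^ 2 * (3 ^ (2 * (Q:ℝ) + 11 / 4) * v ^ (2 * (Q:ℝ) + 11 / 4)))) +
        v⁻¹ ^ 2 * (C₃ * v ^ (2 * (Q:ℝ) + 5 / 4) * (N₁:ℝ) ^ (5 / (32 * (Q:ℝ)))) + v⁻¹ ^ 2 * (C₁ * v ^ (2 * (Q:ℝ) + 5 / 4))) := by ring
    _ ≤ C₂ * W ^ (2 * (Q:ℝ) - 7 / 16) + (4 * 3 ^ (2 * (Q:ℝ) + 11 / 4) * W ^ (2 * (Q:ℝ) - 7 / 16) +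
        C₃ * W ^ (2 * (Q:ℝ) - 7 / 16) + C₁ * W ^ (2 * (Q:ℝ) - 7 / 16)) := by
        gcongr
    _ = _ := by ring

end Ds

end Pool.Agent.H81.HM
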