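import Pool.Agent.H81.HM.MS5

/-!
# The mean square: conclusion in the variable `v`
-/

set_option autoImplicit false

open MeasureTheory Finset

namespace Pool.Agent.H81.HM

open Pool.Agent.H394R3.BC (Ker)

variable {Q : ℕ} {X : ℝ} {a V : ℕ → ℝ}

namespace Ds

lemma beta_le (D : Ds Q X a V) {N₁ : ℕ} (hN : 1 ≤ N₁) : ∑' n, fb Q a V n ^ 2 ≤ ∑ n ∈ Icc 1 N₁, fb Q a V n ^ 2 +
    X ^ 2 * (∑' n : ℕ, (n:ℝ) ^ (-(5 / 4) : ℝ)) * (N₁:ℝ) ^ (-(1 / 2) : ℝ) := by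
  apply D.b_summ.tsum_le_of_sum_le
  intro s
  rw [← sum_filter_add_sum_filter_not s (fun n => n ≤ N₁)]
  apply add_le_add
  · have h0 : fb Q a V 0 ^ 2 = 0 := by
      unfold fb
      rw [D.a0]
      ring
    have h1 : ∑ n ∈ Icc 1 N₁, fb Q a V n ^ 2 = ∑ n ∈ insert 0 (Icc 1 N₁), fb Q a V n ^ 2 := by
      rw [sum_insert (by simp), h0, zero_add]
    rw [h1]
    apply sum_le_sum_of_subset_of_nonneg
    · intro n hn
      rw [mem_filter] at hn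
      rw [mem_insert, mem_Icc]
      omega
    · intro n _ _
      exact sq_nonneg _
  · apply D.b_tail hN
    intro n hn
    rw [mem_filter] at hn
    omega

lemma beta_pos (D : Ds Q X a V) : 0 < ∑' n, fb Q a V n ^ 2 := by
  apply D.b_summ.tsum_pos (fun n => sq_nonneg _) 1
  have h1 := D.Vpos le_rfl
  have h2 := D.a1
  unfold fb
  positivity

/-- the mean square in the variable `v` -/
theorem msv (D : Ds Q X a V) : ∃ C K : ℝ, 0 < C ∧ 0 ≤ K ∧ ∀ W : ℝ, 1 ≤ W →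
    |(∫ v in (1:ℝ)..W, v ^ (4 * (Q:ℝ) - 1) * ee Q X a v ^ 2) - C * W ^ (8 * (Q:ℝ) - 1 / 2)| ≤
      K * W ^ (8 * (Q:ℝ) - 1 / 2 - 1 / 64) := by
  have hX := D.hX
  have hQ := D.Q0
  obtain ⟨A₀, ω, C₁, hA, hC₁0, hC₁⟩ := D.pb
  obtain ⟨C₂, hC₂0, hC₂⟩ := D.med
  obtain ⟨C₃, hC₃0, hC₃⟩ := D.fr.orth ω (P := 8 * (Q:ℝ) - 3 / 2) (by linarith)
  set β := ∑' n, fb Q a V n ^ 2 with hβ
  have hβ0 : 0 < β := D.beta_pos
  set T := X ^ 2 * (∑' n : ℕ, (n:ℝ) ^ (-(5 / 4) : ℝ)) with hT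
  have hT0 : 0 ≤ T := mul_nonneg (by positivity) (tsum_nonneg fun n => by positivity)
  set p1 : ℝ := 8 * (Q:ℝ) - 1 / 2 with hp1
  have hp1' : 1 ≤ p1 := by rw [hp1]; linarith
  set C := A₀ ^ 2 * (1 / 2 * β / p1) with hC
  have hC0 : 0 < C := by positivity
  set K₁ := A₀ ^ 2 * (T + β + C₃) with hK₁
  have hK₁0 : 0 ≤ K₁ := by positivity
  set K₂ := 2 * C₁ ^ 2 + 6 * C₂ with hK₂
  have hK₂0 : 0 ≤ K₂ := by positivity
  refine ⟨C, K₁ + (C + K₁) + 2 * K₂, hC0, by positivity, fun W hW => ?_⟩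
  have hW0 : 0 < W := by linarith
  obtain ⟨N₁, N, hN₁, hN₁W, hpt⟩ := hC₁ W hW
  obtain ⟨g, Cg, hgm, hgb, hge⟩ := D.e_meas W
  have hN₁0 : (0:ℝ) < N₁ := by exact_mod_cast hN₁
  have hNp : (N₁:ℝ) ^ (-(1 / 2) : ℝ) ≤ 2 * W ^ (-(1 / 32) : ℝ) := by
    have h1 : (W ^ (1 / 16 : ℝ) / 2) ≤ N₁ := by linarith
    calc (N₁:ℝ) ^ (-(1 / 2) : ℝ) ≤ (W ^ (1 / 16 : ℝ) / 2) ^ (-(1 / 2) : ℝ) :=
          Real.rpow_le_rpow_of_nonpos (by positivity) h1 (by norm_num)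
      _ = 2 ^ (1 / 2 : ℝ) * W ^ (-(1 / 32) : ℝ) := by
          rw [Real.div_rpow (by positivity) (by norm_num), ← Real.rpow_mul hW0.le,
            Real.rpow_neg (by norm_num : (0:ℝ) ≤ 2), div_inv_eq_mul, mul_comm]
          norm_num
      _ ≤ 2 ^ (1:ℝ) * W ^ (-(1 / 32) : ℝ) := by
          gcongr
          · norm_num
          · norm_num
      _ = _ := by rw [Real.rpow_one]
  set S := SI (fb Q a V) (fun n => 2 * Real.sqrt (V n)) ω (Icc 1 N₁) with hS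
  have hSc : Continuous S := SI_cont _ _ _ _
  set s2 := sd (GK (fun n => a n * V n ^ 2) V (Ioc N₁ N) (4 * Q + 6)) with hs2
  have hs2c : Continuous s2 := by
    have h := GK_cont (fun n => a n * V n ^ 2) V (Ioc N₁ N) (4 * Q + 6)
    rw [hs2]
    unfold sd
    fun_prop
  set m : ℝ → ℝ := fun v => A₀ * v ^ (2 * (Q:ℝ) - 1 / 4) * S v with hm
  have hmc : Continuous m := (continuous_const.mul (Real.continuous_rpow_const (by linarith))).mul hSc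
  set w : ℝ → ℝ := fun v => v ^ (4 * (Q:ℝ) - 1) with hw
  have hwc : Continuous w := Real.continuous_rpow_const (by linarith)
  have hw0 : ∀ v ∈ Set.Icc 1 W, 0 ≤ w v := fun v hv => by
    have : 0 < v := by linarith [hv.1]
    simp only [hw]
    positivity
  set r : ℝ → ℝ := fun v => g v - m v with hr
  have hrm : Measurable r := hgm.sub hmc.measurable
  -- bound for the continuous functions
  obtain ⟨Cm, hCm⟩ := isCompact_Icc.exists_bound_of_continuousOn (s := Set.Icc 1 W) hmc.continuousOn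
  obtain ⟨Cw, hCw⟩ := isCompact_Icc.exists_bound_of_continuousOn (s := Set.Icc 1 W) hwc.continuousOn
  have hiw : ∀ h : ℝ → ℝ, Measurable h → ∀ B : ℝ, (∀ v ∈ Set.Icc 1 W, |h v| ≤ B) →
      IntervalIntegrable (fun v => w v * h v) volume 1 W := by
    intro h hh B hB
    apply bdd_int (hwc.measurable.mul hh) hW (C := Cw * B)
    intro v hv
    have hv' : v ∈ Set.Icc 1 W := ⟨hv.1.le, hv.2⟩
    show |w v * h v| ≤ Cw * B
    rw [abs_mul]
    have h1 := hCw v hv'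
    rw [Real.norm_eq_abs] at h1
    exact mul_le_mul h1 (hB v hv') (abs_nonneg _) ((abs_nonneg _).trans h1)
  have hCm' : ∀ v ∈ Set.Icc 1 W, |m v| ≤ Cm := fun v hv => by
    have := hCm v hv
    rwa [Real.norm_eq_abs] at this
  have hrb : ∀ v ∈ Set.Icc 1 W, |r v| ≤ Cg + Cm := fun v hv => (abs_sub _ _).trans (add_le_add (hgb v) (hCm' v hv))
  have hig : IntervalIntegrable (fun v => w v * g v ^ 2) volume 1 W := by
    apply hiw _ (hgm.pow_const 2) (Cg ^ 2)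
    intro v _
    rw [abs_pow]
    exact pow_le_pow_left₀ (abs_nonneg _) (hgb v) 2
  have him : IntervalIntegrable (fun v => w v * m v ^ 2) volume 1 W :=
    (hwc.mul (hmc.pow 2)).intervalIntegrable _ _
  have hir : IntervalIntegrable (fun v => w v * r v ^ 2) volume 1 W := by
    apply hiw _ (hrm.pow_const 2) ((Cg + Cm) ^ 2)
    intro v hv
    rw [abs_pow]
    exact pow_le_pow_left₀ (abs_nonneg _) (hrb v hv) 2
  -- replace the summatory function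
  have e0 : ∫ v in (1:ℝ)..W, v ^ (4 * (Q:ℝ) - 1) * ee Q X a v ^ 2 = ∫ v in (1:ℝ)..W, w v * g v ^ 2 := by
    apply intervalIntegral.integral_congr
    intro v hv
    rw [Set.uIcc_of_le hW] at hv
    show v ^ (4 * (Q:ℝ) - 1) * ee Q X a v ^ 2 = w v * g v ^ 2
    rw [hge v (by linarith [hv.1]) hv.2]
  -- the remainder
  have hrint : ∫ v in (1:ℝ)..W, w v * r v ^ 2 ≤ K₂ * W ^ (p1 - 1 / 32) := by
    have hB : ∀ v ∈ Set.Icc 1 W, w v * r v ^ 2 ≤ 2 * C₁ ^ 2 * W ^ (8 * (Q:ℝ) - 15 / 8) +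
        2 * (v ^ (4 * (Q:ℝ) - 5) * s2 v ^ 2) := by
      intro v hv
      have hv0 : 0 < v := by linarith [hv.1]
      have h1 := hpt v hv.1 hv.2
      rw [hge v hv0.le hv.2] at h1
      set p := g v - A₀ * v ^ (2 * (Q:ℝ) - 1 / 4) * S v - v⁻¹ ^ 2 * s2 v with hp
      have h2 : r v = p + v⁻¹ ^ 2 * s2 v := by
        simp only [hr, hm, hp]
        ring
      have h3 : r v ^ 2 ≤ 2 * p ^ 2 + 2 * (v⁻¹ ^ 2 * s2 v) ^ 2 := by
        rw [h2]
        nlinarith [sq_nonneg (p - v⁻¹ ^ 2 * s2 v)]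
      have h4 : p ^ 2 ≤ (C₁ * W ^ (2 * (Q:ℝ) - 7 / 16)) ^ 2 := by
        rw [← sq_abs]
        gcongr
      have h5 : w v ≤ W ^ (4 * (Q:ℝ) - 1) := Real.rpow_le_rpow hv0.le hv.2 (by linarith)
      have h6 : W ^ (4 * (Q:ℝ) - 1) * (W ^ (2 * (Q:ℝ) - 7 / 16)) ^ 2 = W ^ (8 * (Q:ℝ) - 15 / 8) := by
        rw [← Real.rpow_mul_natCast hW0.le, ← Real.rpow_add hW0]
        congr 1
        push_cast
        ring
      have h7 : w v * (v⁻¹ ^ 2) ^ 2 = v ^ (4 * (Q:ℝ) - 5) := by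
        simp only [hw]
        rw [show 4 * (Q:ℝ) - 5 = 4 * (Q:ℝ) - 1 - (4:ℕ) by push_cast; ring, Real.rpow_sub_natCast hv0.ne', inv_pow, inv_pow,
          ← pow_mul]
        rfl
      have hw0' := hw0 v hv
      calc w v * r v ^ 2 ≤ w v * (2 * p ^ 2 + 2 * (v⁻¹ ^ 2 * s2 v) ^ 2) := by gcongr
        _ = 2 * (w v * p ^ 2) + 2 * ((w v * (v⁻¹ ^ 2) ^ 2) * s2 v ^ 2) := by ring
        _ ≤ 2 * (W ^ (4 * (Q:ℝ) - 1) * (C₁ * W ^ (2 * (Q:ℝ) - 7 / 16)) ^ 2) + 2 * ((w v * (v⁻¹ ^ 2) ^ 2) * s2 v ^ 2) := by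
            gcongr
        _ = 2 * C₁ ^ 2 * (W ^ (4 * (Q:ℝ) - 1) * (W ^ (2 * (Q:ℝ) - 7 / 16)) ^ 2) + 2 * ((w v * (v⁻¹ ^ 2) ^ 2) * s2 v ^ 2) := by ring
        _ = _ := by rw [h6, h7]
    have hi5 : IntervalIntegrable (fun v : ℝ => v ^ (4 * (Q:ℝ) - 5) * s2 v ^ 2) volume 1 W := by
      apply Continuous.intervalIntegrable
      exact (Real.continuous_rpow_const (by linarith)).mul (hs2c.pow 2)
    have h1 : ∫ v in (1:ℝ)..W, w v * r v ^ 2 ≤ ∫ v in (1:ℝ)..W, (2 * C₁ ^ 2 * W ^ (8 * (Q:ℝ) - 15 / 8) +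
        2 * (v ^ (4 * (Q:ℝ) - 5) * s2 v ^ 2)) :=
      intervalIntegral.integral_mono_on hW hir ((intervalIntegrable_const).add (hi5.const_mul 2)) hB
    rw [intervalIntegral.integral_add intervalIntegrable_const (hi5.const_mul 2), intervalIntegral.integral_const,
      intervalIntegral.integral_const_mul, smul_eq_mul] at h1
    have h2 := hC₂ N₁ N W hN₁ hW
    rw [← hs2] at h2
    have h3 : (W - 1) * (2 * C₁ ^ 2 * W ^ (8 * (Q:ℝ) - 15 / 8)) ≤ 2 * C₁ ^ 2 * W ^ (p1 - 1 / 32) := by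
      have h4 : (W - 1) * W ^ (8 * (Q:ℝ) - 15 / 8) ≤ W ^ (p1 - 1 / 32) := by
        calc (W - 1) * W ^ (8 * (Q:ℝ) - 15 / 8) ≤ W ^ (1:ℝ) * W ^ (8 * (Q:ℝ) - 15 / 8) := by
              gcongr
              rw [Real.rpow_one]
              linarith
          _ = W ^ (1 + (8 * (Q:ℝ) - 15 / 8)) := by rw [Real.rpow_add hW0]
          _ ≤ _ := Real.rpow_le_rpow_of_exponent_le hW (by rw [hp1]; linarith)
      calc _ = 2 * C₁ ^ 2 * ((W - 1) * W ^ (8 * (Q:ℝ) - 15 / 8)) := by ring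
        _ ≤ _ := by gcongr
    have h5 : W ^ p1 * (N₁:ℝ) ^ (-(1 / 2) : ℝ) ≤ 2 * W ^ (p1 - 1 / 32) := by
      calc _ ≤ W ^ p1 * (2 * W ^ (-(1 / 32) : ℝ)) := by gcongr
        _ = 2 * (W ^ p1 * W ^ (-(1 / 32) : ℝ)) := by ring
        _ = _ := by rw [← Real.rpow_add hW0, ← sub_eq_add_neg]
    have h6 : W ^ (8 * (Q:ℝ) - 1) ≤ W ^ (p1 - 1 / 32) := Real.rpow_le_rpow_of_exponent_le hW (by rw [hp1]; linarith)
    have h7 : C₂ * (W ^ p1 * (N₁:ℝ) ^ (-(1 / 2) : ℝ) + W ^ (8 * (Q:ℝ) - 1)) ≤ C₂ * (3 * W ^ (p1 - 1 / 32)) := by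
      apply mul_le_mul_of_nonneg_left _ hC₂0
      linarith
    rw [hK₂]
    linarith
  -- the main term
  have hmint : |(∫ v in (1:ℝ)..W, w v * m v ^ 2) - C * W ^ p1| ≤ K₁ * W ^ (p1 - 1 / 32) := by
    have e1 : ∫ v in (1:ℝ)..W, w v * m v ^ 2 = A₀ ^ 2 * ∫ v in (1:ℝ)..W, v ^ (8 * (Q:ℝ) - 3 / 2) * S v ^ 2 := by
      rw [← intervalIntegral.integral_const_mul]
      apply intervalIntegral.integral_congr
      intro v hv
      rw [Set.uIcc_of_le hW] at hv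
      have hv0 : 0 < v := by linarith [hv.1]
      have h1 : v ^ (4 * (Q:ℝ) - 1) * (v ^ (2 * (Q:ℝ) - 1 / 4)) ^ 2 = v ^ (8 * (Q:ℝ) - 3 / 2) := by
        rw [← Real.rpow_mul_natCast hv0.le, ← Real.rpow_add hv0]
        congr 1
        push_cast
        ring
      show v ^ (4 * (Q:ℝ) - 1) * (A₀ * v ^ (2 * (Q:ℝ) - 1 / 4) * S v) ^ 2 = A₀ ^ 2 * (v ^ (8 * (Q:ℝ) - 3 / 2) * S v ^ 2)
      rw [← h1]
      ring
    have h2 := hC₃ N₁ (Icc 1 N₁) subset_rfl W hW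
    rw [← hS] at h2
    rw [show 8 * (Q:ℝ) - 3 / 2 + 1 / 2 = 8 * (Q:ℝ) - 1 by ring] at h2
    have h3 : ∫ v in (1:ℝ)..W, v ^ (8 * (Q:ℝ) - 3 / 2) = (W ^ p1 - 1) / p1 := by
      rw [integral_rpow (Or.inl (by linarith)), Real.one_rpow, show 8 * (Q:ℝ) - 3 / 2 + 1 = p1 by rw [hp1]; ring]
    rw [h3] at h2
    set σ := ∑ n ∈ Icc 1 N₁, fb Q a V n ^ 2 with hσ
    have hσ0 : 0 ≤ σ := sum_nonneg fun n _ => sq_nonneg _
    have hσβ : σ ≤ β := D.b_summ.sum_le_tsum _ fun n _ => sq_nonneg _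
    have hβσ : β ≤ σ + T * (N₁:ℝ) ^ (-(1 / 2) : ℝ) := D.beta_le hN₁
    have h4 : |1 / 2 * σ * ((W ^ p1 - 1) / p1) - 1 / 2 * β / p1 * W ^ p1| ≤ T * W ^ (p1 - 1 / 32) + β * 1 := by
      have e2 : 1 / 2 * σ * ((W ^ p1 - 1) / p1) - 1 / 2 * β / p1 * W ^ p1 =
          -(1 / 2 * ((β - σ) * W ^ p1 / p1) + 1 / 2 * (σ / p1)) := by
        field_simp
        ring
      rw [e2, abs_neg, abs_of_nonneg (by
        have : 0 ≤ β - σ := by linarith
        positivity)]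
      have h5 : (β - σ) * W ^ p1 / p1 ≤ 2 * (T * W ^ (p1 - 1 / 32)) := by
        calc (β - σ) * W ^ p1 / p1 ≤ (β - σ) * W ^ p1 := by
              apply div_le_self _ hp1'
              have : 0 ≤ β - σ := by linarith
              positivity
          _ ≤ (T * (2 * W ^ (-(1 / 32) : ℝ))) * W ^ p1 := by
              apply mul_le_mul_of_nonneg_right _ (by positivity)
              have : T * (N₁:ℝ) ^ (-(1 / 2) : ℝ) ≤ T * (2 * W ^ (-(1 / 32) : ℝ)) := by gcongr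
              linarith
          _ = 2 * (T * (W ^ p1 * W ^ (-(1 / 32) : ℝ))) := by ring
          _ = _ := by rw [← Real.rpow_add hW0, ← sub_eq_add_neg]
      have h6 : σ / p1 ≤ β := (div_le_self hσ0 hp1').trans hσβ
      linarith
    have h7 : (1:ℝ) ≤ W ^ (p1 - 1 / 32) := Real.one_le_rpow hW (by linarith)
    have h8 : W ^ (8 * (Q:ℝ) - 1) ≤ W ^ (p1 - 1 / 32) := Real.rpow_le_rpow_of_exponent_le hW (by rw [hp1]; linarith)
    rw [e1, hC]
    set J := ∫ v in (1:ℝ)..W, v ^ (8 * (Q:ℝ) - 3 / 2) * S v ^ 2 with hJ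
    have e3 : A₀ ^ 2 * J - A₀ ^ 2 * (1 / 2 * β / p1) * W ^ p1 = A₀ ^ 2 * ((J - 1 / 2 * σ * ((W ^ p1 - 1) / p1)) +
        (1 / 2 * σ * ((W ^ p1 - 1) / p1) - 1 / 2 * β / p1 * W ^ p1)) := by ring
    rw [e3, abs_mul, abs_of_nonneg (by positivity : 0 ≤ A₀ ^ 2), hK₁,
      show A₀ ^ 2 * (T + β + C₃) * W ^ (p1 - 1 / 32) = A₀ ^ 2 * ((T + β + C₃) * W ^ (p1 - 1 / 32)) by ring]
    apply mul_le_mul_of_nonneg_left _ (by positivity)
    refine (abs_add_le _ _).trans ((add_le_add h2 h4).trans ?_)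
    have h9 : C₃ * W ^ (8 * (Q:ℝ) - 1) ≤ C₃ * W ^ (p1 - 1 / 32) := by gcongr
    have h10 : β * 1 ≤ β * W ^ (p1 - 1 / 32) := by gcongr
    linarith
  -- assembling
  set η : ℝ := W ^ (-(1 / 64) : ℝ) with hη
  have hη0 : 0 < η := by positivity
  have hη1 : η ≤ 1 := Real.rpow_le_one_of_one_le_of_nonpos hW (by norm_num)
  have hηi : η⁻¹ = W ^ (1 / 64 : ℝ) := by
    rw [hη, ← Real.rpow_neg hW0.le]
    norm_num
  have hdiff : |(∫ v in (1:ℝ)..W, w v * g v ^ 2) - ∫ v in (1:ℝ)..W, w v * m v ^ 2| ≤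
      η * (∫ v in (1:ℝ)..W, w v * m v ^ 2) + (1 + η⁻¹) * ∫ v in (1:ℝ)..W, w v * r v ^ 2 := by
    rw [← intervalIntegral.integral_sub hig him, ← intervalIntegral.integral_const_mul, ← intervalIntegral.integral_const_mul,
      ← intervalIntegral.integral_add (him.const_mul _) (hir.const_mul _)]
    refine (intervalIntegral.abs_integral_le_integral_abs hW).trans ?_
    apply intervalIntegral.integral_mono_on hW (hig.sub him).abs ((him.const_mul _).add (hir.const_mul _))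
    intro v hv
    have hw0' := hw0 v hv
    have e1 : w v * g v ^ 2 - w v * m v ^ 2 = w v * (2 * m v * r v + r v ^ 2) := by
      simp only [hr]
      ring
    rw [e1, abs_mul, abs_of_nonneg hw0']
    have h1 : |2 * m v * r v + r v ^ 2| ≤ η * m v ^ 2 + (1 + η⁻¹) * r v ^ 2 := by
      have h2 : |2 * m v * r v| ≤ η * m v ^ 2 + η⁻¹ * r v ^ 2 := by
        have h3 : 0 ≤ η⁻¹ * (η * |m v| - |r v|) ^ 2 := by positivity
        have h4 : η⁻¹ * (η * |m v| - |r v|) ^ 2 = η * m v ^ 2 + η⁻¹ * r v ^ 2 - 2 * |m v| * |r v| := by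
          rw [← sq_abs (m v), ← sq_abs (r v)]
          field_simp
          ring
        rw [abs_mul, abs_mul, abs_of_pos (by norm_num : (0:ℝ) < 2)]
        linarith
      calc _ ≤ |2 * m v * r v| + |r v ^ 2| := abs_add_le _ _
        _ ≤ (η * m v ^ 2 + η⁻¹ * r v ^ 2) + r v ^ 2 := by
            rw [abs_of_nonneg (sq_nonneg (r v))]
            gcongr
        _ = _ := by ring
    calc w v * |2 * m v * r v + r v ^ 2| ≤ w v * (η * m v ^ 2 + (1 + η⁻¹) * r v ^ 2) := by gcongr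
      _ = _ := by ring
  rw [e0]
  set G := ∫ v in (1:ℝ)..W, w v * g v ^ 2
  set M := ∫ v in (1:ℝ)..W, w v * m v ^ 2
  set R := ∫ v in (1:ℝ)..W, w v * r v ^ 2 with hR
  have hR0 : 0 ≤ R := intervalIntegral.integral_nonneg hW fun v hv => mul_nonneg (hw0 v hv) (sq_nonneg _)
  have f1 : W ^ (p1 - 1 / 32) ≤ W ^ (p1 - 1 / 64) := Real.rpow_le_rpow_of_exponent_le hW (by linarith)
  have f2 : M ≤ (C + K₁) * W ^ p1 := by
    have h1 := (abs_le.1 hmint).2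
    have h2 : W ^ (p1 - 1 / 32) ≤ W ^ p1 := Real.rpow_le_rpow_of_exponent_le hW (by linarith)
    have h3 : K₁ * W ^ (p1 - 1 / 32) ≤ K₁ * W ^ p1 := by gcongr
    linarith
  have f3 : η * M ≤ (C + K₁) * W ^ (p1 - 1 / 64) := by
    calc η * M ≤ η * ((C + K₁) * W ^ p1) := by gcongr
      _ = (C + K₁) * (W ^ p1 * η) := by ring
      _ = _ := by rw [hη, ← Real.rpow_add hW0, ← sub_eq_add_neg]
  have f4 : (1 + η⁻¹) * R ≤ 2 * K₂ * W ^ (p1 - 1 / 64) := by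
    have h1 : 1 ≤ η⁻¹ := (one_le_inv₀ hη0).2 hη1
    calc (1 + η⁻¹) * R ≤ (2 * η⁻¹) * (K₂ * W ^ (p1 - 1 / 32)) := by
          gcongr
          linarith
      _ = 2 * K₂ * (W ^ (1 / 64 : ℝ) * W ^ (p1 - 1 / 32)) := by rw [hηi]; ring
      _ = _ := by
          rw [← Real.rpow_add hW0]
          congr 2
          ring
  have e4 : G - C * W ^ p1 = (G - M) + (M - C * W ^ p1) := by ring
  rw [e4]
  calc _ ≤ |G - M| + |M - C * W ^ p1| := abs_add_le _ _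
    _ ≤ ((C + K₁) * W ^ (p1 - 1 / 64) + 2 * K₂ * W ^ (p1 - 1 / 64)) + K₁ * W ^ (p1 - 1 / 64) := by
        refine add_le_add (hdiff.trans (add_le_add f3 f4)) (hmint.trans ?_)
        gcongr
    _ = _ := by ring

end Ds

end Pool.Agent.H81.HM
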