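import Pool.Agent.H81.HM.MS6

/-!
# The mean square: conclusion
-/

set_option autoImplicit false

open MeasureTheory Finset

namespace Pool.Agent.H81.HM

/-- summatory function -/
noncomputable def EE (a : ℕ → ℝ) (x : ℝ) : ℝ := ∑ n ∈ Icc 1 ⌊x⌋₊, a n

lemma EE_meas (a : ℕ → ℝ) : Measurable (EE a) := by
  have h : Measurable (fun N : ℕ => ∑ n ∈ Icc 1 N, a n) := measurable_from_top
  exact h.comp Nat.measurable_floor

lemma EE_le (a : ℕ → ℝ) {x T : ℝ} (h : x ≤ T) : |EE a x| ≤ ∑ n ∈ Icc 1 ⌊T⌋₊, |a n| := by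
  unfold EE
  refine (abs_sum_le_sum_abs _ _).trans ?_
  apply sum_le_sum_of_subset_of_nonneg
  · intro n hn
    rw [mem_Icc] at hn ⊢
    exact ⟨hn.1, hn.2.trans (Nat.floor_mono h)⟩
  · intro n _ _
    exact abs_nonneg _

lemma EE_int (a : ℕ → ℝ) (p q : ℝ) : IntervalIntegrable (fun x => EE a x ^ 2) volume p q := by
  have h : ∀ p q : ℝ, p ≤ q → IntervalIntegrable (fun x => EE a x ^ 2) volume p q := by
    intro p q hpq
    apply bdd_int ((EE_meas a).pow_const 2) hpq (C := (∑ n ∈ Icc 1 ⌊q⌋₊, |a n|) ^ 2)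
    intro x hx
    rw [abs_pow]
    exact pow_le_pow_left₀ (abs_nonneg _) (EE_le a hx.2) 2
  rcases le_total p q with h1 | h1
  · exact h p q h1
  · exact (h q p h1).symm

variable {Q : ℕ} {X : ℝ} {a V : ℕ → ℝ}

namespace Ds

lemma subst (D : Ds Q X a V) {W : ℝ} (hW : 1 ≤ W) :
    ∫ x in X..(X * W ^ (4 * Q)), EE a x ^ 2 = 4 * Q * X * ∫ v in (1:ℝ)..W, v ^ (4 * (Q:ℝ) - 1) * ee Q X a v ^ 2 := by
  have hX := D.hX
  have hQ := D.hQ
  have hX0 : 0 < X := by linarith
  set f : ℝ → ℝ := fun v => X * v ^ (4 * Q) with hf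
  have himg : f '' (Set.Icc 1 W) = Set.Icc X (X * W ^ (4 * Q)) := by
    apply Set.Subset.antisymm
    · rintro _ ⟨v, hv, rfl⟩
      have hv0 : 0 ≤ v := by linarith [hv.1]
      simp only [hf]
      constructor
      · exact le_mul_of_one_le_right hX0.le (one_le_pow₀ hv.1)
      · have := hv.2
        gcongr
    · have hc : ContinuousOn f (Set.Icc 1 W) := by
        apply Continuous.continuousOn
        simp only [hf]
        fun_prop
      have h := intermediate_value_Icc hW hc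
      simp only [hf, one_pow, mul_one] at h
      exact h
  have hd : ∀ v ∈ Set.Icc (1:ℝ) W, HasDerivWithinAt f (X * (((4 * Q : ℕ) : ℝ) * v ^ (4 * Q - 1))) (Set.Icc 1 W) v := by
    intro v _
    exact ((hasDerivAt_pow (4 * Q) v).const_mul X).hasDerivWithinAt
  have hinj : Set.InjOn f (Set.Icc 1 W) := by
    intro x hx y hy hxy
    simp only [hf] at hxy
    have h1 : x ^ (4 * Q) = y ^ (4 * Q) := mul_left_cancel₀ hX0.ne' hxy
    exact (pow_left_inj₀ (by linarith [hx.1]) (by linarith [hy.1]) (by omega)).1 h1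
  have h := integral_image_eq_integral_abs_deriv_smul measurableSet_Icc hd hinj (fun x => EE a x ^ 2)
  rw [himg] at h
  have hle : X ≤ X * W ^ (4 * Q) := le_mul_of_one_le_right hX0.le (one_le_pow₀ hW)
  rw [intervalIntegral.integral_of_le hle, ← integral_Icc_eq_integral_Ioc, h, integral_Icc_eq_integral_Ioc,
    ← intervalIntegral.integral_of_le hW, ← intervalIntegral.integral_const_mul]
  apply intervalIntegral.integral_congr
  intro v hv
  rw [Set.uIcc_of_le hW] at hv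
  have hv0 : 0 < v := by linarith [hv.1]
  show |X * (((4 * Q : ℕ) : ℝ) * v ^ (4 * Q - 1))| • EE a (f v) ^ 2 = 4 * Q * X * (v ^ (4 * (Q:ℝ) - 1) * ee Q X a v ^ 2)
  have e1 : v ^ (4 * (Q:ℝ) - 1) = v ^ (4 * Q - 1) := by
    rw [← Real.rpow_natCast, Nat.cast_sub (by omega)]
    push_cast
    rfl
  rw [abs_of_nonneg (by positivity), smul_eq_mul, e1]
  have e2 : EE a (f v) = ee Q X a v := rfl
  rw [e2]
  push_cast
  ring

/-- **the mean square of the summatory function** -/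
theorem ms (D : Ds Q X a V) : ∃ C K : ℝ, 0 < C ∧ 0 ≤ K ∧ ∀ T : ℝ, 1 ≤ T →
    |(∫ x in (1:ℝ)..T, EE a x ^ 2) - C * T ^ (2 - 1 / (8 * (Q:ℝ)))| ≤
      K * T ^ (2 - 1 / (8 * (Q:ℝ)) - 1 / (256 * (Q:ℝ))) := by
  have hX := D.hX
  have hQ := D.Q0
  have hQ' := D.hQ
  have hX0 : 0 < X := by linarith
  obtain ⟨C, K, hC, hK, h⟩ := D.msv
  set P := 2 - 1 / (8 * (Q:ℝ)) with hP
  set P' := 2 - 1 / (8 * (Q:ℝ)) - 1 / (256 * (Q:ℝ)) with hP'
  have hq1 : 1 / (8 * (Q:ℝ)) ≤ 1 / 2 := by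
    rw [div_le_div_iff₀ (by positivity) (by norm_num)]
    linarith
  have hq2 : 1 / (256 * (Q:ℝ)) ≤ 1 / 2 := by
    rw [div_le_div_iff₀ (by positivity) (by norm_num)]
    linarith
  have hP1 : 1 ≤ P := by rw [hP]; linarith
  have hP'1 : 1 ≤ P' := by rw [hP']; linarith
  set C' := 4 * Q * X * (C * X ^ (-P)) with hC'
  have hC'0 : 0 < C' := by positivity
  set I₀ := ∫ x in (1:ℝ)..X, EE a x ^ 2 with hI₀
  have hI₀0 : 0 ≤ I₀ := intervalIntegral.integral_nonneg hX fun x _ => sq_nonneg _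
  refine ⟨C', I₀ + C' * X ^ P + 4 * Q * X * K, hC'0, by positivity, fun T hT => ?_⟩
  have hT0 : 0 < T := by linarith
  have hTP : 1 ≤ T ^ P' := Real.one_le_rpow hT (by linarith)
  rcases le_total X T with hXT | hXT
  · set W := (T / X) ^ (1 / (4 * (Q:ℝ))) with hW
    have hTX : 1 ≤ T / X := by rwa [one_le_div hX0]
    have hW1 : 1 ≤ W := Real.one_le_rpow hTX (by positivity)
    have hWT : X * W ^ (4 * Q) = T := by
      rw [hW, ← Real.rpow_natCast, ← Real.rpow_mul (by positivity)]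
      push_cast
      rw [one_div_mul_cancel (by positivity), Real.rpow_one]
      field_simp
    have hs := D.subst hW1
    rw [hWT] at hs
    have e1 : ∫ x in (1:ℝ)..T, EE a x ^ 2 = I₀ + ∫ x in X..T, EE a x ^ 2 :=
      (intervalIntegral.integral_add_adjacent_intervals (EE_int a 1 X) (EE_int a X T)).symm
    have h1 := h W hW1
    have e2 : W ^ (8 * (Q:ℝ) - 1 / 2) = X ^ (-P) * T ^ P := by
      rw [hW, ← Real.rpow_mul (by positivity), Real.div_rpow hT0.le hX0.le, Real.rpow_neg hX0.le]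
      have : 1 / (4 * (Q:ℝ)) * (8 * (Q:ℝ) - 1 / 2) = P := by
        rw [hP]
        field_simp
        ring
      rw [this]
      ring
    have e3 : W ^ (8 * (Q:ℝ) - 1 / 2 - 1 / 64) ≤ T ^ P' := by
      rw [hW, ← Real.rpow_mul (by positivity)]
      have : 1 / (4 * (Q:ℝ)) * (8 * (Q:ℝ) - 1 / 2 - 1 / 64) = P' := by
        rw [hP']
        field_simp
        ring
      rw [this]
      apply Real.rpow_le_rpow (by positivity) _ (by linarith)
      exact div_le_self hT0.le hX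
    rw [e2] at h1
    rw [e1, hs]
    have e4 : I₀ + 4 * Q * X * (∫ v in (1:ℝ)..W, v ^ (4 * (Q:ℝ) - 1) * ee Q X a v ^ 2) - C' * T ^ P =
        I₀ + 4 * Q * X * ((∫ v in (1:ℝ)..W, v ^ (4 * (Q:ℝ) - 1) * ee Q X a v ^ 2) - C * (X ^ (-P) * T ^ P)) := by
      rw [hC']
      ring
    rw [e4]
    calc _ ≤ |I₀| + |4 * Q * X * ((∫ v in (1:ℝ)..W, v ^ (4 * (Q:ℝ) - 1) * ee Q X a v ^ 2) - C * (X ^ (-P) * T ^ P))| :=
          abs_add_le _ _
      _ ≤ I₀ * T ^ P' + 4 * Q * X * (K * T ^ P') := by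
          apply add_le_add
          · rw [abs_of_nonneg hI₀0]
            exact le_mul_of_one_le_right hI₀0 hTP
          · rw [abs_mul, abs_of_nonneg (by positivity)]
            refine mul_le_mul_of_nonneg_left (h1.trans ?_) (by positivity)
            gcongr
      _ ≤ _ := by
          have : 0 ≤ C' * X ^ P * T ^ P' := by positivity
          linarith
  · have h2 : ∫ x in (1:ℝ)..T, EE a x ^ 2 ≤ I₀ := by
      rw [hI₀, ← intervalIntegral.integral_add_adjacent_intervals (EE_int a 1 T) (EE_int a T X)]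
      have : 0 ≤ ∫ x in T..X, EE a x ^ 2 := intervalIntegral.integral_nonneg hXT fun x _ => sq_nonneg _
      linarith
    have h3 : 0 ≤ ∫ x in (1:ℝ)..T, EE a x ^ 2 := intervalIntegral.integral_nonneg hT fun x _ => sq_nonneg _
    have h4 : T ^ P ≤ X ^ P := Real.rpow_le_rpow hT0.le hXT (by linarith)
    have h5 : C' * T ^ P ≤ C' * X ^ P := by gcongr
    have h6 : 0 ≤ C' * T ^ P := by positivity
    have h7 : I₀ + C' * X ^ P ≤ (I₀ + C' * X ^ P + 4 * Q * X * K) * T ^ P' := by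
      calc I₀ + C' * X ^ P ≤ I₀ + C' * X ^ P + 4 * Q * X * K := by
            have : 0 ≤ 4 * Q * X * K := by positivity
            linarith
        _ ≤ _ := le_mul_of_one_le_right (by positivity) hTP
    rw [abs_le]
    constructor <;> linarith

end Ds

end Pool.Agent.H81.HM
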