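import Pool.Agent.H81.HM.Core
import Pool.Graph.R_seed8.W748.PX.Fix

/-!
# The machine with decaying coefficients: linear part
-/

set_option autoImplicit false

open Finset MeasureTheory

namespace Pool.Agent.H81.HM

open Pool.Agent.H96R3.BC (vv cf)
open Pool.Agent.H394R3.BC (Ker Ker_cont Ker_cont_left Ker_cont_right cellB cellM fac_pos one_le_fac Ker_le_pow cellM_nonneg)
open Pool.Agent.W406.PX (gw hm Hs cN)

section defs

variable (Q j' : ℕ) (B : ℕ → ℕ) (w : ℕ → ℝ → ℝ)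

/-- boundary nodes -/
noncomputable def be (i : ℕ) : ℝ := vv Q j' (B i)

/-- the response at the prime `p` of the cell `i` -/
noncomputable def XL (c : ℕ → ℝ) (F : ℝ → ℝ) (i p : ℕ) : ℝ :=
  ((∫ u in (be Q j' B i)..(be Q j' B (i + 1)), F u * w p u)
    - ∑ n ∈ Ioc (B i) (B (i + 1)), c n * (vv Q j' n) ^ 2 * w p (vv Q j' n)) / (vv Q j' p) ^ 2

/-- coefficients of the cell `i` after the response -/
noncomputable def co (c : ℕ → ℝ) (F : ℝ → ℝ) (i n : ℕ) : ℝ :=
  c n + (if n.Prime then XL Q j' B w c F i n else 0)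

/-- functional of the cell `i` -/
noncomputable def BF (c : ℕ → ℝ) (F : ℝ → ℝ) (i : ℕ) (g : ℝ → ℝ) : ℝ :=
  cellB (fun n => co Q j' B w c F i n * (vv Q j' n) ^ 2) (vv Q j') F (Ioc (B i) (B (i + 1)))
    (be Q j' B i) (be Q j' B (i + 1)) g

/-- contribution of the cell `i` to the new density -/
noncomputable def BL (c : ℕ → ℝ) (F : ℝ → ℝ) (i : ℕ) (v : ℝ) : ℝ :=
  BF Q j' B w c F i (fun u => Ker (4 * Q + 3) u v)

/-- new density, linear part -/
noncomputable def FL (c : ℕ → ℝ) (F : ℝ → ℝ) (v : ℝ) : ℝ :=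
  -(∫ u in (0:ℝ)..1, F u * Ker (4 * Q + 3) u v) + ∑' i : ℕ, BL Q j' B w c F i v

end defs

/-- a system -/
structure Sy (Q j' : ℕ) (B : ℕ → ℕ) (w : ℕ → ℝ → ℝ) (z : ℕ → ℝ) (ω g m : ℕ → ℝ) (κ : ℝ) : Prop where
  hQ : 300 ≤ Q
  hj : 16 ≤ j'
  hκ : 0 < κ
  first : B 0 = j' ^ (2 * Q)
  mono : StrictMono B
  short : ∀ i, (be Q j' B (i + 1) - be Q j' B i) ^ 2 ≤ be Q j' B i
  zpos : ∀ n, 1 ≤ n → 0 < z n
  zanti : ∀ a b, 1 ≤ a → a ≤ b → z b ≤ z a
  wcont : ∀ p, Continuous (w p)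
  wsupp : ∀ p u, w p u ≠ 0 → p.Prime ∧ B 0 < p
  wbd : ∀ i, ∀ p ∈ Ioc (B i) (B (i + 1)), ∀ u, be Q j' B i ≤ u → u ≤ be Q j' B (i + 1) → |w p u| ≤ ω i
  wmom : ∀ i, ∀ u, be Q j' B i ≤ u → u ≤ be Q j' B (i + 1) → ∀ P : Polynomial ℝ, P.natDegree < 4 * Q + 4 →
    ∑ p ∈ Ioc (B i) (B (i + 1)), w p u * P.eval (vv Q j' p) = P.eval u
  gNV : ∀ i, κ * NV Q (be Q j' B (i + 1)) ≤ g i
  small : ∀ i, ∀ p ∈ Ioc (B i) (B (i + 1)), p.Prime →
    ω i * ((be Q j' B (i + 1) - be Q j' B i) * g i +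
      z (B i) * Hs (j' ^ (2 * Q)) (B i) (B (i + 1)) * be Q j' B (i + 1) ^ 2) ≤
      1 / 2 * (z p * gw p) * be Q j' B i ^ 2
  mass : ∀ i, z (B i) * Hs (j' ^ (2 * Q)) (B i) (B (i + 1)) * be Q j' B (i + 1) ^ 2 +
    z (B i) * (Ioc (B i) (B (i + 1))).card * be Q j' B (i + 1) ^ 2 + g i * (be Q j' B (i + 1) - be Q j' B i) ≤ m i
  sum : Summable (fun i => m i * vpi Q (be Q j' B i) (be Q j' B (i + 1))) ∧
    C0 Q * ∑' i, m i * vpi Q (be Q j' B i) (be Q j' B (i + 1)) ≤ κ / 8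
  src1 : ∀ v : ℝ, 0 ≤ v → |(vv Q j' 1) ^ 2 * Ker (4 * Q + 3) (vv Q j' 1) v| ≤ κ / 4 * NV Q v

/-- size conditions on the data of the linear maps -/
def Bd (Q j' : ℕ) (B : ℕ → ℕ) (z : ℕ → ℝ) (g : ℕ → ℝ) (κ D : ℝ) (c : ℕ → ℝ) (F : ℝ → ℝ) : Prop :=
  0 ≤ D ∧ Continuous F ∧
  (∀ i, ∑ n ∈ Ioc (B i) (B (i + 1)), |c n| ≤ D * (z (B i) * Hs (j' ^ (2 * Q)) (B i) (B (i + 1)))) ∧
  (∀ i, ∀ v : ℝ, be Q j' B i ≤ v → v ≤ be Q j' B (i + 1) → |F v| ≤ D * g i) ∧
  (∀ v : ℝ, 0 ≤ v → v ≤ 1 → |F v| ≤ D * (κ * v ^ (4 * Q + 3)))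

lemma vv_nonneg (Q j' n : ℕ) : 0 ≤ vv Q j' n := by unfold vv; positivity

lemma vv_mono {Q j' : ℕ} {a b : ℕ} (h : a ≤ b) : vv Q j' a ≤ vv Q j' b := by
  unfold vv
  apply Real.rpow_le_rpow (by positivity) _ (by positivity)
  have : (a : ℝ) ≤ b := by exact_mod_cast h
  gcongr

lemma vv_lt {Q j' : ℕ} (hQ : 1 ≤ Q) (hj : 1 ≤ j') {a b : ℕ} (h : a < b) : vv Q j' a < vv Q j' b := by
  unfold vv
  have hj0 : (0:ℝ) < j' := by exact_mod_cast hj
  have hQ0 : (0:ℝ) < Q := by exact_mod_cast hQ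
  apply Real.rpow_lt_rpow (by positivity) _ (by positivity)
  have : (a : ℝ) < b := by exact_mod_cast h
  gcongr

lemma gw_le_one {n : ℕ} (h : 16 ≤ n) : gw n ≤ 1 := by
  unfold gw
  split_ifs with h1
  · have h3 : Real.exp 1 ≤ n := by
      have := Real.exp_one_lt_d9
      have h4 : (16 : ℝ) ≤ n := by exact_mod_cast h
      linarith
    have h4 : 1 ≤ Real.log n := by
      rw [Real.le_log_iff_exp_le (by linarith [Real.exp_pos 1])]
      exact h3
    rw [div_le_one (by positivity)]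
    nlinarith
  · norm_num

lemma gw_nonneg (n : ℕ) : 0 ≤ gw n := by unfold gw; split_ifs <;> positivity

section

variable {Q j' : ℕ} {B : ℕ → ℕ} {w : ℕ → ℝ → ℝ} {z : ℕ → ℝ} {ω g m : ℕ → ℝ} {κ : ℝ}

lemma be_zero (S : Sy Q j' B w z ω g m κ) : be Q j' B 0 = 1 := by
  unfold be vv
  rw [S.first]
  have h := S.hj
  have : (0:ℝ) < (j' : ℝ) ^ (2 * Q) := by
    have : (0:ℝ) < j' := by exact_mod_cast (by omega : 0 < j')
    positivity
  push_cast
  rw [div_self this.ne', Real.one_rpow]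

lemma be_mono (S : Sy Q j' B w z ω g m κ) : Monotone (be Q j' B) := fun _ _ h => vv_mono (S.mono.monotone h)

lemma be_lt (S : Sy Q j' B w z ω g m κ) (i : ℕ) : be Q j' B i < be Q j' B (i + 1) :=
  vv_lt (by have := S.hQ; omega) (by have := S.hj; omega) (S.mono (Nat.lt_succ_self i))

lemma be_one_le (S : Sy Q j' B w z ω g m κ) (i : ℕ) : 1 ≤ be Q j' B i := by
  rw [← be_zero S]; exact be_mono S (Nat.zero_le i)

lemma mem_cell {i n : ℕ} (hn : n ∈ Ioc (B i) (B (i + 1))) :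
    vv Q j' n ∈ Set.Icc (be Q j' B i) (be Q j' B (i + 1)) := by
  rw [Finset.mem_Ioc] at hn
  exact ⟨vv_mono hn.1.le, vv_mono hn.2⟩

lemma B_ge (S : Sy Q j' B w z ω g m κ) (i : ℕ) : 16 ≤ B i := by
  have h1 : j' ^ 1 ≤ j' ^ (2 * Q) := Nat.pow_le_pow_right (by have := S.hj; omega) (by have := S.hQ; omega)
  rw [pow_one] at h1
  have h2 := S.first
  have h3 : B 0 ≤ B i := S.mono.monotone (Nat.zero_le i)
  have h4 := S.hj
  omega

lemma XL_le (S : Sy Q j' B w z ω g m κ) {D : ℝ} {c : ℕ → ℝ} {F : ℝ → ℝ} (hB : Bd Q j' B z g κ D c F) (i : ℕ) :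
    ∀ p ∈ Ioc (B i) (B (i + 1)), p.Prime → |XL Q j' B w c F i p| ≤ D / 2 * (z p * gw p) := by
  obtain ⟨hD, hFc, hc, hF, -⟩ := hB
  intro p hp hpp
  set bi := be Q j' B i with hbi
  set b' := be Q j' B (i + 1) with hb'
  have hbi1 : 1 ≤ bi := be_one_le S i
  have hbb : bi < b' := be_lt S i
  have hw : ∀ u, bi ≤ u → u ≤ b' → |w p u| ≤ ω i := S.wbd i p hp
  have hω : 0 ≤ ω i := (abs_nonneg _).trans (hw bi le_rfl hbb.le)
  have hg : 0 ≤ g i := le_trans (mul_nonneg S.hκ.le (NV_nonneg Q (by linarith))) (S.gNV i)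
  have hvp := (mem_cell (Q := Q) (j' := j') hp).1
  have hvp0 : 0 < vv Q j' p := by linarith
  have e1 : |∫ u in bi..b', F u * w p u| ≤ D * (ω i * ((b' - bi) * g i)) := by
    have h1 : ‖∫ u in bi..b', F u * w p u‖ ≤ D * g i * ω i * |b' - bi| := by
      refine intervalIntegral.norm_integral_le_of_norm_le_const fun x hx => ?_
      rw [Set.uIoc_of_le hbb.le] at hx
      rw [norm_mul, Real.norm_eq_abs, Real.norm_eq_abs]
      exact mul_le_mul (hF i x hx.1.le hx.2) (hw x hx.1.le hx.2) (abs_nonneg _) (by positivity)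
    rw [abs_of_nonneg (sub_nonneg.2 hbb.le), Real.norm_eq_abs] at h1
    linarith
  set H := z (B i) * Hs (j' ^ (2 * Q)) (B i) (B (i + 1)) with hH
  have e4 : |∑ n ∈ Ioc (B i) (B (i + 1)), c n * (vv Q j' n) ^ 2 * w p (vv Q j' n)| ≤
      D * (ω i * (H * b' ^ 2)) := by
    refine (Finset.abs_sum_le_sum_abs _ _).trans ?_
    have h1 : ∀ n ∈ Ioc (B i) (B (i + 1)), |c n * (vv Q j' n) ^ 2 * w p (vv Q j' n)| ≤
        ω i * b' ^ 2 * |c n| := by
      intro n hn
      obtain ⟨h2, h3⟩ := mem_cell (Q := Q) (j' := j') hn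
      have h4 : (vv Q j' n) ^ 2 ≤ b' ^ 2 := pow_le_pow_left₀ (by linarith) h3 2
      rw [abs_mul, abs_mul, abs_of_nonneg (sq_nonneg (vv Q j' n))]
      calc |c n| * vv Q j' n ^ 2 * |w p (vv Q j' n)| ≤ |c n| * b' ^ 2 * ω i :=
            mul_le_mul (mul_le_mul_of_nonneg_left h4 (abs_nonneg _)) (hw _ h2 h3)
              (abs_nonneg _) (by positivity)
        _ = _ := by ring
    refine (Finset.sum_le_sum h1).trans ?_
    rw [← Finset.mul_sum]
    calc ω i * b' ^ 2 * ∑ n ∈ Ioc (B i) (B (i + 1)), |c n| ≤ ω i * b' ^ 2 * (D * H) :=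
          mul_le_mul_of_nonneg_left (hc i) (by positivity)
      _ = _ := by ring
  unfold XL
  rw [abs_div, abs_of_nonneg (sq_nonneg (vv Q j' p)), div_le_iff₀ (by positivity)]
  have h5 : |(∫ u in bi..b', F u * w p u) -
      ∑ n ∈ Ioc (B i) (B (i + 1)), c n * (vv Q j' n) ^ 2 * w p (vv Q j' n)| ≤
      D * (ω i * ((b' - bi) * g i)) + D * (ω i * (H * b' ^ 2)) := (abs_sub _ _).trans (add_le_add e1 e4)
  refine h5.trans ?_
  have h6 := S.small i p hp hpp
  have h7 : bi ^ 2 ≤ vv Q j' p ^ 2 := pow_le_pow_left₀ (by linarith) hvp 2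
  have h8 : 0 ≤ z p * gw p := by
    have h16 := B_ge S i
    have : 1 ≤ p := hpp.one_le
    exact mul_nonneg (S.zpos p this).le (gw_nonneg p)
  calc D * (ω i * ((b' - bi) * g i)) + D * (ω i * (H * b' ^ 2))
      = D * (ω i * ((b' - bi) * g i + H * b' ^ 2)) := by ring
    _ ≤ D * (1 / 2 * (z p * gw p) * bi ^ 2) := mul_le_mul_of_nonneg_left h6 hD
    _ ≤ D * (1 / 2 * (z p * gw p) * vv Q j' p ^ 2) := by gcongr
    _ = _ := by ring

lemma cellM_le (S : Sy Q j' B w z ω g m κ) {D : ℝ} {c : ℕ → ℝ} {F : ℝ → ℝ} (hB : Bd Q j' B z g κ D c F) (i : ℕ) :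
    cellM (fun n => co Q j' B w c F i n * (vv Q j' n) ^ 2) F (Ioc (B i) (B (i + 1))) (be Q j' B i)
      (be Q j' B (i + 1)) ≤ D * m i := by
  have hX := XL_le S hB i
  obtain ⟨hD, hFc, hc, hF, -⟩ := hB
  set bi := be Q j' B i with hbi
  set b' := be Q j' B (i + 1) with hb'
  have hbi1 : 1 ≤ bi := be_one_le S i
  have hbb : bi < b' := be_lt S i
  have h16 := B_ge S i
  set zi := z (B i) with hzi
  have hz0 : 0 < zi := S.zpos _ (by omega)
  set H := Hs (j' ^ (2 * Q)) (B i) (B (i + 1)) with hH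
  have hI : ∫ u in bi..b', |F u| ≤ D * (g i * (b' - bi)) := by
    have h1 : ‖∫ u in bi..b', |F u|‖ ≤ D * g i * |b' - bi| := by
      refine intervalIntegral.norm_integral_le_of_norm_le_const fun x hx => ?_
      rw [Set.uIoc_of_le hbb.le] at hx
      rw [Real.norm_eq_abs, abs_abs]
      exact hF i x hx.1.le hx.2
    rw [abs_of_nonneg (sub_nonneg.2 hbb.le)] at h1
    refine (le_abs_self _).trans (h1.trans (le_of_eq ?_))
    ring
  have hco : ∑ n ∈ Ioc (B i) (B (i + 1)), |co Q j' B w c F i n * (vv Q j' n) ^ 2| ≤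
      D * (zi * H * b' ^ 2 + zi * (Ioc (B i) (B (i + 1))).card * b' ^ 2) := by
    have h1 : ∀ n ∈ Ioc (B i) (B (i + 1)), |co Q j' B w c F i n * (vv Q j' n) ^ 2| ≤
        b' ^ 2 * |c n| + b' ^ 2 * (D * zi) := by
      intro n hn
      obtain ⟨h2, h3⟩ := mem_cell (Q := Q) (j' := j') hn
      have h4 : (vv Q j' n) ^ 2 ≤ b' ^ 2 := pow_le_pow_left₀ (by linarith) h3 2
      have hn' := Finset.mem_Ioc.1 hn
      have h5 : |co Q j' B w c F i n| ≤ |c n| + D * zi := by
        unfold co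
        refine (abs_add_le _ _).trans (add_le_add le_rfl ?_)
        split_ifs with hpn
        · refine (hX n hn hpn).trans ?_
          have h6 : gw n ≤ 1 := gw_le_one (by omega)
          have h7 := gw_nonneg n
          have h8 : z n ≤ zi := S.zanti _ _ (by omega) hn'.1.le
          have h9 : 0 < z n := S.zpos _ (by omega)
          have h10 : z n * gw n ≤ zi * 1 := mul_le_mul h8 h6 h7 hz0.le
          nlinarith [mul_nonneg hD hz0.le]
        · rw [abs_zero]; positivity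
      rw [abs_mul, abs_of_nonneg (sq_nonneg (vv Q j' n))]
      calc |co Q j' B w c F i n| * (vv Q j' n) ^ 2 ≤ (|c n| + D * zi) * b' ^ 2 :=
            mul_le_mul h5 h4 (sq_nonneg _) (by positivity)
        _ = _ := by ring
    refine (Finset.sum_le_sum h1).trans ?_
    rw [Finset.sum_add_distrib, ← Finset.mul_sum, Finset.sum_const, nsmul_eq_mul]
    have h2 := mul_le_mul_of_nonneg_left (hc i) (sq_nonneg b')
    rw [← hzi, ← hH] at h2
    linarith
  have h3 := mul_le_mul_of_nonneg_left (S.mass i) hD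
  rw [← hzi, ← hH, ← hb', ← hbi] at h3
  unfold cellM
  linarith

lemma mom (S : Sy Q j' B w z ω g m κ) {c : ℕ → ℝ} {F : ℝ → ℝ} (hFc : Continuous F) (i : ℕ)
    (P : Polynomial ℝ) (hP : P.natDegree < 4 * Q + 4) :
    BF Q j' B w c F i (fun u => P.eval u) = 0 := by
  set bi := be Q j' B i with hbi
  set b' := be Q j' B (i + 1) with hb'
  set V := vv Q j' with hV
  set I := Ioc (B i) (B (i + 1)) with hI
  have hbi1 : 1 ≤ bi := be_one_le S i
  have hbb : bi < b' := be_lt S i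
  have hw0 : ∀ n, ¬ n.Prime → ∀ u, w n u = 0 := by
    intro n hn u
    by_contra h
    exact hn (S.wsupp n u h).1
  have hVpos : ∀ n ∈ I, V n ≠ 0 := by
    intro n hn
    have := (mem_cell (Q := Q) (j' := j') hn).1
    have : bi ≤ V n := this
    linarith
  have h1 : ∑ n ∈ I, co Q j' B w c F i n * V n ^ 2 * P.eval (V n) =
      ∑ n ∈ I, c n * V n ^ 2 * P.eval (V n) +
        ∑ n ∈ I, ((∫ u in bi..b', F u * w n u) - ∑ l ∈ I, c l * V l ^ 2 * w n (V l)) * P.eval (V n) := by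
    rw [← Finset.sum_add_distrib]
    apply Finset.sum_congr rfl
    intro n hn
    unfold co
    split_ifs with hp
    · unfold XL
      have := hVpos n hn
      rw [← hV, ← hI, ← hbi, ← hb']
      field_simp
    · simp only [hw0 n hp, mul_zero, intervalIntegral.integral_zero, Finset.sum_const_zero, sub_zero, zero_mul,
        add_zero]
  have h2 : ∑ n ∈ I, (∫ u in bi..b', F u * w n u) * P.eval (V n) = ∫ u in bi..b', F u * P.eval u := by
    have e1 : ∀ n, (∫ u in bi..b', F u * w n u) * P.eval (V n) = ∫ u in bi..b', F u * w n u * P.eval (V n) :=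
      fun n => (intervalIntegral.integral_mul_const _ _).symm
    simp_rw [e1]
    rw [← intervalIntegral.integral_finsetSum]
    · apply intervalIntegral.integral_congr
      intro u hu
      rw [Set.uIcc_of_le hbb.le] at hu
      simp only
      have := S.wmom i u hu.1 hu.2 P hP
      calc ∑ n ∈ I, F u * w n u * P.eval (V n) = F u * ∑ n ∈ I, w n u * P.eval (V n) := by
            rw [Finset.mul_sum]
            exact Finset.sum_congr rfl fun n _ => by ring
        _ = _ := by rw [this]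
    · intro n _
      exact ((hFc.mul (S.wcont n)).mul continuous_const).intervalIntegrable _ _
  have h3 : ∑ n ∈ I, (∑ l ∈ I, c l * V l ^ 2 * w n (V l)) * P.eval (V n) = ∑ l ∈ I, c l * V l ^ 2 * P.eval (V l) := by
    simp_rw [Finset.sum_mul]
    rw [Finset.sum_comm]
    apply Finset.sum_congr rfl
    intro l hl
    have hl' := mem_cell (Q := Q) (j' := j') hl
    have := S.wmom i (V l) hl'.1 hl'.2 P hP
    calc ∑ n ∈ I, c l * V l ^ 2 * w n (V l) * P.eval (V n) = c l * V l ^ 2 * ∑ n ∈ I, w n (V l) * P.eval (V n) := by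
          rw [Finset.mul_sum]
          exact Finset.sum_congr rfl fun n _ => by ring
      _ = _ := by rw [this]
  unfold BF cellB
  rw [← hV, ← hI, ← hbi, ← hb', h1]
  simp_rw [sub_mul]
  rw [Finset.sum_sub_distrib, h2, h3]
  ring

lemma BL_le (S : Sy Q j' B w z ω g m κ) {D : ℝ} {c : ℕ → ℝ} {F : ℝ → ℝ} (hB : Bd Q j' B z g κ D c F) (i : ℕ)
    {v : ℝ} (hv : 0 ≤ v) :
    |BL Q j' B w c F i v| ≤ D * (C0 Q * (m i * vpi Q (be Q j' B i) (be Q j' B (i + 1)))) * NV Q v := by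
  have hM := cellM_le S hB i
  have hmom := mom S (c := c) hB.2.1 i
  have h1 := core (Q := Q) (A := fun n => co Q j' B w c F i n * (vv Q j' n) ^ 2) (u := vv Q j') hB.2.1
    (S := Ioc (B i) (B (i + 1))) (be_one_le S i) (be_lt S i) (S.short i) (fun n hn => mem_cell hn) hv (by
      intro k hk
      have h2 := hmom ((Polynomial.X - Polynomial.C (be Q j' B i)) ^ k) (by
        rw [Polynomial.natDegree_pow, Polynomial.natDegree_X_sub_C, mul_one]
        exact hk)
      simpa [BF] using h2)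
  refine h1.trans ?_
  apply mul_le_mul_of_nonneg_right _ (NV_nonneg Q hv)
  have h3 := vpi_nonneg Q (a := be Q j' B i) (b := be Q j' B (i + 1)) (by have := be_one_le S i; linarith)
  have h4 := C0_pos Q
  calc C0 Q * (cellM _ F _ _ _ * vpi Q (be Q j' B i) (be Q j' B (i + 1)))
      ≤ C0 Q * ((D * m i) * vpi Q (be Q j' B i) (be Q j' B (i + 1))) := by gcongr
    _ = _ := by ring

lemma BL_cont {c : ℕ → ℝ} {F : ℝ → ℝ} (hF : Continuous F) (i : ℕ) :
    Continuous (fun v => BL Q j' B w c F i v) := by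
  unfold BL BF cellB
  have hint : Continuous fun v : ℝ => ∫ u in (be Q j' B i)..(be Q j' B (i + 1)),
      F u * Ker (4 * Q + 3) u v := by
    apply intervalIntegral.continuous_parametric_intervalIntegral_of_continuous'
    have h2 : Continuous (fun p : ℝ × ℝ => Ker (4 * Q + 3) p.2 p.1) :=
      (Ker_cont (4 * Q + 3)).comp continuous_swap
    exact (hF.comp continuous_snd).mul h2
  refine Continuous.sub ?_ hint
  exact continuous_finsetSum _ fun n _ => continuous_const.mul (Ker_cont_right _ _)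

lemma first_le {D : ℝ} {F : ℝ → ℝ} (hQ : 300 ≤ Q) (hκ : 0 < κ) (hD : 0 ≤ D) (hFc : Continuous F)
    (hF : ∀ v : ℝ, 0 ≤ v → v ≤ 1 → |F v| ≤ D * (κ * v ^ (4 * Q + 3))) {v : ℝ} (hv : 0 ≤ v) :
    |∫ u in (0:ℝ)..1, F u * Ker (4 * Q + 3) u v| ≤ D * (κ / 4) * NV Q v := by
  have hQR : (300:ℝ) ≤ Q := by exact_mod_cast hQ
  rcases le_or_gt v 1 with h1 | h1
  · have h2 : ‖∫ u in (0:ℝ)..1, F u * Ker (4 * Q + 3) u v‖ ≤ D * (κ / 4) * NV Q v * |1 - 0| := by
      refine intervalIntegral.norm_integral_le_of_norm_le_const fun x hx => ?_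
      rw [Set.uIoc_of_le zero_le_one] at hx
      rw [norm_mul, Real.norm_eq_abs, Real.norm_eq_abs]
      have a1 := hF x hx.1.le hx.2
      have a2 := Ker_le_pow (4 * Q + 3) hx.1.le hv
      have a3 : (x:ℝ) ^ (4 * Q + 3) ≤ 1 := pow_le_one₀ hx.1.le hx.2
      have a4 : (4:ℝ) ≤ ((4 * Q + 3).factorial : ℝ) := by
        have : 4 ≤ (4 * Q + 3).factorial := by
          calc 4 ≤ 4 * Q + 3 := by omega
            _ ≤ _ := Nat.self_le_factorial _
        exact_mod_cast this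
      have a5 : v ^ (4 * Q + 3) / ((4 * Q + 3).factorial : ℝ) ≤ v ^ (4 * Q + 3) / 4 :=
        div_le_div_of_nonneg_left (by positivity) (by norm_num) a4
      unfold NV
      rw [if_pos h1]
      calc |F x| * |Ker (4 * Q + 3) x v| ≤ (D * (κ * x ^ (4 * Q + 3))) * (v ^ (4 * Q + 3) / 4) :=
            mul_le_mul a1 (a2.trans a5) (abs_nonneg _) ((abs_nonneg _).trans a1)
        _ ≤ (D * (κ * 1)) * (v ^ (4 * Q + 3) / 4) := by gcongr
        _ = _ := by ring
    rw [sub_zero, abs_one, mul_one, Real.norm_eq_abs] at h2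
    exact h2
  · have hv0 : 0 < v := by linarith
    set K : ℝ := 3 * Real.sqrt (8 * Q + 7) with hK
    have hpt : ∀ u : ℝ, u ∈ Set.Ioc (0:ℝ) 1 → ‖F u * Ker (4 * Q + 3) u v‖ ≤
        D * κ * K * v ^ (2 * (Q:ℝ) + 5 / 4) * u ^ (2 * (Q:ℝ) + 5 / 4) := by
      intro u hu
      rw [norm_mul, Real.norm_eq_abs, Real.norm_eq_abs]
      have a1 := hF u hu.1.le hu.2
      have a2 := Ker_dec (4 * Q + 3) hu.1 hv0
      rw [show (((4 * Q + 3 : ℕ) : ℝ) / 2 - 1 / 4) = 2 * (Q:ℝ) + 5 / 4 by push_cast; ring,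
        show -(((4 * Q + 3 : ℕ) : ℝ) / 2 + 1 / 4) = -(2 * (Q:ℝ) + 7 / 4) by push_cast; ring,
        show 2 * ((4 * Q + 3 : ℕ) : ℝ) + 1 = 8 * Q + 7 by push_cast; ring] at a2
      have a3 : u ^ (4 * Q + 3) * u ^ (-(2 * (Q:ℝ) + 7 / 4)) = u ^ (2 * (Q:ℝ) + 5 / 4) := by
        rw [← Real.rpow_natCast, ← Real.rpow_add hu.1]
        congr 1
        push_cast
        ring
      calc |F u| * |Ker (4 * Q + 3) u v| ≤ (D * (κ * u ^ (4 * Q + 3))) *
            (K * (v ^ (2 * (Q:ℝ) + 5 / 4) * u ^ (-(2 * (Q:ℝ) + 7 / 4)))) :=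
            mul_le_mul a1 a2 (abs_nonneg _) ((abs_nonneg _).trans a1)
        _ = D * κ * K * v ^ (2 * (Q:ℝ) + 5 / 4) * (u ^ (4 * Q + 3) * u ^ (-(2 * (Q:ℝ) + 7 / 4))) := by ring
        _ = _ := by rw [a3]
    have hint : |∫ u in (0:ℝ)..1, F u * Ker (4 * Q + 3) u v| ≤
        ∫ u in (0:ℝ)..1, D * κ * K * v ^ (2 * (Q:ℝ) + 5 / 4) * u ^ (2 * (Q:ℝ) + 5 / 4) := by
      rw [← Real.norm_eq_abs]
      apply intervalIntegral.norm_integral_le_of_norm_le zero_le_one
      · exact Filter.Eventually.of_forall fun u hu => hpt u hu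
      · exact (continuous_const.mul (Real.continuous_rpow_const (by positivity))).intervalIntegrable _ _
    rw [intervalIntegral.integral_const_mul, integral_rpow (Or.inl (by linarith))] at hint
    refine hint.trans ?_
    rw [Real.one_rpow, Real.zero_rpow (by positivity), sub_zero]
    have hK4 : K * (1 / (2 * (Q:ℝ) + 5 / 4 + 1)) ≤ 1 / 4 := by
      rw [mul_one_div, div_le_div_iff₀ (by positivity) (by norm_num), hK]
      have : Real.sqrt (8 * Q + 7) ≤ (2 * (Q:ℝ) + 9 / 4) / 12 := by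
        apply Real.sqrt_le_iff.2
        constructor
        · positivity
        · nlinarith
      linarith
    have e : NV Q v = v ^ (2 * (Q:ℝ) + 5 / 4) * v ^ (1 / 16 : ℝ) := by
      unfold NV
      rw [if_neg (not_le.2 h1), ← Real.rpow_add hv0]
      congr 1
      ring
    have h3 : 1 ≤ v ^ (1 / 16 : ℝ) := Real.one_le_rpow h1.le (by norm_num)
    rw [e]
    calc D * κ * K * v ^ (2 * (Q:ℝ) + 5 / 4) * (1 / (2 * (Q:ℝ) + 5 / 4 + 1))
        = D * κ * v ^ (2 * (Q:ℝ) + 5 / 4) * (K * (1 / (2 * (Q:ℝ) + 5 / 4 + 1))) := by ring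
      _ ≤ D * κ * v ^ (2 * (Q:ℝ) + 5 / 4) * (1 / 4) := by gcongr
      _ = D * (κ / 4) * (v ^ (2 * (Q:ℝ) + 5 / 4) * 1) := by ring
      _ ≤ _ := by gcongr

lemma first_cont {F : ℝ → ℝ} (hFc : Continuous F) :
    Continuous (fun v : ℝ => ∫ u in (0:ℝ)..1, F u * Ker (4 * Q + 3) u v) := by
  apply intervalIntegral.continuous_parametric_intervalIntegral_of_continuous'
  have hk := Ker_cont (4 * Q + 3)
  exact (hFc.comp continuous_snd).mul (hk.comp (continuous_snd.prodMk continuous_fst))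

lemma NV_le_pow (Q : ℕ) {v : ℝ} (hv : 0 ≤ v) : NV Q v ≤ (1 + v) ^ (4 * Q + 3) := by
  unfold NV
  split_ifs with h
  · exact pow_le_pow_left₀ hv (by linarith) _
  · push Not at h
    rw [← Real.rpow_natCast]
    have h0 : (0:ℝ) ≤ Q := Nat.cast_nonneg Q
    calc v ^ (2 * (Q:ℝ) + 21 / 16) ≤ v ^ (((4 * Q + 3 : ℕ) : ℝ)) := by
          apply Real.rpow_le_rpow_of_exponent_le h.le
          push_cast
          linarith
      _ ≤ _ := Real.rpow_le_rpow hv (by linarith) (by positivity)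

lemma FL_le (S : Sy Q j' B w z ω g m κ) {D : ℝ} {c : ℕ → ℝ} {F : ℝ → ℝ} (hB : Bd Q j' B z g κ D c F) :
    (∀ v : ℝ, 0 ≤ v → |FL Q j' B w c F v| ≤ D / 2 * (κ * NV Q v)) ∧
    Continuous (fun v : ℝ => FL Q j' B w c F (max v 0)) ∧
    (∀ v : ℝ, 0 ≤ v → Summable fun i => BL Q j' B w c F i v) := by
  have hD := hB.1
  have hb : ∀ i, ∀ v : ℝ, 0 ≤ v → |BL Q j' B w c F i v| ≤
    D * (C0 Q * (m i * vpi Q (be Q j' B i) (be Q j' B (i + 1)))) * NV Q v := fun i v hv => BL_le S hB i hv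
  obtain ⟨hs, hs2⟩ := S.sum
  have hs' : Summable fun i => D * (C0 Q * (m i * vpi Q (be Q j' B i) (be Q j' B (i + 1)))) :=
    (hs.mul_left (C0 Q)).mul_left D
  have hnn : ∀ i, 0 ≤ D * (C0 Q * (m i * vpi Q (be Q j' B i) (be Q j' B (i + 1)))) := by
    intro i
    have h := (abs_nonneg _).trans (hb i 1 zero_le_one)
    have e : NV Q 1 = 1 := by unfold NV; simp
    rw [e, mul_one] at h
    exact h
  have hsum : ∀ v : ℝ, 0 ≤ v → Summable fun i => BL Q j' B w c F i v := by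
    intro v hv
    refine Summable.of_norm_bounded (hs'.mul_right (NV Q v)) (fun i => ?_)
    rw [Real.norm_eq_abs]
    exact hb i v hv
  have hfirst := fun v (hv : (0:ℝ) ≤ v) => first_le (κ := κ) S.hQ S.hκ hD hB.2.1 hB.2.2.2.2 hv
  refine ⟨?_, ?_, hsum⟩
  · intro v hv
    have h1 := hfirst v hv
    have h0 : |∑' i, BL Q j' B w c F i v| ≤ ∑' i, |BL Q j' B w c F i v| := by
      have := norm_tsum_le_tsum_norm (f := fun i => BL Q j' B w c F i v)
        (by simpa using (hsum v hv).abs)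
      simpa using this
    have h2 : |∑' i, BL Q j' B w c F i v| ≤ D * (κ / 8) * NV Q v := by
      refine h0.trans ?_
      calc ∑' i, |BL Q j' B w c F i v|
          ≤ ∑' i, D * (C0 Q * (m i * vpi Q (be Q j' B i) (be Q j' B (i + 1)))) * NV Q v :=
            Summable.tsum_le_tsum (fun i => hb i v hv) (hsum v hv).abs (hs'.mul_right _)
        _ = D * (C0 Q * ∑' i, m i * vpi Q (be Q j' B i) (be Q j' B (i + 1))) * NV Q v := by
            rw [tsum_mul_right, tsum_mul_left, tsum_mul_left]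
        _ ≤ _ := by
            apply mul_le_mul_of_nonneg_right _ (NV_nonneg Q hv)
            exact mul_le_mul_of_nonneg_left hs2 hD
    unfold FL
    refine (abs_add_le _ _).trans ?_
    rw [abs_neg]
    refine (add_le_add h1 h2).trans ?_
    have h3 : 0 ≤ D * (κ * NV Q v) := by
      have h4 := NV_nonneg Q hv
      have h5 := S.hκ
      positivity
    linarith
  · rw [continuous_iff_continuousAt]
    intro v₀
    have hmax : Continuous fun v : ℝ => max v 0 := continuous_id.max continuous_const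
    have hon : ContinuousOn (fun v : ℝ => FL Q j' B w c F (max v 0)) (Set.Iio (|v₀| + 1)) := by
      unfold FL
      apply ContinuousOn.add
      · exact (((first_cont hB.2.1).comp hmax).neg).continuousOn
      · refine continuousOn_tsum (u := fun i => D * (C0 Q * (m i * vpi Q (be Q j' B i) (be Q j' B (i + 1)))) *
          (2 + |v₀|) ^ (4 * Q + 3))
          (fun i => ?_) (hs'.mul_right _) ?_
        · exact ((BL_cont hB.2.1 i).comp hmax).continuousOn
        · intro i v hv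
          rw [Real.norm_eq_abs]
          refine (hb i _ (le_max_right _ _)).trans ?_
          apply mul_le_mul_of_nonneg_left _ (hnn i)
          refine (NV_le_pow Q (le_max_right _ _)).trans ?_
          apply pow_le_pow_left₀ (by have := le_max_right v 0; linarith)
          have : max v 0 ≤ |v₀| + 1 := max_le (le_of_lt hv) (by positivity)
          linarith
    refine hon.continuousAt (Iio_mem_nhds ?_)
    have := le_abs_self v₀
    linarith

/-! ### linearity -/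

lemma int_mul_sub {f f' g : ℝ → ℝ} (hf : Continuous f) (hf' : Continuous f')
    (hg : Continuous g) (a b : ℝ) :
    ∫ u in a..b, (f u - f' u) * g u = (∫ u in a..b, f u * g u) - ∫ u in a..b, f' u * g u := by
  have h1 : IntervalIntegrable (fun u => f u * g u) volume a b := (hf.mul hg).intervalIntegrable a b
  have h2 : IntervalIntegrable (fun u => f' u * g u) volume a b := (hf'.mul hg).intervalIntegrable a b
  rw [← intervalIntegral.integral_sub h1 h2]
  exact intervalIntegral.integral_congr (fun u _ => sub_mul _ _ _)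

lemma XL_sub (S : Sy Q j' B w z ω g m κ) (c c' : ℕ → ℝ) {f f' : ℝ → ℝ} (hf : Continuous f)
    (hf' : Continuous f') (i p : ℕ) :
    XL Q j' B w (fun n => c n - c' n) (fun u => f u - f' u) i p =
      XL Q j' B w c f i p - XL Q j' B w c' f' i p := by
  unfold XL
  rw [int_mul_sub hf hf' (S.wcont p), ← sub_div]
  congr 1
  have h1 : ∑ n ∈ Ioc (B i) (B (i + 1)), (c n - c' n) * (vv Q j' n) ^ 2 * w p (vv Q j' n)
      = ∑ n ∈ Ioc (B i) (B (i + 1)), c n * (vv Q j' n) ^ 2 * w p (vv Q j' n)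
        - ∑ n ∈ Ioc (B i) (B (i + 1)), c' n * (vv Q j' n) ^ 2 * w p (vv Q j' n) := by
    rw [← Finset.sum_sub_distrib]
    refine Finset.sum_congr rfl (fun n _ => ?_)
    ring
  rw [h1]
  ring

lemma BL_sub (S : Sy Q j' B w z ω g m κ) (c c' : ℕ → ℝ) {f f' : ℝ → ℝ} (hf : Continuous f)
    (hf' : Continuous f') (i : ℕ) (v : ℝ) :
    BL Q j' B w (fun n => c n - c' n) (fun u => f u - f' u) i v =
      BL Q j' B w c f i v - BL Q j' B w c' f' i v := by
  unfold BL BF cellB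
  rw [int_mul_sub hf hf' (Ker_cont_left _ v)]
  have h1 : ∑ n ∈ Ioc (B i) (B (i + 1)), co Q j' B w (fun n => c n - c' n) (fun u => f u - f' u) i n *
      (vv Q j' n) ^ 2 * Ker (4 * Q + 3) (vv Q j' n) v
      = ∑ n ∈ Ioc (B i) (B (i + 1)), co Q j' B w c f i n * (vv Q j' n) ^ 2 * Ker (4 * Q + 3) (vv Q j' n) v
        - ∑ n ∈ Ioc (B i) (B (i + 1)), co Q j' B w c' f' i n * (vv Q j' n) ^ 2 * Ker (4 * Q + 3) (vv Q j' n) v := by
    rw [← Finset.sum_sub_distrib]
    refine Finset.sum_congr rfl (fun n _ => ?_)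
    have : co Q j' B w (fun n => c n - c' n) (fun u => f u - f' u) i n =
        co Q j' B w c f i n - co Q j' B w c' f' i n := by
      unfold co
      rw [XL_sub S c c' hf hf']
      split_ifs <;> ring
    rw [this]
    ring
  rw [h1]
  ring

lemma FL_sub (S : Sy Q j' B w z ω g m κ) (c c' : ℕ → ℝ) {f f' : ℝ → ℝ} (hf : Continuous f)
    (hf' : Continuous f') (v : ℝ) (h1 : Summable fun i => BL Q j' B w c f i v)
    (h2 : Summable fun i => BL Q j' B w c' f' i v) :
    FL Q j' B w (fun n => c n - c' n) (fun u => f u - f' u) v = FL Q j' B w c f v - FL Q j' B w c' f' v := by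
  unfold FL
  rw [int_mul_sub hf hf' (Ker_cont_left _ v)]
  have h3 : (fun i => BL Q j' B w (fun n => c n - c' n) (fun u => f u - f' u) i v)
      = fun i => BL Q j' B w c f i v - BL Q j' B w c' f' i v := by
    funext i
    exact BL_sub S c c' hf hf' i v
  rw [h3, h1.tsum_sub h2]
  ring

end

end Pool.Agent.H81.HM
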