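import Pool.Agent.H81.HM.Th
import Pool.Graph.R_seed8.Y937.PG.Stm

/-!
# The parameters of the machine
-/

set_option autoImplicit false

open Finset MeasureTheory Filter Topology

namespace Pool.Agent.H81.HM

open Pool.Agent.H96R3.BC (vv cf)
open Pool.Agent.H394R3.BC (Ker Ker_le_pow one_le_fac)
open Pool.Agent.W406.PX (gw hm Hs cN Bdy TaskMass)

/-- the weight -/
noncomputable def zz (Q : ℕ) (n : ℕ) : ℝ := (n : ℝ) ^ (-(1 / 2 - 3 / (32 * (Q:ℝ))))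

/-- size of the density -/
noncomputable def kap (Q j' : ℕ) : ℝ := 12 * Real.sqrt (8 * Q + 7) * (vv Q j' 1) ^ (-(2 * (Q:ℝ) - 5 / 16))

/-- boundaries of the cells -/
def bB (q j' : ℕ) (i : ℕ) : ℕ := (j' ^ 16 + i) ^ (2 * q)

/-- size of the density in the cells -/
noncomputable def gG (q j' : ℕ) (i : ℕ) : ℝ :=
  2 * kap (16 * q) j' * be (16 * q) j' (bB q j') (i + 1) ^ (2 * ((16 * q : ℕ) : ℝ) + 27 / 20)

lemma zz_exp (Q : ℕ) (hQ : 1 ≤ Q) : 0 ≤ 1 / 2 - 3 / (32 * (Q:ℝ)) := by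
  have hQ' : (1:ℝ) ≤ Q := by exact_mod_cast hQ
  rw [sub_nonneg, div_le_div_iff₀ (by positivity) (by norm_num)]
  linarith

lemma zz_zm (Q : ℕ) (hQ : 1 ≤ Q) : Zm (zz Q) := by
  refine ⟨by simp [zz], fun n hn => ?_, fun n hn => ?_⟩
  · unfold zz
    rw [Real.finsetProd_rpow _ _ (fun i _ => Nat.cast_nonneg i), ← Nat.cast_prod, Nat.prod_primeFactors_of_squarefree hn]
  · unfold zz
    apply Real.rpow_le_one_of_one_le_of_nonpos (by exact_mod_cast hn)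
    have := zz_exp Q hQ
    linarith

lemma zz_pos (Q : ℕ) {n : ℕ} (hn : 1 ≤ n) : 0 < zz Q n := by
  unfold zz
  have : (0:ℝ) < n := by exact_mod_cast hn
  positivity

lemma zz_anti (Q : ℕ) (hQ : 1 ≤ Q) {a b : ℕ} (ha : 1 ≤ a) (hab : a ≤ b) : zz Q b ≤ zz Q a := by
  unfold zz
  apply Real.rpow_le_rpow_of_nonpos (by exact_mod_cast ha) (by exact_mod_cast hab)
  have := zz_exp Q hQ
  linarith

lemma v1_pos {Q j' : ℕ} (hj : 1 ≤ j') : 0 < vv Q j' 1 := by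
  unfold vv
  have : (0:ℝ) < j' := by exact_mod_cast hj
  positivity

lemma v1_le {Q j' : ℕ} (hj : 1 ≤ j') : vv Q j' 1 ≤ 1 := by
  unfold vv
  have : (1:ℝ) ≤ j' := by exact_mod_cast hj
  apply Real.rpow_le_one (by positivity) _ (by positivity)
  rw [Nat.cast_one, div_le_one (by positivity)]
  exact one_le_pow₀ this

lemma kap_ge {Q j' : ℕ} (hQ : 300 ≤ Q) (hj : 1 ≤ j') : 12 ≤ kap Q j' := by
  unfold kap
  have h1 := v1_pos (Q := Q) hj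
  have h2 := v1_le (Q := Q) hj
  have hQ' : (300:ℝ) ≤ Q := by exact_mod_cast hQ
  have h3 : 1 ≤ (vv Q j' 1) ^ (-(2 * (Q:ℝ) - 5 / 16)) := Real.one_le_rpow_of_pos_of_le_one_of_nonpos h1 h2 (by linarith)
  have h4 : 1 ≤ Real.sqrt (8 * Q + 7) := by
    rw [Real.le_sqrt' one_pos]
    linarith
  nlinarith

/-- the first term -/
lemma src1 {Q j' : ℕ} (hQ : 300 ≤ Q) (hj : 1 ≤ j') {v : ℝ} (hv : 0 ≤ v) :
    |(vv Q j' 1) ^ 2 * Ker (4 * Q + 3) (vv Q j' 1) v| ≤ kap Q j' / 4 * NV Q v := by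
  set V := vv Q j' 1 with hV
  have h1 : 0 < V := v1_pos hj
  have h2 : V ≤ 1 := v1_le hj
  have hQ' : (300:ℝ) ≤ Q := by exact_mod_cast hQ
  have hk := kap_ge hQ hj
  have hVV : V ^ 2 ≤ 1 := pow_le_one₀ h1.le h2
  rw [abs_mul, abs_of_nonneg (sq_nonneg V)]
  have h4 : 1 ≤ Real.sqrt (8 * Q + 7) := by
    rw [Real.le_sqrt' one_pos]
    linarith
  have hpow : |Ker (4 * Q + 3) V v| ≤ v ^ (4 * Q + 3) :=
    (Ker_le_pow (4 * Q + 3) h1.le hv).trans (div_le_self (by positivity) (one_le_fac _))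
  rcases le_or_gt v 1 with hv1 | hv1
  · unfold NV
    rw [if_pos hv1]
    calc V ^ 2 * |Ker (4 * Q + 3) V v| ≤ 1 * v ^ (4 * Q + 3) := mul_le_mul hVV hpow (abs_nonneg _) zero_le_one
      _ ≤ kap Q j' / 4 * v ^ (4 * Q + 3) := by gcongr; linarith
  · have hv0 : 0 < v := by linarith
    have eN : NV Q v = v ^ (2 * (Q:ℝ) + 21 / 16) := by unfold NV; rw [if_neg (not_le.2 hv1)]
    rw [eN]
    set P : ℝ := V ^ (-(2 * (Q:ℝ) - 5 / 16)) with hP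
    have hP0 : 0 < P := by positivity
    have ek : kap Q j' / 4 = 3 * Real.sqrt (8 * Q + 7) * P := by
      unfold kap; rw [← hV, ← hP]; ring
    rw [ek]
    rcases le_or_gt (V * v) 1 with h5 | h5
    · have a1 : V ^ 2 * v ^ (4 * Q + 3) ≤ P * v ^ (2 * (Q:ℝ) + 21 / 16) := by
        have e1 : V ^ 2 * v ^ (4 * Q + 3) = P * v ^ (2 * (Q:ℝ) + 21 / 16) * (V * v) ^ (2 * (Q:ℝ) + 27 / 16) := by
          rw [hP, Real.mul_rpow h1.le hv, ← Real.rpow_natCast V 2, ← Real.rpow_natCast v (4 * Q + 3)]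
          have : V ^ (-(2 * (Q:ℝ) - 5 / 16)) * v ^ (2 * (Q:ℝ) + 21 / 16) *
              (V ^ (2 * (Q:ℝ) + 27 / 16) * v ^ (2 * (Q:ℝ) + 27 / 16)) =
              (V ^ (-(2 * (Q:ℝ) - 5 / 16)) * V ^ (2 * (Q:ℝ) + 27 / 16)) *
              (v ^ (2 * (Q:ℝ) + 21 / 16) * v ^ (2 * (Q:ℝ) + 27 / 16)) := by ring
          rw [this, ← Real.rpow_add h1, ← Real.rpow_add hv0]
          congr 1
          · congr 1; push_cast; ring
          · congr 1; push_cast; ring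
        rw [e1]
        have : (V * v) ^ (2 * (Q:ℝ) + 27 / 16) ≤ 1 := Real.rpow_le_one (by positivity) h5 (by positivity)
        exact mul_le_of_le_one_right (by positivity) this
      calc V ^ 2 * |Ker (4 * Q + 3) V v| ≤ V ^ 2 * v ^ (4 * Q + 3) := by gcongr
        _ ≤ P * v ^ (2 * (Q:ℝ) + 21 / 16) := a1
        _ ≤ 3 * Real.sqrt (8 * Q + 7) * P * v ^ (2 * (Q:ℝ) + 21 / 16) := by
            have : 0 ≤ P * v ^ (2 * (Q:ℝ) + 21 / 16) := by positivity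
            nlinarith
    · have a2 := Ker_dec (4 * Q + 3) h1 hv0
      rw [show (((4 * Q + 3 : ℕ) : ℝ) / 2 - 1 / 4) = 2 * (Q:ℝ) + 5 / 4 by push_cast; ring,
        show -(((4 * Q + 3 : ℕ) : ℝ) / 2 + 1 / 4) = -(2 * (Q:ℝ) + 7 / 4) by push_cast; ring,
        show 2 * ((4 * Q + 3 : ℕ) : ℝ) + 1 = 8 * Q + 7 by push_cast; ring] at a2
      have e1 : V ^ 2 * (v ^ (2 * (Q:ℝ) + 5 / 4) * V ^ (-(2 * (Q:ℝ) + 7 / 4))) ≤ P * v ^ (2 * (Q:ℝ) + 21 / 16) := by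
        have e2 : P * v ^ (2 * (Q:ℝ) + 21 / 16) =
            V ^ 2 * (v ^ (2 * (Q:ℝ) + 5 / 4) * V ^ (-(2 * (Q:ℝ) + 7 / 4))) * (V * v) ^ (1 / 16 : ℝ) := by
          rw [hP, Real.mul_rpow h1.le hv, ← Real.rpow_natCast V 2]
          have : V ^ (((2:ℕ) : ℝ)) * (v ^ (2 * (Q:ℝ) + 5 / 4) * V ^ (-(2 * (Q:ℝ) + 7 / 4))) *
              (V ^ (1 / 16 : ℝ) * v ^ (1 / 16 : ℝ)) =
              (V ^ (((2:ℕ) : ℝ)) * V ^ (-(2 * (Q:ℝ) + 7 / 4)) * V ^ (1 / 16 : ℝ)) *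
              (v ^ (2 * (Q:ℝ) + 5 / 4) * v ^ (1 / 16 : ℝ)) := by ring
          rw [this, ← Real.rpow_add h1, ← Real.rpow_add h1, ← Real.rpow_add hv0]
          congr 1
          · congr 1; push_cast; ring
          · congr 1; ring
        rw [e2]
        apply le_mul_of_one_le_right (by positivity)
        exact Real.one_le_rpow h5.le (by norm_num)
      calc V ^ 2 * |Ker (4 * Q + 3) V v| ≤ V ^ 2 * (3 * Real.sqrt (8 * Q + 7) *
            (v ^ (2 * (Q:ℝ) + 5 / 4) * V ^ (-(2 * (Q:ℝ) + 7 / 4)))) := by gcongr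
        _ = 3 * Real.sqrt (8 * Q + 7) * (V ^ 2 * (v ^ (2 * (Q:ℝ) + 5 / 4) * V ^ (-(2 * (Q:ℝ) + 7 / 4)))) := by ring
        _ ≤ 3 * Real.sqrt (8 * Q + 7) * (P * v ^ (2 * (Q:ℝ) + 21 / 16)) := by gcongr
        _ = _ := by ring

/-- the nodes of the boundaries -/
lemma vv_bdy {q j' : ℕ} (hq : 1 ≤ q) (j : ℕ) :
    vv (16 * q) j' (j ^ (2 * q)) = ((j:ℝ) / ((j' ^ 16 : ℕ) : ℝ)) ^ (1 / 32 : ℝ) := by
  unfold vv
  have h1 : ((j ^ (2 * q) : ℕ) : ℝ) / (j' : ℝ) ^ (2 * (16 * q)) = ((j:ℝ) / ((j' ^ 16 : ℕ) : ℝ)) ^ (2 * q) := by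
    rw [div_pow]
    push_cast
    congr 1
    rw [← pow_mul]
    congr 1
    ring
  rw [h1, ← Real.rpow_natCast, ← Real.rpow_mul (by positivity)]
  congr 1
  push_cast
  have : (q:ℝ) ≠ 0 := by positivity
  field_simp
  norm_num

lemma zz_bdy {q : ℕ} (hq : 1 ≤ q) (j : ℕ) : zz (16 * q) (j ^ (2 * q)) = (j:ℝ) ^ (-((q:ℝ) - 3 / 256)) := by
  unfold zz
  push_cast
  rw [← Real.rpow_natCast, ← Real.rpow_mul (by positivity)]
  congr 1
  push_cast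
  have : (q:ℝ) ≠ 0 := by positivity
  field_simp
  ring

lemma v1_eq {q j' : ℕ} (hq : 1 ≤ q) : vv (16 * q) j' 1 = (((j' ^ 16 : ℕ) : ℝ)) ^ (-(1 / 32) : ℝ) := by
  have h := vv_bdy (j' := j') hq 1
  rw [one_pow] at h
  rw [h, Nat.cast_one, one_div, Real.inv_rpow (by positivity), Real.rpow_neg (by positivity)]

lemma kap_eq {q j' : ℕ} (hq : 1 ≤ q) : kap (16 * q) j' =
    12 * Real.sqrt (8 * ((16 * q : ℕ) : ℝ) + 7) * (((j' ^ 16 : ℕ) : ℝ)) ^ ((q:ℝ) - 5 / 512) := by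
  unfold kap
  rw [v1_eq hq, ← Real.rpow_mul (by positivity)]
  congr 2
  push_cast
  ring


/-! ### estimates for one cell; `x = j`, `J = j₁` -/

/-- short intervals do not change powers much -/
lemma ratio_le {q : ℕ} {x : ℝ} (hx : 4 * (q:ℝ) ≤ x) (hx0 : 0 < x) {s : ℝ} (hs0 : 0 ≤ s) (hs : s ≤ 2 * q) :
    ((x + 1) / x) ^ s ≤ 2 := by
  have h1 : (x + 1) / x ≤ Real.exp (1 / x) := by
    have := Real.add_one_le_exp (1 / x)
    rw [add_div, div_self hx0.ne']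
    linarith
  calc ((x + 1) / x) ^ s ≤ (Real.exp (1 / x)) ^ s := Real.rpow_le_rpow (by positivity) h1 hs0
    _ = Real.exp (s / x) := by rw [← Real.exp_mul]; congr 1; ring
    _ ≤ Real.exp (1 / 2) := by
        apply Real.exp_le_exp.2
        rw [div_le_div_iff₀ hx0 (by norm_num)]
        linarith
    _ ≤ 2 := by
        have h2 : Real.exp (1 / 2) ^ 2 = Real.exp 1 := by
          rw [← Real.exp_nat_mul]
          norm_num
        have h3 := Real.exp_one_lt_d9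
        nlinarith [Real.exp_pos (1 / 2 : ℝ)]

/-- node of the boundary `x` -/
noncomputable def UJ (J x : ℝ) : ℝ := (x / J) ^ (1 / 32 : ℝ)

section cell

variable {q : ℕ} {J x : ℝ}

lemma UJ_one_le (hJ : 0 < J) (hx : J ≤ x) : 1 ≤ UJ J x := by
  unfold UJ
  apply Real.one_le_rpow _ (by norm_num)
  rwa [one_le_div hJ]

lemma UJ_rpow (hJ : 0 < J) (hx : J ≤ x) (s : ℝ) : UJ J x ^ s = (x / J) ^ (s / 32) := by
  unfold UJ
  have : 0 ≤ x / J := by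
    have : 0 < x := by linarith
    positivity
  rw [← Real.rpow_mul this]
  congr 1
  ring

lemma UJ_le (hJ : 1 ≤ J) (hx : J ≤ x) : UJ J x ≤ x := by
  have h0 : 0 < J := by linarith
  have h1 : 1 ≤ x / J := by rwa [one_le_div h0]
  unfold UJ
  calc (x / J) ^ (1 / 32 : ℝ) ≤ (x / J) ^ (1:ℝ) := Real.rpow_le_rpow_of_exponent_le h1 (by norm_num)
    _ = x / J := Real.rpow_one _
    _ ≤ x := div_le_self (by linarith) hJ

lemma UJ_succ (hJ : 1 ≤ J) (hx : J ≤ x) (hxq : 4 * (q:ℝ) ≤ x) {s : ℝ} (hs0 : 0 ≤ s) (hs : s ≤ 64 * q) :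
    UJ J (x + 1) ^ s ≤ 2 * UJ J x ^ s := by
  have h0 : 0 < J := by linarith
  have hx0 : 0 < x := by linarith
  rw [UJ_rpow h0 (by linarith), UJ_rpow h0 hx]
  have e : (x + 1) / J = ((x + 1) / x) * (x / J) := by field_simp
  rw [e, Real.mul_rpow (by positivity) (by positivity)]
  apply mul_le_mul_of_nonneg_right _ (by positivity)
  exact ratio_le hxq hx0 (by positivity) (by linarith)

lemma UJ_diff (hJ : 1 ≤ J) (hx : J ≤ x) : UJ J (x + 1) - UJ J x ≤ UJ J x / (32 * x) := by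
  have h0 : 0 < J := by linarith
  have hx0 : 0 < x := by linarith
  have e : UJ J (x + 1) = (1 + 1 / x) ^ (1 / 32 : ℝ) * UJ J x := by
    unfold UJ
    rw [← Real.mul_rpow (by positivity) (by positivity)]
    congr 1
    field_simp
  have hix : 0 < 1 / x := by positivity
  have h1 : (1 + 1 / x) ^ (1 / 32 : ℝ) ≤ 1 + 1 / 32 * (1 / x) :=
    _root_.rpow_one_add_le_one_add_mul_self (by linarith) (by norm_num) (by norm_num)
  have hU : 0 ≤ UJ J x := by have := UJ_one_le h0 hx; linarith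
  rw [e]
  calc (1 + 1 / x) ^ (1 / 32 : ℝ) * UJ J x - UJ J x ≤ (1 + 1 / 32 * (1 / x)) * UJ J x - UJ J x := by gcongr
    _ = _ := by field_simp; ring

lemma UJ_lt (hJ : 1 ≤ J) (hx : J ≤ x) : UJ J x < UJ J (x + 1) := by
  have h0 : 0 < J := by linarith
  have hx0 : 0 < x := by linarith
  unfold UJ
  apply Real.rpow_lt_rpow (by positivity) _ (by norm_num)
  apply div_lt_div_of_pos_right _ h0
  linarith

/-- the main exponent comparison for the response -/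
lemma pow1 (hJ : 1 ≤ J) (hx : J ≤ x) {c κ : ℝ} {ck : ℝ}
    (hκ : κ = ck * J ^ ((q:ℝ) - 5 / 512)) (hlog : c * ck ≤ x ^ (1 / 1280 : ℝ)) :
    c * κ * UJ J x ^ (32 * (q:ℝ) + 7 / 20) ≤ x ^ ((q:ℝ) + 3 / 256) := by
  have h0 : 0 < J := by linarith
  have hx0 : 0 < x := by linarith
  have hr : 1 ≤ x / J := by rwa [one_le_div h0]
  have hr0 : 0 < x / J := by linarith
  rw [UJ_rpow h0 hx, hκ]
  have e1 : x ^ ((q:ℝ) + 3 / 256) = (x / J) ^ ((q:ℝ) + 3 / 256) * J ^ ((q:ℝ) + 3 / 256) := by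
    rw [← Real.mul_rpow hr0.le h0.le]
    congr 1
    field_simp
  have e2 : (x / J) ^ ((q:ℝ) + 3 / 256) = (x / J) ^ ((32 * (q:ℝ) + 7 / 20) / 32) * (x / J) ^ (1 / 1280 : ℝ) := by
    rw [← Real.rpow_add hr0]
    congr 1
    ring
  have e3 : J ^ ((q:ℝ) + 3 / 256) = J ^ ((q:ℝ) - 5 / 512) * J ^ (11 / 512 : ℝ) := by
    rw [← Real.rpow_add h0]
    congr 1
    ring
  have h4 : x ^ (1 / 1280 : ℝ) ≤ (x / J) ^ (1 / 1280 : ℝ) * J ^ (11 / 512 : ℝ) := by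
    have : x ^ (1 / 1280 : ℝ) = (x / J) ^ (1 / 1280 : ℝ) * J ^ (1 / 1280 : ℝ) := by
      rw [← Real.mul_rpow hr0.le h0.le]
      congr 1
      field_simp
    rw [this]
    apply mul_le_mul_of_nonneg_left _ (by positivity)
    exact Real.rpow_le_rpow_of_exponent_le hJ (by norm_num)
  rw [e1, e2, e3]
  calc c * (ck * J ^ ((q:ℝ) - 5 / 512)) * (x / J) ^ ((32 * (q:ℝ) + 7 / 20) / 32)
      = (c * ck) * (J ^ ((q:ℝ) - 5 / 512) * (x / J) ^ ((32 * (q:ℝ) + 7 / 20) / 32)) := by ring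
    _ ≤ ((x / J) ^ (1 / 1280 : ℝ) * J ^ (11 / 512 : ℝ)) * (J ^ ((q:ℝ) - 5 / 512) * (x / J) ^ ((32 * (q:ℝ) + 7 / 20) / 32)) :=
        mul_le_mul_of_nonneg_right (hlog.trans h4) (by positivity)
    _ = _ := by ring

/-- the gain of a cell -/
lemma vpi_le {Q : ℕ} (hJ : 1 ≤ J) (hx : J ≤ x) :
    vpi Q (UJ J x) (UJ J (x + 1)) ≤ UJ J x ^ (-(2 * (Q:ℝ) + 27 / 16)) * x ^ (-(1 / 8) : ℝ) := by
  have h0 : 0 < J := by linarith
  have hx0 : 0 < x := by linarith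
  have hU := UJ_one_le h0 hx
  have hU0 : 0 < UJ J x := by linarith
  have hd := UJ_diff hJ hx
  have hd0 := (UJ_lt hJ hx).le
  unfold vpi
  have h1 : (UJ J (x + 1) - UJ J x) ^ 2 / UJ J x ≤ UJ J x * x ^ (-2 : ℝ) := by
    have h2 : UJ J (x + 1) - UJ J x ≤ UJ J x / x := by
      refine hd.trans ?_
      apply div_le_div_of_nonneg_left hU0.le hx0
      linarith
    have h3 : (UJ J (x + 1) - UJ J x) ^ 2 ≤ (UJ J x / x) ^ 2 := pow_le_pow_left₀ (by linarith) h2 2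
    rw [div_le_iff₀ hU0, Real.rpow_neg hx0.le]
    have e2 : x ^ (2:ℝ) = x ^ 2 := by norm_cast
    rw [e2]
    refine h3.trans (le_of_eq ?_)
    field_simp
  calc UJ J x ^ (-(2 * (Q:ℝ) + 7 / 4)) * ((UJ J (x + 1) - UJ J x) ^ 2 / UJ J x) ^ (1 / 16 : ℝ)
      ≤ UJ J x ^ (-(2 * (Q:ℝ) + 7 / 4)) * (UJ J x * x ^ (-2 : ℝ)) ^ (1 / 16 : ℝ) := by
        apply mul_le_mul_of_nonneg_left _ (by positivity)
        exact Real.rpow_le_rpow (by positivity) h1 (by norm_num)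
    _ = (UJ J x ^ (-(2 * (Q:ℝ) + 7 / 4)) * UJ J x ^ (1 / 16 : ℝ)) * x ^ (-(1 / 8) : ℝ) := by
        rw [Real.mul_rpow hU0.le (by positivity), ← Real.rpow_mul hx0.le, ← mul_assoc]
        congr 2
        norm_num
    _ = _ := by
        rw [← Real.rpow_add hU0]
        congr 2
        ring

/-- the main exponent comparison for the sum -/
lemma pow2 (hJ : 1 ≤ J) (hx : J ≤ x) {κ : ℝ} {ck : ℝ} (hck : 1 ≤ ck)
    (hκ : κ = ck * J ^ ((q:ℝ) - 5 / 512)) :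
    x ^ ((q:ℝ) + 3 / 256 - 1) * UJ J x ^ (2:ℝ) * (UJ J x ^ (-(32 * (q:ℝ) + 27 / 16)) * x ^ (-(1 / 8) : ℝ)) ≤
      κ * x ^ (-(565 / 512) : ℝ) ∧
    κ * UJ J x ^ (32 * (q:ℝ) + 27 / 20 + 1) / x * (UJ J x ^ (-(32 * (q:ℝ) + 27 / 16)) * x ^ (-(1 / 8) : ℝ)) ≤
      κ * x ^ (-(565 / 512) : ℝ) := by
  have h0 : 0 < J := by linarith
  have hx0 : 0 < x := by linarith
  have hr : 1 ≤ x / J := by rwa [one_le_div h0]
  have hr0 : 0 < x / J := by linarith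
  have hU := UJ_one_le h0 hx
  have hU0 : 0 < UJ J x := by linarith
  have hJq : 0 < J ^ ((q:ℝ) - 5 / 512) := by positivity
  constructor
  · have e1 : x ^ ((q:ℝ) + 3 / 256 - 1) * UJ J x ^ (2:ℝ) * (UJ J x ^ (-(32 * (q:ℝ) + 27 / 16)) * x ^ (-(1 / 8) : ℝ)) =
        (x ^ ((q:ℝ) + 3 / 256 - 1) * x ^ (-(1 / 8) : ℝ)) * (UJ J x ^ (2:ℝ) * UJ J x ^ (-(32 * (q:ℝ) + 27 / 16))) := by ring
    rw [e1, ← Real.rpow_add hx0, ← Real.rpow_add hU0, UJ_rpow h0 hx, hκ]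
    have e2 : x ^ ((q:ℝ) + 3 / 256 - 1 + -(1 / 8)) = x ^ (-(565 / 512) : ℝ) * x ^ ((q:ℝ) - 5 / 512) := by
      rw [← Real.rpow_add hx0]
      congr 1
      ring
    have e3 : (x / J) ^ ((2 + -(32 * (q:ℝ) + 27 / 16)) / 32) = (x ^ ((q:ℝ) - 5 / 512))⁻¹ * J ^ ((q:ℝ) - 5 / 512) := by
      rw [show (2 + -(32 * (q:ℝ) + 27 / 16)) / 32 = -((q:ℝ) - 5 / 512) by ring, Real.rpow_neg hr0.le,
        Real.div_rpow hx0.le h0.le, inv_div]
      field_simp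
    rw [e2, e3]
    have hxq : 0 < x ^ ((q:ℝ) - 5 / 512) := by positivity
    have e4 : x ^ (-(565 / 512) : ℝ) * x ^ ((q:ℝ) - 5 / 512) * ((x ^ ((q:ℝ) - 5 / 512))⁻¹ * J ^ ((q:ℝ) - 5 / 512)) =
        J ^ ((q:ℝ) - 5 / 512) * x ^ (-(565 / 512) : ℝ) := by
      field_simp
    rw [e4]
    apply mul_le_mul_of_nonneg_right _ (by positivity)
    nlinarith
  · have e1 : κ * UJ J x ^ (32 * (q:ℝ) + 27 / 20 + 1) / x * (UJ J x ^ (-(32 * (q:ℝ) + 27 / 16)) * x ^ (-(1 / 8) : ℝ)) =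
        κ * ((UJ J x ^ (32 * (q:ℝ) + 27 / 20 + 1) * UJ J x ^ (-(32 * (q:ℝ) + 27 / 16))) * (x ^ (-1 : ℝ) * x ^ (-(1 / 8) : ℝ))) := by
      rw [Real.rpow_neg_one]
      field_simp
    have hκ0 : 0 ≤ κ := by rw [hκ]; positivity
    rw [e1, ← Real.rpow_add hx0, ← Real.rpow_add hU0, UJ_rpow h0 hx]
    apply mul_le_mul_of_nonneg_left _ hκ0
    have h1 : (x / J) ^ ((32 * (q:ℝ) + 27 / 20 + 1 + -(32 * (q:ℝ) + 27 / 16)) / 32) ≤ x ^ (11 / 512 : ℝ) := by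
      rw [show (32 * (q:ℝ) + 27 / 20 + 1 + -(32 * (q:ℝ) + 27 / 16)) / 32 = 53 / 2560 by ring]
      calc (x / J) ^ (53 / 2560 : ℝ) ≤ (x / J) ^ (11 / 512 : ℝ) := Real.rpow_le_rpow_of_exponent_le hr (by norm_num)
        _ ≤ x ^ (11 / 512 : ℝ) := Real.rpow_le_rpow hr0.le (div_le_self hx0.le hJ) (by norm_num)
    calc (x / J) ^ ((32 * (q:ℝ) + 27 / 20 + 1 + -(32 * (q:ℝ) + 27 / 16)) / 32) * x ^ (-1 + -(1 / 8) : ℝ)
        ≤ x ^ (11 / 512 : ℝ) * x ^ (-1 + -(1 / 8) : ℝ) := by gcongr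
      _ = _ := by
        rw [← Real.rpow_add hx0]
        norm_num

end cell

end Pool.Agent.H81.HM
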