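import Pool.Agent.H81.HM.Par
import Pool.Graph.R_seed8.Y937.PG.Wts
import Pool.Graph.R_seed8.Y937.PG.Geom
import Pool.Graph.R_seed8.W199.PX.Mass
import Pool.Graph.R_seed8.W991.PX.Pr
import Pool.Graph.R_seed8.H195R3.BCLagA

/-!
# Existence of the systems
-/

set_option autoImplicit false

open Finset MeasureTheory Filter Topology

namespace Pool.Agent.H81.HM

open Pool.Agent.H96R3.BC (vv cf)
open Pool.Agent.W406.PX (gw hm Hs cN Bdy TaskMass)

lemma log_ev (c : ℝ) {r : ℝ} (hr : 0 < r) : ∃ X : ℝ, 3 ≤ X ∧ ∀ x : ℝ, X ≤ x → c * (Real.log x) ^ 3 ≤ x ^ r := by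
  have h1 := isLittleO_log_rpow_rpow_atTop 3 hr
  have h2 := h1.bound (show (0:ℝ) < 1 / (|c| + 1) by positivity)
  rw [eventually_atTop] at h2
  obtain ⟨X, hX⟩ := h2
  refine ⟨max X 3, le_max_right _ _, fun x hx => ?_⟩
  have h3 := hX x ((le_max_left _ _).trans hx)
  have hx3 : 3 ≤ x := (le_max_right _ _).trans hx
  have hx0 : 0 < x := by linarith
  have hl : 0 ≤ Real.log x := Real.log_nonneg (by linarith)
  have e : Real.log x ^ (3:ℝ) = Real.log x ^ 3 := by norm_cast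
  rw [e, Real.norm_eq_abs, Real.norm_eq_abs, abs_of_nonneg (show 0 ≤ Real.log x ^ 3 by positivity),
    abs_of_nonneg (show 0 ≤ x ^ r by positivity)] at h3
  have hc : 0 ≤ |c| := abs_nonneg c
  calc c * Real.log x ^ 3 ≤ (|c| + 1) * Real.log x ^ 3 := by
        apply mul_le_mul_of_nonneg_right _ (by positivity)
        have := le_abs_self c
        linarith
    _ ≤ (|c| + 1) * (1 / (|c| + 1) * x ^ r) := by gcongr
    _ = x ^ r := by field_simp

lemma pow_ev (c : ℝ) {r : ℝ} (hr : 0 < r) : ∃ X : ℝ, 1 ≤ X ∧ ∀ x : ℝ, X ≤ x → c ≤ x ^ r := by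
  have h := (tendsto_rpow_atTop hr).eventually_ge_atTop c
  rw [eventually_atTop] at h
  obtain ⟨X, hX⟩ := h
  exact ⟨max X 1, le_max_right _ _, fun x hx => hX x ((le_max_left _ _).trans hx)⟩

/-- the cell `j`: all the estimates -/
lemma cell_est {q : ℕ} (hq : 20 ≤ q) {C s' ck J x z Y L κ H H' p' : ℝ} (hC : 0 < C) (hs' : 0 < s') (hs1 : s' ≤ 1)
    (hs2 : 256 * C * q ^ 2 * s' ≤ 1) (hJ : 1 ≤ J) (hx : J ≤ x) (hxq : 4 * (q:ℝ) ≤ x) (hck : 1 ≤ ck)
    (hκ : κ = ck * J ^ ((q:ℝ) - 5 / 512)) (hz : 0 < z) (hY : 0 < Y) (hL : 1 ≤ L)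
    (hzY : z * Y * x = x ^ ((q:ℝ) + 3 / 256))
    (hlog : (16 * C * q ^ 2 * ck) * L ^ 3 ≤ x ^ (1 / 1280 : ℝ))
    (hH : H ≤ s' * Y / L ^ 3) (hH' : H' ≤ 4 * q * Y) (hp' : z / (32 * q ^ 2 * L ^ 2) ≤ p') :
    C * L / Y * ((UJ J (x + 1) - UJ J x) * (2 * κ * UJ J (x + 1) ^ (32 * (q:ℝ) + 27 / 20)) +
      z * H * UJ J (x + 1) ^ 2) ≤ 1 / 2 * p' * UJ J x ^ 2 ∧
    (z * H * UJ J (x + 1) ^ 2 + z * H' * UJ J (x + 1) ^ 2 +
      2 * κ * UJ J (x + 1) ^ (32 * (q:ℝ) + 27 / 20) * (UJ J (x + 1) - UJ J x)) * vpi (16 * q) (UJ J x) (UJ J (x + 1)) ≤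
      (8 * q + 3) * κ * x ^ (-(565 / 512) : ℝ) := by
  have hqR : (20:ℝ) ≤ q := by exact_mod_cast hq
  have h0 : 0 < J := by linarith
  have hx0 : 0 < x := by linarith
  set U := UJ J x with hU
  set U' := UJ J (x + 1) with hU'
  have hU1 : 1 ≤ U := UJ_one_le h0 hx
  have hU0 : 0 < U := by linarith
  have hU'1 : U ≤ U' := (UJ_lt hJ hx).le
  have hU'0 : 0 < U' := by linarith
  have hκ0 : 0 < κ := by rw [hκ]; positivity
  have hd : U' - U ≤ U / (32 * x) := UJ_diff hJ hx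
  have hd0 : 0 ≤ U' - U := by linarith
  have e1 : U' ^ (32 * (q:ℝ) + 27 / 20) ≤ 2 * U ^ (32 * (q:ℝ) + 27 / 20) :=
    UJ_succ hJ hx hxq (by positivity) (by linarith)
  have e2 : U' ^ 2 ≤ 2 * U ^ 2 := by
    have := UJ_succ hJ hx hxq (s := 2) (by norm_num) (by linarith)
    rw [← hU, ← hU'] at this
    have e : ∀ y : ℝ, y ^ (2:ℝ) = y ^ 2 := fun y => by norm_cast
    rwa [e, e] at this
  have e3 : U ^ (32 * (q:ℝ) + 27 / 20) = U ^ (32 * (q:ℝ) + 7 / 20) * U := by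
    rw [← Real.rpow_add_one hU0.ne']
    congr 1
    ring
  have hp1 := pow1 (q := q) hJ hx (c := 16 * C * q ^ 2 * L ^ 3) (κ := κ) (ck := ck) hκ (by
    refine le_trans (le_of_eq ?_) hlog
    ring)
  rw [← hU, ← hzY] at hp1
  have hq0 : (0:ℝ) < q := by linarith
  constructor
  · -- response
    have a1 : C * L / Y * ((U' - U) * (2 * κ * U' ^ (32 * (q:ℝ) + 27 / 20))) ≤ z * U ^ 2 / (128 * q ^ 2 * L ^ 2) := by
      calc C * L / Y * ((U' - U) * (2 * κ * U' ^ (32 * (q:ℝ) + 27 / 20)))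
          ≤ C * L / Y * ((U / (32 * x)) * (2 * κ * (2 * (U ^ (32 * (q:ℝ) + 7 / 20) * U)))) := by
            rw [← e3]; gcongr
        _ = (16 * C * q ^ 2 * L ^ 3 * κ * U ^ (32 * (q:ℝ) + 7 / 20)) * (U ^ 2 / (128 * q ^ 2 * L ^ 2 * Y * x)) := by
            field_simp
            ring
        _ ≤ (z * Y * x) * (U ^ 2 / (128 * q ^ 2 * L ^ 2 * Y * x)) := by gcongr
        _ = _ := by field_simp
    have a2 : C * L / Y * (z * H * U' ^ 2) ≤ z * U ^ 2 / (128 * q ^ 2 * L ^ 2) := by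
      calc C * L / Y * (z * H * U' ^ 2) ≤ C * L / Y * (z * (s' * Y / L ^ 3) * (2 * U ^ 2)) := by gcongr
        _ = (256 * C * q ^ 2 * s') * (z * U ^ 2 / (128 * q ^ 2 * L ^ 2)) := by field_simp; ring
        _ ≤ 1 * (z * U ^ 2 / (128 * q ^ 2 * L ^ 2)) := by gcongr
        _ = _ := one_mul _
    rw [mul_add]
    refine (add_le_add a1 a2).trans ?_
    calc z * U ^ 2 / (128 * q ^ 2 * L ^ 2) + z * U ^ 2 / (128 * q ^ 2 * L ^ 2)
        = 1 / 2 * (z / (32 * q ^ 2 * L ^ 2)) * U ^ 2 := by field_simp; ring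
      _ ≤ _ := by gcongr
  · -- mass
    have hv := vpi_le (Q := 16 * q) hJ hx
    rw [show 2 * ((16 * q : ℕ) : ℝ) + 27 / 16 = 32 * (q:ℝ) + 27 / 16 by push_cast; ring] at hv
    rw [← hU, ← hU'] at hv
    obtain ⟨p1, p2⟩ := pow2 (q := q) hJ hx hck hκ
    rw [← hU] at p1 p2
    have hv0 : 0 ≤ vpi (16 * q) U U' := vpi_nonneg _ hU0.le
    have hHY : H ≤ Y := by
      refine hH.trans ?_
      rw [div_le_iff₀ (by positivity)]
      have : 1 ≤ L ^ 3 := one_le_pow₀ hL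
      nlinarith [mul_le_mul hs1 (le_refl Y) hY.le zero_le_one, mul_le_mul_of_nonneg_left this hY.le]
    have b1 : z * H * U' ^ 2 + z * H' * U' ^ 2 ≤ (8 * q + 2) * (x ^ ((q:ℝ) + 3 / 256 - 1) * U ^ (2:ℝ)) := by
      have e4 : x ^ ((q:ℝ) + 3 / 256 - 1) = z * Y := by
        rw [Real.rpow_sub_one hx0.ne', ← hzY]
        field_simp
      have e5 : U ^ (2:ℝ) = U ^ 2 := by norm_cast
      rw [e4, e5]
      calc z * H * U' ^ 2 + z * H' * U' ^ 2 ≤ z * Y * (2 * U ^ 2) + z * (4 * q * Y) * (2 * U ^ 2) := by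
            gcongr
        _ = _ := by ring
    have b2 : 2 * κ * U' ^ (32 * (q:ℝ) + 27 / 20) * (U' - U) ≤ 1 / 8 * (κ * U ^ (32 * (q:ℝ) + 27 / 20 + 1) / x) := by
      have e6 : U ^ (32 * (q:ℝ) + 27 / 20 + 1) = U ^ (32 * (q:ℝ) + 27 / 20) * U := Real.rpow_add_one hU0.ne' _
      rw [e6]
      calc 2 * κ * U' ^ (32 * (q:ℝ) + 27 / 20) * (U' - U)
          ≤ 2 * κ * (2 * U ^ (32 * (q:ℝ) + 27 / 20)) * (U / (32 * x)) := by gcongr
        _ = _ := by field_simp; ring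
    set W := U ^ (-(32 * (q:ℝ) + 27 / 16)) * x ^ (-(1 / 8) : ℝ) with hW
    have hW0 : 0 ≤ W := by positivity
    calc (z * H * U' ^ 2 + z * H' * U' ^ 2 + 2 * κ * U' ^ (32 * (q:ℝ) + 27 / 20) * (U' - U)) * vpi (16 * q) U U'
        ≤ ((8 * q + 2) * (x ^ ((q:ℝ) + 3 / 256 - 1) * U ^ (2:ℝ)) +
            1 / 8 * (κ * U ^ (32 * (q:ℝ) + 27 / 20 + 1) / x)) * W :=
          mul_le_mul (add_le_add b1 b2) hv hv0 (by positivity)
      _ = (8 * q + 2) * (x ^ ((q:ℝ) + 3 / 256 - 1) * U ^ (2:ℝ) * W) +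
            1 / 8 * (κ * U ^ (32 * (q:ℝ) + 27 / 20 + 1) / x * W) := by ring
      _ ≤ (8 * q + 2) * (κ * x ^ (-(565 / 512) : ℝ)) + 1 / 8 * (κ * x ^ (-(565 / 512) : ℝ)) := by gcongr
      _ ≤ _ := by
        have : 0 ≤ κ * x ^ (-(565 / 512) : ℝ) := by positivity
        linarith

lemma card_cell {q : ℕ} (hq : 1 ≤ q) {j : ℕ} (hj : 4 * q ≤ j) :
    ((Ioc (j ^ (2 * q)) ((j + 1) ^ (2 * q))).card : ℝ) ≤ 4 * q * (j:ℝ) ^ (2 * q - 1) := by
  rw [Nat.card_Ioc, Nat.cast_sub (Nat.pow_le_pow_left (Nat.le_succ j) _)]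
  push_cast
  set x : ℝ := (j:ℝ) with hx
  have hx4 : 4 * (q:ℝ) ≤ x := by rw [hx]; exact_mod_cast hj
  have hq1 : (1:ℝ) ≤ q := by exact_mod_cast hq
  have hx0 : 0 < x := by linarith
  have h1 : 1 + ((2 * q : ℕ) : ℝ) * (-(1 / (x + 1))) ≤ (1 + -(1 / (x + 1))) ^ (2 * q) := by
    apply one_add_mul_le_pow
    have : 1 / (x + 1) ≤ 1 := by rw [div_le_one (by positivity)]; linarith
    linarith
  have h2 : (1 + -(1 / (x + 1))) = x / (x + 1) := by field_simp; ring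
  rw [h2, div_pow, le_div_iff₀ (by positivity)] at h1
  have h3 : (x + 1) ^ (2 * q) - x ^ (2 * q) ≤ 2 * q * (x + 1) ^ (2 * q - 1) := by
    have e : (x + 1) ^ (2 * q) = (x + 1) ^ (2 * q - 1) * (x + 1) := by
      rw [← pow_succ]; congr 1; omega
    push_cast at h1
    have h4 : (1 + 2 * (q:ℝ) * (-(1 / (x + 1)))) * (x + 1) ^ (2 * q) =
        (x + 1) ^ (2 * q) - 2 * q * (x + 1) ^ (2 * q - 1) := by
      rw [e]
      field_simp
      ring
    linarith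
  have h5 : (x + 1) ^ (2 * q - 1) ≤ 2 * x ^ (2 * q - 1) := by
    have := ratio_le (q := q) hx4 hx0 (s := ((2 * q - 1 : ℕ) : ℝ)) (by positivity) (by
      have : ((2 * q - 1 : ℕ) : ℝ) ≤ ((2 * q : ℕ) : ℝ) := by exact_mod_cast Nat.sub_le _ _
      push_cast at this
      linarith)
    rw [Real.rpow_natCast, div_pow, div_le_iff₀ (by positivity)] at this
    exact this
  calc (x + 1) ^ (2 * q) - x ^ (2 * q) ≤ 2 * q * (x + 1) ^ (2 * q - 1) := h3
    _ ≤ 2 * q * (2 * x ^ (2 * q - 1)) := by gcongr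
    _ = _ := by ring


/-- the sum over the cells -/
lemma sum_est {q Q j₁ : ℕ} (hj : 1 ≤ j₁) {a : ℕ → ℝ} {κ : ℝ} (hκ0 : 0 < κ) (hb0 : ∀ i, 0 ≤ a i)
    (hb : ∀ i, a i ≤ (8 * q + 3) * κ * ((j₁ + i : ℕ) : ℝ) ^ (-(565 / 512) : ℝ))
    (h2 : C0 Q * (8 * q + 3) * (∑' i : ℕ, ((i:ℝ) + 1) ^ (-(21 / 20) : ℝ)) * 8 ≤ (j₁ : ℝ) ^ (1 / 20 : ℝ)) :
    Summable a ∧ C0 Q * ∑' i, a i ≤ κ / 8 := by
  set S1 : ℝ := ∑' i : ℕ, ((i:ℝ) + 1) ^ (-(21 / 20) : ℝ) with hS1
  have hS1s : Summable (fun i : ℕ => ((i:ℝ) + 1) ^ (-(21 / 20) : ℝ)) := by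
    have := (summable_nat_add_iff 1).2 (Real.summable_nat_rpow.2 (show (-(21 / 20) : ℝ) < -1 by norm_num))
    simpa using this
  have hJ1 : (1:ℝ) ≤ (j₁ : ℝ) := by exact_mod_cast hj
  set J : ℝ := (j₁ : ℝ) with hJ
  have hb2 : ∀ i, a i ≤ (8 * q + 3) * κ * (J ^ (-(1 / 20) : ℝ) * ((i:ℝ) + 1) ^ (-(21 / 20) : ℝ)) := by
    intro i
    refine (hb i).trans ?_
    apply mul_le_mul_of_nonneg_left _ (by positivity)
    have hx1 : J ≤ ((j₁ + i : ℕ) : ℝ) := by rw [hJ]; exact_mod_cast (by omega : j₁ ≤ j₁ + i)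
    have hx2 : (i:ℝ) + 1 ≤ ((j₁ + i : ℕ) : ℝ) := by exact_mod_cast (by omega : i + 1 ≤ j₁ + i)
    set x : ℝ := ((j₁ + i : ℕ) : ℝ)
    have hx0 : 0 < x := by linarith
    calc x ^ (-(565 / 512) : ℝ) ≤ x ^ (-(1 / 20) + -(21 / 20) : ℝ) :=
          Real.rpow_le_rpow_of_exponent_le (by linarith) (by norm_num)
      _ = x ^ (-(1 / 20) : ℝ) * x ^ (-(21 / 20) : ℝ) := Real.rpow_add hx0 _ _
      _ ≤ J ^ (-(1 / 20) : ℝ) * ((i:ℝ) + 1) ^ (-(21 / 20) : ℝ) := by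
          apply mul_le_mul
          · exact Real.rpow_le_rpow_of_nonpos (by linarith) hx1 (by norm_num)
          · exact Real.rpow_le_rpow_of_nonpos (by positivity) hx2 (by norm_num)
          · positivity
          · positivity
  have hs2 : Summable (fun i : ℕ => (8 * q + 3) * κ * (J ^ (-(1 / 20) : ℝ) * ((i:ℝ) + 1) ^ (-(21 / 20) : ℝ))) :=
    (hS1s.mul_left _).mul_left _
  have hsum := Summable.of_nonneg_of_le hb0 hb2 hs2
  refine ⟨hsum, ?_⟩
  have hC0 := C0_pos Q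
  have h1 : ∑' i, a i ≤ (8 * q + 3) * κ * (J ^ (-(1 / 20) : ℝ) * S1) := by
    refine (Summable.tsum_le_tsum hb2 hsum hs2).trans (le_of_eq ?_)
    rw [tsum_mul_left, tsum_mul_left]
  have hJp : 0 < J ^ (1 / 20 : ℝ) := by
    have : 0 < J := by linarith
    positivity
  have h3 : J ^ (-(1 / 20) : ℝ) = (J ^ (1 / 20 : ℝ))⁻¹ := Real.rpow_neg (by linarith) _
  calc C0 Q * ∑' i, a i ≤ C0 Q * ((8 * q + 3) * κ * (J ^ (-(1 / 20) : ℝ) * S1)) := by gcongr
    _ = κ / 8 * ((C0 Q * (8 * q + 3) * S1 * 8) * (J ^ (1 / 20 : ℝ))⁻¹) := by rw [h3]; ring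
    _ ≤ κ / 8 * (J ^ (1 / 20 : ℝ) * (J ^ (1 / 20 : ℝ))⁻¹) := by gcongr
    _ = κ / 8 := by rw [mul_inv_cancel₀ hJp.ne', mul_one]

/-- existence of the systems -/
theorem sys : ∃ q₀ : ℕ, ∀ q : ℕ, q₀ ≤ q → ∃ J₀ : ℕ, ∀ j' : ℕ, J₀ ≤ j' → ∃ (w : ℕ → ℝ → ℝ) (ω m : ℕ → ℝ),
    Sy (16 * q) j' (bB q j') w (zz (16 * q)) ω (gG q j') m (kap (16 * q) j') := by
  obtain ⟨q1, hW⟩ := Pool.Agent.Y937.PG.Wts.task Pool.Agent.H195R3.BC.lagA Pool.Agent.W991.PX.task
    Pool.Agent.Y937.PG.Geom.task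
  obtain ⟨q2, hM⟩ := Pool.Agent.W199.PX.task
  refine ⟨max (max q1 q2) 20, fun q hq => ?_⟩
  have hq1 : q1 ≤ q := by omega
  have hq2 : q2 ≤ q := by omega
  have hq20 : 20 ≤ q := by omega
  have hq11 : 1 ≤ q := by omega
  obtain ⟨C, hC, JW, hW⟩ := hW q hq1 (16 * q) (by omega)
  have hqR : (20:ℝ) ≤ q := by exact_mod_cast hq20
  have hqR0 : (0:ℝ) < q := by linarith
  set s' : ℝ := min 1 (1 / (256 * C * q ^ 2)) with hs'
  have hs'0 : 0 < s' := by rw [hs']; positivity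
  have hs'1 : s' ≤ 1 := min_le_left _ _
  have hs'2 : 256 * C * q ^ 2 * s' ≤ 1 := by
    have : s' ≤ 1 / (256 * C * q ^ 2) := min_le_right _ _
    calc 256 * C * q ^ 2 * s' ≤ 256 * C * q ^ 2 * (1 / (256 * C * q ^ 2)) := by gcongr
      _ = 1 := by field_simp
  obtain ⟨JM, hM⟩ := hM q hq2 s' hs'0
  set Q : ℕ := 16 * q with hQ
  have hQ300 : 300 ≤ Q := by omega
  set ck : ℝ := 12 * Real.sqrt (8 * (Q : ℝ) + 7) with hck
  have hck1 : 1 ≤ ck := by
    have : 1 ≤ Real.sqrt (8 * (Q : ℝ) + 7) := by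
      rw [Real.le_sqrt' one_pos]
      have : (0:ℝ) ≤ Q := Nat.cast_nonneg Q
      linarith
    linarith
  obtain ⟨X1, hX13, hX1⟩ := log_ev (16 * C * q ^ 2 * ck) (show (0:ℝ) < 1 / 1280 by norm_num)
  set S1 : ℝ := ∑' i : ℕ, ((i:ℝ) + 1) ^ (-(21 / 20) : ℝ) with hS1
  have hS1s : Summable (fun i : ℕ => ((i:ℝ) + 1) ^ (-(21 / 20) : ℝ)) := by
    have := (summable_nat_add_iff 1).2 (Real.summable_nat_rpow.2 (show (-(21 / 20) : ℝ) < -1 by norm_num))
    simpa using this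
  obtain ⟨X2, hX21, hX2⟩ := pow_ev (C0 Q * (8 * q + 3) * S1 * 8) (show (0:ℝ) < 1 / 20 by norm_num)
  obtain ⟨JX, hJX⟩ := exists_nat_ge (max X1 X2)
  refine ⟨max (max JW JM) (max (max JX 16) (4 * q)), fun j' hj' => ?_⟩
  have hjW : JW ≤ j' := by omega
  have hjM : JM ≤ j' := by omega
  have hjX : JX ≤ j' := by omega
  have hj16 : 16 ≤ j' := by omega
  have hj4 : 4 * q ≤ j' := by omega
  set j₁ : ℕ := j' ^ 16 with hj₁
  have hjj : j' ≤ j₁ := by rw [hj₁]; exact Nat.le_self_pow (by norm_num) j'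
  have hpow : j' ^ (2 * Q) = j₁ ^ (2 * q) := by
    rw [hj₁, ← pow_mul, hQ]
    congr 1
    ring
  set b : ℕ → ℕ := fun j => j ^ (2 * q) with hb
  have hbdy : Bdy q j₁ b := by
    intro j _
    refine ⟨le_rfl, ?_⟩
    have : j ^ (2 * q) ≤ (j + 1) ^ (2 * q) := Nat.pow_le_pow_left (Nat.le_succ j) _
    simp only [hb]
    omega
  obtain ⟨w, hwc, hws, hwb⟩ := hW j₁ j' hjW hpow b hbdy
  have hM' := hM j₁ (hjM.trans hjj)
  set κ : ℝ := kap Q j' with hκ
  have hκeq : κ = ck * ((j₁ : ℕ) : ℝ) ^ ((q:ℝ) - 5 / 512) := kap_eq hq11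
  have hJ1 : (1:ℝ) ≤ (j₁ : ℝ) := by exact_mod_cast (by omega : 1 ≤ j₁)
  set J : ℝ := (j₁ : ℝ) with hJ
  have hbe : ∀ i, be Q j' (bB q j') i = UJ J ((j₁ + i : ℕ) : ℝ) := by
    intro i
    unfold be bB UJ
    exact vv_bdy hq11 _
  -- estimates of the cells
  have hest : ∀ i : ℕ, ∀ p' : ℝ,
      zz Q (bB q j' i) / (32 * q ^ 2 * Real.log ((j₁ + i : ℕ) : ℝ) ^ 2) ≤ p' →
      C * Real.log ((j₁ + i : ℕ) : ℝ) / ((j₁ + i : ℕ) : ℝ) ^ (2 * q - 1) *
        ((be Q j' (bB q j') (i + 1) - be Q j' (bB q j') i) * gG q j' i +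
        zz Q (bB q j' i) * Hs (j' ^ (2 * Q)) (bB q j' i) (bB q j' (i + 1)) * be Q j' (bB q j') (i + 1) ^ 2) ≤
        1 / 2 * p' * be Q j' (bB q j') i ^ 2 ∧
      (zz Q (bB q j' i) * Hs (j' ^ (2 * Q)) (bB q j' i) (bB q j' (i + 1)) * be Q j' (bB q j') (i + 1) ^ 2 +
        zz Q (bB q j' i) * (Ioc (bB q j' i) (bB q j' (i + 1))).card * be Q j' (bB q j') (i + 1) ^ 2 +
        gG q j' i * (be Q j' (bB q j') (i + 1) - be Q j' (bB q j') i)) *
        vpi Q (be Q j' (bB q j') i) (be Q j' (bB q j') (i + 1)) ≤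
        (8 * q + 3) * κ * ((j₁ + i : ℕ) : ℝ) ^ (-(565 / 512) : ℝ) := by
    intro i p' hp'
    set j : ℕ := j₁ + i with hj
    have hjge : j₁ ≤ j := by omega
    have hx : J ≤ (j : ℝ) := by rw [hJ]; exact_mod_cast hjge
    have hbi : bB q j' i = j ^ (2 * q) := rfl
    have hbi1 : bB q j' (i + 1) = (j + 1) ^ (2 * q) := by
      unfold bB
      rw [← hj₁]
      congr 1
    have e0 : be Q j' (bB q j') i = UJ J (j:ℝ) := hbe i
    have e1 : be Q j' (bB q j') (i + 1) = UJ J ((j:ℝ) + 1) := by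
      rw [hbe (i + 1)]
      congr 1
      rw [hj]
      push_cast
      ring
    have eg : gG q j' i = 2 * κ * UJ J ((j:ℝ) + 1) ^ (32 * (q:ℝ) + 27 / 20) := by
      unfold gG
      rw [← hQ, e1, ← hκ]
      congr 2
      rw [hQ]
      push_cast
      ring
    have hxq : 4 * (q:ℝ) ≤ (j:ℝ) := by exact_mod_cast (by omega : 4 * q ≤ j)
    have hx0 : (0:ℝ) < j := by linarith
    have hxX : max X1 X2 ≤ (j:ℝ) := by
      refine hJX.trans ?_
      exact_mod_cast (by omega : JX ≤ j)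
    have hx3 : 3 ≤ (j:ℝ) := hX13.trans ((le_max_left _ _).trans hxX)
    have hL : 1 ≤ Real.log (j:ℝ) := by
      rw [Real.le_log_iff_exp_le hx0]
      have := Real.exp_one_lt_d9
      linarith
    have hlog := hX1 (j:ℝ) ((le_max_left _ _).trans hxX)
    have hzz : zz Q (j ^ (2 * q)) = (j:ℝ) ^ (-((q:ℝ) - 3 / 256)) := zz_bdy hq11 j
    have hz0 : 0 < zz Q (j ^ (2 * q)) := by rw [hzz]; positivity
    have hY0 : 0 < (j:ℝ) ^ (2 * q - 1) := by positivity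
    have hzY : zz Q (j ^ (2 * q)) * (j:ℝ) ^ (2 * q - 1) * (j:ℝ) = (j:ℝ) ^ ((q:ℝ) + 3 / 256) := by
      rw [mul_assoc, ← pow_succ, hzz, ← Real.rpow_natCast, ← Real.rpow_add hx0]
      congr 1
      have : 2 * q - 1 + 1 = 2 * q := by omega
      rw [this]
      push_cast
      ring
    have hHs := hM' j hjge (j ^ (2 * q)) ((j + 1) ^ (2 * q)) le_rfl (Nat.pow_le_pow_left (by omega) _)
    rw [← hpow] at hHs
    have hcard := card_cell hq11 (j := j) (by omega)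
    have key := cell_est (q := q) hq20 (C := C) (s' := s') (ck := ck) (J := J) (x := (j:ℝ)) (z := zz Q (j ^ (2 * q)))
      (Y := (j:ℝ) ^ (2 * q - 1)) (L := Real.log (j:ℝ)) (κ := κ) (H := Hs (j' ^ (2 * Q)) (j ^ (2 * q)) ((j + 1) ^ (2 * q)))
      (H' := ((Ioc (j ^ (2 * q)) ((j + 1) ^ (2 * q))).card : ℝ)) (p' := p') hC hs'0 hs'1 hs'2 hJ1 hx hxq hck1 hκeq
      hz0 hY0 hL hzY hlog hHs hcard (by rw [hbi] at hp'; exact hp')
    rw [e0, e1, eg, hbi, hbi1]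
    exact key
  set ω : ℕ → ℝ := fun i => C * Real.log ((j₁ + i : ℕ) : ℝ) / ((j₁ + i : ℕ) : ℝ) ^ (2 * q - 1) with hω
  set m : ℕ → ℝ := fun i => zz Q (bB q j' i) * Hs (j' ^ (2 * Q)) (bB q j' i) (bB q j' (i + 1)) *
    be Q j' (bB q j') (i + 1) ^ 2 +
        zz Q (bB q j' i) * (Ioc (bB q j' i) (bB q j' (i + 1))).card * be Q j' (bB q j') (i + 1) ^ 2 +
        gG q j' i * (be Q j' (bB q j') (i + 1) - be Q j' (bB q j') i) with hmdef
  have hκ12 : 12 ≤ κ := kap_ge hQ300 (by omega)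
  have hκ0 : 0 < κ := by linarith
  have hHs0 : ∀ a c : ℕ, 0 ≤ Hs (j' ^ (2 * Q)) a c := by
    intro a c
    unfold Hs
    apply sum_nonneg
    intro n _
    unfold hm
    split_ifs
    · exact prod_nonneg fun p _ => by positivity
    · exact le_rfl
  have hmono : StrictMono (bB q j') := by
    apply strictMono_nat_of_lt_succ
    intro i
    unfold bB
    apply Nat.pow_lt_pow_left _ (by omega)
    omega
  have hge1 : ∀ i, 1 ≤ bB q j' i := by
    intro i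
    unfold bB
    apply Nat.one_le_pow
    rw [← hj₁]
    omega
  have hbe1 : ∀ i, 1 ≤ be Q j' (bB q j') i := by
    intro i
    rw [hbe i]
    apply UJ_one_le (by linarith)
    rw [hJ]
    exact_mod_cast (by omega : j₁ ≤ j₁ + i)
  have hbem : ∀ i, be Q j' (bB q j') i < be Q j' (bB q j') (i + 1) := fun i =>
    vv_lt (by omega) (by omega) (hmono (Nat.lt_succ_self i))
  refine ⟨w, ω, m, ?_⟩
  refine
    { hQ := hQ300
      hj := hj16
      hκ := hκ0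
      first := ?_
      mono := hmono
      short := ?_
      zpos := fun n hn => zz_pos Q hn
      zanti := fun a b ha hab => zz_anti Q (by omega) ha hab
      wcont := hwc
      wsupp := ?_
      wbd := ?_
      wmom := ?_
      gNV := ?_
      small := ?_
      mass := fun i => le_rfl
      sum := ?_
      src1 := fun v hv => src1 hQ300 (by omega) hv }
  · show (j' ^ 16 + 0) ^ (2 * q) = _
    rw [add_zero, hpow]
  · intro i
    have hx : J ≤ ((j₁ + i : ℕ) : ℝ) := by rw [hJ]; exact_mod_cast (by omega : j₁ ≤ j₁ + i)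
    have e1 : be Q j' (bB q j') (i + 1) = UJ J (((j₁ + i : ℕ) : ℝ) + 1) := by
      rw [hbe (i + 1)]
      congr 1
      push_cast
      ring
    rw [e1, hbe i]
    set x : ℝ := ((j₁ + i : ℕ) : ℝ) with hxd
    have hx0 : 0 < x := by linarith
    have hU := UJ_one_le (by linarith : 0 < J) hx
    have hd := UJ_diff hJ1 hx
    have hd0 := (UJ_lt hJ1 hx).le
    have hUx := UJ_le hJ1 hx
    have h1 : UJ J (x + 1) - UJ J x ≤ UJ J x / x := by
      refine hd.trans ?_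
      apply div_le_div_of_nonneg_left (by linarith) hx0
      linarith
    have h2 : UJ J x / x ≤ 1 := by rwa [div_le_one hx0]
    have h3 : (UJ J (x + 1) - UJ J x) ≤ 1 := h1.trans h2
    nlinarith
  · intro p u hpu
    have := hws p u hpu
    refine ⟨this.1, ?_⟩
    show (j' ^ 16 + 0) ^ (2 * q) < p
    rw [add_zero]
    exact this.2
  · intro i p hp u hu1 hu2
    have e0 : bB q j' i = b (j₁ + i) := rfl
    have e1 : bB q j' (i + 1) = b (j₁ + i + 1) := rfl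
    rw [e0, e1] at hp
    have h := (hwb (j₁ + i) (by omega) u hu1 hu2).1 p hp
    exact h
  · intro i u hu1 hu2 P hP
    exact (hwb (j₁ + i) (by omega) u hu1 hu2).2 P hP
  · intro i
    have hb1 := hbe1 (i + 1)
    have h2 : NV Q (be Q j' (bB q j') (i + 1)) ≤ be Q j' (bB q j') (i + 1) ^ (2 * ((16 * q : ℕ) : ℝ) + 27 / 20) := by
      unfold NV
      split_ifs with h
      · have : be Q j' (bB q j') (i + 1) = 1 := le_antisymm h hb1
        rw [this, one_pow, Real.one_rpow]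
      · exact Real.rpow_le_rpow_of_exponent_le hb1 (by rw [hQ]; norm_num)
    unfold gG
    rw [← hQ, ← hκ]
    rw [← hQ] at h2
    have h3 : 0 ≤ be Q j' (bB q j') (i + 1) ^ (2 * ((Q : ℕ) : ℝ) + 27 / 20) := by
      have : 0 ≤ be Q j' (bB q j') (i + 1) := by linarith
      positivity
    nlinarith
  · intro i p hp hpp
    refine (hest i (zz Q p * gw p) ?_).1
    have hp' := Finset.mem_Ioc.1 hp
    set j : ℕ := j₁ + i with hj
    have hbi : bB q j' i = j ^ (2 * q) := rfl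
    have hbi1 : bB q j' (i + 1) = (j + 1) ^ (2 * q) := by
      unfold bB
      rw [← hj₁]
      congr 1
    rw [hbi, hbi1] at hp'
    rw [hbi]
    have hxq : 4 * (q:ℝ) ≤ (j:ℝ) := by exact_mod_cast (by omega : 4 * q ≤ j)
    have hx0 : (0:ℝ) < j := by linarith
    have hx16 : (16:ℝ) ≤ j := by exact_mod_cast (by omega : 16 ≤ j)
    have hL : 1 ≤ Real.log (j:ℝ) := by
      rw [Real.le_log_iff_exp_le hx0]
      have := Real.exp_one_lt_d9
      linarith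
    have h1 : zz Q ((j + 1) ^ (2 * q)) ≤ zz Q p := zz_anti Q (by omega) hpp.one_le hp'.2
    have h2 : zz Q (j ^ (2 * q)) / 2 ≤ zz Q ((j + 1) ^ (2 * q)) := by
      rw [hQ, zz_bdy hq11, zz_bdy hq11]
      push_cast
      have h3 := ratio_le (q := q) hxq hx0 (s := (q:ℝ) - 3 / 256) (by linarith) (by linarith)
      rw [Real.div_rpow (by positivity) hx0.le, div_le_iff₀ (by positivity)] at h3
      rw [Real.rpow_neg hx0.le, Real.rpow_neg (by positivity), div_le_iff₀ (by norm_num), inv_mul_eq_div,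
        inv_eq_one_div, div_le_div_iff₀ (by positivity) (by positivity), one_mul]
      exact h3
    have h4 : 1 / (16 * q ^ 2 * Real.log (j:ℝ) ^ 2) ≤ gw p := by
      unfold gw
      rw [if_pos hpp]
      have hp1 : (1:ℝ) < p := by exact_mod_cast hpp.one_lt
      have hlp : 0 < Real.log p := Real.log_pos hp1
      apply one_div_le_one_div_of_le (by positivity)
      have h5 : Real.log p ≤ 4 * q * Real.log j := by
        have h6 : (p:ℝ) ≤ ((j:ℝ) + 1) ^ (2 * q) := by exact_mod_cast hp'.2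
        have h7 : Real.log p ≤ Real.log (((j:ℝ) + 1) ^ (2 * q)) := Real.log_le_log (by linarith) h6
        rw [Real.log_pow] at h7
        have h8 : Real.log ((j:ℝ) + 1) ≤ 2 * Real.log j := by
          rw [← Real.log_rpow hx0]
          apply Real.log_le_log (by positivity)
          have : (j:ℝ) ^ (2:ℝ) = (j:ℝ) ^ 2 := by norm_cast
          rw [this]
          nlinarith
        push_cast at h7
        calc Real.log p ≤ 2 * q * Real.log ((j:ℝ) + 1) := h7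
          _ ≤ 2 * q * (2 * Real.log j) := by gcongr
          _ = _ := by ring
      calc Real.log p ^ 2 ≤ (4 * q * Real.log j) ^ 2 := pow_le_pow_left₀ hlp.le h5 2
        _ = _ := by ring
    have hz0 : 0 < zz Q (j ^ (2 * q)) := zz_pos Q (Nat.one_le_pow _ _ (by omega))
    calc zz Q (j ^ (2 * q)) / (32 * q ^ 2 * Real.log (j:ℝ) ^ 2)
        = zz Q (j ^ (2 * q)) / 2 * (1 / (16 * q ^ 2 * Real.log (j:ℝ) ^ 2)) := by
          field_simp
          norm_num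
      _ ≤ zz Q p * gw p := mul_le_mul (h2.trans h1) h4 (by positivity) (zz_pos Q hpp.one_le).le
  · -- the sum
    have hb0 : ∀ i, 0 ≤ m i * vpi Q (be Q j' (bB q j') i) (be Q j' (bB q j') (i + 1)) := by
      intro i
      apply mul_nonneg
      · have h1 := zz_pos Q (hge1 i)
        have h2 := hHs0 (bB q j' i) (bB q j' (i + 1))
        have h4 := hbe1 (i + 1)
        have h5 : 0 ≤ gG q j' i := by
          unfold gG
          rw [← hQ, ← hκ]
          positivity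
        have h6 : 0 ≤ be Q j' (bB q j') (i + 1) - be Q j' (bB q j') i := by linarith [(hbem i).le]
        simp only [hmdef]
        refine add_nonneg (add_nonneg ?_ ?_) (mul_nonneg h5 h6)
        · exact mul_nonneg (mul_nonneg h1.le h2) (sq_nonneg _)
        · exact mul_nonneg (mul_nonneg h1.le (Nat.cast_nonneg _)) (sq_nonneg _)
      · exact vpi_nonneg _ (by have := hbe1 i; linarith)
    have hJX' : X2 ≤ J := by
      refine (le_max_right X1 X2).trans (hJX.trans ?_)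
      rw [hJ]
      exact_mod_cast (by omega : JX ≤ j₁)
    exact sum_est (q := q) (j₁ := j₁) (by omega) hκ0 hb0 (fun i => (hest i _ le_rfl).2) (hX2 J hJX')

end Pool.Agent.H81.HM
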