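import Pool.Agent.H81.HM.Mach

/-!
# The machine with decaying coefficients: Picard iteration
-/

set_option autoImplicit false

open Finset MeasureTheory

namespace Pool.Agent.H81.HM

open Pool.Agent.H96R3.BC (vv cf picard)
open Pool.Agent.H394R3.BC (Ker Ker_cont Ker_cont_left Ker_cont_right)
open Pool.Agent.W406.PX (gw hm Hs cN)
open Pool.Agent.W748.PX (ci ci_spec cell_unique cN_mass Wx Wx_nonneg Wx_le cN_diff)

/-- a source: density `s` and its Hankel transform `H` -/
structure Src (Q j' : ℕ) (B : ℕ → ℕ) (g : ℕ → ℝ) (κ : ℝ) (s H : ℝ → ℝ) : Prop where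
  scont : Continuous s
  szero : ∀ v : ℝ, v ≤ 1 → s v = 0
  sle : ∀ i, ∀ v : ℝ, be Q j' B i ≤ v → v ≤ be Q j' B (i + 1) → κ * NV Q v + |s v| ≤ g i
  Hcont : Continuous fun v : ℝ => H (max v 0)
  Hle : ∀ v : ℝ, 0 ≤ v → |H v| ≤ κ / 8 * NV Q v

/-- coefficients at the composite numbers -/
noncomputable def cz (z x : ℕ → ℝ) (n : ℕ) : ℝ := z n * cN x n

/-- the solution -/
structure Out (Q j' : ℕ) (B : ℕ → ℕ) (w : ℕ → ℝ → ℝ) (z : ℕ → ℝ) (κ : ℝ) (s H : ℝ → ℝ) (x : ℕ → ℝ) (f : ℝ → ℝ) :
    Prop where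
  xsupp : ∀ n, x n ≠ 0 → n.Prime ∧ B 0 < n
  xbd : ∀ n, |x n| ≤ gw n
  fcont : Continuous f
  fbd : ∀ v : ℝ, 0 ≤ v → |f v| ≤ κ * NV Q v
  mass : ∀ i, ∑ n ∈ Ioc (B i) (B (i + 1)), |cz z x n| ≤ z (B i) * Hs (j' ^ (2 * Q)) (B i) (B (i + 1))
  xeq : ∀ i, ∀ p ∈ Ioc (B i) (B (i + 1)), p.Prime →
    z p * x p = XL Q j' B w (cz z x) (fun u => f u + s u) i p
  feq : ∀ v : ℝ, 0 ≤ v → f v = (vv Q j' 1) ^ 2 * Ker (4 * Q + 3) (vv Q j' 1) v
    + FL Q j' B w (cz z x) (fun u => f u + s u) v + H v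

/-- the nonlinear map -/
noncomputable def Ph (Q j' : ℕ) (B : ℕ → ℕ) (w : ℕ → ℝ → ℝ) (z : ℕ → ℝ) (s H : ℝ → ℝ) (g : ℕ ⊕ ℝ → ℝ)
    (i : ℕ ⊕ ℝ) : ℝ :=
  match i with
  | Sum.inl p => if p.Prime ∧ B 0 < p then
      XL Q j' B w (cz z (fun q => g (Sum.inl q))) (fun u => g (Sum.inr u) + s u) (ci B p) p / z p else 0
  | Sum.inr v => (vv Q j' 1) ^ 2 * Ker (4 * Q + 3) (vv Q j' 1) (max v 0)
      + FL Q j' B w (cz z (fun q => g (Sum.inl q))) (fun u => g (Sum.inr u) + s u) (max v 0)
      + H (max v 0)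

/-- the weights -/
noncomputable def WW (Q : ℕ) (B : ℕ → ℕ) (κ : ℝ) (i : ℕ ⊕ ℝ) : ℝ :=
  match i with
  | Sum.inl p => Wx B 1 p
  | Sum.inr v => κ * NV Q (max v 0)

section

variable {Q j' : ℕ} {B : ℕ → ℕ} {w : ℕ → ℝ → ℝ} {z : ℕ → ℝ} {ω g m : ℕ → ℝ} {κ : ℝ}

lemma cz_mass (S : Sy Q j' B w z ω g m κ) {y y' : ℕ → ℝ} {D : ℝ} (hD : 0 ≤ D)
    (hy : ∀ n : ℕ, |y n| ≤ gw n) (hy' : ∀ n : ℕ, |y' n| ≤ gw n)
    (hy0 : ∀ n, n ≤ j' ^ (2 * Q) → y n = 0) (hy0' : ∀ n, n ≤ j' ^ (2 * Q) → y' n = 0)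
    (hd : ∀ n : ℕ, |y n - y' n| ≤ D * gw n) (i : ℕ) :
    ∑ n ∈ Ioc (B i) (B (i + 1)), |cz z y n - cz z y' n| ≤ D * (z (B i) * Hs (j' ^ (2 * Q)) (B i) (B (i + 1))) ∧
    ∑ n ∈ Ioc (B i) (B (i + 1)), |cz z y n| ≤ z (B i) * Hs (j' ^ (2 * Q)) (B i) (B (i + 1)) := by
  have h := cN_mass (X := j' ^ (2 * Q)) (a := B i) (b := B (i + 1)) hD hy hy' hy0 hy0' hd
  have h16 := B_ge S i
  have hz0 : 0 < z (B i) := S.zpos _ (by omega)
  have hzn : ∀ n ∈ Ioc (B i) (B (i + 1)), |z n| ≤ z (B i) := by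
    intro n hn
    have hn' := Finset.mem_Ioc.1 hn
    rw [abs_of_pos (S.zpos n (by omega))]
    exact S.zanti _ _ (by omega) hn'.1.le
  constructor
  · calc ∑ n ∈ Ioc (B i) (B (i + 1)), |cz z y n - cz z y' n|
        ≤ ∑ n ∈ Ioc (B i) (B (i + 1)), z (B i) * |cN y n - cN y' n| := by
          apply Finset.sum_le_sum
          intro n hn
          unfold cz
          rw [← mul_sub, abs_mul]
          exact mul_le_mul_of_nonneg_right (hzn n hn) (abs_nonneg _)
      _ = z (B i) * ∑ n ∈ Ioc (B i) (B (i + 1)), |cN y n - cN y' n| := by rw [Finset.mul_sum]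
      _ ≤ z (B i) * (D * Hs (j' ^ (2 * Q)) (B i) (B (i + 1))) := mul_le_mul_of_nonneg_left h.1 hz0.le
      _ = _ := by ring
  · calc ∑ n ∈ Ioc (B i) (B (i + 1)), |cz z y n|
        ≤ ∑ n ∈ Ioc (B i) (B (i + 1)), z (B i) * |cN y n| := by
          apply Finset.sum_le_sum
          intro n hn
          unfold cz
          rw [abs_mul]
          exact mul_le_mul_of_nonneg_right (hzn n hn) (abs_nonneg _)
      _ = z (B i) * ∑ n ∈ Ioc (B i) (B (i + 1)), |cN y n| := by rw [Finset.mul_sum]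
      _ ≤ _ := mul_le_mul_of_nonneg_left h.2 hz0.le

lemma NV_mono (Q : ℕ) {a b : ℝ} (ha : 0 ≤ a) (hab : a ≤ b) : NV Q a ≤ NV Q b := by
  unfold NV
  have h0 : (0:ℝ) ≤ Q := Nat.cast_nonneg Q
  split_ifs with h1 h2 h2
  · exact pow_le_pow_left₀ ha hab _
  · push Not at h2
    exact (pow_le_one₀ ha h1).trans (Real.one_le_rpow h2.le (by positivity))
  · linarith
  · exact Real.rpow_le_rpow ha hab (by positivity)

theorem fix (S : Sy Q j' B w z ω g m κ) {s H : ℝ → ℝ} (hs : Src Q j' B g κ s H) :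
    ∃ (x : ℕ → ℝ) (f : ℝ → ℝ), Out Q j' B w z κ s H x f := by
  have hκ := S.hκ
  have hy : ∀ h : ℕ ⊕ ℝ → ℝ, (∀ i, |h i| ≤ WW Q B κ i) → ∀ n : ℕ, |h (Sum.inl n)| ≤ gw n := by
    intro h hh n
    have h2 := (hh (Sum.inl n)).trans (Wx_le B zero_le_one n)
    rwa [one_mul] at h2
  have hy0 : ∀ h : ℕ ⊕ ℝ → ℝ, (∀ i, |h i| ≤ WW Q B κ i) → ∀ n : ℕ, n ≤ j' ^ (2 * Q) → h (Sum.inl n) = 0 := by
    intro h hh n hn
    have h2 : |h (Sum.inl n)| ≤ Wx B 1 n := hh (Sum.inl n)
    have h3 := S.first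
    unfold Wx at h2
    rw [if_neg (by omega)] at h2
    exact abs_nonpos_iff.1 h2
  have ball : ∀ h : ℕ ⊕ ℝ → ℝ, (Continuous fun v => h (Sum.inr v)) → (∀ i, |h i| ≤ WW Q B κ i) →
      Bd Q j' B z g κ 1 (cz z (fun q => h (Sum.inl q))) (fun u => h (Sum.inr u) + s u) := by
    intro h hc hh
    refine ⟨zero_le_one, hc.add hs.scont, ?_, ?_, ?_⟩
    · intro i
      rw [one_mul]
      exact (cz_mass S (D := 1) zero_le_one (hy h hh) (hy h hh) (hy0 h hh) (hy0 h hh)
        (fun n => by rw [sub_self, abs_zero, one_mul]; exact gw_nonneg n) i).2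
    · intro i v hv1 hv2
      have hv0 : 0 ≤ v := by have := be_one_le S i; linarith
      have h1 := hh (Sum.inr v)
      simp only [WW, max_eq_left hv0] at h1
      rw [one_mul]
      exact (abs_add_le _ _).trans (le_trans (by linarith) (hs.sle i v hv1 hv2))
    · intro v hv0 hv1
      have h1 := hh (Sum.inr v)
      simp only [WW, max_eq_left hv0] at h1
      rw [one_mul]
      show |h (Sum.inr v) + s v| ≤ _
      rw [hs.szero v hv1, add_zero]
      unfold NV at h1
      rwa [if_pos hv1] at h1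
  have diff : ∀ h h' : ℕ ⊕ ℝ → ℝ, (Continuous fun v => h (Sum.inr v)) → (Continuous fun v => h' (Sum.inr v)) →
      (∀ i, |h i| ≤ WW Q B κ i) → (∀ i, |h' i| ≤ WW Q B κ i) → ∀ D : ℝ, 0 ≤ D →
      (∀ i, |h i - h' i| ≤ D * WW Q B κ i) →
      Bd Q j' B z g κ D (fun n => cz z (fun q => h (Sum.inl q)) n - cz z (fun q => h' (Sum.inl q)) n)
        (fun u => (h (Sum.inr u) + s u) - (h' (Sum.inr u) + s u)) := by
    intro h h' hc hc' hh hh' D hD hd
    have he : ∀ v : ℝ, 0 ≤ v → |(h (Sum.inr v) + s v) - (h' (Sum.inr v) + s v)| ≤ D * (κ * NV Q v) := by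
      intro v hv
      have := hd (Sum.inr v)
      simp only [WW, max_eq_left hv] at this
      rwa [add_sub_add_right_eq_sub]
    refine ⟨hD, (hc.add hs.scont).sub (hc'.add hs.scont), ?_, ?_, ?_⟩
    · intro i
      refine (cz_mass S hD (hy h hh) (hy h' hh') (hy0 h hh) (hy0 h' hh') (fun n => ?_) i).1
      have h1 := (hd (Sum.inl n)).trans (mul_le_mul_of_nonneg_left (Wx_le B zero_le_one n) hD)
      rwa [one_mul] at h1
    · intro i v hv1 hv2
      have hv0 : 0 ≤ v := by have := be_one_le S i; linarith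
      refine (he v hv0).trans ?_
      apply mul_le_mul_of_nonneg_left _ hD
      refine le_trans ?_ (S.gNV i)
      exact mul_le_mul_of_nonneg_left (NV_mono Q hv0 hv2) hκ.le
    · intro v hv0 hv1
      have := he v hv0
      unfold NV at this
      rwa [if_pos hv1] at this
  -- Picard
  obtain ⟨h, hC, hW, hfix⟩ := picard (WW Q B κ) (fun i => by
      cases i with
      | inl p => exact Wx_nonneg B zero_le_one p
      | inr v => exact mul_nonneg hκ.le (NV_nonneg _ (le_max_right _ _)))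
    {h | Continuous fun v => h (Sum.inr v)} (by
      intro h l hh hhl
      show Continuous fun v => l (Sum.inr v)
      have htl : TendstoLocallyUniformly (fun n v => h n (Sum.inr v)) (fun v => l (Sum.inr v))
          Filter.atTop := by
        rw [Metric.tendstoLocallyUniformly_iff]
        intro e he v₀
        refine ⟨Metric.ball v₀ 1, Metric.ball_mem_nhds _ one_pos, ?_⟩
        set B' : ℝ := κ * (2 + |v₀|) ^ (4 * Q + 3) with hBd
        have hB0 : 0 ≤ B' := by positivity
        have ht : Filter.Tendsto (fun n : ℕ => 2 * (1 / 2 : ℝ) ^ n * B') Filter.atTop (nhds 0) := by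
          have := ((tendsto_pow_atTop_nhds_zero_of_lt_one (r := (1/2:ℝ)) (by norm_num)
            (by norm_num)).const_mul 2).mul_const B'
          simpa using this
        filter_upwards [ht.eventually (gt_mem_nhds he)] with n hn v hv
        rw [Metric.mem_ball, Real.dist_eq] at hv
        rw [dist_comm, Real.dist_eq]
        refine lt_of_le_of_lt ((hhl n (Sum.inr v)).trans ?_) hn
        apply mul_le_mul_of_nonneg_left _ (by positivity)
        show κ * NV Q (max v 0) ≤ B'
        apply mul_le_mul_of_nonneg_left _ hκ.le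
        refine (NV_le_pow Q (le_max_right _ _)).trans (pow_le_pow_left₀ (by positivity) ?_ _)
        have h1 : max v 0 ≤ |v| := max_le (le_abs_self _) (abs_nonneg _)
        have h2 : |v| ≤ |v₀| + 1 := by
          have := abs_sub_abs_le_abs_sub v v₀
          linarith
        linarith
      exact htl.continuous (Filter.Frequently.of_forall fun n => hh n))
    (Ph Q j' B w z s H) continuous_const
    (by
      intro h hc hh
      show Continuous fun v => Ph Q j' B w z s H h (Sum.inr v)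
      have h1 := (FL_le S (ball h hc hh)).2.1
      refine Continuous.add (Continuous.add ?_ h1) hs.Hcont
      exact continuous_const.mul ((Ker_cont_right _ _).comp (continuous_id.max continuous_const)))
    (by
      intro h hc hh i
      have hb := ball h hc hh
      cases i with
      | inl p =>
        show |if _ then _ else _| ≤ Wx B 1 p
        unfold Wx
        split_ifs with hp
        · have hz := S.zpos p hp.1.one_le
          rw [abs_div, abs_of_pos hz, div_le_iff₀ hz]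
          refine ((XL_le S hb (ci B p)) p (ci_spec S.mono hp.2) hp.1).trans ?_
          have : 0 ≤ z p * gw p := mul_nonneg hz.le (gw_nonneg p)
          linarith
        · simp
      | inr v =>
        show |_ + _ + _| ≤ κ * NV Q (max v 0)
        have h1 := S.src1 (max v 0) (le_max_right _ _)
        have h2 := (FL_le S hb).1 (max v 0) (le_max_right _ _)
        have h5 := hs.Hle (max v 0) (le_max_right _ _)
        have h3 : 0 ≤ κ * NV Q (max v 0) := mul_nonneg hκ.le (NV_nonneg _ (le_max_right _ _))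
        refine (abs_add_le _ _).trans ((add_le_add (abs_add_le _ _) le_rfl).trans ?_)
        linarith)
    (by
      intro h hc h' hc' hh hh' D hD hd i
      have hb := diff h h' hc hc' hh hh' D hD hd
      have hcs : Continuous fun u => h (Sum.inr u) + s u := Continuous.add hc hs.scont
      have hcs' : Continuous fun u => h' (Sum.inr u) + s u := Continuous.add hc' hs.scont
      cases i with
      | inl p =>
        show |(if _ then _ else _) - (if _ then _ else _)| ≤ D / 2 * Wx B 1 p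
        unfold Wx
        split_ifs with hp
        · have hz := S.zpos p hp.1.one_le
          rw [← sub_div, ← XL_sub S _ _ hcs hcs', abs_div, abs_of_pos hz, div_le_iff₀ hz]
          refine (XL_le S hb (ci B p) p (ci_spec S.mono hp.2) hp.1).trans (le_of_eq ?_)
          ring
        · simp
      | inr v =>
        have hv : (0:ℝ) ≤ max v 0 := le_max_right _ _
        show |(_ + _ + _) - (_ + _ + _)| ≤ D / 2 * (κ * NV Q (max v 0))
        rw [add_sub_add_right_eq_sub, add_sub_add_left_eq_sub,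
          ← FL_sub S _ _ hcs hcs' _ ((FL_le S (ball h hc hh)).2.2 _ hv) ((FL_le S (ball h' hc' hh')).2.2 _ hv)]
        exact (FL_le S hb).1 (max v 0) hv)
  have hC' : Continuous fun v => h (Sum.inr v) := hC
  refine ⟨fun q => h (Sum.inl q), fun u => h (Sum.inr u), ?_⟩
  refine
    { xsupp := ?_
      xbd := hy h hW
      fcont := hC'
      fbd := ?_
      mass := ?_
      xeq := ?_
      feq := ?_ }
  · intro n hn
    by_contra hcon
    have h2 : |h (Sum.inl n)| ≤ Wx B 1 n := hW (Sum.inl n)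
    unfold Wx at h2
    rw [if_neg hcon] at h2
    exact hn (abs_nonpos_iff.1 h2)
  · intro v hv
    have h1 := hW (Sum.inr v)
    simp only [WW, max_eq_left hv] at h1
    exact h1
  · intro i
    have h1 := (ball h hC' hW).2.2.1 i
    rw [one_mul] at h1
    exact h1
  · intro i p hp hpp
    have hpB : B 0 < p := by
      rw [Finset.mem_Ioc] at hp
      exact lt_of_le_of_lt (S.mono.monotone (Nat.zero_le i)) hp.1
    have h1 := hfix (Sum.inl p)
    have h2 : Ph Q j' B w z s H h (Sum.inl p) =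
        XL Q j' B w (cz z (fun q => h (Sum.inl q))) (fun u => h (Sum.inr u) + s u) (ci B p) p / z p := by
      show (if _ then _ else _) = _
      rw [if_pos ⟨hpp, hpB⟩]
    have h3 : ci B p = i := cell_unique S.mono (ci_spec S.mono hpB) hp
    rw [h3] at h2
    have hz := S.zpos p hpp.one_le
    show z p * h (Sum.inl p) = _
    rw [← h1, h2]
    field_simp
  · intro v hv
    have h1 := hfix (Sum.inr v)
    have h2 : Ph Q j' B w z s H h (Sum.inr v) =
        (vv Q j' 1) ^ 2 * Ker (4 * Q + 3) (vv Q j' 1) (max v 0)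
        + FL Q j' B w (cz z (fun q => h (Sum.inl q))) (fun u => h (Sum.inr u) + s u) (max v 0)
        + H (max v 0) := rfl
    rw [max_eq_left hv] at h2
    show h (Sum.inr v) = _
    rw [← h1, h2]

end

end Pool.Agent.H81.HM
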