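import Pool.Agent.H81.HM.Par

/-!
# The sources
-/

set_option autoImplicit false

open Finset MeasureTheory Filter Topology

namespace Pool.Agent.H81.HM

open Pool.Agent.H96R3.BC (vv cf)
open Pool.Agent.H394R3.BC (Ker Ker_cont Ker_cont_left Ker_cont_right cellB cellM cell_laplace)
open Pool.Agent.H993R3.BC (intg)

/-- the profile -/
noncomputable def psi (y : ℝ) : ℝ := max 0 (y * (1 - y))

lemma psi_cont : Continuous psi := by unfold psi; fun_prop

lemma psi_nonneg (y : ℝ) : 0 ≤ psi y := le_max_left _ _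

lemma psi_le (y : ℝ) : psi y ≤ 1 := by
  unfold psi
  apply max_le zero_le_one
  nlinarith [sq_nonneg (y - 1 / 2)]

lemma psi_zero {y : ℝ} (h : y ≤ 0 ∨ 1 ≤ y) : psi y = 0 := by
  unfold psi
  apply max_eq_left
  rcases h with h | h
  · nlinarith
  · nlinarith

/-- the coefficients of the finite difference -/
noncomputable def fd (M b : ℕ) : ℝ := (-1) ^ (M - b) * (M.choose b : ℝ)

lemma fd_sum {M k : ℕ} (hk : k < M) (h y : ℝ) : ∑ b ∈ range (M + 1), fd M b * (h * (y + b)) ^ k = 0 := by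
  have h1 := congrFun (fwdDiff_iter_pow_eq_zero_of_lt (R := ℝ) hk) y
  rw [fwdDiff_iter_eq_sum_shift] at h1
  have h2 : ∑ b ∈ range (M + 1), fd M b * (h * (y + b)) ^ k =
      h ^ k * ∑ b ∈ range (M + 1), ((-1 : ℤ) ^ (M - b) * M.choose b) • (y + b • (1:ℝ)) ^ k := by
    rw [Finset.mul_sum]
    apply sum_congr rfl
    intro b _
    unfold fd
    rw [zsmul_eq_mul, mul_pow]
    push_cast
    simp only [nsmul_eq_mul, mul_one]
    ring
  rw [h2, h1]
  simp

lemma fd_abs (M : ℕ) : ∑ b ∈ range (M + 1), |fd M b| = 2 ^ M := by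
  have : ∀ b ∈ range (M + 1), |fd M b| = (M.choose b : ℝ) := by
    intro b _
    unfold fd
    rw [abs_mul, abs_pow, abs_neg, abs_one, one_pow, one_mul, abs_of_nonneg (Nat.cast_nonneg _)]
  rw [sum_congr rfl this]
  exact_mod_cast Nat.sum_range_choose M

/-- the bump on `[a, a + (M + 1) h]` with vanishing moments of degree `< M = 4 Q + 4` -/
noncomputable def bump (Q : ℕ) (a h v : ℝ) : ℝ :=
  (2 ^ (4 * Q + 4))⁻¹ * ∑ b ∈ range (4 * Q + 4 + 1), fd (4 * Q + 4) b * psi ((v - a) / h - b)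

lemma bump_cont (Q : ℕ) (a h : ℝ) : Continuous (bump Q a h) := by
  unfold bump
  refine continuous_const.mul (continuous_finsetSum _ fun b _ => continuous_const.mul ?_)
  exact psi_cont.comp (by fun_prop)

lemma bump_abs (Q : ℕ) (a h v : ℝ) : |bump Q a h v| ≤ 1 := by
  unfold bump
  rw [abs_mul, abs_of_pos (by positivity)]
  have h1 : |∑ b ∈ range (4 * Q + 4 + 1), fd (4 * Q + 4) b * psi ((v - a) / h - b)| ≤ 2 ^ (4 * Q + 4) := by
    rw [← fd_abs]
    refine (abs_sum_le_sum_abs _ _).trans (sum_le_sum fun b _ => ?_)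
    rw [abs_mul, abs_of_nonneg (psi_nonneg _)]
    exact mul_le_of_le_one_right (abs_nonneg _) (psi_le _)
  calc (2 ^ (4 * Q + 4) : ℝ)⁻¹ * _ ≤ (2 ^ (4 * Q + 4) : ℝ)⁻¹ * 2 ^ (4 * Q + 4) := by gcongr
    _ = 1 := by field_simp

lemma bump_low {Q : ℕ} {a h v : ℝ} (hh : 0 < h) (hv : v ≤ a) : bump Q a h v = 0 := by
  unfold bump
  rw [sum_eq_zero, mul_zero]
  intro b _
  rw [psi_zero, mul_zero]
  left
  have h1 : (v - a) / h ≤ 0 := div_nonpos_of_nonpos_of_nonneg (by linarith) hh.le
  have h2 : (0:ℝ) ≤ b := Nat.cast_nonneg b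
  linarith

lemma bump_high {Q : ℕ} {a h v : ℝ} (hh : 0 < h) (hv : a + (4 * Q + 5) * h ≤ v) : bump Q a h v = 0 := by
  unfold bump
  rw [sum_eq_zero, mul_zero]
  intro b hb
  rw [psi_zero, mul_zero]
  right
  have h1 : 4 * (Q:ℝ) + 5 ≤ (v - a) / h := by rw [le_div_iff₀ hh]; linarith
  have h2 : (b:ℝ) ≤ 4 * Q + 4 := by
    have := mem_range.1 hb
    exact_mod_cast (by omega : b ≤ 4 * Q + 4)
  linarith

lemma bump_zero {Q : ℕ} {a h v : ℝ} (hh : 0 < h) (h2 : v ≤ a + h) :
    bump Q a h v = (2 ^ (4 * Q + 4))⁻¹ * psi ((v - a) / h) := by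
  unfold bump
  congr 1
  rw [sum_eq_single_of_mem 0 (mem_range.2 (by omega))]
  · unfold fd
    rw [Nat.sub_zero, Nat.choose_zero_right, Nat.cast_one, mul_one, Nat.cast_zero, sub_zero]
    have : ((-1:ℝ)) ^ (4 * Q + 4) = 1 := by
      rw [show 4 * Q + 4 = 2 * (2 * Q + 2) by ring, pow_mul]
      norm_num
    rw [this, one_mul]
  · intro b _ hb
    rw [psi_zero, mul_zero]
    left
    have h3 : (v - a) / h ≤ 1 := by rw [div_le_one hh]; linarith
    have h4 : (1:ℝ) ≤ b := by exact_mod_cast Nat.one_le_iff_ne_zero.2 hb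
    linarith

lemma psi_int {h : ℝ} (hh : 0 < h) (a : ℝ) (b k : ℕ) :
    Integrable (fun v : ℝ => (v - a) ^ k * psi ((v - a) / h - b)) ∧
    ∫ v : ℝ, (v - a) ^ k * psi ((v - a) / h - b) = h * ∫ y : ℝ, (h * (y + b)) ^ k * psi y := by
  constructor
  · apply Continuous.integrable_of_hasCompactSupport
    · exact (by fun_prop : Continuous fun v : ℝ => (v - a) ^ k).mul (psi_cont.comp (by fun_prop))
    · apply HasCompactSupport.intro (K := Set.Icc (a + h * b) (a + h * (b + 1))) isCompact_Icc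
      intro v hv
      rw [psi_zero, mul_zero]
      rw [Set.mem_Icc, not_and_or, not_le, not_le] at hv
      rcases hv with hv | hv
      · left
        have : (v - a) / h ≤ b := by rw [div_le_iff₀ hh]; linarith
        linarith
      · right
        have : (b:ℝ) + 1 ≤ (v - a) / h := by rw [le_div_iff₀ hh]; linarith
        linarith
  · have e1 := integral_sub_right_eq_self (μ := volume) (fun v : ℝ => v ^ k * psi (v / h - b)) a
    have e2 := Measure.integral_comp_div (fun y : ℝ => (h * y) ^ k * psi (y - b)) h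
    have e3 := integral_sub_right_eq_self (μ := volume) (fun y : ℝ => (h * (y + b)) ^ k * psi y) (b:ℝ)
    rw [e1]
    have e4 : (fun v : ℝ => v ^ k * psi (v / h - b)) = fun v => (h * (v / h)) ^ k * psi (v / h - b) := by
      funext v
      congr 2
      field_simp
    rw [e4, e2, abs_of_pos hh, smul_eq_mul, ← e3]
    congr 1
    apply integral_congr_ae
    refine Eventually.of_forall fun y => ?_
    simp only [sub_add_cancel]

/-- vanishing moments -/
lemma bump_mom {Q k : ℕ} (hk : k < 4 * Q + 4) {a h : ℝ} (hh : 0 < h) :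
    ∫ v in a..(a + (4 * Q + 5) * h), bump Q a h v * (v - a) ^ k = 0 := by
  have hsup : Function.support (fun v => bump Q a h v * (v - a) ^ k) ⊆ Set.Ioc a (a + (4 * Q + 5) * h) := by
    intro v hv
    rw [Function.mem_support] at hv
    rw [Set.mem_Ioc]
    constructor
    · by_contra hcon
      apply hv
      rw [bump_low hh (not_lt.1 hcon), zero_mul]
    · by_contra hcon
      apply hv
      rw [bump_high hh (not_le.1 hcon).le, zero_mul]
  rw [intervalIntegral.integral_eq_integral_of_support_subset hsup]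
  have e1 : (fun v => bump Q a h v * (v - a) ^ k) = fun v => (2 ^ (4 * Q + 4) : ℝ)⁻¹ *
      ∑ b ∈ range (4 * Q + 4 + 1), fd (4 * Q + 4) b * ((v - a) ^ k * psi ((v - a) / h - b)) := by
    funext v
    unfold bump
    rw [mul_assoc, Finset.sum_mul]
    congr 1
    apply sum_congr rfl
    intro b _
    ring
  rw [e1, integral_const_mul, integral_finsetSum _ (fun b _ => ((psi_int hh a b k).1).const_mul _)]
  have hpi : ∀ b : ℕ, Integrable (fun y : ℝ => fd (4 * Q + 4) b * ((h * (y + b)) ^ k * psi y)) := by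
    intro b
    apply Integrable.const_mul
    apply Continuous.integrable_of_hasCompactSupport
    · exact (by fun_prop : Continuous fun y : ℝ => (h * (y + b)) ^ k).mul psi_cont
    · apply HasCompactSupport.intro (K := Set.Icc 0 1) isCompact_Icc
      intro v hv
      rw [psi_zero, mul_zero]
      rw [Set.mem_Icc, not_and_or, not_le, not_le] at hv
      rcases hv with hv | hv
      · exact Or.inl hv.le
      · exact Or.inr hv.le
  have e2 : ∑ b ∈ range (4 * Q + 4 + 1), ∫ v : ℝ, fd (4 * Q + 4) b * ((v - a) ^ k * psi ((v - a) / h - b)) =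
      h * ∫ y : ℝ, ∑ b ∈ range (4 * Q + 4 + 1), fd (4 * Q + 4) b * ((h * (y + b)) ^ k * psi y) := by
    rw [integral_finsetSum _ (fun b _ => hpi b), Finset.mul_sum]
    apply sum_congr rfl
    intro b _
    rw [integral_const_mul, (psi_int hh a b k).2, integral_const_mul]
    ring
  have e3 : ∀ y : ℝ, ∑ b ∈ range (4 * Q + 4 + 1), fd (4 * Q + 4) b * ((h * (y + b)) ^ k * psi y) = 0 := by
    intro y
    have h1 := fd_sum hk h y
    calc ∑ b ∈ range (4 * Q + 4 + 1), fd (4 * Q + 4) b * ((h * (y + b)) ^ k * psi y)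
        = (∑ b ∈ range (4 * Q + 4 + 1), fd (4 * Q + 4) b * (h * (y + b)) ^ k) * psi y := by
          rw [Finset.sum_mul]
          exact sum_congr rfl fun b _ => by ring
      _ = 0 := by rw [h1, zero_mul]
  rw [e2]
  simp_rw [e3]
  simp

/-! ### the source: windows `[a g, a g + (4 Q + 5) h g]` -/

/-- exponent of the source -/
noncomputable def rs (Q : ℕ) : ℝ := 2 * (Q:ℝ) + 27 / 20

/-- the window `g` of the source -/
noncomputable def sg (Q : ℕ) (a h : ℕ → ℝ) (g : ℕ) (v : ℝ) : ℝ := a g ^ rs Q * bump Q (a g) (h g) v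

/-- the source -/
noncomputable def sF (Q : ℕ) (a h : ℕ → ℝ) (v : ℝ) : ℝ := ∑' g, sg Q a h g v

/-- end of the window -/
noncomputable def en (Q : ℕ) (a h : ℕ → ℝ) (g : ℕ) : ℝ := a g + (4 * Q + 5) * h g

/-- Hankel transform of the window -/
noncomputable def Hg (Q : ℕ) (a h : ℕ → ℝ) (g : ℕ) (v : ℝ) : ℝ :=
  ∫ w in (a g)..(en Q a h g), sg Q a h g w * Ker (4 * Q + 3) w v

/-- Hankel transform of the source -/
noncomputable def HF (Q : ℕ) (a h : ℕ → ℝ) (v : ℝ) : ℝ := ∑' g, Hg Q a h g v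

/-- the windows -/
structure Wd (Q : ℕ) (κ : ℝ) (a h : ℕ → ℝ) : Prop where
  one : ∀ g, 1 ≤ a g
  pos : ∀ g, 0 < h g
  disj : ∀ g, en Q a h g ≤ a (g + 1)
  short : ∀ g, (en Q a h g - a g) ^ 2 ≤ a g
  lim : Tendsto a atTop atTop
  summ : Summable fun g => (a g ^ rs Q * (en Q a h g - a g)) * vpi Q (a g) (en Q a h g)
  sle : C0 Q * ∑' g, (a g ^ rs Q * (en Q a h g - a g)) * vpi Q (a g) (en Q a h g) ≤ κ / 8

section

variable {Q : ℕ} {κ : ℝ} {a h : ℕ → ℝ}

lemma Wd.lt (W : Wd Q κ a h) (g : ℕ) : a g < en Q a h g := by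
  unfold en
  have := W.pos g
  have : (0:ℝ) ≤ Q := Nat.cast_nonneg Q
  have : 0 < (4 * (Q:ℝ) + 5) * h g := by positivity
  linarith

lemma Wd.mono (W : Wd Q κ a h) : StrictMono a :=
  strictMono_nat_of_lt_succ fun g => (W.lt g).trans_le (W.disj g)

lemma sg_cont (g : ℕ) : Continuous (sg Q a h g) := continuous_const.mul (bump_cont _ _ _)

lemma sg_zero (W : Wd Q κ a h) {g : ℕ} {v : ℝ} (hv : v ≤ a g ∨ en Q a h g ≤ v) : sg Q a h g v = 0 := by
  unfold sg
  rcases hv with hv | hv
  · rw [bump_low (W.pos g) hv, mul_zero]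
  · rw [bump_high (W.pos g) hv, mul_zero]

lemma sg_abs (W : Wd Q κ a h) (g : ℕ) (v : ℝ) : |sg Q a h g v| ≤ a g ^ rs Q := by
  unfold sg
  have h1 := W.one g
  have h2 : 0 ≤ a g ^ rs Q := by
    have : 0 ≤ a g := by linarith
    positivity
  rw [abs_mul, abs_of_nonneg h2]
  exact mul_le_of_le_one_right h2 (bump_abs _ _ _ _)

/-- at most one window contains `v` -/
lemma sg_uniq (W : Wd Q κ a h) {g g' : ℕ} {v : ℝ} (h1 : sg Q a h g v ≠ 0) (h2 : sg Q a h g' v ≠ 0) : g = g' := by
  have key : ∀ g g' : ℕ, sg Q a h g v ≠ 0 → sg Q a h g' v ≠ 0 → ¬ g < g' := by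
    intro g g' h1 h2 hlt
    have a1 : v < en Q a h g := by
      by_contra hcon
      exact h1 (sg_zero W (Or.inr (not_lt.1 hcon)))
    have a2 : a g' < v := by
      by_contra hcon
      exact h2 (sg_zero W (Or.inl (not_lt.1 hcon)))
    have a3 : a (g + 1) ≤ a g' := W.mono.monotone hlt
    have a4 := W.disj g
    linarith
  exact le_antisymm (not_lt.1 (key g' g h2 h1)) (not_lt.1 (key g g' h1 h2))

/-- value of the source in the window `g` -/
lemma sF_eq (W : Wd Q κ a h) {g : ℕ} {v : ℝ} (h1 : a g ≤ v) (h2 : v ≤ en Q a h g) :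
    sF Q a h v = sg Q a h g v := by
  unfold sF
  rw [tsum_eq_single g]
  intro g' hg'
  rcases Nat.lt_or_gt_of_ne hg' with hlt | hlt
  · apply sg_zero W
    right
    have a3 : a (g' + 1) ≤ a g := W.mono.monotone hlt
    have a4 := W.disj g'
    linarith
  · apply sg_zero W
    left
    have a3 : a (g + 1) ≤ a g' := W.mono.monotone hlt
    have a4 := W.disj g
    linarith

lemma sF_or (W : Wd Q κ a h) (v : ℝ) : sF Q a h v = 0 ∨ ∃ g, a g < v ∧ v < en Q a h g ∧ sF Q a h v = sg Q a h g v := by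
  by_cases hex : ∃ g, sg Q a h g v ≠ 0
  · obtain ⟨g, hg⟩ := hex
    right
    have a1 : v < en Q a h g := by
      by_contra hcon
      exact hg (sg_zero W (Or.inr (not_lt.1 hcon)))
    have a2 : a g < v := by
      by_contra hcon
      exact hg (sg_zero W (Or.inl (not_lt.1 hcon)))
    exact ⟨g, a2, a1, sF_eq W a2.le a1.le⟩
  · left
    push Not at hex
    unfold sF
    simp [hex]

lemma rs_nonneg (Q : ℕ) : 0 ≤ rs Q := by unfold rs; positivity

lemma sF_abs (W : Wd Q κ a h) {v : ℝ} (hv : 1 ≤ v) : |sF Q a h v| ≤ v ^ rs Q := by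
  rcases sF_or W v with h0 | ⟨g, h1, -, h3⟩
  · rw [h0, abs_zero]; positivity
  · rw [h3]
    refine (sg_abs W g v).trans ?_
    exact Real.rpow_le_rpow (by have := W.one g; linarith) h1.le (rs_nonneg Q)

lemma sF_zero (W : Wd Q κ a h) {v : ℝ} (hv : v ≤ 1) : sF Q a h v = 0 := by
  rcases sF_or W v with h0 | ⟨g, h1, -, -⟩
  · exact h0
  · have := W.one g
    linarith

lemma sF_cont (W : Wd Q κ a h) : Continuous (sF Q a h) := by
  rw [continuous_iff_continuousAt]
  intro v₀
  obtain ⟨N, hN⟩ := (W.lim.eventually_ge_atTop (v₀ + 1)).exists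
  have he : ∀ v : ℝ, v < v₀ + 1 → sF Q a h v = ∑ g ∈ range N, sg Q a h g v := by
    intro v hv
    unfold sF
    apply tsum_eq_sum
    intro g hg
    rw [mem_range, not_lt] at hg
    apply sg_zero W
    left
    have := W.mono.monotone hg
    linarith
  have hc : ContinuousAt (fun v => ∑ g ∈ range N, sg Q a h g v) v₀ :=
    (continuous_finsetSum _ fun g _ => sg_cont g).continuousAt
  refine hc.congr ?_
  filter_upwards [Iio_mem_nhds (show v₀ < v₀ + 1 by linarith)] with v hv
  exact (he v hv).symm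

/-- the functional of the window -/
lemma Hg_cellB (g : ℕ) (f : ℝ → ℝ) :
    cellB (fun _ => 0) (fun _ => 0) (fun w => -sg Q a h g w) ∅ (a g) (en Q a h g) f =
      ∫ w in (a g)..(en Q a h g), sg Q a h g w * f w := by
  unfold cellB
  simp only [sum_empty, zero_sub, neg_mul, intervalIntegral.integral_neg, neg_neg]

lemma Hg_abs (W : Wd Q κ a h) (g : ℕ) {v : ℝ} (hv : 0 ≤ v) :
    |Hg Q a h g v| ≤ C0 Q * ((a g ^ rs Q * (en Q a h g - a g)) * vpi Q (a g) (en Q a h g)) * NV Q v := by
  have h1 := core (Q := Q) (A := fun _ => 0) (u := fun _ => 0) (f := fun w => -sg Q a h g w)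
    (sg_cont g).neg (S := ∅) (W.one g) (W.lt g) (W.short g) (by simp) hv (by
      intro i hi
      rw [Hg_cellB]
      have e : ∀ w, sg Q a h g w * (w - a g) ^ i = a g ^ rs Q * (bump Q (a g) (h g) w * (w - a g) ^ i) := by
        intro w; unfold sg; ring
      simp_rw [e]
      rw [intervalIntegral.integral_const_mul]
      unfold en
      rw [bump_mom hi (W.pos g), mul_zero])
  rw [Hg_cellB] at h1
  refine h1.trans ?_
  apply mul_le_mul_of_nonneg_right _ (NV_nonneg Q hv)
  apply mul_le_mul_of_nonneg_left _ (C0_pos Q).le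
  apply mul_le_mul_of_nonneg_right _ (vpi_nonneg Q (by have := W.one g; linarith))
  unfold cellM
  rw [sum_empty, zero_add]
  have h2 : ‖∫ w in (a g)..(en Q a h g), |(-sg Q a h g w)|‖ ≤ a g ^ rs Q * |en Q a h g - a g| := by
    apply intervalIntegral.norm_integral_le_of_norm_le_const
    intro w _
    rw [Real.norm_eq_abs, abs_abs, abs_neg]
    exact sg_abs W g w
  rw [abs_of_pos (by linarith [W.lt g] : 0 < en Q a h g - a g)] at h2
  exact (le_abs_self _).trans h2

lemma Hg_cont (g : ℕ) : Continuous (Hg Q a h g) := by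
  unfold Hg
  apply intervalIntegral.continuous_parametric_intervalIntegral_of_continuous'
  have h2 : Continuous (fun p : ℝ × ℝ => Ker (4 * Q + 3) p.2 p.1) :=
    (Ker_cont (4 * Q + 3)).comp continuous_swap
  exact ((sg_cont g).comp continuous_snd).mul h2

/-- constants of the windows -/
noncomputable def Kg (Q : ℕ) (a h : ℕ → ℝ) (g : ℕ) : ℝ :=
  C0 Q * ((a g ^ rs Q * (en Q a h g - a g)) * vpi Q (a g) (en Q a h g))

lemma Kg_nonneg (W : Wd Q κ a h) (g : ℕ) : 0 ≤ Kg Q a h g := by
  unfold Kg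
  have h1 := W.one g
  have h2 := W.lt g
  have h3 := vpi_nonneg Q (a := a g) (b := en Q a h g) (by linarith)
  have h4 := C0_pos Q
  have h5 : 0 ≤ a g ^ rs Q := by
    have : 0 ≤ a g := by linarith
    positivity
  have h6 : 0 ≤ en Q a h g - a g := by linarith
  positivity

lemma HF_sum (W : Wd Q κ a h) {v : ℝ} (hv : 0 ≤ v) : Summable fun g => Hg Q a h g v := by
  refine Summable.of_norm_bounded ((W.summ.mul_left (C0 Q)).mul_right (NV Q v)) (fun g => ?_)
  rw [Real.norm_eq_abs]
  exact Hg_abs W g hv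

lemma HF_abs (W : Wd Q κ a h) {v : ℝ} (hv : 0 ≤ v) : |HF Q a h v| ≤ κ / 8 * NV Q v := by
  have hs := HF_sum W hv
  have h0 : |HF Q a h v| ≤ ∑' g, |Hg Q a h g v| := by
    have := norm_tsum_le_tsum_norm (f := fun g => Hg Q a h g v) (by simpa using hs.abs)
    unfold HF
    simpa using this
  refine h0.trans ?_
  calc ∑' g, |Hg Q a h g v| ≤ ∑' g, C0 Q * ((a g ^ rs Q * (en Q a h g - a g)) * vpi Q (a g) (en Q a h g)) * NV Q v :=
        Summable.tsum_le_tsum (fun g => Hg_abs W g hv) hs.abs ((W.summ.mul_left (C0 Q)).mul_right (NV Q v))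
    _ = (C0 Q * ∑' g, (a g ^ rs Q * (en Q a h g - a g)) * vpi Q (a g) (en Q a h g)) * NV Q v := by
        rw [tsum_mul_right, tsum_mul_left]
    _ ≤ _ := mul_le_mul_of_nonneg_right W.sle (NV_nonneg Q hv)

lemma HF_cont (W : Wd Q κ a h) : Continuous fun v => HF Q a h (max v 0) := by
  rw [continuous_iff_continuousAt]
  intro v₀
  have hmax : Continuous fun v : ℝ => max v 0 := continuous_id.max continuous_const
  have hon : ContinuousOn (fun v : ℝ => HF Q a h (max v 0)) (Set.Iio (|v₀| + 1)) := by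
    unfold HF
    refine continuousOn_tsum (u := fun g => Kg Q a h g * (2 + |v₀|) ^ (4 * Q + 3))
      (fun g => ?_) ((W.summ.mul_left (C0 Q)).mul_right _) ?_
    · exact ((Hg_cont g).comp hmax).continuousOn
    · intro g v hv
      rw [Real.norm_eq_abs]
      refine (Hg_abs W g (le_max_right _ _)).trans ?_
      apply mul_le_mul_of_nonneg_left _ (Kg_nonneg W g)
      refine (NV_le_pow Q (le_max_right _ _)).trans ?_
      apply pow_le_pow_left₀ (by have := le_max_right v 0; linarith)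
      have : max v 0 ≤ |v₀| + 1 := max_le (le_of_lt hv) (by positivity)
      linarith
  refine hon.continuousAt (Iio_mem_nhds ?_)
  have := le_abs_self v₀
  linarith

/-- the source is admissible -/
lemma src_of {q j' : ℕ} {w : ℕ → ℝ → ℝ} {z ω m : ℕ → ℝ} (hQ : Q = 16 * q) (hκ : κ = kap Q j')
    (S : Sy Q j' (bB q j') w z ω (gG q j') m κ) (W : Wd Q κ a h) :
    Src Q j' (bB q j') (gG q j') κ (sF Q a h) (HF Q a h) := by
  have hκ12 : 12 ≤ κ := by rw [hκ]; exact kap_ge S.hQ (by have := S.hj; omega)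
  refine
    { scont := sF_cont W
      szero := fun v hv => sF_zero W hv
      sle := ?_
      Hcont := HF_cont W
      Hle := fun v hv => HF_abs W hv }
  intro i v hv1 hv2
  have hb := be_one_le S i
  have hv : 1 ≤ v := by linarith
  have h1 : NV Q v ≤ v ^ rs Q := by
    unfold NV rs
    split_ifs with h
    · have : v = 1 := le_antisymm h hv
      rw [this, one_pow, Real.one_rpow]
    · exact Real.rpow_le_rpow_of_exponent_le hv (by norm_num)
  have h2 := sF_abs W hv
  have h3 : v ^ rs Q ≤ be Q j' (bB q j') (i + 1) ^ rs Q := Real.rpow_le_rpow (by linarith) hv2 (rs_nonneg Q)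
  have h4 : gG q j' i = 2 * κ * be Q j' (bB q j') (i + 1) ^ rs Q := by
    unfold gG
    rw [← hQ, ← hκ]
    rfl
  rw [h4]
  have h5 : 0 ≤ v ^ rs Q := by positivity
  calc κ * NV Q v + |sF Q a h v| ≤ κ * v ^ rs Q + v ^ rs Q := by gcongr
    _ ≤ κ * v ^ rs Q + κ * v ^ rs Q := by nlinarith
    _ = 2 * κ * v ^ rs Q := by ring
    _ ≤ _ := by gcongr

lemma rs_pow {v : ℝ} (hv : 1 ≤ v) : v ^ rs Q ≤ (1 + v) ^ (4 * Q + 3) := by
  have h0 : (0:ℝ) ≤ Q := Nat.cast_nonneg Q
  rw [← Real.rpow_natCast]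
  calc v ^ rs Q ≤ v ^ (((4 * Q + 3 : ℕ) : ℝ)) := by
        apply Real.rpow_le_rpow_of_exponent_le hv
        unfold rs
        push_cast
        linarith
    _ ≤ _ := Real.rpow_le_rpow (by linarith) (by linarith) (by positivity)

lemma sum_sg (W : Wd Q κ a h) (G : ℕ) {v : ℝ} (hv : 0 ≤ v) : ∑ g ∈ range G, |sg Q a h g v| ≤ (1 + v) ^ (4 * Q + 3) := by
  by_cases hex : ∃ g ∈ range G, sg Q a h g v ≠ 0
  · obtain ⟨g, hg, hne⟩ := hex
    rw [sum_eq_single_of_mem g hg]
    · have a2 : a g < v := by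
        by_contra hcon
        exact hne (sg_zero W (Or.inl (not_lt.1 hcon)))
      have h1 := W.one g
      refine (sg_abs W g v).trans ?_
      exact (Real.rpow_le_rpow (by linarith) a2.le (rs_nonneg Q)).trans (rs_pow (by linarith))
    · intro g' _ hg'
      by_contra hcon
      exact hg' (sg_uniq W (by simpa using hcon) hne)
  · push Not at hex
    rw [sum_eq_zero]
    · positivity
    · intro g hg
      rw [hex g hg, abs_zero]

lemma sF_int (W : Wd Q κ a h) {t : ℝ} (ht : 0 < t) :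
    IntegrableOn (fun w : ℝ => Real.exp (-(w * t)) * sF Q a h w) (Set.Ioi 0) := by
  apply intg (sF Q a h) (sF_cont W) 1 (4 * Q + 3) _ t ht
  intro v hv
  rw [one_mul]
  rcases le_total v 1 with h1 | h1
  · rw [sF_zero W h1, abs_zero]; positivity
  · exact (sF_abs W h1).trans (rs_pow h1)

lemma sF_lap (W : Wd Q κ a h) {t : ℝ} (ht : 0 < t) :
    HasSum (fun g => ∫ w in (a g)..(en Q a h g), sg Q a h g w * Real.exp (-(w / t)))
      (∫ w in Set.Ioi (0:ℝ), Real.exp (-(w * (1 / t))) * sF Q a h w) := by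
  have ht' : 0 < 1 / t := by positivity
  have hint : ∀ g, IntegrableOn (fun w : ℝ => Real.exp (-(w * (1 / t))) * sg Q a h g w) (Set.Ioi 0) := by
    intro g
    apply intg (sg Q a h g) (sg_cont g) 1 (4 * Q + 3) _ (1 / t) ht'
    intro v hv
    rw [one_mul]
    refine le_trans ?_ (sum_sg W (g + 1) hv)
    exact single_le_sum (f := fun g => |sg Q a h g v|) (fun _ _ => abs_nonneg _) (mem_range.2 (Nat.lt_succ_self g))
  have hbig : IntegrableOn (fun w : ℝ => Real.exp (-(w * (1 / t))) * (1 + w) ^ (4 * Q + 3)) (Set.Ioi 0) :=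
    intg (fun v => (1 + v) ^ (4 * Q + 3)) (by fun_prop) 1 (4 * Q + 3) (fun v hv => by
      rw [one_mul, abs_of_nonneg (by positivity)]) (1 / t) ht'
  have hsum : Summable fun g => ∫ w in Set.Ioi (0:ℝ), ‖Real.exp (-(w * (1 / t))) * sg Q a h g w‖ := by
    apply summable_of_sum_range_le (c := ∫ w in Set.Ioi (0:ℝ), Real.exp (-(w * (1 / t))) * (1 + w) ^ (4 * Q + 3))
    · intro g
      exact integral_nonneg fun _ => norm_nonneg _
    · intro G
      rw [← integral_finsetSum _ (fun g _ => (hint g).norm)]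
      apply setIntegral_mono_on (integrable_finsetSum _ (fun g _ => (hint g).norm)) hbig measurableSet_Ioi
      intro w hw
      have hw' : (0:ℝ) ≤ w := le_of_lt hw
      have e : ∀ g ∈ range G, ‖Real.exp (-(w * (1 / t))) * sg Q a h g w‖ =
          Real.exp (-(w * (1 / t))) * |sg Q a h g w| := by
        intro g _
        rw [norm_mul, Real.norm_eq_abs, Real.norm_eq_abs, abs_of_pos (Real.exp_pos _)]
      rw [sum_congr rfl e, ← Finset.mul_sum]
      exact mul_le_mul_of_nonneg_left (sum_sg W G hw') (Real.exp_pos _).le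
  have h1 := hasSum_integral_of_summable_integral_norm (μ := volume.restrict (Set.Ioi (0:ℝ))) (fun g => hint g) hsum
  have e1 : ∫ w in Set.Ioi (0:ℝ), ∑' g, Real.exp (-(w * (1 / t))) * sg Q a h g w =
      ∫ w in Set.Ioi (0:ℝ), Real.exp (-(w * (1 / t))) * sF Q a h w := by
    apply setIntegral_congr_fun measurableSet_Ioi
    intro w _
    simp only
    rw [tsum_mul_left]
    rfl
  rw [e1] at h1
  refine h1.congr_fun fun g => ?_
  rw [intervalIntegral.integral_of_le (W.lt g).le]
  have h2 : Set.Ioc (a g) (en Q a h g) ⊆ Set.Ioi 0 := by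
    intro w hw
    have := W.one g
    have := hw.1
    show 0 < w
    linarith
  have e2 : ∀ w, sg Q a h g w * Real.exp (-(w / t)) = Real.exp (-(w * (1 / t))) * sg Q a h g w := by
    intro w
    rw [mul_one_div]
    ring
  simp_rw [e2]
  symm
  apply setIntegral_eq_of_subset_of_forall_sdiff_eq_zero measurableSet_Ioi h2
  intro w hw
  rw [Set.mem_diff, Set.mem_Ioc, not_and_or, not_lt, not_le] at hw
  rw [sg_zero W (by
    rcases hw.2 with h3 | h3
    · exact Or.inl h3
    · exact Or.inr h3.le), mul_zero]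

lemma HF_lap (W : Wd Q κ a h) {t : ℝ} (ht : 0 < t) :
    IntegrableOn (fun v : ℝ => Real.exp (-(v * t)) * HF Q a h v) (Set.Ioi 0) ∧
    ∫ v in Set.Ioi (0:ℝ), Real.exp (-(v * t)) * HF Q a h v =
      (t ^ (4 * Q + 4))⁻¹ * ∫ w in Set.Ioi (0:ℝ), Real.exp (-(w * (1 / t))) * sF Q a h w := by
  constructor
  · have h1 := intg (fun v => HF Q a h (max v 0)) (HF_cont W) (κ / 8) (4 * Q + 3) (fun v hv => by
      rw [max_eq_left hv]
      refine (HF_abs W hv).trans (mul_le_mul_of_nonneg_left (NV_le_pow Q hv) ?_)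
      have := (abs_nonneg _).trans (HF_abs W zero_le_one)
      have e : NV Q 1 = 1 := by unfold NV; simp
      rw [e, mul_one] at this
      exact this) t ht
    refine h1.congr_fun (fun v hv => ?_) measurableSet_Ioi
    have hv' : (0:ℝ) ≤ v := le_of_lt hv
    simp only [max_eq_left hv']
  · have hcl := fun g => cell_laplace (4 * Q + 3) (A := fun _ => 0) (u := fun _ => 0) (f := fun w => -sg Q a h g w)
      (sg_cont g).neg (S := ∅) (a := a g) (b := en Q a h g) (by have := W.one g; linarith) (W.lt g).le (by simp) ht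
    simp only [Hg_cellB] at hcl
    have hNint : IntegrableOn (fun v : ℝ => Real.exp (-(v * t)) * (1 + v) ^ (4 * Q + 3)) (Set.Ioi 0) :=
      intg (fun v => (1 + v) ^ (4 * Q + 3)) (by fun_prop) 1 (4 * Q + 3) (fun v hv => by
        rw [one_mul, abs_of_nonneg (by positivity)]) t ht
    have hsum : Summable fun g => ∫ v in Set.Ioi (0:ℝ), ‖Real.exp (-(v * t)) * Hg Q a h g v‖ := by
      refine Summable.of_nonneg_of_le (fun g => integral_nonneg fun _ => norm_nonneg _) (fun g => ?_)
        ((W.summ.mul_left (C0 Q)).mul_right (∫ v in Set.Ioi (0:ℝ), Real.exp (-(v * t)) * (1 + v) ^ (4 * Q + 3)))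
      rw [← integral_const_mul]
      apply setIntegral_mono_on (hcl g).1.norm (hNint.const_mul _) measurableSet_Ioi
      intro v hv
      have hv' : (0:ℝ) ≤ v := le_of_lt hv
      rw [norm_mul, Real.norm_eq_abs, Real.norm_eq_abs, abs_of_pos (Real.exp_pos _)]
      have h1 : |Hg Q a h g v| ≤ Kg Q a h g * (1 + v) ^ (4 * Q + 3) :=
        (Hg_abs W g hv').trans (mul_le_mul_of_nonneg_left (NV_le_pow Q hv') (Kg_nonneg W g))
      calc Real.exp (-(v * t)) * |Hg Q a h g v| ≤ Real.exp (-(v * t)) * (Kg Q a h g * (1 + v) ^ (4 * Q + 3)) :=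
            mul_le_mul_of_nonneg_left h1 (Real.exp_pos _).le
        _ = C0 Q * ((a g ^ rs Q * (en Q a h g - a g)) * vpi Q (a g) (en Q a h g)) *
            (Real.exp (-(v * t)) * (1 + v) ^ (4 * Q + 3)) := by unfold Kg; ring
    have h1 := hasSum_integral_of_summable_integral_norm (μ := volume.restrict (Set.Ioi (0:ℝ)))
      (fun g => (hcl g).1) hsum
    have e1 : ∫ v in Set.Ioi (0:ℝ), ∑' g, Real.exp (-(v * t)) * Hg Q a h g v =
        ∫ v in Set.Ioi (0:ℝ), Real.exp (-(v * t)) * HF Q a h v := by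
      apply setIntegral_congr_fun measurableSet_Ioi
      intro w _
      simp only
      rw [tsum_mul_left]
      rfl
    have e2 : ∀ g, ∫ v in Set.Ioi (0:ℝ), Real.exp (-(v * t)) * Hg Q a h g v =
        (t ^ (4 * Q + 4))⁻¹ * ∫ w in (a g)..(en Q a h g), sg Q a h g w * Real.exp (-(w / t)) := fun g => (hcl g).2
    have h2 := (sF_lap W ht).mul_left (t ^ (4 * Q + 4))⁻¹
    have h3 : HasSum (fun g => ∫ v in Set.Ioi (0:ℝ), Real.exp (-(v * t)) * Hg Q a h g v)
        (∫ v in Set.Ioi (0:ℝ), ∑' g, Real.exp (-(v * t)) * Hg Q a h g v) := h1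
    rw [e1] at h3
    exact h3.unique (h2.congr_fun fun g => (e2 g))

end

end Pool.Agent.H81.HM
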