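import Pool.Agent.H81.HM.Pic
import Pool.Graph.R_seed8.H993R3.BC.Theta

/-!
# The theta relation of the solution
-/

set_option autoImplicit false

open Finset MeasureTheory Filter Topology

namespace Pool.Agent.H81.HM

open Pool.Agent.H96R3.BC (vv cf)
open Pool.Agent.H394R3.BC (Ker Ker_cont Ker_cont_left Ker_cont_right cellB cell_laplace)
open Pool.Agent.W406.PX (gw hm Hs cN Theta)
open Pool.Agent.H993R3.BC (intg sumE)

/-- the theta relation, with a source -/
theorem theta_gen (k : ℕ) {A u : ℕ → ℝ} {f s H : ℝ → ℝ} (hf : Continuous f) (hsc : Continuous s)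
    (S : ℕ → Finset ℕ) (a : ℕ → ℝ)
    (ha0 : a 0 = 0) (hmono : Monotone a) (hlim : Tendsto a atTop atTop)
    (hu : ∀ j, ∀ n ∈ S j, 0 ≤ u n)
    (H1 : ∀ t : ℝ, 0 < t → Summable (fun j => ∑ n ∈ S j, A n * Real.exp (-(u n * t))))
    (H2 : ∀ t : ℝ, 0 < t → IntegrableOn (fun w : ℝ => Real.exp (-(w * t)) * f w) (Set.Ioi 0))
    (H2s : ∀ t : ℝ, 0 < t → IntegrableOn (fun w : ℝ => Real.exp (-(w * t)) * s w) (Set.Ioi 0))
    (H5 : ∀ t : ℝ, 0 < t → IntegrableOn (fun v : ℝ => Real.exp (-(v * t)) * H v) (Set.Ioi 0) ∧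
      ∫ v in Set.Ioi (0:ℝ), Real.exp (-(v * t)) * H v =
        (t ^ (k + 1))⁻¹ * ∫ w in Set.Ioi (0:ℝ), Real.exp (-(w * (1 / t))) * s w)
    (H3 : ∀ v : ℝ, 0 < v → HasSum (fun j => cellB A u (fun w => f w + s w) (S j) (a j) (a (j + 1))
      (fun w => Ker k w v)) (f v - H v))
    (H4 : ∀ t : ℝ, 0 < t → Summable (fun j => ∫ v in Set.Ioi (0:ℝ),
      Real.exp (-(v * t)) * |cellB A u (fun w => f w + s w) (S j) (a j) (a (j + 1)) (fun w => Ker k w v)|))
    {t : ℝ} (ht : 0 < t) :
    ∑' j, ∑ n ∈ S j, A n * Real.exp (-(u n * (1 / t))) =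
      t ^ (k + 1) * ∑' j, ∑ n ∈ S j, A n * Real.exp (-(u n * t)) := by
  have hF : Continuous (fun w => f w + s w) := hf.add hsc
  have hanonneg : ∀ j, 0 ≤ a j := fun j => by rw [← ha0]; exact hmono (Nat.zero_le j)
  set b : ℝ → ℝ := fun t => ∑' j, cellB A u (fun w => f w + s w) (S j) (a j) (a (j + 1))
    (fun w => Real.exp (-(w * t))) with hb
  set Θ : ℝ → ℝ := fun t => ∑' j, ∑ n ∈ S j, A n * Real.exp (-(u n * t)) with hΘ
  set φ : ℝ → ℝ := fun t => ∫ w in Set.Ioi (0:ℝ), Real.exp (-(w * t)) * f w with hφ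
  set ψ : ℝ → ℝ := fun t => ∫ w in Set.Ioi (0:ℝ), Real.exp (-(w * t)) * s w with hψ
  have hint : ∀ t : ℝ, 0 < t → HasSum (fun j => ∫ w in a j..a (j + 1), (f w + s w) * Real.exp (-(w * t)))
      (φ t + ψ t) := by
    intro t ht
    have hU : (⋃ j, Set.Ioc (a j) (a (j + 1))) = Set.Ioi (0:ℝ) := by
      have h := iUnion_Ioc_map_succ_eq_Ioi (f := a) (fun n => hmono (Nat.zero_le n))
        (Filter.not_bddAbove_of_tendsto_atTop hlim)
      rw [← ha0]
      simpa using h
    have hd : Pairwise (Function.onFun Disjoint fun j => Set.Ioc (a j) (a (j + 1))) := by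
      simpa using hmono.pairwise_disjoint_on_Ioc_succ
    have hI : IntegrableOn (fun w : ℝ => (f w + s w) * Real.exp (-(w * t))) (Set.Ioi 0) := by
      have := (H2 t ht).add (H2s t ht)
      refine this.congr_fun (fun w _ => ?_) measurableSet_Ioi
      simp only [Pi.add_apply]
      ring
    have h1 := hasSum_integral_iUnion (μ := volume) (f := fun w : ℝ => (f w + s w) * Real.exp (-(w * t)))
      (s := fun j => Set.Ioc (a j) (a (j + 1))) (fun j => measurableSet_Ioc) hd (by rw [hU]; exact hI)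
    rw [hU] at h1
    have h2 : ∫ w in Set.Ioi (0:ℝ), (f w + s w) * Real.exp (-(w * t)) = φ t + ψ t := by
      rw [hφ, hψ]
      simp only
      rw [← integral_add (H2 t ht) (H2s t ht)]
      apply setIntegral_congr_fun measurableSet_Ioi
      intro w _
      simp only
      ring
    rw [h2] at h1
    refine h1.congr_fun fun j => ?_
    rw [intervalIntegral.integral_of_le (hmono (Nat.le_succ j))]
  have hbt : ∀ t : ℝ, 0 < t → b t = Θ t - (φ t + ψ t) := by
    intro t ht
    have h1 := (H1 t ht).hasSum.sub (hint t ht)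
    exact h1.tsum_eq
  have hφt : ∀ t : ℝ, 0 < t → φ t = (t ^ (k + 1))⁻¹ * (b (1 / t) + ψ (1 / t)) := by
    intro t ht
    have hcell := fun j => cell_laplace k (A := A) (u := u) hF (hanonneg j) (hmono (Nat.le_succ j)) (hu j) ht
    have h1 := hasSum_integral_of_summable_integral_norm (μ := volume.restrict (Set.Ioi (0:ℝ)))
      (F := fun j v => Real.exp (-(v * t)) * cellB A u (fun w => f w + s w) (S j) (a j) (a (j + 1))
        (fun w => Ker k w v))
      (fun j => (hcell j).1) (by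
        refine (H4 t ht).congr fun j => ?_
        apply setIntegral_congr_fun measurableSet_Ioi
        intro v _
        simp only [norm_mul, Real.norm_eq_abs, abs_of_pos (Real.exp_pos _)])
    have h2 : ∫ v in Set.Ioi (0:ℝ), ∑' j, Real.exp (-(v * t)) *
        cellB A u (fun w => f w + s w) (S j) (a j) (a (j + 1)) (fun w => Ker k w v) =
        φ t - (t ^ (k + 1))⁻¹ * ψ (1 / t) := by
      have h5 := (H5 t ht).2
      rw [hφ, hψ]
      simp only
      rw [← h5, ← integral_sub (H2 t ht) (H5 t ht).1]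
      apply setIntegral_congr_fun measurableSet_Ioi
      intro v hv
      simp only []
      rw [tsum_mul_left, (H3 v hv).tsum_eq]
      ring
    rw [h2] at h1
    have h3 : φ t - (t ^ (k + 1))⁻¹ * ψ (1 / t) = (t ^ (k + 1))⁻¹ * b (1 / t) := by
      rw [← h1.tsum_eq]
      simp_rw [fun j => (hcell j).2]
      rw [tsum_mul_left]
      congr 1
      apply tsum_congr
      intro j
      congr 1
      funext w
      congr 1
      field_simp
    linarith
  have h1 := hbt t ht
  have h2 := hbt (1 / t) (by positivity)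
  have h3 := hφt t ht
  have h4 := hφt (1 / t) (by positivity)
  rw [one_div_one_div] at h4
  show Θ (1 / t) = t ^ (k + 1) * Θ t
  have htk : t ^ (k + 1) ≠ 0 := (pow_pos ht _).ne'
  have e2 : ((1 / t) ^ (k + 1))⁻¹ = t ^ (k + 1) := by
    rw [one_div, inv_pow, inv_inv]
  rw [e2] at h4
  have e3 : Θ t = b t + ψ t + (t ^ (k + 1))⁻¹ * (b (1 / t) + ψ (1 / t)) := by linarith
  rw [e3, mul_add, ← mul_assoc, mul_inv_cancel₀ htk, one_mul]
  linarith

/-- the cells with the first one -/
def cS (B : ℕ → ℕ) : ℕ → Finset ℕ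
  | 0 => {1}
  | (i + 1) => Ioc (B i) (B (i + 1))

/-- the end points of the cells with the first one -/
noncomputable def ca (Q j' : ℕ) (B : ℕ → ℕ) : ℕ → ℝ
  | 0 => 0
  | (i + 1) => be Q j' B i

/-- summation over the cells -/
theorem cells_sum {B : ℕ → ℕ} (hB : StrictMono B) (h16 : 1 ≤ B 0) {E : ℕ → ℝ} (hE : Summable E)
    (h0 : ∀ n, n ≤ B 0 → n ≠ 1 → E n = 0) :
    Summable (fun j => ∑ n ∈ cS B j, E n) ∧ ∑' j, ∑ n ∈ cS B j, E n = ∑' n, E n := by
  have hpart : ∀ (E : ℕ → ℝ), (∀ n, n ≤ B 0 → n ≠ 1 → E n = 0) → ∀ G : ℕ,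
      ∑ j ∈ range (G + 1), ∑ n ∈ cS B j, E n = ∑ n ∈ range (B G + 1), E n := by
    intro E h0 G
    induction G with
    | zero =>
      rw [zero_add, sum_range_one]
      show ∑ n ∈ {1}, E n = _
      rw [sum_singleton]
      symm
      apply sum_eq_single_of_mem 1
      · rw [mem_range]; omega
      · intro n hn hn1
        rw [mem_range] at hn
        exact h0 n (by omega) hn1
    | succ G ih =>
      rw [sum_range_succ, ih]
      show _ + ∑ n ∈ Ioc (B G) (B (G + 1)), E n = _
      have hle : B G + 1 ≤ B (G + 1) + 1 := Nat.succ_le_succ (hB (Nat.lt_succ_self G)).le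
      rw [range_eq_Ico, range_eq_Ico, ← sum_Ico_consecutive E (Nat.zero_le (B G + 1)) hle]
      congr 1
      apply sum_congr _ (fun _ _ => rfl)
      ext n
      simp only [mem_Ioc, mem_Ico]
      omega
  have hsum : Summable (fun j => ∑ n ∈ cS B j, |E n|) := by
    apply summable_of_sum_range_le (c := ∑' n, |E n|)
    · intro j
      exact sum_nonneg fun n _ => abs_nonneg _
    · intro G
      calc ∑ j ∈ range G, ∑ n ∈ cS B j, |E n| ≤ ∑ j ∈ range (G + 1), ∑ n ∈ cS B j, |E n| := by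
            apply sum_le_sum_of_subset_of_nonneg (range_mono (Nat.le_succ G))
            intro j _ _
            exact sum_nonneg fun n _ => abs_nonneg _
        _ = ∑ n ∈ range (B G + 1), |E n| := hpart (fun n => |E n|) (fun n h1 h2 => by rw [h0 n h1 h2, abs_zero]) G
        _ ≤ _ := hE.abs.sum_le_tsum _ (fun n _ => abs_nonneg _)
  have hsum' : Summable (fun j => ∑ n ∈ cS B j, E n) :=
    Summable.of_norm_bounded hsum (fun j => by
      rw [Real.norm_eq_abs]
      exact abs_sum_le_sum_abs _ _)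
  refine ⟨hsum', ?_⟩
  have h1 := hsum'.hasSum.tendsto_sum_nat.comp (tendsto_add_atTop_nat 1)
  have h2 := hE.hasSum.tendsto_sum_nat.comp ((tendsto_add_atTop_nat 1).comp hB.tendsto_atTop)
  refine tendsto_nhds_unique h1 (h2.congr fun G => ?_)
  simp only [Function.comp]
  exact (hpart E h0 G).symm

section

variable {Q j' : ℕ} {B : ℕ → ℕ} {w : ℕ → ℝ → ℝ} {z : ℕ → ℝ} {ω g m : ℕ → ℝ} {κ : ℝ}

lemma cf_le_one {y : ℕ → ℝ} (hy : ∀ n, |y n| ≤ 1) (n : ℕ) : |cf y n| ≤ 1 := by
  unfold cf
  split_ifs with h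
  · rw [abs_prod]
    exact prod_le_one (fun p _ => abs_nonneg _) (fun p _ => hy p)
  · simp

lemma cf_prime (y : ℕ → ℝ) {p : ℕ} (hp : p.Prime) : cf y p = y p := by
  unfold cf
  rw [if_pos hp.squarefree, hp.primeFactors, prod_singleton]

/-- hypotheses on the weight -/
structure Zm (z : ℕ → ℝ) : Prop where
  one : z 1 = 1
  mul : ∀ n, Squarefree n → z n = ∏ p ∈ n.primeFactors, z p
  le : ∀ n, 1 ≤ n → z n ≤ 1

lemma cf_mul (hz : Zm z) (x : ℕ → ℝ) (n : ℕ) : cf (fun n => z n * x n) n = z n * cf x n := by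
  unfold cf
  split_ifs with h
  · rw [prod_mul_distrib, hz.mul n h]
  · simp

lemma Out.yle (S : Sy Q j' B w z ω g m κ) (hz : Zm z) {s H : ℝ → ℝ} {x : ℕ → ℝ} {f : ℝ → ℝ}
    (hO : Out Q j' B w z κ s H x f) (n : ℕ) : |z n * x n| ≤ 1 := by
  by_cases h : x n = 0
  · rw [h, mul_zero, abs_zero]; exact zero_le_one
  · have h1 := hO.xsupp n h
    have h16 := B_ge S 0
    rw [abs_mul, abs_of_pos (S.zpos n (by omega))]
    have h2 := hz.le n (by omega)
    have h3 := (hO.xbd n).trans (gw_le_one (by omega))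
    have h4 := S.zpos n (by omega)
    have := mul_le_mul h2 h3 (abs_nonneg _) zero_le_one
    linarith

lemma Out.cf_small {s H : ℝ → ℝ} {x : ℕ → ℝ} {f : ℝ → ℝ}
    (hO : Out Q j' B w z κ s H x f) {n : ℕ} (hn : n ≤ B 0) (h1 : n ≠ 1) : cf (fun n => z n * x n) n = 0 := by
  unfold cf
  split_ifs with h
  · have h0 : n ≠ 0 := by
      intro h0
      rw [h0] at h
      exact not_squarefree_zero h
    obtain ⟨p, hp, hpn⟩ := Nat.exists_prime_and_dvd h1
    apply prod_eq_zero (i := p) (Nat.mem_primeFactors.2 ⟨hp, hpn, h0⟩)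
    have hle : p ≤ n := Nat.le_of_dvd (Nat.pos_of_ne_zero h0) hpn
    by_contra hcon
    have h3 := (hO.xsupp p (fun h => hcon (by rw [h, mul_zero]))).2
    omega
  · rfl

lemma be_lim (S : Sy Q j' B w z ω g m κ) : Tendsto (be Q j' B) atTop atTop := by
  have hj := S.hj
  have hQ := S.hQ
  have h1 : Tendsto (fun i : ℕ => ((B i : ℝ) / (j' : ℝ) ^ (2 * Q))) atTop atTop := by
    apply Tendsto.atTop_div_const
    · have : (0:ℝ) < j' := by exact_mod_cast (by omega : 0 < j')
      positivity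
    · exact tendsto_natCast_atTop_atTop.comp S.mono.tendsto_atTop
  have hQ' : (0:ℝ) < Q := by exact_mod_cast (by omega : 0 < Q)
  exact (tendsto_rpow_atTop (by positivity : (0:ℝ) < 1 / (4 * (Q:ℝ)))).comp h1

lemma co_eq (hz : Zm z) {s H : ℝ → ℝ} {x : ℕ → ℝ} {f : ℝ → ℝ}
    (hO : Out Q j' B w z κ s H x f) {i n : ℕ} (hn : n ∈ Ioc (B i) (B (i + 1))) :
    co Q j' B w (cz z x) (fun u => f u + s u) i n = cf (fun n => z n * x n) n := by
  unfold co
  split_ifs with hp
  · rw [← hO.xeq i n hn hp, cf_prime _ hp]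
    unfold cz cN
    rw [if_pos hp]
    ring
  · rw [cf_mul hz]
    unfold cz cN
    rw [if_neg hp]
    ring

theorem theta_of (S : Sy Q j' B w z ω g m κ) (hz : Zm z) {s H : ℝ → ℝ} (hs : Src Q j' B g κ s H)
    (H2s : ∀ t : ℝ, 0 < t → IntegrableOn (fun w : ℝ => Real.exp (-(w * t)) * s w) (Set.Ioi 0))
    (H5 : ∀ t : ℝ, 0 < t → IntegrableOn (fun v : ℝ => Real.exp (-(v * t)) * H v) (Set.Ioi 0) ∧
      ∫ v in Set.Ioi (0:ℝ), Real.exp (-(v * t)) * H v =
        (t ^ (4 * Q + 4))⁻¹ * ∫ w in Set.Ioi (0:ℝ), Real.exp (-(w * (1 / t))) * s w)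
    {x : ℕ → ℝ} {f : ℝ → ℝ} (hO : Out Q j' B w z κ s H x f) : Theta Q j' (fun n => z n * x n) := by
  have hQ := S.hQ
  have hj := S.hj
  set y : ℕ → ℝ := fun n => z n * x n with hy
  have hyle : ∀ n, |y n| ≤ 1 := fun n => Out.yle S hz hO n
  set A : ℕ → ℝ := fun n => cf y n * (vv Q j' n) ^ 2 with hA
  have hC : ∃ C : ℝ, ∀ n : ℕ, 1 ≤ n → |cf y n| ≤ C * n := by
    refine ⟨1, fun n hn => (cf_le_one hyle n).trans ?_⟩
    rw [one_mul]
    exact_mod_cast hn
  have hE : ∀ t : ℝ, 0 < t → Summable fun n => A n * Real.exp (-(vv Q j' n * t)) := fun t ht =>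
    sumE Q j' y (by omega) (by omega) hC t ht
  have hcs := fun (t : ℝ) (ht : 0 < t) => cells_sum S.mono (by have := B_ge S 0; omega) (hE t ht) (by
    intro n hn h1
    simp only [hA]
    rw [Out.cf_small hO hn h1]
    ring)
  -- cells
  have hcell : ∀ (i : ℕ) (g : ℝ → ℝ), cellB A (vv Q j') (fun w => f w + s w) (cS B (i + 1)) (ca Q j' B (i + 1))
      (ca Q j' B (i + 1 + 1)) g = BF Q j' B w (cz z x) (fun u => f u + s u) i g := by
    intro i g
    unfold BF cellB
    show ∑ n ∈ Ioc (B i) (B (i + 1)), A n * g (vv Q j' n) -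
      ∫ w in (be Q j' B i)..(be Q j' B (i + 1)), (f w + s w) * g w = _
    congr 1
    apply sum_congr rfl
    intro n hn
    simp only []
    rw [co_eq hz hO hn]
  have hcell0 : ∀ g : ℝ → ℝ, cellB A (vv Q j') (fun w => f w + s w) (cS B 0) (ca Q j' B 0)
      (ca Q j' B (0 + 1)) g = (vv Q j' 1) ^ 2 * g (vv Q j' 1) - ∫ w in (0:ℝ)..1, (f w + s w) * g w := by
    intro g
    unfold cellB
    show ∑ n ∈ {1}, A n * g (vv Q j' n) - ∫ w in (0:ℝ)..(be Q j' B 0), (f w + s w) * g w = _
    rw [sum_singleton, be_zero S]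
    simp only [hA]
    have : cf y 1 = 1 := by simp [cf]
    rw [this, one_mul]
  have hBd : Bd Q j' B z g κ 1 (cz z x) (fun u => f u + s u) := by
    refine ⟨zero_le_one, hO.fcont.add hs.scont, ?_, ?_, ?_⟩
    · intro i; rw [one_mul]; exact hO.mass i
    · intro i v hv1 hv2
      have hv0 : 0 ≤ v := by have := be_one_le S i; linarith
      rw [one_mul]
      have h1 := hO.fbd v hv0
      exact (abs_add_le _ _).trans (le_trans (by linarith) (hs.sle i v hv1 hv2))
    · intro v hv0 hv1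
      show |f v + s v| ≤ _
      have h1 := hO.fbd v hv0
      rw [one_mul, hs.szero v hv1, add_zero]
      unfold NV at h1
      rwa [if_pos hv1] at h1
  have hFL := FL_le S hBd
  have hBLb := fun i (v : ℝ) (hv : 0 ≤ v) => BL_le S hBd i hv
  set Ki : ℕ → ℝ := fun i => 1 * (C0 Q * (m i * vpi Q (be Q j' B i) (be Q j' B (i + 1)))) with hKi
  have hKs : Summable Ki := (S.sum.1.mul_left (C0 Q)).mul_left 1
  have hkey : ∀ t : ℝ, 0 < t → ∑' j, ∑ n ∈ cS B j, A n * Real.exp (-(vv Q j' n * (1 / t))) =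
      t ^ (4 * Q + 3 + 1) * ∑' j, ∑ n ∈ cS B j, A n * Real.exp (-(vv Q j' n * t)) := by
    intro t ht
    refine theta_gen (4 * Q + 3) (A := A) (u := vv Q j') (H := H) hO.fcont hs.scont (cS B) (ca Q j' B) rfl ?_ ?_ ?_
      (fun t ht => (hcs t ht).1) ?_ H2s H5 ?_ ?_ ht
    · apply monotone_nat_of_le_succ
      intro i
      cases i with
      | zero => exact (zero_le_one.trans (be_zero S).ge)
      | succ i => exact be_mono S (Nat.le_succ i)
    · rw [← tendsto_add_atTop_iff_nat 1]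
      exact be_lim S
    · intro j n _
      exact vv_nonneg _ _ _
    · intro t ht
      exact intg f hO.fcont κ (4 * Q + 3) (fun v hv =>
        (hO.fbd v hv).trans (mul_le_mul_of_nonneg_left (NV_le_pow Q hv) S.hκ.le)) t ht
    · intro v hv
      have h1 := (hFL.2.2 v hv.le).hasSum
      have h2 := hO.feq v hv.le
      rw [← hasSum_nat_add_iff' 1]
      rw [sum_range_one, hcell0]
      have h3 : f v - H v - ((vv Q j' 1) ^ 2 * Ker (4 * Q + 3) (vv Q j' 1) v -
          ∫ w in (0:ℝ)..1, (f w + s w) * Ker (4 * Q + 3) w v) =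
          ∑' i, BL Q j' B w (cz z x) (fun u => f u + s u) i v := by
        rw [h2]
        unfold FL
        ring
      rw [h3]
      exact h1.congr_fun fun i => hcell i _
    · intro t ht
      rw [← summable_nat_add_iff 1]
      have hNint : IntegrableOn (fun v : ℝ => Real.exp (-(v * t)) * (1 + v) ^ (4 * Q + 3)) (Set.Ioi 0) :=
        intg (fun v => (1 + v) ^ (4 * Q + 3)) (by fun_prop) 1 (4 * Q + 3) (fun v hv => by
          rw [one_mul, abs_of_nonneg (by positivity)]) t ht
      refine Summable.of_nonneg_of_le (fun i => ?_) (fun i => ?_)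
        (hKs.mul_right (∫ v in Set.Ioi (0:ℝ), Real.exp (-(v * t)) * (1 + v) ^ (4 * Q + 3)))
      · apply integral_nonneg
        intro v
        positivity
      · rw [← integral_const_mul]
        have hK0 : 0 ≤ Ki i := by
          have h := (abs_nonneg _).trans (hBLb i 1 zero_le_one)
          have e : NV Q 1 = 1 := by unfold NV; simp
          rw [e, mul_one] at h
          exact h
        apply setIntegral_mono_on _ (hNint.const_mul _) measurableSet_Ioi
        · intro v hv
          have hv' : (0:ℝ) ≤ v := le_of_lt hv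
          rw [hcell i]
          have h1 : |BL Q j' B w (cz z x) (fun u => f u + s u) i v| ≤ Ki i * (1 + v) ^ (4 * Q + 3) :=
            (hBLb i v hv').trans (mul_le_mul_of_nonneg_left (NV_le_pow Q hv') hK0)
          calc Real.exp (-(v * t)) * |BF Q j' B w (cz z x) (fun u => f u + s u) i (fun w => Ker (4 * Q + 3) w v)|
              ≤ Real.exp (-(v * t)) * (Ki i * (1 + v) ^ (4 * Q + 3)) :=
                mul_le_mul_of_nonneg_left h1 (Real.exp_pos _).le
            _ = _ := by ring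
        · have h2 := intg (fun v => BL Q j' B w (cz z x) (fun u => f u + s u) i (max v 0))
            ((BL_cont (hO.fcont.add hs.scont) i).comp (continuous_id.max continuous_const)) (Ki i) (4 * Q + 3)
            (fun v hv => by
              rw [max_eq_left hv]
              exact (hBLb i v hv).trans (mul_le_mul_of_nonneg_left (NV_le_pow Q hv) hK0)) t ht
          have h3 := h2.norm
          refine IntegrableOn.congr_fun h3 (fun v hv => ?_) measurableSet_Ioi
          have hv' : (0:ℝ) ≤ v := le_of_lt hv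
          rw [norm_mul, Real.norm_eq_abs, Real.norm_eq_abs, abs_of_pos (Real.exp_pos _), max_eq_left hv', hcell i]
          rfl
  intro t ht
  have h1 := hkey t ht
  rw [(hcs t ht).2, (hcs (1 / t) (by positivity)).2] at h1
  simp only [hA] at h1
  simp only [mul_one_div] at h1
  exact h1

end

end Pool.Agent.H81.HM
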