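import Pool.Agent.H81.HM.Wind
import Pool.Agent.H81.HM.Par2

/-!
# Growth of the summatory function in the windows: one cell
-/

set_option autoImplicit false

open Finset MeasureTheory Filter Topology

namespace Pool.Agent.H81.HM

open Pool.Agent.H96R3.BC (vv cf)
open Pool.Agent.H394R3.BC (cellB)
open Pool.Agent.W406.PX (gw)

variable {q j' : ℕ} {w : ℕ → ℝ → ℝ} {ω g m : ℕ → ℝ} {κ : ℝ} {s H : ℝ → ℝ} {x : ℕ → ℝ} {f : ℝ → ℝ}

lemma x_le (S : Sy (16 * q) j' (bB q j') w (zz (16 * q)) ω g m κ)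
    (hO : Out (16 * q) j' (bB q j') w (zz (16 * q)) κ s H x f) (n : ℕ) : |x n| ≤ 1 := by
  by_cases h : x n = 0
  · rw [h, abs_zero]; exact zero_le_one
  · have h1 := hO.xsupp n h
    have h16 := B_ge S 0
    exact (hO.xbd n).trans (gw_le_one (by omega))

lemma a_le (S : Sy (16 * q) j' (bB q j') w (zz (16 * q)) ω g m κ)
    (hO : Out (16 * q) j' (bB q j') w (zz (16 * q)) κ s H x f) {n : ℕ} (hn : 1 ≤ n) :
    |cf (fun n => zz (16 * q) n * x n) n| ≤ zz (16 * q) n := by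
  have hQ := S.hQ
  have hz := zz_pos (16 * q) hn
  rw [cf_mul (zz_zm (16 * q) (by omega)), abs_mul, abs_of_pos hz]
  exact mul_le_of_le_one_right hz.le (cf_le_one (x_le S hO) n)

lemma be_eq (hq : 1 ≤ q) (i : ℕ) : be (16 * q) j' (bB q j') i =
    (((j' ^ 16 + i : ℕ) : ℝ) / ((j' ^ 16 : ℕ) : ℝ)) ^ (1 / 32 : ℝ) := by
  unfold be bB
  exact vv_bdy hq _

/-- the ratio of the boundary nodes -/
lemma be_ratio (hq : 1 ≤ q) (hj : 1 ≤ j') (i : ℕ) :
    be (16 * q) j' (bB q j') (i + 1) ^ 2 / be (16 * q) j' (bB q j') i ^ 2 - 1 ≤ 1 / (16 * ((j' ^ 16 + i : ℕ) : ℝ)) ∧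
    be (16 * q) j' (bB q j') i / (64 * ((j' ^ 16 + i : ℕ) : ℝ)) ≤
      be (16 * q) j' (bB q j') (i + 1) - be (16 * q) j' (bB q j') i := by
  rw [be_eq hq, be_eq hq]
  have hJ : (1:ℝ) ≤ ((j' ^ 16 : ℕ) : ℝ) := by exact_mod_cast Nat.one_le_pow _ _ hj
  have hx : (1:ℝ) ≤ ((j' ^ 16 + i : ℕ) : ℝ) := by
    push_cast at hJ ⊢
    have : (0:ℝ) ≤ i := Nat.cast_nonneg i
    linarith
  have hx1 : ((j' ^ 16 + (i + 1) : ℕ) : ℝ) = ((j' ^ 16 + i : ℕ) : ℝ) + 1 := by push_cast; ring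
  rw [hx1]
  set J := ((j' ^ 16 : ℕ) : ℝ)
  set x := ((j' ^ 16 + i : ℕ) : ℝ)
  have hJ0 : 0 < J := by linarith
  have hx0 : 0 < x := by linarith
  constructor
  · have e : (((x + 1) / J) ^ (1 / 32 : ℝ)) ^ 2 / ((x / J) ^ (1 / 32 : ℝ)) ^ 2 = (1 + 1 / x) ^ (1 / 16 : ℝ) := by
      rw [← Real.rpow_mul_natCast (by positivity), ← Real.rpow_mul_natCast (by positivity),
        ← Real.div_rpow (by positivity) (by positivity)]
      congr 1
      · field_simp
      · norm_num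
    rw [e]
    have h := rpow_one_add_le_one_add_mul_self (s := 1 / x) (p := 1 / 16) (by
      have : 0 < 1 / x := by positivity
      linarith) (by norm_num) (by norm_num)
    have e2 : 1 / (16 * x) = 1 / 16 * (1 / x) := by field_simp
    rw [e2]
    linarith
  · have hb : (x / J) ^ (1 / 32 : ℝ) = ((x + 1) / J) ^ (1 / 32 : ℝ) * (1 + -(1 / (x + 1))) ^ (1 / 32 : ℝ) := by
      rw [← Real.mul_rpow (by positivity) (by
        rw [← sub_eq_add_neg, sub_nonneg, div_le_one (by positivity)]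
        linarith)]
      congr 1
      field_simp
      ring
    have h := rpow_one_add_le_one_add_mul_self (s := -(1 / (x + 1))) (p := 1 / 32) (by
      rw [neg_le_neg_iff, div_le_one (by positivity)]
      linarith) (by norm_num) (by norm_num)
    set b' := ((x + 1) / J) ^ (1 / 32 : ℝ)
    set b := (x / J) ^ (1 / 32 : ℝ) with hbd
    have hb'0 : 0 < b' := by positivity
    have hbb : b ≤ b' := by
      apply Real.rpow_le_rpow (by positivity) _ (by norm_num)
      gcongr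
      linarith
    have h2 : b ≤ b' * (1 + 1 / 32 * (-(1 / (x + 1)))) := by
      rw [hb]
      gcongr
    have h3 : b' * (1 + 1 / 32 * (-(1 / (x + 1)))) = b' - b' / (32 * (x + 1)) := by
      field_simp
      ring
    rw [h3] at h2
    have h4 : b / (64 * x) ≤ b' / (32 * (x + 1)) := by
      rw [div_le_div_iff₀ (by positivity) (by positivity)]
      nlinarith
    linarith

/-- the sum over a cell -/
lemma cell_low (S : Sy (16 * q) j' (bB q j') w (zz (16 * q)) ω g m κ)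
    (hO : Out (16 * q) j' (bB q j') w (zz (16 * q)) κ s H x f) (hsc : Continuous s) (i : ℕ) :
    (be (16 * q) j' (bB q j') i)⁻¹ ^ 2 * (∫ u in (be (16 * q) j' (bB q j') i)..(be (16 * q) j' (bB q j') (i + 1)), (f u + s u)) -
      zz (16 * q) (bB q j' i) * (Ioc (bB q j' i) (bB q j' (i + 1))).card * (1 / (16 * ((j' ^ 16 + i : ℕ) : ℝ))) ≤
    ∑ n ∈ Ioc (bB q j' i) (bB q j' (i + 1)), cf (fun n => zz (16 * q) n * x n) n := by
  have hQ := S.hQ
  have hj := S.hj
  have hz := zz_zm (16 * q) (by omega)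
  have h1 := mom S (c := cz (zz (16 * q)) x) (F := fun u => f u + s u) (hO.fcont.add hsc) i 1 (by
    rw [Polynomial.natDegree_one]; omega)
  unfold BF cellB at h1
  simp only [Polynomial.eval_one, mul_one] at h1
  have hb1 := be_one_le S i
  have h16 := B_ge S i
  have hr := (be_ratio (q := q) (j' := j') (by omega) (by omega) i).1
  set b := be (16 * q) j' (bB q j') i with hb
  set b' := be (16 * q) j' (bB q j') (i + 1) with hb'
  set I := Ioc (bB q j' i) (bB q j' (i + 1)) with hI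
  set a : ℕ → ℝ := cf (fun n => zz (16 * q) n * x n) with ha
  have h2 : ∑ n ∈ I, a n * vv (16 * q) j' n ^ 2 = ∫ u in b..b', (f u + s u) := by
    have : ∑ n ∈ I, a n * vv (16 * q) j' n ^ 2 =
        ∑ n ∈ I, co (16 * q) j' (bB q j') w (cz (zz (16 * q)) x) (fun u => f u + s u) i n * vv (16 * q) j' n ^ 2 := by
      apply sum_congr rfl
      intro n hn
      rw [co_eq hz hO hn]
    rw [this]
    linarith
  rw [← h2, mul_sum, sub_le_iff_le_add, ← sub_le_iff_le_add', ← sum_sub_distrib]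
  have hterm : ∀ n ∈ I, b⁻¹ ^ 2 * (a n * vv (16 * q) j' n ^ 2) - a n ≤
      zz (16 * q) (bB q j' i) * (1 / (16 * ((j' ^ 16 + i : ℕ) : ℝ))) := by
    intro n hn
    have hn' := mem_Ioc.1 hn
    have hV := mem_cell (Q := 16 * q) (j' := j') hn
    rw [← hb, ← hb'] at hV
    have e : b⁻¹ ^ 2 * (a n * vv (16 * q) j' n ^ 2) - a n = a n * (vv (16 * q) j' n ^ 2 / b ^ 2 - 1) := by
      field_simp
    rw [e]
    have hb0 : 0 < b := by linarith
    have k1 : 0 ≤ vv (16 * q) j' n ^ 2 / b ^ 2 - 1 := by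
      rw [sub_nonneg, one_le_div (by positivity)]
      exact pow_le_pow_left₀ hb0.le hV.1 2
    have k2 : vv (16 * q) j' n ^ 2 / b ^ 2 - 1 ≤ 1 / (16 * ((j' ^ 16 + i : ℕ) : ℝ)) := by
      refine le_trans ?_ hr
      have := hV.2
      have h0 := vv_nonneg (16 * q) j' n
      gcongr
    have k3 : a n ≤ zz (16 * q) (bB q j' i) :=
      (le_abs_self _).trans ((a_le S hO (by omega)).trans (zz_anti (16 * q) (by omega) (by omega) hn'.1.le))
    have k4 : 0 ≤ zz (16 * q) (bB q j' i) := (zz_pos (16 * q) (by omega)).le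
    calc a n * (vv (16 * q) j' n ^ 2 / b ^ 2 - 1) ≤ zz (16 * q) (bB q j' i) * (vv (16 * q) j' n ^ 2 / b ^ 2 - 1) :=
          mul_le_mul_of_nonneg_right k3 k1
      _ ≤ _ := mul_le_mul_of_nonneg_left k2 k4
  refine (sum_le_sum hterm).trans (le_of_eq ?_)
  rw [sum_const, nsmul_eq_mul]
  ring

/-- lower bound for the sum over a cell inside a window -/
lemma cell_low2 (S : Sy (16 * q) j' (bB q j') w (zz (16 * q)) ω g m κ)
    (hO : Out (16 * q) j' (bB q j') w (zz (16 * q)) κ s H x f) (hsc : Continuous s) (i : ℕ)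
    {U c₀ : ℝ} (hU : 1 ≤ U) (hc₀ : 0 < c₀)
    (hb1 : be (16 * q) j' (bB q j') (i + 1) ≤ 2 * U)
    (hs : ∀ u, be (16 * q) j' (bB q j') i ≤ u → u ≤ be (16 * q) j' (bB q j') (i + 1) → c₀ * U ^ rs (16 * q) ≤ s u)
    (hκU : 2 * (κ * 2 ^ (2 * ((16 * q : ℕ):ℝ) + 21 / 16)) ≤ c₀ * U ^ (3 / 80 : ℝ))
    (hj4 : 4 * q ≤ j' ^ 16 + i)
    (hbig : (q:ℝ) / 4 * ((j' ^ 16 + i : ℕ) : ℝ) ^ ((q:ℝ) + 3 / 256 - 1) ≤ c₀ / 512 * U ^ (rs (16 * q) - 1)) :
    c₀ / 512 * U ^ (rs (16 * q) - 1) / ((j' ^ 16 + i : ℕ) : ℝ) ≤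
      ∑ n ∈ Ioc (bB q j' i) (bB q j' (i + 1)), cf (fun n => zz (16 * q) n * x n) n := by
  have hQ := S.hQ
  have hj := S.hj
  have h0 := cell_low S hO hsc i
  refine le_trans ?_ h0
  have hr := (be_ratio (q := q) (j' := j') (by omega) (by omega) i).2
  have hb1' := be_one_le S i
  have hlt := be_lt S i
  have hcard := card_cell (q := q) (by omega) hj4
  have hzb := zz_bdy (q := q) (by omega) (j' ^ 16 + i)
  have hbB : Ioc (bB q j' i) (bB q j' (i + 1)) = Ioc ((j' ^ 16 + i) ^ (2 * q)) ((j' ^ 16 + i + 1) ^ (2 * q)) := rfl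
  have hbB' : bB q j' i = (j' ^ 16 + i) ^ (2 * q) := rfl
  rw [hbB, hbB', hzb]
  set y := ((j' ^ 16 + i : ℕ) : ℝ) with hy
  have hqR : (1:ℝ) ≤ q := by exact_mod_cast (by omega : 1 ≤ q)
  have hy0 : 0 < y := by
    have : (4 * q : ℕ) ≤ y := by rw [hy]; exact_mod_cast hj4
    push_cast at this
    linarith
  set b := be (16 * q) j' (bB q j') i with hb
  set b' := be (16 * q) j' (bB q j') (i + 1) with hb'
  have hb0 : 0 < b := by linarith
  have hU0 : 0 < U := by linarith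
  set C := ((Ioc ((j' ^ 16 + i) ^ (2 * q)) ((j' ^ 16 + i + 1) ^ (2 * q))).card : ℝ) with hC
  -- the integral
  have hF : ∀ u ∈ Set.Icc b b', c₀ / 2 * U ^ rs (16 * q) ≤ f u + s u := by
    intro u hu
    have hu1 : 1 ≤ u := by linarith [hu.1]
    have h1 := hs u hu.1 hu.2
    have h2 := hO.fbd u (by linarith)
    have h3 : NV (16 * q) u ≤ (2 * U) ^ (2 * ((16 * q : ℕ):ℝ) + 21 / 16) := by
      unfold NV
      split_ifs with h
      · have : u = 1 := le_antisymm h hu1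
        rw [this, one_pow]
        apply Real.one_le_rpow (by linarith)
        positivity
      · apply Real.rpow_le_rpow (by linarith) (by linarith [hu.2]) (by positivity)
    have h4 : κ * NV (16 * q) u ≤ c₀ / 2 * U ^ rs (16 * q) := by
      have hκ := S.hκ
      calc κ * NV (16 * q) u ≤ κ * (2 * U) ^ (2 * ((16 * q : ℕ):ℝ) + 21 / 16) := by gcongr
        _ = 1 / 2 * (2 * (κ * 2 ^ (2 * ((16 * q : ℕ):ℝ) + 21 / 16))) * U ^ (2 * ((16 * q : ℕ):ℝ) + 21 / 16) := by
            rw [Real.mul_rpow (by norm_num) hU0.le]; ring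
        _ ≤ 1 / 2 * (c₀ * U ^ (3 / 80 : ℝ)) * U ^ (2 * ((16 * q : ℕ):ℝ) + 21 / 16) := by gcongr
        _ = c₀ / 2 * (U ^ (3 / 80 : ℝ) * U ^ (2 * ((16 * q : ℕ):ℝ) + 21 / 16)) := by ring
        _ = _ := by
            rw [← Real.rpow_add hU0]
            congr 2
            unfold rs
            ring
    have h5 := (abs_le.1 h2).1
    linarith
  have hint : c₀ / 2 * U ^ rs (16 * q) * (b' - b) ≤ ∫ u in b..b', (f u + s u) := by
    have h1 : ∫ u in b..b', (c₀ / 2 * U ^ rs (16 * q)) = c₀ / 2 * U ^ rs (16 * q) * (b' - b) := by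
      rw [intervalIntegral.integral_const, smul_eq_mul]; ring
    rw [← h1]
    exact intervalIntegral.integral_mono_on hlt.le intervalIntegrable_const
      ((hO.fcont.add hsc).intervalIntegrable _ _) hF
  have h6 : c₀ / 256 * U ^ (rs (16 * q) - 1) / y ≤ b⁻¹ ^ 2 * ∫ u in b..b', (f u + s u) := by
    have h7 : c₀ / 2 * U ^ rs (16 * q) * (b / (64 * y)) ≤ ∫ u in b..b', (f u + s u) := by
      refine le_trans ?_ hint
      gcongr
    calc c₀ / 256 * U ^ (rs (16 * q) - 1) / y = c₀ / 2 * U ^ rs (16 * q) * (1 / (2 * U)) / (64 * y) := by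
          rw [Real.rpow_sub_one hU0.ne']
          field_simp
          ring
      _ ≤ c₀ / 2 * U ^ rs (16 * q) * (1 / b) / (64 * y) := by
          have : b ≤ 2 * U := hlt.le.trans hb1
          gcongr
      _ = b⁻¹ ^ 2 * (c₀ / 2 * U ^ rs (16 * q) * (b / (64 * y))) := by field_simp
      _ ≤ _ := by gcongr
  have h8 : y ^ (-((q:ℝ) - 3 / 256)) * C * (1 / (16 * y)) ≤ c₀ / 512 * U ^ (rs (16 * q) - 1) / y := by
    calc y ^ (-((q:ℝ) - 3 / 256)) * C * (1 / (16 * y)) ≤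
        y ^ (-((q:ℝ) - 3 / 256)) * (4 * q * y ^ (2 * q - 1)) * (1 / (16 * y)) := by gcongr
      _ = (q:ℝ) / 4 * y ^ ((q:ℝ) + 3 / 256 - 1) / y := by
          have e : y ^ ((q:ℝ) + 3 / 256 - 1) = y ^ (-((q:ℝ) - 3 / 256)) * y ^ (2 * q - 1) := by
            rw [← Real.rpow_natCast y (2 * q - 1), ← Real.rpow_add hy0]
            congr 1
            rw [Nat.cast_sub (by omega)]
            push_cast
            ring
          rw [e]
          field_simp
          ring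
      _ ≤ _ := by gcongr
  have h9 : c₀ / 256 * U ^ (rs (16 * q) - 1) / y = c₀ / 512 * U ^ (rs (16 * q) - 1) / y + c₀ / 512 * U ^ (rs (16 * q) - 1) / y := by ring
  linarith

end Pool.Agent.H81.HM
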