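import Pool.Agent.H81.HM.Win1
import Pool.Agent.H81.HM.MS7

/-!
# Growth of the summatory function in the windows
-/

set_option autoImplicit false

open Finset MeasureTheory Filter Topology

namespace Pool.Agent.H81.HM

open Pool.Agent.H96R3.BC (vv cf)
open Pool.Agent.W748.PX (ci ci_spec)

/-! ### the source in the window -/

lemma one_add_lower {p t : ℝ} (hp0 : 0 ≤ p) (hp1 : p ≤ 1) (ht : 0 ≤ t) : 1 + p * (t / (1 + t)) ≤ (1 + t) ^ p := by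
  have h := rpow_one_add_le_one_add_mul_self (s := -(t / (1 + t))) (p := p) (by
    rw [neg_le_neg_iff, div_le_one (by positivity)]
    linarith) hp0 hp1
  have e : 1 + -(t / (1 + t)) = (1 + t)⁻¹ := by field_simp; ring
  rw [e, Real.inv_rpow (by positivity)] at h
  have h1 : 0 < (1 + t) ^ p := by positivity
  have hs : 0 ≤ p * (t / (1 + t)) := by positivity
  have hs1 : p * (t / (1 + t)) < 1 := by
    have h2 : t / (1 + t) < 1 := by
      rw [div_lt_one (by positivity)]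
      linarith
    have h3 : 0 ≤ t / (1 + t) := by positivity
    nlinarith
  set s := p * (t / (1 + t))
  have h4 : ((1 + t) ^ p)⁻¹ ≤ 1 - s := by linarith
  have h5 : (1 - s)⁻¹ ≤ (1 + t) ^ p := by
    rw [inv_le_comm₀ (by linarith) h1]
    exact h4
  refine le_trans ?_ h5
  rw [← one_div, le_div_iff₀ (by linarith)]
  nlinarith

section

variable {Q j' : ℕ}

lemma Vx_mul (hj : 1 ≤ j') {X t : ℝ} (hX : 0 < X) (ht : 0 ≤ t) :
    Vx Q j' (X + X * t) = Vx Q j' X * (1 + t) ^ (1 / (4 * (Q:ℝ))) := by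
  have h0 := x0_pos (Q := Q) hj
  have e : (X + X * t) / (j' : ℝ) ^ (2 * Q) = X / (j' : ℝ) ^ (2 * Q) * (1 + t) := by ring
  unfold Vx
  rw [e, Real.mul_rpow (by positivity) (by positivity)]

/-- the constant of the source -/
noncomputable def cs (Q : ℕ) : ℝ := (2 ^ (4 * Q + 4))⁻¹ * (1 / 16)

lemma cs_pos (Q : ℕ) : 0 < cs Q := by unfold cs; positivity

lemma src_low (hQ : 1 ≤ Q) (hj : 1 ≤ j') {κ ξ : ℝ} {g0 : ℕ} (W : Wd Q κ (aw Q j' g0) (hw Q j' g0 ξ)) (g : ℕ)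
    (ht : XX g0 g ^ (-ξ) ≤ 1 / 2) {u : ℝ} (h1 : Vx Q j' (XX g0 g + LL ξ (XX g0 g) / 8) ≤ u)
    (h2 : u ≤ Vx Q j' (XX g0 g + LL ξ (XX g0 g) / 2)) :
    cs Q * aw Q j' g0 g ^ rs Q ≤ sF Q (aw Q j' g0) (hw Q j' g0 ξ) u := by
  have hX := XX_pos g0 g
  have hp := p_le hQ
  have hUpos := Vx_pos (Q := Q) hj hX
  have hh := hw_pos hQ hj g0 ξ g
  set X := XX g0 g with hXd
  set t := X ^ (-ξ) with htd
  have ht0 : 0 < t := by positivity
  set p := 1 / (4 * (Q:ℝ)) with hpd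
  have e8 : X + LL ξ X / 8 = X + X * (t / 8) := by unfold LL; ring
  have e2 : X + LL ξ X / 2 = X + X * (t / 2) := by unfold LL; ring
  have e1 : X + LL ξ X = X + X * t := by unfold LL; ring
  rw [e8, Vx_mul hj hX (by positivity)] at h1
  rw [e2, Vx_mul hj hX (by positivity)] at h2
  have hhd : hw Q j' g0 ξ g = Vx Q j' X * ((1 + t) ^ p - 1) := by
    unfold hw
    rw [← hXd, e1, Vx_mul hj hX (by positivity)]
    ring
  have ha : aw Q j' g0 g = Vx Q j' X := rfl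
  rw [ha]
  set U := Vx Q j' X with hU
  set h := hw Q j' g0 ξ g with hhh
  rw [← hpd] at h1 h2
  have b1 := one_add_lower hp.1.le hp.2 ht0.le
  have b2 := rpow_one_add_le_one_add_mul_self (s := t) (p := p) (by linarith) hp.1.le hp.2
  have b3 := one_add_lower (t := t / 8) hp.1.le hp.2 (by positivity)
  have b4 := rpow_one_add_le_one_add_mul_self (s := t / 2) (p := p) (by linarith) hp.1.le hp.2
  have hp0 : 0 < p := hp.1
  -- bounds for the relative position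
  have k1 : h ≤ U * (p * t) := by
    rw [hhd]
    apply mul_le_mul_of_nonneg_left _ hUpos.le
    linarith
  have k2 : U * (p * (t / (1 + t))) ≤ h := by
    rw [hhd]
    apply mul_le_mul_of_nonneg_left _ hUpos.le
    linarith
  have k3 : U * (p * (t / 8 / (1 + t / 8))) ≤ u - U := by
    have : U * (1 + p * (t / 8 / (1 + t / 8))) ≤ U * (1 + t / 8) ^ p := by gcongr
    linarith
  have k4 : u - U ≤ U * (p * (t / 2)) := by
    have : U * (1 + t / 2) ^ p ≤ U * (1 + p * (t / 2)) := by gcongr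
    linarith
  have y1 : 1 / 9 ≤ (u - U) / h := by
    rw [le_div_iff₀ hh]
    refine le_trans ?_ k3
    calc 1 / 9 * h ≤ 1 / 9 * (U * (p * t)) := by gcongr
      _ = U * p * (t * (1 / 9)) := by ring
      _ ≤ U * p * (t / 8 / (1 + t / 8)) := by
          gcongr
          rw [le_div_iff₀ (by positivity)]
          nlinarith
      _ = _ := by ring
  have y2 : (u - U) / h ≤ 3 / 4 := by
    rw [div_le_iff₀ hh]
    refine k4.trans ?_
    calc U * (p * (t / 2)) = U * p * (t / 2) := by ring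
      _ ≤ U * p * (3 / 4 * (t / (1 + t))) := by
          gcongr
          rw [← mul_div_assoc, le_div_iff₀ (by positivity)]
          nlinarith
      _ = 3 / 4 * (U * (p * (t / (1 + t)))) := by ring
      _ ≤ _ := by gcongr
  have hu1 : U ≤ u := by
    have : 0 ≤ (u - U) / h := by linarith
    have : 0 ≤ u - U := by
      by_contra hc
      rw [not_le] at hc
      have := div_neg_of_neg_of_pos hc hh
      linarith
    linarith
  have hu2 : u ≤ U + h := by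
    have : u - U ≤ 3 / 4 * h := by rwa [div_le_iff₀ hh] at y2
    linarith
  have hen : u ≤ en Q (aw Q j' g0) (hw Q j' g0 ξ) g := by
    unfold en
    rw [ha, ← hhh]
    have hQ' : (1:ℝ) ≤ Q := by exact_mod_cast hQ
    nlinarith
  rw [sF_eq W (g := g) (by rw [ha]; exact hu1) hen]
  unfold sg
  rw [ha, ← hhh, bump_zero hh hu2]
  have hps : 1 / 16 ≤ psi ((u - U) / h) := by
    unfold psi
    refine le_trans ?_ (le_max_right _ _)
    set y := (u - U) / h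
    nlinarith [mul_nonneg (sub_nonneg.2 y1) (sub_nonneg.2 y2)]
  unfold cs
  have hUr : 0 ≤ U ^ rs Q := by positivity
  calc (2 ^ (4 * Q + 4))⁻¹ * (1 / 16) * U ^ rs Q ≤ (2 ^ (4 * Q + 4))⁻¹ * psi ((u - U) / h) * U ^ rs Q := by gcongr
    _ = _ := by ring

end

/-! ### final inequality -/

lemma fin_ineq {q : ℕ} (hq : 1 ≤ q) {P c₀ cU c₄ ξ : ℝ} (hP : 1 ≤ P) (hc₀ : 0 < c₀) (hcU : 0 < cU) (hc₄ : 0 < c₄)
    (hξ : 2 * (q:ℝ) * ξ ≤ 1 / 2)
    (hP1 : 8 * (4 * q * 2 ^ (2 * q - 1)) * (2 ^ ((q:ℝ) - 3 / 256) * (4 * q * 2 ^ (2 * q - 1))) * (1024 / (c₀ * cU)) / c₄ ≤ P ^ (1 / 4 : ℝ))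
    (hP2 : 8 * (4 * q * 2 ^ (2 * q - 1)) / c₄ ≤ P ^ (1 / 4 : ℝ)) (hP3 : 4 / c₄ ≤ P ^ (1 / 4 : ℝ)) :
    ((2 * (c₄ / (8 * (4 * q * 2 ^ (2 * q - 1)) * (1024 / (c₀ * cU))) * P ^ ((q:ℝ) + 7 / 640 - 2 * q * ξ)) +
      2 * ((P / 2) ^ (-((q:ℝ) - 3 / 256)) * (4 * q * (2 * P) ^ (2 * q - 1)))) /
      (c₀ / 512 * (cU * P ^ ((q:ℝ) + 7 / 640)) / (2 * P)) + 2) * (4 * q * (2 * P) ^ (2 * q - 1)) + 1 ≤
      c₄ * P ^ (2 * (q:ℝ) - 2 * q * ξ) := by
  have hP0 : 0 < P := by linarith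
  have hqR : (1:ℝ) ≤ q := by exact_mod_cast hq
  set k1 : ℝ := 4 * q * 2 ^ (2 * q - 1) with hk1
  have hk10 : 0 < k1 := by positivity
  set k3 : ℝ := 1024 / (c₀ * cU) with hk3
  have hk30 : 0 < k3 := by positivity
  set k2 : ℝ := 2 ^ ((q:ℝ) - 3 / 256) * k1 with hk2
  have hk20 : 0 < k2 := by positivity
  have eK : 4 * q * (2 * P) ^ (2 * q - 1) = k1 * P ^ (2 * (q:ℝ) - 1) := by
    rw [mul_pow, hk1]
    have : P ^ (2 * (q:ℝ) - 1) = P ^ (2 * q - 1) := by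
      rw [← Real.rpow_natCast, Nat.cast_sub (by omega)]
      push_cast
      rfl
    rw [this]
    ring
  have eρ : (P / 2) ^ (-((q:ℝ) - 3 / 256)) * (k1 * P ^ (2 * (q:ℝ) - 1)) = k2 * P ^ ((q:ℝ) - 1 + 3 / 256) := by
    rw [Real.div_rpow hP0.le (by norm_num), Real.rpow_neg (by norm_num : (0:ℝ) ≤ 2), div_inv_eq_mul, hk2]
    have : P ^ ((q:ℝ) - 1 + 3 / 256) = P ^ (-((q:ℝ) - 3 / 256)) * P ^ (2 * (q:ℝ) - 1) := by
      rw [← Real.rpow_add hP0]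
      congr 1
      ring
    rw [this]
    ring
  have eτ : (c₀ / 512 * (cU * P ^ ((q:ℝ) + 7 / 640)) / (2 * P))⁻¹ = k3 * P ^ (1 - (q:ℝ) - 7 / 640) := by
    have : P ^ (1 - (q:ℝ) - 7 / 640) = P * (P ^ ((q:ℝ) + 7 / 640))⁻¹ := by
      rw [← Real.rpow_neg hP0.le]
      nth_rw 2 [← Real.rpow_one P]
      rw [← Real.rpow_add hP0]
      congr 1
      ring
    rw [this, hk3]
    have : P ^ ((q:ℝ) + 7 / 640) ≠ 0 := by positivity
    field_simp
    ring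
  rw [eK, eρ, div_eq_mul_inv, eτ]
  have m1 : P ^ ((q:ℝ) + 7 / 640 - 2 * q * ξ) * P ^ (1 - (q:ℝ) - 7 / 640) * P ^ (2 * (q:ℝ) - 1) = P ^ (2 * (q:ℝ) - 2 * q * ξ) := by
    rw [← Real.rpow_add hP0, ← Real.rpow_add hP0]
    congr 1
    ring
  have m2 : P ^ ((q:ℝ) - 1 + 3 / 256) * P ^ (1 - (q:ℝ) - 7 / 640) * P ^ (2 * (q:ℝ) - 1) * P ^ (1 / 4 : ℝ) ≤ P ^ (2 * (q:ℝ) - 2 * q * ξ) := by
    rw [← Real.rpow_add hP0, ← Real.rpow_add hP0, ← Real.rpow_add hP0]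
    apply Real.rpow_le_rpow_of_exponent_le hP
    linarith
  have m3 : P ^ (2 * (q:ℝ) - 1) * P ^ (1 / 4 : ℝ) ≤ P ^ (2 * (q:ℝ) - 2 * q * ξ) := by
    rw [← Real.rpow_add hP0]
    apply Real.rpow_le_rpow_of_exponent_le hP
    linarith
  have m4 : P ^ (1 / 4 : ℝ) ≤ P ^ (2 * (q:ℝ) - 2 * q * ξ) := by
    apply Real.rpow_le_rpow_of_exponent_le hP
    linarith
  rw [div_le_iff₀ hc₄] at hP1 hP2 hP3
  set a1 := P ^ ((q:ℝ) + 7 / 640 - 2 * q * ξ)
  set a2 := P ^ (1 - (q:ℝ) - 7 / 640)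
  set a3 := P ^ (2 * (q:ℝ) - 1)
  set a4 := P ^ ((q:ℝ) - 1 + 3 / 256)
  set a5 := P ^ (1 / 4 : ℝ)
  set a6 := P ^ (2 * (q:ℝ) - 2 * q * ξ)
  have e : ((2 * (c₄ / (8 * k1 * k3) * a1) + 2 * (k2 * a4)) * (k3 * a2) + 2) * (k1 * a3) + 1 =
      c₄ / 4 * (a1 * a2 * a3) + 2 * k1 * k2 * k3 * (a4 * a2 * a3) + 2 * k1 * a3 + 1 := by
    field_simp
    ring
  rw [e, m1]
  have p2 : 0 ≤ a4 * a2 * a3 := by positivity
  have p3 : 0 ≤ a3 := by positivity
  have n1 : 2 * k1 * k2 * k3 * (a4 * a2 * a3) ≤ c₄ / 4 * a6 := by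
    calc 2 * k1 * k2 * k3 * (a4 * a2 * a3) = 1 / 4 * (8 * k1 * k2 * k3) * (a4 * a2 * a3) := by ring
      _ ≤ 1 / 4 * (a5 * c₄) * (a4 * a2 * a3) := by gcongr
      _ = c₄ / 4 * (a4 * a2 * a3 * a5) := by ring
      _ ≤ _ := by gcongr
  have n2 : 2 * k1 * a3 ≤ c₄ / 4 * a6 := by
    calc 2 * k1 * a3 = 1 / 4 * (8 * k1) * a3 := by ring
      _ ≤ 1 / 4 * (a5 * c₄) * a3 := by gcongr
      _ = c₄ / 4 * (a3 * a5) := by ring
      _ ≤ _ := by gcongr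
  have n3 : 1 ≤ c₄ / 4 * a6 := by
    calc (1:ℝ) = 1 / 4 * 4 := by norm_num
      _ ≤ 1 / 4 * (a5 * c₄) := by gcongr
      _ = c₄ / 4 * a5 := by ring
      _ ≤ _ := by gcongr
  linarith

end Pool.Agent.H81.HM
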