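import Pool.Agent.H81.HM.Win2

/-!
# Growth of the summatory function in the windows: two points with small values are close
-/

set_option autoImplicit false

open Finset MeasureTheory Filter Topology

namespace Pool.Agent.H81.HM

open Pool.Agent.H96R3.BC (vv cf)
open Pool.Agent.W748.PX (ci ci_spec)

/-- partial sums -/
noncomputable def Pf (a : ℕ → ℝ) (N : ℕ) : ℝ := ∑ n ∈ Icc 1 N, a n

lemma Pf_sub (a : ℕ → ℝ) {M N : ℕ} (h : M ≤ N) : Pf a N - Pf a M = ∑ n ∈ Ioc M N, a n := by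
  unfold Pf
  have hsplit : Icc 1 N = Icc 1 M ∪ Ioc M N := by
    ext n
    simp only [mem_Icc, mem_union, mem_Ioc]
    omega
  have hdisj : Disjoint (Icc 1 M) (Ioc M N) := by
    rw [disjoint_left]
    intro n
    simp only [mem_Icc, mem_Ioc]
    omega
  rw [hsplit, sum_union hdisj]
  ring

lemma Pf_cells (a : ℕ → ℝ) {B : ℕ → ℕ} (hB : StrictMono B) {τ : ℝ} {m : ℕ} : ∀ n : ℕ, m ≤ n →
    (∀ i, m ≤ i → i < n → τ ≤ ∑ k ∈ Ioc (B i) (B (i + 1)), a k) → ((n:ℝ) - m) * τ ≤ Pf a (B n) - Pf a (B m) := by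
  intro n hmn
  induction n, hmn using Nat.le_induction with
  | base => intro _; simp
  | succ n hmn ih =>
    intro h
    have h1 := ih fun i hi hi2 => h i hi (by omega)
    have h2 := h n hmn (by omega)
    rw [← Pf_sub a (hB.monotone (Nat.le_succ n))] at h2
    push_cast
    simp only [Nat.succ_eq_add_one] at h2
    linarith

lemma B_cells {B : ℕ → ℕ} (hB : StrictMono B) {K : ℝ} {m : ℕ} : ∀ n : ℕ, m ≤ n →
    (∀ i, m ≤ i → i < n → ((Ioc (B i) (B (i + 1))).card : ℝ) ≤ K) → (B n : ℝ) - B m ≤ ((n:ℝ) - m) * K := by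
  intro n hmn
  induction n, hmn using Nat.le_induction with
  | base => intro _; simp
  | succ n hmn ih =>
    intro h
    have h1 := ih fun i hi hi2 => h i hi (by omega)
    have h2 := h n hmn (by omega)
    rw [Nat.card_Ioc, Nat.cast_sub (hB.monotone (Nat.le_succ n))] at h2
    push_cast
    linarith

variable {q j' : ℕ} {w : ℕ → ℝ → ℝ} {ω g m : ℕ → ℝ} {κ : ℝ} {s H : ℝ → ℝ} {x : ℕ → ℝ} {f : ℝ → ℝ}

/-- the cells of a window -/
lemma cell_range (hq : 1 ≤ q) {P : ℝ} (hP : 2 ≤ P) {i N : ℕ} (hN : N ∈ Ioc (bB q j' i) (bB q j' (i + 1)))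
    (h1 : P ^ (2 * q) ≤ N) (h2 : (N:ℝ) ≤ 2 * P ^ (2 * q)) :
    P / 2 ≤ ((j' ^ 16 + i : ℕ) : ℝ) ∧ ((j' ^ 16 + i : ℕ) : ℝ) ≤ 2 * P := by
  rw [mem_Ioc] at hN
  unfold bB at hN
  constructor
  · have h3 : P ^ (2 * q) ≤ (((j' ^ 16 + i : ℕ) : ℝ) + 1) ^ (2 * q) := by
      refine h1.trans ?_
      have := hN.2
      have h4 : ((N:ℕ):ℝ) ≤ (((j' ^ 16 + (i + 1)) ^ (2 * q) : ℕ) : ℝ) := by exact_mod_cast this
      refine h4.trans (le_of_eq ?_)
      push_cast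
      ring
    rw [pow_le_pow_iff_left₀ (by linarith) (by positivity) (by omega)] at h3
    linarith
  · have h3 : (((j' ^ 16 + i : ℕ) : ℝ)) ^ (2 * q) ≤ (2 * P) ^ (2 * q) := by
      have h4 : (((j' ^ 16 + i) ^ (2 * q) : ℕ) : ℝ) ≤ N := by exact_mod_cast hN.1.le
      calc (((j' ^ 16 + i : ℕ) : ℝ)) ^ (2 * q) = (((j' ^ 16 + i) ^ (2 * q) : ℕ) : ℝ) := by push_cast; ring
        _ ≤ 2 * P ^ (2 * q) := h4.trans h2
        _ ≤ 2 ^ (2 * q) * P ^ (2 * q) := by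
            gcongr
            calc (2:ℝ) = 2 ^ 1 := by norm_num
              _ ≤ 2 ^ (2 * q) := pow_le_pow_right₀ (by norm_num) (by omega)
        _ = _ := by rw [mul_pow]
    rwa [pow_le_pow_iff_left₀ (by positivity) (by linarith) (by omega)] at h3

/-- two points with small values are close -/
lemma grow (S : Sy (16 * q) j' (bB q j') w (zz (16 * q)) ω g m κ)
    (hO : Out (16 * q) j' (bB q j') w (zz (16 * q)) κ s H x f) (hsc : Continuous s)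
    {U c₀ P lam : ℝ} (hU : 1 ≤ U) (hc₀ : 0 < c₀) (hP : 2 ≤ P) (hPq : 8 * (q:ℝ) ≤ P)
    {x₁ x₂ : ℝ} (h12 : x₁ ≤ x₂) (hX1 : P ^ (2 * q) + 1 ≤ x₁) (hX2 : x₂ ≤ 2 * P ^ (2 * q))
    (hB0 : ((bB q j' 0 : ℕ) : ℝ) + 2 ≤ x₁)
    (hU2 : Vx (16 * q) j' x₂ ≤ 2 * U)
    (hs : ∀ u, Vx (16 * q) j' (x₁ - 1) ≤ u → u ≤ Vx (16 * q) j' x₂ → c₀ * U ^ rs (16 * q) ≤ s u)
    (hκU : 2 * (κ * 2 ^ (2 * ((16 * q : ℕ):ℝ) + 21 / 16)) ≤ c₀ * U ^ (3 / 80 : ℝ))
    (hbig : (q:ℝ) / 4 * (2 * P) ^ ((q:ℝ) + 3 / 256 - 1) ≤ c₀ / 512 * U ^ (rs (16 * q) - 1))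
    (hl1 : |EE (cf fun n => zz (16 * q) n * x n) x₁| < lam) (hl2 : |EE (cf fun n => zz (16 * q) n * x n) x₂| < lam) :
    x₂ - x₁ ≤ ((2 * lam + 2 * ((P / 2) ^ (-((q:ℝ) - 3 / 256)) * (4 * q * (2 * P) ^ (2 * q - 1)))) /
      (c₀ / 512 * U ^ (rs (16 * q) - 1) / (2 * P)) + 2) * (4 * q * (2 * P) ^ (2 * q - 1)) + 1 := by
  have hQ := S.hQ
  have hj := S.hj
  have hq : 1 ≤ q := by omega
  have hqR : (1:ℝ) ≤ q := by exact_mod_cast hq
  set a := cf fun n => zz (16 * q) n * x n with ha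
  set N₁ := ⌊x₁⌋₊ with hN₁
  set N₂ := ⌊x₂⌋₊ with hN₂
  set B := bB q j' with hB
  set K : ℝ := 4 * q * (2 * P) ^ (2 * q - 1) with hK
  set ρ : ℝ := (P / 2) ^ (-((q:ℝ) - 3 / 256)) * K with hρ
  set τ : ℝ := c₀ / 512 * U ^ (rs (16 * q) - 1) / (2 * P) with hτ
  have hP0 : 0 < P := by linarith
  have hU0 : 0 < U := by linarith
  have hK0 : 0 < K := by positivity
  have hρ0 : 0 < ρ := by positivity
  have hτ0 : 0 < τ := by positivity
  have hPp : 0 < P ^ (2 * q) := by positivity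
  have hx10 : 0 < x₁ := by linarith
  have hN12 : N₁ ≤ N₂ := Nat.floor_mono h12
  have f1 : x₁ < N₁ + 1 := Nat.lt_floor_add_one x₁
  have f2 : (N₂:ℝ) ≤ x₂ := Nat.floor_le (by linarith)
  have f3 : x₂ < N₂ + 1 := Nat.lt_floor_add_one x₂
  have f4 : (N₁:ℝ) ≤ x₁ := Nat.floor_le hx10.le
  have hBN1 : B 0 < N₁ := by
    have : ((B 0 : ℕ) : ℝ) < N₁ := by linarith
    exact_mod_cast this
  have hBN2 : B 0 < N₂ := by omega
  set i₁ := ci B N₁ with hi₁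
  set i₂ := ci B N₂ with hi₂
  have c1 : N₁ ∈ Ioc (B i₁) (B (i₁ + 1)) := ci_spec S.mono hBN1
  have c2 : N₂ ∈ Ioc (B i₂) (B (i₂ + 1)) := ci_spec S.mono hBN2
  have r1 := cell_range hq hP c1 (by linarith) (by linarith)
  have r2 := cell_range hq hP c2 (by linarith) (by linarith)
  rw [mem_Ioc] at c1 c2
  have hi12 : i₁ ≤ i₂ := by
    by_contra hc
    have : B (i₂ + 1) ≤ B i₁ := S.mono.monotone (by omega)
    omega
  -- sizes of the cells
  have hjj : ∀ i, i₁ ≤ i → i ≤ i₂ → P / 2 ≤ ((j' ^ 16 + i : ℕ) : ℝ) ∧ ((j' ^ 16 + i : ℕ) : ℝ) ≤ 2 * P := by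
    intro i hi1 hi2
    constructor
    · refine r1.1.trans ?_
      exact_mod_cast (by omega : j' ^ 16 + i₁ ≤ j' ^ 16 + i)
    · refine le_trans ?_ r2.2
      exact_mod_cast (by omega : j' ^ 16 + i ≤ j' ^ 16 + i₂)
  have hj4 : ∀ i, i₁ ≤ i → i ≤ i₂ → 4 * q ≤ j' ^ 16 + i := by
    intro i hi1 hi2
    have h1 := (hjj i hi1 hi2).1
    have h2 : ((4 * q : ℕ) : ℝ) ≤ ((j' ^ 16 + i : ℕ) : ℝ) := by
      push_cast at h1 ⊢
      linarith
    exact_mod_cast h2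
  have hcard : ∀ i, i₁ ≤ i → i ≤ i₂ → ((Ioc (B i) (B (i + 1))).card : ℝ) ≤ K := by
    intro i hi1 hi2
    have h1 := card_cell hq (hj4 i hi1 hi2)
    have h2 := (hjj i hi1 hi2).2
    refine h1.trans ?_
    rw [hK]
    gcongr
  have hzB : ∀ i, i₁ ≤ i → i ≤ i₂ → zz (16 * q) (B i) ≤ (P / 2) ^ (-((q:ℝ) - 3 / 256)) := by
    intro i hi1 hi2
    have h1 := zz_bdy hq (j' ^ 16 + i)
    have h2 : B i = (j' ^ 16 + i) ^ (2 * q) := rfl
    rw [h2, h1]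
    apply Real.rpow_le_rpow_of_nonpos (by positivity) (hjj i hi1 hi2).1
    linarith
  have hpart : ∀ i, i₁ ≤ i → i ≤ i₂ → ∀ M N : ℕ, M ≤ N → B i ≤ M → N ≤ B (i + 1) → |Pf a N - Pf a M| ≤ ρ := by
    intro i hi1 hi2 M N hMN hM hN
    rw [Pf_sub a hMN]
    refine (abs_sum_le_sum_abs _ _).trans ?_
    have h16 := B_ge S i
    have hsub : Ioc M N ⊆ Ioc (B i) (B (i + 1)) := by
      intro n hn
      rw [mem_Ioc] at hn ⊢
      omega
    calc ∑ n ∈ Ioc M N, |a n| ≤ ∑ n ∈ Ioc (B i) (B (i + 1)), |a n| :=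
          sum_le_sum_of_subset_of_nonneg hsub fun n _ _ => abs_nonneg _
      _ ≤ ∑ n ∈ Ioc (B i) (B (i + 1)), (P / 2) ^ (-((q:ℝ) - 3 / 256)) := by
          apply sum_le_sum
          intro n hn
          rw [mem_Ioc] at hn
          refine (a_le S hO (by omega)).trans ((zz_anti (16 * q) (by omega) (by omega) hn.1.le).trans (hzB i hi1 hi2))
      _ = ((Ioc (B i) (B (i + 1))).card : ℝ) * (P / 2) ^ (-((q:ℝ) - 3 / 256)) := by rw [sum_const, nsmul_eq_mul]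
      _ ≤ K * (P / 2) ^ (-((q:ℝ) - 3 / 256)) := by
          gcongr
          exact hcard i hi1 hi2
      _ = ρ := by rw [hρ]; ring
  have hbe : ∀ i, be (16 * q) j' (bB q j') i = Vx (16 * q) j' ((B i : ℕ) : ℝ) := fun i => rfl
  have hT : ∀ i, i₁ + 1 ≤ i → i < i₂ → τ ≤ ∑ n ∈ Ioc (B i) (B (i + 1)), a n := by
    intro i hi1 hi2
    have hBi : N₁ ≤ B i := c1.2.trans (S.mono.monotone hi1)
    have hBi2 : B (i + 1) ≤ N₂ := (S.mono.monotone (by omega : i + 1 ≤ i₂)).trans c2.1.le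
    have hBiR : x₁ - 1 ≤ ((B i : ℕ) : ℝ) := by
      have : (N₁:ℝ) ≤ ((B i : ℕ) : ℝ) := by exact_mod_cast hBi
      linarith
    have hBi2R : ((B (i + 1) : ℕ) : ℝ) ≤ x₂ := by
      have : ((B (i + 1) : ℕ) : ℝ) ≤ N₂ := by exact_mod_cast hBi2
      linarith
    have hjji := hjj i (by omega) (by omega)
    have hpos : (0:ℝ) < ((j' ^ 16 + i : ℕ) : ℝ) := by linarith [hjji.1]
    have h1 := cell_low2 S hO hsc i hU hc₀
      (by rw [hbe]; exact (Vx_mono (by omega) (Nat.cast_nonneg _) hBi2R).trans hU2)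
      (by
        intro u hu1 hu2
        apply hs u
        · rw [hbe] at hu1
          exact (Vx_mono (by omega) (by linarith) hBiR).trans hu1
        · rw [hbe] at hu2
          exact hu2.trans (Vx_mono (by omega) (Nat.cast_nonneg _) hBi2R))
      hκU (hj4 i (by omega) (by omega))
      (by
        refine le_trans ?_ hbig
        have h2 := hjji.2
        have : 0 ≤ (q:ℝ) + 3 / 256 - 1 := by linarith
        gcongr)
    refine le_trans ?_ h1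
    rw [hτ]
    have h3 : 0 ≤ c₀ / 512 * U ^ (rs (16 * q) - 1) := by positivity
    gcongr
    exact hjji.2
  have hE1 : EE a x₁ = Pf a N₁ := rfl
  have hE2 : EE a x₂ = Pf a N₂ := rfl
  rw [hE1] at hl1
  rw [hE2] at hl2
  have hlam : 0 < lam := lt_of_le_of_lt (abs_nonneg _) hl1
  have hN12R : (N₁:ℝ) ≤ N₂ := by exact_mod_cast hN12
  rcases hi12.eq_or_lt with heq | hlt
  · have h1 : (N₂:ℝ) - N₁ ≤ K := by
      have h2 := hcard i₁ le_rfl hi12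
      rw [Nat.card_Ioc, Nat.cast_sub (S.mono.monotone (Nat.le_succ i₁))] at h2
      have h3 : ((B i₁ : ℕ) : ℝ) ≤ N₁ := by exact_mod_cast c1.1.le
      have h4 : (N₂:ℝ) ≤ ((B (i₁ + 1) : ℕ) : ℝ) := by
        rw [heq]
        exact_mod_cast c2.2
      linarith
    have h5 : 0 ≤ (2 * lam + 2 * ρ) / τ := by positivity
    have h6 : K ≤ ((2 * lam + 2 * ρ) / τ + 2) * K := by nlinarith
    linarith
  · have h1 := Pf_cells a S.mono (τ := τ) (m := i₁ + 1) i₂ hlt hT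
    have h2 := (abs_le.1 (hpart i₁ le_rfl hi12 N₁ (B (i₁ + 1)) c1.2 c1.1.le le_rfl)).1
    have h3 := (abs_le.1 (hpart i₂ hi12 le_rfl (B i₂) N₂ c2.1.le le_rfl c2.2)).1
    have h4 := (abs_lt.1 hl1).1
    have h5 := (abs_lt.1 hl2).2
    push_cast at h1
    simp only [hB] at h1 h2 h3
    have h6 : ((i₂:ℝ) - (i₁ + 1)) * τ ≤ 2 * lam + 2 * ρ := by linarith
    have h7 : (i₂:ℝ) - (i₁ + 1) ≤ (2 * lam + 2 * ρ) / τ := by rwa [le_div_iff₀ hτ0]
    have h8 := B_cells S.mono (K := K) (m := i₁) (i₂ + 1) (by omega) (fun i hi1 hi2 => hcard i hi1 (by omega))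
    have h9 : ((B i₁ : ℕ) : ℝ) ≤ N₁ := by exact_mod_cast c1.1.le
    have h10 : (N₂:ℝ) ≤ ((B (i₂ + 1) : ℕ) : ℝ) := by exact_mod_cast c2.2
    push_cast at h8
    simp only [hB] at h9 h10
    have h11 : ((i₂:ℝ) + 1 - i₁) * K ≤ ((2 * lam + 2 * ρ) / τ + 2) * K := by
      apply mul_le_mul_of_nonneg_right _ hK0.le
      linarith
    linarith

end Pool.Agent.H81.HM
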