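import Pool.Agent.H81.HM.Win3

/-!
# Growth of the summatory function in the windows: conclusion
-/

set_option autoImplicit false

open Finset MeasureTheory Filter Topology

namespace Pool.Agent.H81.HM

open Pool.Agent.H96R3.BC (vv cf)

variable {q j' : ℕ} {w : ℕ → ℝ → ℝ} {ω g m : ℕ → ℝ} {κ : ℝ} {H : ℝ → ℝ} {x : ℕ → ℝ} {f : ℝ → ℝ}

theorem win {g0 : ℕ} {ξ : ℝ} (S : Sy (16 * q) j' (bB q j') w (zz (16 * q)) ω g m κ)
    (W : Wd (16 * q) κ (aw (16 * q) j' g0) (hw (16 * q) j' g0 ξ))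
    (hO : Out (16 * q) j' (bB q j') w (zz (16 * q)) κ (sF (16 * q) (aw (16 * q) j' g0) (hw (16 * q) j' g0 ξ)) H x f)
    (hξ0 : 0 < ξ) (hξ1 : 2 * (q:ℝ) * ξ ≤ 1 / 2) {c₄ : ℝ} (hc₄ : 0 < c₄) :
    ∃ cl : ℝ, 0 < cl ∧ ∀ᶠ k in atTop, ∀ x₁ x₂ : ℝ, XX g0 k + LL ξ (XX g0 k) / 4 ≤ x₁ → x₁ ≤ x₂ →
      x₂ ≤ XX g0 k + LL ξ (XX g0 k) / 2 →
      |EE (cf fun n => zz (16 * q) n * x n) x₁| < cl * XX g0 k ^ (1 / 2 + 7 / (1280 * (q:ℝ)) - ξ) →
      |EE (cf fun n => zz (16 * q) n * x n) x₂| < cl * XX g0 k ^ (1 / 2 + 7 / (1280 * (q:ℝ)) - ξ) →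
      x₂ - x₁ ≤ c₄ * LL ξ (XX g0 k) := by
  have hQ := S.hQ
  have hj := S.hj
  have hq : 1 ≤ q := by omega
  have hqR : (1:ℝ) ≤ q := by exact_mod_cast hq
  have hq0 : (0:ℝ) < q := by linarith
  have hj1 : 1 ≤ j' := by omega
  have hx0 := x0_pos (Q := 16 * q) hj1
  set x0 := (j' : ℝ) ^ (2 * (16 * q)) with hx0d
  have hx00 : 0 < x0 := by linarith
  set c₀ := cs (16 * q) with hc₀d
  have hc₀ : 0 < c₀ := cs_pos _
  set cU := x0 ^ (-((rs (16 * q) - 1) / (4 * ((16 * q : ℕ) : ℝ)))) with hcUd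
  have hcU : 0 < cU := by positivity
  set cl := c₄ / (8 * (4 * q * 2 ^ (2 * q - 1)) * (1024 / (c₀ * cU))) with hcl
  have hcl0 : 0 < cl := by positivity
  have hX := XX_tend g0
  have hPt : Tendsto (fun k => XX g0 k ^ (1 / (2 * (q:ℝ)))) atTop atTop :=
    (tendsto_rpow_atTop (by positivity : 0 < 1 / (2 * (q:ℝ)))).comp hX
  have hPt4 : Tendsto (fun k => (XX g0 k ^ (1 / (2 * (q:ℝ)))) ^ (1 / 4 : ℝ)) atTop atTop :=
    (tendsto_rpow_atTop (by norm_num : (0:ℝ) < 1 / 4)).comp hPt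
  have hUt : Tendsto (fun k => c₀ * aw (16 * q) j' g0 k ^ (3 / 80 : ℝ)) atTop atTop :=
    ((tendsto_rpow_atTop (by norm_num : (0:ℝ) < 3 / 80)).comp W.lim).const_mul_atTop hc₀
  have htt : Tendsto (fun k => XX g0 k ^ (-ξ)) atTop (𝓝 0) := (tendsto_rpow_neg_atTop hξ0).comp hX
  refine ⟨cl, hcl0, ?_⟩
  filter_upwards [hPt.eventually_ge_atTop 2, hPt.eventually_ge_atTop (8 * (q:ℝ)), hPt4.eventually_ge_atTop 8,
    hX.eventually_ge_atTop (((bB q j' 0 : ℕ) : ℝ) + 2), htt.eventually (ge_mem_nhds (by norm_num : (0:ℝ) < 1 / 2)),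
    hUt.eventually_ge_atTop (2 * (κ * 2 ^ (2 * ((16 * q : ℕ):ℝ) + 21 / 16))),
    hPt4.eventually_ge_atTop ((q:ℝ) / 4 * 2 ^ ((q:ℝ) + 3 / 256 - 1) * (512 / (c₀ * cU))),
    hPt4.eventually_ge_atTop (8 * (4 * q * 2 ^ (2 * q - 1)) * (2 ^ ((q:ℝ) - 3 / 256) * (4 * q * 2 ^ (2 * q - 1))) * (1024 / (c₀ * cU)) / c₄),
    hPt4.eventually_ge_atTop (8 * (4 * q * 2 ^ (2 * q - 1)) / c₄), hPt4.eventually_ge_atTop (4 / c₄)]
    with k e1 e1' e2 e3 e4 e5 e6 e7 e8 e9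
  intro x₁ x₂ hx1 hx12 hx2 hl1 hl2
  have hXp := XX_pos g0 k
  have hX1 := XX_one g0 k
  have hU1 : 1 ≤ aw (16 * q) j' g0 k := W.one k
  set X := XX g0 k with hXd
  set P := X ^ (1 / (2 * (q:ℝ))) with hP
  have hP0 : 0 < P := by positivity
  have hP1 : 1 ≤ P := by linarith
  have hPow : ∀ s : ℝ, P ^ s = X ^ (s / (2 * (q:ℝ))) := by
    intro s
    rw [hP, ← Real.rpow_mul hXp.le]
    congr 1
    ring
  have hPX : P ^ (2 * q) = X := by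
    rw [← Real.rpow_natCast, hPow]
    push_cast
    rw [div_self (by positivity), Real.rpow_one]
  have hL : LL ξ X = P ^ (2 * (q:ℝ) - 2 * q * ξ) := by
    unfold LL
    rw [hPow]
    nth_rw 1 [← Real.rpow_one X]
    rw [← Real.rpow_add hXp]
    congr 1
    field_simp
    ring
  have hLt : LL ξ X = X * X ^ (-ξ) := rfl
  have hL8 : 8 ≤ LL ξ X := by
    rw [hL]
    refine e2.trans (Real.rpow_le_rpow_of_exponent_le hP1 ?_)
    linarith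
  have hLX : LL ξ X ≤ X := LL_le hX1 hξ0.le
  set U := aw (16 * q) j' g0 k with hU
  have hU0 : 0 < U := by linarith
  have hUr : U ^ (rs (16 * q) - 1) = cU * P ^ ((q:ℝ) + 7 / 640) := by
    rw [hU]
    unfold aw
    rw [← hXd, Vx_rpow hj1 hXp.le, ← hx0d, Real.div_rpow hXp.le hx00.le, hcUd, Real.rpow_neg hx00.le, hPow]
    have : (rs (16 * q) - 1) / (4 * ((16 * q : ℕ) : ℝ)) = ((q:ℝ) + 7 / 640) / (2 * (q:ℝ)) := by
      unfold rs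
      push_cast
      field_simp
      ring
    rw [this]
    field_simp
  have hlam : X ^ (1 / 2 + 7 / (1280 * (q:ℝ)) - ξ) = P ^ ((q:ℝ) + 7 / 640 - 2 * q * ξ) := by
    rw [hPow]
    congr 1
    field_simp
    ring
  rw [hlam] at hl1 hl2
  have hbig : (q:ℝ) / 4 * (2 * P) ^ ((q:ℝ) + 3 / 256 - 1) ≤ c₀ / 512 * U ^ (rs (16 * q) - 1) := by
    rw [hUr, Real.mul_rpow (by norm_num) hP0.le]
    have h1 : P ^ ((q:ℝ) + 3 / 256 - 1) * P ^ (1 / 4 : ℝ) ≤ P ^ ((q:ℝ) + 7 / 640) := by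
      rw [← Real.rpow_add hP0]
      apply Real.rpow_le_rpow_of_exponent_le hP1
      linarith
    have h2 : (q:ℝ) / 4 * 2 ^ ((q:ℝ) + 3 / 256 - 1) ≤ c₀ * cU / 512 * P ^ (1 / 4 : ℝ) := by
      have h3 : c₀ * cU / 512 * ((q:ℝ) / 4 * 2 ^ ((q:ℝ) + 3 / 256 - 1) * (512 / (c₀ * cU))) ≤ c₀ * cU / 512 * P ^ (1 / 4 : ℝ) := by
        gcongr
      refine le_trans (le_of_eq ?_) h3
      field_simp
    calc (q:ℝ) / 4 * (2 ^ ((q:ℝ) + 3 / 256 - 1) * P ^ ((q:ℝ) + 3 / 256 - 1)) =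
        ((q:ℝ) / 4 * 2 ^ ((q:ℝ) + 3 / 256 - 1)) * P ^ ((q:ℝ) + 3 / 256 - 1) := by ring
      _ ≤ (c₀ * cU / 512 * P ^ (1 / 4 : ℝ)) * P ^ ((q:ℝ) + 3 / 256 - 1) := by gcongr
      _ = c₀ * cU / 512 * (P ^ ((q:ℝ) + 3 / 256 - 1) * P ^ (1 / 4 : ℝ)) := by ring
      _ ≤ c₀ * cU / 512 * P ^ ((q:ℝ) + 7 / 640) := by gcongr
      _ = _ := by ring
  have hxX2 : x₂ ≤ X + X * (X ^ (-ξ) / 2) := by
    refine hx2.trans (le_of_eq ?_)
    rw [hLt]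
    ring
  have hg := grow S hO (sF_cont W) (U := U) (c₀ := c₀) (P := P) (lam := cl * P ^ ((q:ℝ) + 7 / 640 - 2 * q * ξ))
    hU1 hc₀ e1 e1' hx12 (by rw [hPX]; linarith) (by rw [hPX]; linarith) (by linarith)
    (by
      refine (Vx_mono hj1 (by linarith) hxX2).trans ((Vx_add_le (by omega) hj1 hXp (by positivity)).trans ?_)
      have h1 : Vx (16 * q) j' X = U := rfl
      rw [h1]
      have hp := p_le (Q := 16 * q) (by omega)
      have h2 : 1 / (4 * (((16 * q : ℕ)):ℝ)) * (X ^ (-ξ) / 2) ≤ 1 * 1 := by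
        apply mul_le_mul hp.2 (by linarith) (by positivity) (by norm_num)
      nlinarith)
    (by
      intro u hu1 hu2
      apply src_low (by omega) hj1 W k e4
      · exact (Vx_mono hj1 (by positivity) (by linarith)).trans hu1
      · exact hu2.trans (Vx_mono hj1 (by linarith) hx2))
    e5 hbig hl1 hl2
  rw [hUr] at hg
  have hf := fin_ineq hq hP1 hc₀ hcU hc₄ hξ1 e7 e8 e9
  rw [hL]
  exact hg.trans hf

end Pool.Agent.H81.HM
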