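import Pool.Agent.H81.HM.Sour

/-!
# The windows
-/

set_option autoImplicit false

open Finset MeasureTheory Filter Topology

namespace Pool.Agent.H81.HM

open Pool.Agent.H96R3.BC (vv cf)

/-- nodes, real variable -/
noncomputable def Vx (Q j' : ℕ) (x : ℝ) : ℝ := (x / (j' : ℝ) ^ (2 * Q)) ^ (1 / (4 * (Q:ℝ)))

lemma Vx_nat (Q j' n : ℕ) : Vx Q j' (n:ℝ) = vv Q j' n := rfl

/-- start of the windows -/
noncomputable def XX (g0 g : ℕ) : ℝ := 4 ^ (g + g0)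

/-- length of the windows -/
noncomputable def LL (ξ X : ℝ) : ℝ := X * X ^ (-ξ)

/-- start of the windows, in the variable `v` -/
noncomputable def aw (Q j' g0 g : ℕ) : ℝ := Vx Q j' (XX g0 g)

/-- length of the windows, in the variable `v` -/
noncomputable def hw (Q j' g0 : ℕ) (ξ : ℝ) (g : ℕ) : ℝ := Vx Q j' (XX g0 g + LL ξ (XX g0 g)) - Vx Q j' (XX g0 g)

lemma XX_pos (g0 g : ℕ) : 0 < XX g0 g := by unfold XX; positivity

lemma XX_one (g0 g : ℕ) : 1 ≤ XX g0 g := by unfold XX; exact one_le_pow₀ (by norm_num)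

lemma XX_tend (g0 : ℕ) : Tendsto (XX g0) atTop atTop := by
  unfold XX
  exact (tendsto_pow_atTop_atTop_of_one_lt (by norm_num : (1:ℝ) < 4)).comp (tendsto_add_atTop_nat g0)

lemma LL_pos {ξ X : ℝ} (hX : 0 < X) : 0 < LL ξ X := by unfold LL; positivity

lemma LL_le {ξ X : ℝ} (hX : 1 ≤ X) (hξ : 0 ≤ ξ) : LL ξ X ≤ X := by
  unfold LL
  have : X ^ (-ξ) ≤ 1 := Real.rpow_le_one_of_one_le_of_nonpos hX (by linarith)
  nlinarith

section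

variable {Q j' : ℕ}

lemma x0_pos (hj : 1 ≤ j') : (1:ℝ) ≤ (j' : ℝ) ^ (2 * Q) := one_le_pow₀ (by exact_mod_cast hj)

lemma Vx_pos (hj : 1 ≤ j') {x : ℝ} (hx : 0 < x) : 0 < Vx Q j' x := by
  have := x0_pos (Q := Q) hj
  unfold Vx
  positivity

lemma Vx_mono (hj : 1 ≤ j') {x y : ℝ} (hx : 0 ≤ x) (hxy : x ≤ y) : Vx Q j' x ≤ Vx Q j' y := by
  have := x0_pos (Q := Q) hj
  unfold Vx
  gcongr

lemma Vx_lt (hQ : 1 ≤ Q) (hj : 1 ≤ j') {x y : ℝ} (hx : 0 ≤ x) (hxy : x < y) : Vx Q j' x < Vx Q j' y := by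
  have := x0_pos (Q := Q) hj
  have : (0:ℝ) < Q := by exact_mod_cast hQ
  unfold Vx
  apply Real.rpow_lt_rpow (by positivity) _ (by positivity)
  gcongr

lemma Vx_rpow (hj : 1 ≤ j') {x : ℝ} (hx : 0 ≤ x) (s : ℝ) :
    Vx Q j' x ^ s = (x / (j' : ℝ) ^ (2 * Q)) ^ (s / (4 * (Q:ℝ))) := by
  have := x0_pos (Q := Q) hj
  unfold Vx
  rw [← Real.rpow_mul (by positivity)]
  congr 1
  ring

lemma p_le (hQ : 1 ≤ Q) : 0 < 1 / (4 * (Q:ℝ)) ∧ 1 / (4 * (Q:ℝ)) ≤ 1 := by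
  have : (1:ℝ) ≤ Q := by exact_mod_cast hQ
  constructor
  · positivity
  · rw [div_le_one (by positivity)]
    linarith

/-- upper bound for the length of a window -/
lemma Vx_add_le (hQ : 1 ≤ Q) (hj : 1 ≤ j') {X t : ℝ} (hX : 0 < X) (ht : 0 ≤ t) :
    Vx Q j' (X + X * t) ≤ Vx Q j' X * (1 + 1 / (4 * (Q:ℝ)) * t) := by
  have h0 := x0_pos (Q := Q) hj
  have hp := p_le hQ
  have e : (X + X * t) / (j' : ℝ) ^ (2 * Q) = X / (j' : ℝ) ^ (2 * Q) * (1 + t) := by ring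
  unfold Vx
  rw [e, Real.mul_rpow (by positivity) (by positivity)]
  apply mul_le_mul_of_nonneg_left _ (by positivity)
  exact rpow_one_add_le_one_add_mul_self (by linarith) hp.1.le hp.2

lemma hw_pos (hQ : 1 ≤ Q) (hj : 1 ≤ j') (g0 : ℕ) (ξ : ℝ) (g : ℕ) : 0 < hw Q j' g0 ξ g := by
  unfold hw
  have h1 := XX_pos g0 g
  have h2 := LL_pos (ξ := ξ) h1
  have := Vx_lt hQ hj h1.le (by linarith : XX g0 g < XX g0 g + LL ξ (XX g0 g))
  linarith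

lemma hw_le (hQ : 1 ≤ Q) (hj : 1 ≤ j') (g0 : ℕ) (ξ : ℝ) (g : ℕ) :
    (4 * (Q:ℝ) + 5) * hw Q j' g0 ξ g ≤ 3 * (aw Q j' g0 g * XX g0 g ^ (-ξ)) := by
  have h1 := XX_pos g0 g
  have hQ' : (1:ℝ) ≤ Q := by exact_mod_cast hQ
  have h2 := Vx_add_le hQ hj h1 (by positivity : 0 ≤ XX g0 g ^ (-ξ))
  have ha := Vx_pos (Q := Q) hj h1
  unfold hw aw LL
  set V := Vx Q j' (XX g0 g)
  set t := XX g0 g ^ (-ξ) with ht
  have ht0 : 0 ≤ t := by positivity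
  calc (4 * (Q:ℝ) + 5) * (Vx Q j' (XX g0 g + XX g0 g * t) - V) ≤ (4 * (Q:ℝ) + 5) * (V * (1 + 1 / (4 * (Q:ℝ)) * t) - V) := by
        gcongr
    _ = ((4 * (Q:ℝ) + 5) / (4 * Q)) * (V * t) := by field_simp; ring
    _ ≤ 3 * (V * t) := by
        apply mul_le_mul_of_nonneg_right _ (by positivity)
        rw [div_le_iff₀ (by positivity)]
        linarith

/-- the main power -/
lemma aw_pow (hj : 1 ≤ j') {ξ : ℝ} (hξ : 59 / 100 ≤ 4 * (Q:ℝ) * ξ) (hξ0 : 0 ≤ ξ) (hQ : 1 ≤ Q) {g0 g : ℕ} (h1 : 1 ≤ aw Q j' g0 g) :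
    aw Q j' g0 g * XX g0 g ^ (-ξ) ≤ aw Q j' g0 g ^ (41 / 100 : ℝ) := by
  have h0 := x0_pos (Q := Q) hj
  have hX := XX_pos g0 g
  have hQ' : (1:ℝ) ≤ Q := by exact_mod_cast hQ
  have ha0 : 0 < aw Q j' g0 g := by linarith
  have h2 : XX g0 g ^ (-ξ) ≤ aw Q j' g0 g ^ (-(59 / 100) : ℝ) := by
    have h3 : aw Q j' g0 g ^ (-(4 * (Q:ℝ) * ξ)) ≤ aw Q j' g0 g ^ (-(59 / 100) : ℝ) :=
      Real.rpow_le_rpow_of_exponent_le h1 (by linarith)
    refine le_trans ?_ h3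
    unfold aw
    rw [Vx_rpow hj hX.le]
    have e : -(4 * (Q:ℝ) * ξ) / (4 * (Q:ℝ)) = -ξ := by field_simp
    rw [e]
    apply Real.rpow_le_rpow_of_nonpos (by positivity) _ (by linarith)
    exact div_le_self hX.le h0
  calc aw Q j' g0 g * XX g0 g ^ (-ξ) ≤ aw Q j' g0 g ^ (1:ℝ) * aw Q j' g0 g ^ (-(59 / 100) : ℝ) := by
        rw [Real.rpow_one]
        gcongr
    _ = _ := by
        rw [← Real.rpow_add ha0]
        norm_num

/-- size of the terms -/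
lemma term_le (hj : 1 ≤ j') {ξ : ℝ} (hξ : 59 / 100 ≤ 4 * (Q:ℝ) * ξ) (hξ0 : 0 ≤ ξ) (hQ : 1 ≤ Q) {g0 g : ℕ} (h1 : 1 ≤ aw Q j' g0 g) :
    (aw Q j' g0 g ^ rs Q * (en Q (aw Q j' g0) (hw Q j' g0 ξ) g - aw Q j' g0 g)) *
      vpi Q (aw Q j' g0 g) (en Q (aw Q j' g0) (hw Q j' g0 ξ) g) ≤ 27 * aw Q j' g0 g ^ (-(1 / 800) : ℝ) := by
  have h2 := hw_le hQ hj g0 ξ g
  have h3 := aw_pow hj hξ hξ0 hQ h1
  have h4 := hw_pos hQ hj g0 ξ g
  have ha0 : 0 < aw Q j' g0 g := by linarith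
  have hQ' : (1:ℝ) ≤ Q := by exact_mod_cast hQ
  have e0 : en Q (aw Q j' g0) (hw Q j' g0 ξ) g - aw Q j' g0 g = (4 * (Q:ℝ) + 5) * hw Q j' g0 ξ g := by
    unfold en
    ring
  rw [e0]
  unfold vpi
  rw [e0]
  set a := aw Q j' g0 g
  set D := (4 * (Q:ℝ) + 5) * hw Q j' g0 ξ g with hD
  have hD0 : 0 < D := by positivity
  have hD1 : D ≤ 3 * a ^ (41 / 100 : ℝ) := h2.trans (by gcongr)
  have h5 : (D ^ 2 / a) ^ (1 / 16 : ℝ) ≤ 9 * a ^ (-(9 / 800) : ℝ) := by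
    have h6 : D ^ 2 / a ≤ 9 * a ^ (-(9 / 50) : ℝ) := by
      calc D ^ 2 / a ≤ (3 * a ^ (41 / 100 : ℝ)) ^ 2 / a := by gcongr
        _ = 9 * (a ^ (41 / 100 * 2 - 1 : ℝ)) := by
            rw [Real.rpow_sub_one ha0.ne', mul_pow, ← Real.rpow_mul_natCast ha0.le]
            norm_num
            ring
        _ = _ := by norm_num
    calc (D ^ 2 / a) ^ (1 / 16 : ℝ) ≤ (9 * a ^ (-(9 / 50) : ℝ)) ^ (1 / 16 : ℝ) := by gcongr
      _ = 9 ^ (1 / 16 : ℝ) * a ^ (-(9 / 800) : ℝ) := by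
          rw [Real.mul_rpow (by norm_num) (by positivity), ← Real.rpow_mul ha0.le]
          norm_num
      _ ≤ 9 ^ (1:ℝ) * a ^ (-(9 / 800) : ℝ) := by
          gcongr
          · norm_num
          · norm_num
      _ = _ := by rw [Real.rpow_one]
  calc (a ^ rs Q * D) * (a ^ (-(2 * (Q:ℝ) + 7 / 4)) * (D ^ 2 / a) ^ (1 / 16 : ℝ)) ≤
      (a ^ rs Q * (3 * a ^ (41 / 100 : ℝ))) * (a ^ (-(2 * (Q:ℝ) + 7 / 4)) * (9 * a ^ (-(9 / 800) : ℝ))) := by gcongr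
    _ = 27 * (a ^ rs Q * a ^ (41 / 100 : ℝ) * a ^ (-(2 * (Q:ℝ) + 7 / 4)) * a ^ (-(9 / 800) : ℝ)) := by ring
    _ = _ := by
        rw [← Real.rpow_add ha0, ← Real.rpow_add ha0, ← Real.rpow_add ha0]
        congr 2
        unfold rs
        ring

/-- the geometric bound -/
lemma aw_geo (hj : 1 ≤ j') (g0 g : ℕ) : aw Q j' g0 g ^ (-(1 / 800) : ℝ) =
    ((j' : ℝ) ^ (2 * Q)) ^ (1 / (3200 * (Q:ℝ))) * ((4:ℝ) ^ (-(1 / (3200 * (Q:ℝ))))) ^ g0 *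
      ((4:ℝ) ^ (-(1 / (3200 * (Q:ℝ))))) ^ g := by
  have h0 := x0_pos (Q := Q) hj
  unfold aw
  rw [Vx_rpow hj (XX_pos g0 g).le, Real.div_rpow (XX_pos g0 g).le (by positivity)]
  have e : -(1 / 800) / (4 * (Q:ℝ)) = -(1 / (3200 * (Q:ℝ))) := by
    rw [neg_div, div_div]
    ring_nf
  rw [e, Real.rpow_neg (by positivity : (0:ℝ) ≤ (j' : ℝ) ^ (2 * Q)), div_inv_eq_mul]
  unfold XX
  rw [← Real.rpow_natCast 4 (g + g0), ← Real.rpow_mul (by norm_num), ← Real.rpow_mul_natCast (by norm_num),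
    ← Real.rpow_mul_natCast (by norm_num), mul_assoc, ← Real.rpow_add (by norm_num), mul_comm]
  congr 2
  push_cast
  ring

theorem wd_of (hQ : 1 ≤ Q) (hj : 1 ≤ j') {ξ κ : ℝ} (hξ : 59 / 100 ≤ 4 * (Q:ℝ) * ξ) (hκ : 0 < κ) :
    ∃ G₀ : ℕ, ∀ g0 : ℕ, G₀ ≤ g0 → Wd Q κ (aw Q j' g0) (hw Q j' g0 ξ) := by
  have hQ' : (1:ℝ) ≤ Q := by exact_mod_cast hQ
  have hξ0 : 0 < ξ := by
    by_contra hc
    rw [not_lt] at hc
    have : 4 * (Q:ℝ) * ξ ≤ 0 := mul_nonpos_of_nonneg_of_nonpos (by positivity) hc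
    linarith
  have h0 := x0_pos (Q := Q) hj
  have hp := p_le hQ
  set r : ℝ := (4:ℝ) ^ (-(1 / (3200 * (Q:ℝ)))) with hr
  have hr0 : 0 < r := by positivity
  have hr1 : r < 1 := Real.rpow_lt_one_of_one_lt_of_neg (by norm_num) (by
    have : 0 < 1 / (3200 * (Q:ℝ)) := by positivity
    linarith)
  have h4p : 0 < (4:ℝ) ^ (1 / (4 * (Q:ℝ))) - 1 := by
    have := Real.one_lt_rpow (by norm_num : (1:ℝ) < 4) hp.1
    linarith
  have htX : Tendsto (fun g0 : ℕ => (4:ℝ) ^ g0) atTop atTop := tendsto_pow_atTop_atTop_of_one_lt (by norm_num)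
  have ev1 := htX.eventually_ge_atTop ((j' : ℝ) ^ (2 * Q))
  have ev2 : ∀ᶠ g0 : ℕ in atTop, 3 * ((4:ℝ) ^ g0) ^ (-ξ) ≤ (4:ℝ) ^ (1 / (4 * (Q:ℝ))) - 1 := by
    have h := (((tendsto_rpow_neg_atTop hξ0).comp htX).const_mul 3)
    rw [mul_zero] at h
    exact h.eventually (ge_mem_nhds h4p)
  have ev3 : ∀ᶠ g0 : ℕ in atTop, 9 ≤ (Vx Q j' ((4:ℝ) ^ g0)) ^ (9 / 50 : ℝ) := by
    have h1 : Tendsto (fun x : ℝ => (Vx Q j' x) ^ (9 / 50 : ℝ)) atTop atTop := by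
      apply (tendsto_rpow_atTop (by norm_num)).comp
      unfold Vx
      exact (tendsto_rpow_atTop hp.1).comp (tendsto_id.atTop_div_const (by linarith))
    exact (h1.comp htX).eventually_ge_atTop 9
  set K : ℝ := C0 Q * (27 * ((j' : ℝ) ^ (2 * Q)) ^ (1 / (3200 * (Q:ℝ)))) * (1 - r)⁻¹ with hK
  have ev4 : ∀ᶠ g0 : ℕ in atTop, K * r ^ g0 ≤ κ / 8 := by
    have h := (tendsto_pow_atTop_nhds_zero_of_lt_one hr0.le hr1).const_mul K
    rw [mul_zero] at h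
    exact h.eventually (ge_mem_nhds (by positivity))
  obtain ⟨G₀, hG⟩ := (eventually_atTop.1 (ev1.and (ev2.and (ev3.and ev4))))
  refine ⟨G₀, fun g0 hg0 => ?_⟩
  obtain ⟨k1, k2, k3, k4⟩ := hG g0 hg0
  have hXg : ∀ g, (4:ℝ) ^ g0 ≤ XX g0 g := fun g => by
    unfold XX
    exact pow_le_pow_right₀ (by norm_num) (by omega)
  have ha1 : ∀ g, 1 ≤ aw Q j' g0 g := by
    intro g
    unfold aw Vx
    apply Real.one_le_rpow _ hp.1.le
    rw [one_le_div (by linarith)]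
    exact k1.trans (hXg g)
  have haD : ∀ g, en Q (aw Q j' g0) (hw Q j' g0 ξ) g - aw Q j' g0 g = (4 * (Q:ℝ) + 5) * hw Q j' g0 ξ g := fun g => by
    unfold en
    ring
  have hterm : ∀ g, (aw Q j' g0 g ^ rs Q * (en Q (aw Q j' g0) (hw Q j' g0 ξ) g - aw Q j' g0 g)) *
      vpi Q (aw Q j' g0 g) (en Q (aw Q j' g0) (hw Q j' g0 ξ) g) ≤
      27 * ((j' : ℝ) ^ (2 * Q)) ^ (1 / (3200 * (Q:ℝ))) * r ^ g0 * r ^ g := by
    intro g
    refine (term_le hj hξ hξ0.le hQ (ha1 g)).trans (le_of_eq ?_)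
    rw [aw_geo hj]
    ring
  have hnn : ∀ g, 0 ≤ (aw Q j' g0 g ^ rs Q * (en Q (aw Q j' g0) (hw Q j' g0 ξ) g - aw Q j' g0 g)) *
      vpi Q (aw Q j' g0 g) (en Q (aw Q j' g0) (hw Q j' g0 ξ) g) := by
    intro g
    have h1 := ha1 g
    have h2 := hw_pos hQ hj g0 ξ g
    have h3 := vpi_nonneg Q (a := aw Q j' g0 g) (b := en Q (aw Q j' g0) (hw Q j' g0 ξ) g) (by linarith)
    rw [haD]
    have : 0 ≤ aw Q j' g0 g ^ rs Q := by
      have : 0 ≤ aw Q j' g0 g := by linarith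
      positivity
    positivity
  have hgs : Summable fun g => 27 * ((j' : ℝ) ^ (2 * Q)) ^ (1 / (3200 * (Q:ℝ))) * r ^ g0 * r ^ g :=
    (summable_geometric_of_lt_one hr0.le hr1).mul_left _
  have hsumm : Summable fun g => (aw Q j' g0 g ^ rs Q * (en Q (aw Q j' g0) (hw Q j' g0 ξ) g - aw Q j' g0 g)) *
      vpi Q (aw Q j' g0 g) (en Q (aw Q j' g0) (hw Q j' g0 ξ) g) := Summable.of_nonneg_of_le hnn hterm hgs
  have hXr : ∀ g, XX g0 g ^ (-ξ) ≤ ((4:ℝ) ^ g0) ^ (-ξ) := fun g =>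
    Real.rpow_le_rpow_of_nonpos (by positivity) (hXg g) (by linarith)
  refine ⟨ha1, fun g => hw_pos hQ hj g0 ξ g, fun g => ?_, fun g => ?_, ?_, hsumm, ?_⟩
  · have h1 := hw_le hQ hj g0 ξ g
    have h2 : aw Q j' g0 (g + 1) = (4:ℝ) ^ (1 / (4 * (Q:ℝ))) * aw Q j' g0 g := by
      unfold aw Vx XX
      rw [← Real.mul_rpow (by norm_num) (by positivity)]
      congr 1
      rw [show g + 1 + g0 = (g + g0) + 1 by ring, pow_succ]
      ring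
    rw [h2]
    have ha := ha1 g
    have h3 : 3 * (aw Q j' g0 g * XX g0 g ^ (-ξ)) ≤ ((4:ℝ) ^ (1 / (4 * (Q:ℝ))) - 1) * aw Q j' g0 g := by
      calc 3 * (aw Q j' g0 g * XX g0 g ^ (-ξ)) = (3 * XX g0 g ^ (-ξ)) * aw Q j' g0 g := by ring
        _ ≤ _ := by
            apply mul_le_mul_of_nonneg_right _ (by linarith)
            have := hXr g
            linarith
    have h4 := haD g
    linarith
  · rw [haD]
    have h1 := hw_le hQ hj g0 ξ g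
    have ha := ha1 g
    have ha0 : 0 < aw Q j' g0 g := by linarith
    have h2 := aw_pow hj hξ hξ0.le hQ ha
    have h3 := hw_pos hQ hj g0 ξ g
    have h4 : 9 ≤ aw Q j' g0 g ^ (9 / 50 : ℝ) := by
      refine k3.trans ?_
      unfold aw
      apply Real.rpow_le_rpow (Vx_pos hj (by positivity)).le _ (by norm_num)
      exact Vx_mono hj (by positivity) (hXg g)
    have h5 : (4 * (Q:ℝ) + 5) * hw Q j' g0 ξ g ≤ 3 * aw Q j' g0 g ^ (41 / 100 : ℝ) := h1.trans (by gcongr)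
    calc ((4 * (Q:ℝ) + 5) * hw Q j' g0 ξ g) ^ 2 ≤ (3 * aw Q j' g0 g ^ (41 / 100 : ℝ)) ^ 2 :=
          pow_le_pow_left₀ (by positivity) h5 2
      _ = 9 * aw Q j' g0 g ^ (41 / 50 : ℝ) := by
          rw [mul_pow, ← Real.rpow_mul_natCast ha0.le]
          norm_num
      _ ≤ aw Q j' g0 g ^ (9 / 50 : ℝ) * aw Q j' g0 g ^ (41 / 50 : ℝ) := by gcongr
      _ = _ := by
          rw [← Real.rpow_add ha0]
          norm_num
  · unfold aw Vx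
    exact (tendsto_rpow_atTop hp.1).comp ((XX_tend g0).atTop_div_const (by linarith))
  · calc _ ≤ C0 Q * ∑' g, 27 * ((j' : ℝ) ^ (2 * Q)) ^ (1 / (3200 * (Q:ℝ))) * r ^ g0 * r ^ g := by
          apply mul_le_mul_of_nonneg_left _ (C0_pos Q).le
          exact hsumm.tsum_le_tsum hterm hgs
      _ = K * r ^ g0 := by
          rw [tsum_mul_left, tsum_geometric_of_lt_one hr0.le hr1, hK]
          ring
      _ ≤ _ := k4

end

end Pool.Agent.H81.HM
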