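import Pool.Agent.H81.HM.Fin2

/-!
# Weights with a mean value
-/

set_option autoImplicit false

open Finset MeasureTheory Filter Topology

namespace Pool.Agent.H81.HM

lemma poly_ratio {R : Polynomial ℝ} (hR : R ≠ 0) : ∃ u₀ : ℝ, 1 ≤ u₀ ∧ ∀ u : ℝ, u₀ ≤ u →
    |R.eval u - R.leadingCoeff * u ^ R.natDegree| ≤ 1 / 10 * (|R.leadingCoeff| * u ^ R.natDegree) := by
  have h := (Polynomial.isEquivalent_atTop_lead (P := R)).isLittleO.bound (show (0:ℝ) < 1 / 10 by norm_num)
  rw [eventually_atTop] at h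
  obtain ⟨u₀, hu₀⟩ := h
  refine ⟨max u₀ 1, le_max_right _ _, fun u hu => ?_⟩
  have h1 := hu₀ u ((le_max_left _ _).trans hu)
  have hu1 : 1 ≤ u := (le_max_right _ _).trans hu
  simp only [Pi.sub_apply, Real.norm_eq_abs] at h1
  rwa [abs_mul, abs_of_nonneg (by positivity : 0 ≤ u ^ R.natDegree)] at h1

/-- the derivative of `t P(log t)` -/
lemma tP_deriv (P : Polynomial ℝ) {t : ℝ} (ht : 0 < t) :
    HasDerivAt (fun t : ℝ => t * P.eval (Real.log t)) ((P + P.derivative).eval (Real.log t)) t := by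
  have h1 : HasDerivAt (fun t : ℝ => P.eval (Real.log t)) (P.derivative.eval (Real.log t) * t⁻¹) t :=
    (P.hasDerivAt (Real.log t)).comp t (Real.hasDerivAt_log ht.ne')
  have h2 := (hasDerivAt_id t).mul h1
  refine h2.congr_deriv ?_
  rw [Polynomial.eval_add]
  simp only [id]
  field_simp

lemma lead_pos {P : Polynomial ℝ} (hP : P ≠ 0) {η C : ℝ} (hη : 0 < η) {M : ℝ → ℝ} (hM0 : ∀ T, 1 ≤ T → 0 ≤ M T)
    (hM : ∀ T : ℝ, 1 ≤ T → |M T - T * P.eval (Real.log T)| ≤ C * T ^ (1 - η)) : 0 < P.leadingCoeff := by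
  by_contra hc
  have hl : P.leadingCoeff < 0 := lt_of_le_of_ne (not_lt.1 hc) (Polynomial.leadingCoeff_ne_zero.2 hP)
  obtain ⟨u₀, hu1, hu₀⟩ := poly_ratio hP
  have ht : Tendsto (fun T : ℝ => C * T ^ (-η)) atTop (𝓝 0) := by
    have := (tendsto_rpow_neg_atTop hη).const_mul C
    rwa [mul_zero] at this
  have hev := (ht.eventually (gt_mem_nhds (show (0:ℝ) < -(9 / 10 * P.leadingCoeff) by linarith))).and
    ((Real.tendsto_log_atTop.eventually_ge_atTop u₀).and (eventually_ge_atTop (1:ℝ)))
  obtain ⟨T, h1, h2, h3⟩ := hev.exists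
  have hT0 : 0 < T := by linarith
  have h4 := hu₀ (Real.log T) h2
  have hlog : 1 ≤ Real.log T := hu1.trans h2
  have h5 := (abs_le.1 h4).2
  rw [abs_of_neg hl] at h5
  have h6 : 1 ≤ Real.log T ^ P.natDegree := one_le_pow₀ hlog
  have h7 : P.eval (Real.log T) ≤ 9 / 10 * P.leadingCoeff := by
    have : 9 / 10 * (P.leadingCoeff * Real.log T ^ P.natDegree) ≤ 9 / 10 * (P.leadingCoeff * 1) := by
      have := mul_le_mul_of_nonpos_left h6 hl.le
      linarith
    linarith
  have h8 := (abs_le.1 (hM T h3)).2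
  have h9 := hM0 T h3
  have e : C * T ^ (1 - η) = T * (C * T ^ (-η)) := by
    rw [sub_eq_add_neg, Real.rpow_add hT0, Real.rpow_one]
    ring
  rw [e] at h8
  have h10 : T * (-(P.eval (Real.log T))) ≤ T * (C * T ^ (-η)) := by linarith
  have h11 := le_of_mul_le_mul_left h10 hT0
  linarith

/-- integrals of a weight with a mean value over short intervals -/
theorem weight {w : ℝ → ℝ} (hw0 : ∀ x, 0 ≤ w x) (hwi : ∀ T, 1 ≤ T → IntervalIntegrable w volume 1 T)
    {P : Polynomial ℝ} (hP : P ≠ 0) {η C : ℝ} (hη : 0 < η) (hη1 : η ≤ 1 / 2)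
    (hM : ∀ T : ℝ, 1 ≤ T → |(∫ x in (1:ℝ)..T, w x) - T * P.eval (Real.log T)| ≤ C * T ^ (1 - η)) :
    ∃ (g₀ : ℝ) (g : ℝ → ℝ) (X₀ : ℝ), 0 < g₀ ∧ 1 ≤ X₀ ∧ ∀ X, X₀ ≤ X → g₀ ≤ g X ∧ ∀ α β, X ≤ α → α ≤ β → β ≤ 2 * X →
      1 / 2 * g X * (β - α) - 4 * C * X ^ (1 - η) ≤ ∫ x in α..β, w x ∧
      ∫ x in α..β, w x ≤ 2 * g X * (β - α) + 4 * C * X ^ (1 - η) := by
  have hlead : 0 < P.leadingCoeff := lead_pos hP hη
    (fun T hT => intervalIntegral.integral_nonneg hT fun x _ => hw0 x) hM
  have hC0 : 0 ≤ C := by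
    have := hM 1 le_rfl
    rw [Real.one_rpow, mul_one] at this
    exact (abs_nonneg _).trans this
  have hdlt : P.derivative.degree < P.degree := Polynomial.degree_derivative_lt hP
  have hRl : (P + P.derivative).leadingCoeff = P.leadingCoeff := Polynomial.leadingCoeff_add_of_degree_lt' hdlt
  have hRd : (P + P.derivative).natDegree = P.natDegree :=
    Polynomial.natDegree_eq_of_degree_eq (Polynomial.degree_add_eq_left_of_degree_lt hdlt)
  have hR0 : P + P.derivative ≠ 0 := by
    rw [← Polynomial.leadingCoeff_ne_zero, hRl]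
    exact hlead.ne'
  obtain ⟨u₀, hu1, hu₀⟩ := poly_ratio hR0
  rw [hRl, hRd, abs_of_pos hlead] at hu₀
  set m := P.natDegree with hm
  set ld := P.leadingCoeff with hld
  set u₁ : ℝ := max u₀ (4 * m + 1) with hu₁
  refine ⟨ld, fun X => ld * Real.log X ^ m, Real.exp u₁, hlead, Real.one_le_exp (by
    have := le_max_left u₀ (4 * m + 1 : ℝ)
    linarith), fun X hX => ?_⟩
  have hXp : 0 < X := (Real.exp_pos _).trans_le hX
  have hlogX : u₁ ≤ Real.log X := by rwa [Real.le_log_iff_exp_le hXp]
  have hlog1 : u₀ ≤ Real.log X := (le_max_left _ _).trans hlogX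
  have hlog2 : 4 * (m:ℝ) + 1 ≤ Real.log X := (le_max_right _ _).trans hlogX
  have hlog3 : 1 ≤ Real.log X := by linarith
  have hX1 : 1 ≤ X := by
    by_contra hc
    rw [not_le] at hc
    have := Real.log_neg hXp hc
    linarith
  refine ⟨le_mul_of_one_le_right hlead.le (one_le_pow₀ hlog3), fun α β hα hαβ hβ => ?_⟩
  have hα0 : 0 < α := by linarith
  have hder : ∀ t ∈ Set.Icc α β, 1 / 2 * (ld * Real.log X ^ m) ≤ (P + P.derivative).eval (Real.log t) ∧
      (P + P.derivative).eval (Real.log t) ≤ 2 * (ld * Real.log X ^ m) := by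
    intro t ht
    have ht0 : 0 < t := by linarith [ht.1]
    have h1 : Real.log X ≤ Real.log t := Real.log_le_log hXp (by linarith [ht.1])
    have h2 : Real.log t ≤ Real.log X + 1 := by
      have h3 : Real.log t ≤ Real.log (2 * X) := Real.log_le_log ht0 (by linarith [ht.2])
      rw [Real.log_mul (by norm_num) hXp.ne'] at h3
      have := Real.log_two_lt_d9
      linarith
    have h3 := hu₀ (Real.log t) (by linarith)
    have h4 : Real.log X ^ m ≤ Real.log t ^ m := pow_le_pow_left₀ (by linarith) h1 m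
    have h5 : Real.log t ^ m ≤ 3 / 2 * Real.log X ^ m := by
      calc Real.log t ^ m ≤ (Real.log X + 1) ^ m := pow_le_pow_left₀ (by linarith) h2 m
        _ = (1 + 1 / Real.log X) ^ m * Real.log X ^ m := by
            rw [← mul_pow]
            congr 1
            field_simp
        _ ≤ 3 / 2 * Real.log X ^ m := by
            apply mul_le_mul_of_nonneg_right _ (by positivity)
            have h6 : 1 + 1 / Real.log X ≤ Real.exp (1 / Real.log X) := by
              have := Real.add_one_le_exp (1 / Real.log X)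
              linarith
            calc (1 + 1 / Real.log X) ^ m ≤ (Real.exp (1 / Real.log X)) ^ m := pow_le_pow_left₀ (by positivity) h6 m
              _ = Real.exp (m * (1 / Real.log X)) := by rw [← Real.exp_nat_mul]
              _ ≤ Real.exp (1 / 4) := by
                  apply Real.exp_le_exp.2
                  rw [mul_one_div, div_le_div_iff₀ (by linarith) (by norm_num)]
                  linarith
              _ ≤ 3 / 2 := by
                  have h7 := Real.exp_bound' (x := 1 / 4) (by norm_num) (by norm_num) (n := 3) (by norm_num)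
                  norm_num [Finset.sum_range_succ, Nat.factorial] at h7
                  linarith
    have h6 := (abs_le.1 h3).1
    have h7 := (abs_le.1 h3).2
    have h8 : ld * Real.log X ^ m ≤ ld * Real.log t ^ m := by gcongr
    have h9 : ld * Real.log t ^ m ≤ ld * (3 / 2 * Real.log X ^ m) := by gcongr
    have h10 : 0 ≤ ld * Real.log X ^ m := by positivity
    constructor <;> linarith
  have hslope : 1 / 2 * (ld * Real.log X ^ m) * (β - α) ≤ β * P.eval (Real.log β) - α * P.eval (Real.log α) ∧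
      β * P.eval (Real.log β) - α * P.eval (Real.log α) ≤ 2 * (ld * Real.log X ^ m) * (β - α) := by
    rcases hαβ.eq_or_lt with h | h
    · rw [h]; simp
    · have hcont : ContinuousOn (fun t : ℝ => t * P.eval (Real.log t)) (Set.Icc α β) := fun t ht =>
        (tP_deriv P (by linarith [ht.1] : 0 < t)).continuousAt.continuousWithinAt
      obtain ⟨t, ht, hts⟩ := exists_hasDerivAt_eq_slope (fun t : ℝ => t * P.eval (Real.log t))
        (fun t => (P + P.derivative).eval (Real.log t)) h hcont
        (fun t ht => tP_deriv P (by linarith [ht.1] : 0 < t))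
      have h1 := hder t ⟨ht.1.le, ht.2.le⟩
      have h2 : 0 < β - α := by linarith
      rw [eq_div_iff h2.ne'] at hts
      rw [← hts]
      constructor
      · exact mul_le_mul_of_nonneg_right h1.1 h2.le
      · exact mul_le_mul_of_nonneg_right h1.2 h2.le
  have hint : ∫ x in α..β, w x = (∫ x in (1:ℝ)..β, w x) - ∫ x in (1:ℝ)..α, w x :=
    (intervalIntegral.integral_interval_sub_left (hwi β (by linarith)) (hwi α (by linarith))).symm
  have herr : ∀ t, 0 < t → t ≤ 2 * X → C * t ^ (1 - η) ≤ 2 * C * X ^ (1 - η) := by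
    intro t ht0 ht
    calc C * t ^ (1 - η) ≤ C * (2 * X) ^ (1 - η) := by
          apply mul_le_mul_of_nonneg_left _ hC0
          exact Real.rpow_le_rpow ht0.le ht (by linarith)
      _ = C * (2 ^ (1 - η) * X ^ (1 - η)) := by rw [Real.mul_rpow (by norm_num) hXp.le]
      _ ≤ C * (2 ^ (1:ℝ) * X ^ (1 - η)) := by
          gcongr
          · norm_num
          · linarith
      _ = _ := by rw [Real.rpow_one]; ring
  have h1 := abs_le.1 ((hM β (by linarith)).trans (herr β (by linarith) hβ))
  have h2 := abs_le.1 ((hM α (by linarith)).trans (herr α hα0 (by linarith)))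
  rw [hint]
  constructor <;> linarith [h1.1, h1.2, h2.1, h2.2, hslope.1, hslope.2]

end Pool.Agent.H81.HM
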