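import Pool.Agent.H81.HM.Wt1
import Pool.Graph.R_seed8.H13R3.EM.Tw

/-!
# Lower bound for the joint moment with a weight
-/

set_option autoImplicit false

open Finset MeasureTheory Filter Topology

namespace Pool.Agent.H81.HM

/-- a set of small diameter lies in a short interval -/
lemma short_cover {b : Set ℝ} {A B δ : ℝ} (hAB : A ≤ B) (hδ : 0 ≤ δ) (hb : ∀ x ∈ b, A ≤ x ∧ x ≤ B)
    (hd : ∀ x ∈ b, ∀ y ∈ b, x ≤ y → y - x ≤ δ) : ∃ α β : ℝ, A ≤ α ∧ α ≤ β ∧ β ≤ B ∧ β - α ≤ δ ∧ b ⊆ Set.Icc α β := by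
  rcases b.eq_empty_or_nonempty with h | h
  · exact ⟨A, A, le_rfl, le_rfl, hAB, by linarith, by rw [h]; exact Set.empty_subset _⟩
  · have hbb : BddBelow b := ⟨A, fun x hx => (hb x hx).1⟩
    have hba : BddAbove b := ⟨B, fun x hx => (hb x hx).2⟩
    refine ⟨sInf b, sSup b, le_csInf h fun x hx => (hb x hx).1, ?_, csSup_le h fun x hx => (hb x hx).2, ?_,
      fun x hx => ⟨csInf_le hbb hx, le_csSup hba hx⟩⟩
    · obtain ⟨x, hx⟩ := h
      exact (csInf_le hbb hx).trans (le_csSup hba hx)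
    · rw [sub_le_iff_le_add]
      apply csSup_le h
      intro y hy
      rw [← sub_le_iff_le_add']
      apply le_csInf h
      intro x hx
      rcases le_total x y with hxy | hxy
      · have := hd x hx y hy hxy
        linarith
      · linarith

lemma big_int_w {n : ℕ} (E : Fin n → ℝ → ℝ) {w : ℝ → ℝ} (hw0 : ∀ x, 0 ≤ w x)
    (hwi : ∀ T, 1 ≤ T → IntervalIntegrable w volume 1 T) {A B T δ D : ℝ}
    (hint : IntervalIntegrable (fun x => (∏ j, E j x ^ 2) * w x) volume 1 T)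
    (h1 : 1 ≤ A) (hAB : A ≤ B) (hBT : B ≤ T) (lam : Fin n → ℝ) (hlam : ∀ j, 0 ≤ lam j) (hδ : 0 ≤ δ)
    (hbad : ∀ (j : Fin n) (x₁ x₂ : ℝ), A ≤ x₁ → x₁ ≤ x₂ → x₂ ≤ B → |E j x₁| < lam j → |E j x₂| < lam j → x₂ - x₁ ≤ δ)
    (hD : ∀ α β, A ≤ α → α ≤ β → β ≤ B → β - α ≤ δ → ∫ x in α..β, w x ≤ D) :
    (∏ j, lam j ^ 2) * ((∫ x in A..B, w x) - n * D) ≤ ∫ x in (1:ℝ)..T, (∏ j, E j x ^ 2) * w x := by
  have hcov : ∀ j : Fin n, ∃ α β : ℝ, A ≤ α ∧ α ≤ β ∧ β ≤ B ∧ β - α ≤ δ ∧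
      {x | A ≤ x ∧ x ≤ B ∧ |E j x| < lam j} ⊆ Set.Icc α β := by
    intro j
    apply short_cover hAB hδ
    · intro x hx
      exact ⟨hx.1, hx.2.1⟩
    · intro x hx y hy hxy
      exact hbad j x y hx.1 hxy hy.2.1 hx.2.2 hy.2.2
  choose α β hα hαβ hβ hδj hsub using hcov
  have hw : ∀ p q : ℝ, 1 ≤ p → 1 ≤ q → IntervalIntegrable w volume p q := fun p q hp hq =>
    (hwi p hp).symm.trans (hwi q hq)
  set h : Fin n → ℝ → ℝ := fun j => (Set.Icc (α j) (β j)).indicator w with hh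
  have hhi : ∀ j, IntervalIntegrable (h j) volume A B := by
    intro j
    rw [intervalIntegrable_iff_integrableOn_Ioc_of_le hAB]
    exact ((intervalIntegrable_iff_integrableOn_Ioc_of_le hAB).1 (hw A B h1 (h1.trans hAB))).indicator measurableSet_Icc
  have hhD : ∀ j, ∫ x in A..B, h j x ≤ D := by
    intro j
    refine le_trans (le_of_eq ?_) (hD (α j) (β j) (hα j) (hαβ j) (hβ j) (hδj j))
    rw [intervalIntegral.integral_of_le hAB, intervalIntegral.integral_of_le (hαβ j), ← integral_Icc_eq_integral_Ioc,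
      ← integral_Icc_eq_integral_Ioc]
    simp only [hh]
    rw [setIntegral_indicator measurableSet_Icc, Set.inter_eq_self_of_subset_right (Set.Icc_subset_Icc (hα j) (hβ j))]
  have hpt : ∀ x ∈ Set.Icc A B, (∏ j, lam j ^ 2) * (w x - ∑ j, h j x) ≤ (∏ j, E j x ^ 2) * w x := by
    intro x hx
    have hh0 : ∀ j, 0 ≤ h j x := fun j => Set.indicator_nonneg (fun x _ => hw0 x) x
    have hP : 0 ≤ ∏ j, lam j ^ 2 := Finset.prod_nonneg fun j _ => sq_nonneg _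
    have hPE : 0 ≤ ∏ j, E j x ^ 2 := Finset.prod_nonneg fun j _ => sq_nonneg _
    by_cases hex : ∃ j, |E j x| < lam j
    · obtain ⟨j, hj⟩ := hex
      have h2 : h j x = w x := Set.indicator_of_mem (hsub j ⟨hx.1, hx.2, hj⟩) _
      have h3 : h j x ≤ ∑ j, h j x := Finset.single_le_sum (fun i _ => hh0 i) (Finset.mem_univ j)
      have h4 : (∏ j, lam j ^ 2) * (w x - ∑ j, h j x) ≤ 0 := mul_nonpos_of_nonneg_of_nonpos hP (by linarith)
      exact h4.trans (mul_nonneg hPE (hw0 x))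
    · push Not at hex
      have h3 : 0 ≤ ∑ j, h j x := Finset.sum_nonneg fun j _ => hh0 j
      have h4 : ∏ j, lam j ^ 2 ≤ ∏ j, E j x ^ 2 := by
        apply Finset.prod_le_prod (fun j _ => sq_nonneg _)
        intro j _
        rw [← sq_abs (E j x)]
        exact pow_le_pow_left₀ (hlam j) (hex j) 2
      calc (∏ j, lam j ^ 2) * (w x - ∑ j, h j x) ≤ (∏ j, lam j ^ 2) * w x := by
            apply mul_le_mul_of_nonneg_left _ hP
            linarith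
        _ ≤ _ := mul_le_mul_of_nonneg_right h4 (hw0 x)
  have hintAB : IntervalIntegrable (fun x => (∏ j, E j x ^ 2) * w x) volume A B := by
    apply hint.mono_set
    rw [Set.uIcc_of_le hAB, Set.uIcc_of_le (by linarith)]
    exact Set.Icc_subset_Icc h1 hBT
  have hsumi : IntervalIntegrable (fun x => ∑ j, h j x) volume A B := by
    rw [intervalIntegrable_iff_integrableOn_Ioc_of_le hAB]
    exact integrable_finsetSum _ fun j _ => (intervalIntegrable_iff_integrableOn_Ioc_of_le hAB).1 (hhi j)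
  have h5 : (∏ j, lam j ^ 2) * ((∫ x in A..B, w x) - ∑ j, ∫ x in A..B, h j x) ≤ ∫ x in A..B, (∏ j, E j x ^ 2) * w x := by
    rw [← intervalIntegral.integral_finsetSum (fun j _ => hhi j), ← intervalIntegral.integral_sub (hw A B h1 (h1.trans hAB)) hsumi,
      ← intervalIntegral.integral_const_mul]
    apply intervalIntegral.integral_mono_on hAB _ hintAB hpt
    exact ((hw A B h1 (h1.trans hAB)).sub hsumi).const_mul _
  have h6 : ∫ x in A..B, (∏ j, E j x ^ 2) * w x ≤ ∫ x in (1:ℝ)..T, (∏ j, E j x ^ 2) * w x := by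
    rw [intervalIntegral.integral_of_le hAB, intervalIntegral.integral_of_le (by linarith)]
    apply setIntegral_mono_set
    · rwa [intervalIntegrable_iff_integrableOn_Ioc_of_le (by linarith)] at hint
    · exact Eventually.of_forall fun x => mul_nonneg (Finset.prod_nonneg fun j _ => sq_nonneg _) (hw0 x)
    · exact LE.le.eventuallyLE (Set.Ioc_subset_Ioc h1 hBT)
  have h7 : ∑ j, ∫ x in A..B, h j x ≤ n * D := by
    calc ∑ j, ∫ x in A..B, h j x ≤ ∑ _j : Fin n, D := Finset.sum_le_sum fun j _ => hhD j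
      _ = n * D := by rw [Finset.sum_const, Finset.card_univ, Fintype.card_fin, nsmul_eq_mul]
  have hP : 0 ≤ ∏ j, lam j ^ 2 := Finset.prod_nonneg fun j _ => sq_nonneg _
  calc _ ≤ (∏ j, lam j ^ 2) * ((∫ x in A..B, w x) - ∑ j, ∫ x in A..B, h j x) := by
        apply mul_le_mul_of_nonneg_left _ hP
        linarith
    _ ≤ _ := h5.trans h6

lemma prod_int_w {n : ℕ} (a : Fin n → ℕ → ℝ) {w : ℝ → ℝ} {T : ℝ} (hT : 1 ≤ T) (hw : IntervalIntegrable w volume 1 T) :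
    IntervalIntegrable (fun x => (∏ j, EE (a j) x ^ 2) * w x) volume 1 T := by
  rw [intervalIntegrable_iff_integrableOn_Ioc_of_le hT] at hw ⊢
  apply Integrable.bdd_mul (c := ∏ j, (∑ k ∈ Icc 1 ⌊T⌋₊, |a j k|) ^ 2) hw
  · exact (Finset.measurable_fun_prod _ fun j _ => (EE_meas (a j)).pow_const 2).aestronglyMeasurable
  · rw [ae_restrict_iff' measurableSet_Ioc]
    refine Eventually.of_forall fun x hx => ?_
    rw [Real.norm_eq_abs, Finset.abs_prod]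
    apply Finset.prod_le_prod (fun j _ => abs_nonneg _)
    intro j _
    rw [abs_pow]
    exact pow_le_pow_left₀ (abs_nonneg _) (EE_le (a j) hx.2) 2

/-- the joint moment with a weight is large, general form -/
lemma joint_gen_w {n q g0 : ℕ} {ξ σ' : ℝ} (a : Fin n → ℕ → ℝ) (hL : ∀ j : Fin n, Lrg (q + (j:ℕ)) g0 ξ (a j))
    (hn : (n:ℝ) ≤ 64) (hξ0 : 0 < ξ)
    (hσ : σ' ≤ 1 - ξ + ∑ j : Fin n, 2 * (1 / 2 + 7 / (1280 * ((q + (j:ℕ) : ℕ) : ℝ)) - ξ))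
    {w : ℝ → ℝ} (hw0 : ∀ x, 0 ≤ w x) (hwi : ∀ T, 1 ≤ T → IntervalIntegrable w volume 1 T)
    {P : Polynomial ℝ} (hP : P ≠ 0) {η C : ℝ} (hη1 : η ≤ 1 / 2) (hξη : ξ < η)
    (hM : ∀ T : ℝ, 1 ≤ T → |(∫ x in (1:ℝ)..T, w x) - T * P.eval (Real.log T)| ≤ C * T ^ (1 - η)) :
    ∃ c : ℝ, 0 < c ∧ ∀ T₀ : ℝ, ∃ T : ℝ, T₀ ≤ T ∧ 1 ≤ T ∧
      c * T ^ σ' ≤ ∫ x in (1:ℝ)..T, (∏ j, EE (a j) x ^ 2) * w x := by
  obtain ⟨g₀, g, X₀, hg₀, hX₀, hg⟩ := weight hw0 hwi hP (by linarith : 0 < η) hη1 hM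
  have hC0 : 0 ≤ C := by
    have := hM 1 le_rfl
    rw [Real.one_rpow, mul_one] at this
    exact (abs_nonneg _).trans this
  choose cl hcl hev using fun j => hL j (1 / 2048) (by norm_num)
  set c := (∏ j, cl j ^ 2) * (g₀ / 32) * (2:ℝ) ^ (-σ') with hc
  have hcp : 0 < ∏ j, cl j ^ 2 := Finset.prod_pos fun j _ => by have := hcl j; positivity
  refine ⟨c, by positivity, fun T₀ => ?_⟩
  have hevall := Filter.eventually_all.2 hev
  have htη : Tendsto (fun k => XX g0 k ^ (η - ξ)) atTop atTop :=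
    (tendsto_rpow_atTop (by linarith : 0 < η - ξ)).comp (XX_tend g0)
  obtain ⟨k, hk1, hk2, hk3, hk4⟩ := (hevall.and (((XX_tend g0).eventually_ge_atTop T₀).and
    (((XX_tend g0).eventually_ge_atTop X₀).and (htη.eventually_ge_atTop (32 * (260 * C) / g₀))))).exists
  have hXp := XX_pos g0 k
  have hX1 := XX_one g0 k
  have hLX := LL_le (ξ := ξ) hX1 hξ0.le
  have hL0 := LL_pos (ξ := ξ) hXp
  set X := XX g0 k with hX
  obtain ⟨hgX, hgab⟩ := hg X hk3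
  refine ⟨2 * X, by linarith, by linarith, ?_⟩
  have hgp : 0 < g X := by linarith
  have hb := big_int_w (fun j => EE (a j)) hw0 hwi (A := X + LL ξ X / 4) (B := X + LL ξ X / 2) (T := 2 * X)
    (δ := 1 / 2048 * LL ξ X) (D := 2 * g X * (1 / 2048 * LL ξ X) + 4 * C * X ^ (1 - η))
    (prod_int_w a (by linarith) (hwi _ (by linarith))) (by linarith) (by linarith) (by linarith)
    (fun j => cl j * X ^ (1 / 2 + 7 / (1280 * ((q + (j:ℕ) : ℕ):ℝ)) - ξ)) (fun j => by have := hcl j; positivity)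
    (by positivity) (fun j => hk1 j) (fun α β h1 h2 h3 h4 => by
      refine (hgab α β (by linarith) h2 (by linarith)).2.trans ?_
      gcongr)
  refine le_trans ?_ hb
  have hlow := (hgab (X + LL ξ X / 4) (X + LL ξ X / 2) (by linarith) (by linarith) (by linarith)).1
  have e1 : g₀ / 32 * X ^ (1 - ξ) ≤ (∫ x in (X + LL ξ X / 4)..(X + LL ξ X / 2), w x) -
      (n:ℝ) * (2 * g X * (1 / 2048 * LL ξ X) + 4 * C * X ^ (1 - η)) := by
    have h1 : X ^ (1 - ξ) = LL ξ X := by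
      unfold LL
      rw [sub_eq_add_neg 1 ξ, Real.rpow_add hXp, Real.rpow_one]
    rw [h1]
    have h2 : (n:ℝ) * (2 * g X * (1 / 2048 * LL ξ X) + 4 * C * X ^ (1 - η)) ≤
        64 * (2 * g X * (1 / 2048 * LL ξ X) + 4 * C * X ^ (1 - η)) := by gcongr
    have h3 : 260 * C * X ^ (1 - η) ≤ g X * (1 / 32 * LL ξ X) := by
      have h4 : X ^ (1 - η) * X ^ (η - ξ) = LL ξ X := by
        rw [← Real.rpow_add hXp, ← h1]
        congr 1
        ring
      have h5 : 32 * (260 * C) ≤ g₀ * X ^ (η - ξ) := by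
        rw [div_le_iff₀ hg₀] at hk4
        linarith
      calc 260 * C * X ^ (1 - η) = 1 / 32 * (32 * (260 * C)) * X ^ (1 - η) := by ring
        _ ≤ 1 / 32 * (g₀ * X ^ (η - ξ)) * X ^ (1 - η) := by gcongr
        _ = 1 / 32 * g₀ * (X ^ (1 - η) * X ^ (η - ξ)) := by ring
        _ = 1 / 32 * g₀ * LL ξ X := by rw [h4]
        _ ≤ _ := by
            have : g₀ * LL ξ X ≤ g X * LL ξ X := by gcongr
            linarith
    have h6 : g₀ * LL ξ X ≤ g X * LL ξ X := by gcongr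
    have h7 : 0 ≤ g X * LL ξ X := by positivity
    have h8 : X + LL ξ X / 2 - (X + LL ξ X / 4) = LL ξ X / 4 := by ring
    rw [h8] at hlow
    linarith
  have e2 : ∏ j : Fin n, (cl j * X ^ (1 / 2 + 7 / (1280 * ((q + (j:ℕ) : ℕ):ℝ)) - ξ)) ^ 2 =
      (∏ j, cl j ^ 2) * X ^ (∑ j : Fin n, 2 * (1 / 2 + 7 / (1280 * ((q + (j:ℕ) : ℕ):ℝ)) - ξ)) := by
    rw [Real.rpow_sum_of_pos hXp, ← Finset.prod_mul_distrib]
    apply Finset.prod_congr rfl
    intro j _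
    rw [mul_pow, ← Real.rpow_mul_natCast hXp.le]
    congr 2
    push_cast
    ring
  rw [e2]
  have e3 : (2 * X) ^ σ' = (2:ℝ) ^ σ' * X ^ σ' := Real.mul_rpow (by norm_num) hXp.le
  have e4 : c * (2 * X) ^ σ' = (∏ j, cl j ^ 2) * (g₀ / 32) * X ^ σ' := by
    rw [hc, e3]
    have : (2:ℝ) ^ (-σ') * (2:ℝ) ^ σ' = 1 := by
      rw [← Real.rpow_add (by norm_num)]
      simp
    calc _ = (∏ j, cl j ^ 2) * (g₀ / 32) * ((2:ℝ) ^ (-σ') * (2:ℝ) ^ σ') * X ^ σ' := by ring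
      _ = _ := by rw [this, mul_one]
  rw [e4]
  set se := ∑ j : Fin n, 2 * (1 / 2 + 7 / (1280 * ((q + (j:ℕ) : ℕ):ℝ)) - ξ) with hse
  calc (∏ j, cl j ^ 2) * (g₀ / 32) * X ^ σ' ≤ (∏ j, cl j ^ 2) * (g₀ / 32) * X ^ (1 - ξ + se) := by
        gcongr
    _ = (∏ j, cl j ^ 2) * X ^ se * (g₀ / 32 * X ^ (1 - ξ)) := by
        rw [Real.rpow_add hXp]
        ring
    _ ≤ _ := by gcongr

/-- the systems, for all large `q` -/
theorem joint_sys : ∃ q₁ : ℕ, ∀ q : ℕ, q₁ ≤ q → ∃ (g0 : ℕ) (F : Fin 64 → Pool.Agent.H13R3.EM.Sel) (a : Fin 64 → ℕ → ℝ),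
    (∀ j : Fin 64, (F j).m0 = 0) ∧ (∀ j : Fin 64, (F j).deg = 8 * ((16 * (q + (j:ℕ)) : ℕ):ℝ)) ∧
    (∀ j : Fin 64, ∀ n : ℕ, 1 ≤ n → (F j).a n = ((a j n : ℝ) : ℂ)) ∧ (∀ j : Fin 64, MSq (16 * (q + (j:ℕ))) (a j)) ∧
    ∀ j : Fin 64, Lrg (q + (j:ℕ)) g0 (59 / (6400 * (q:ℝ))) (a j) := by
  obtain ⟨q₀, hsingle⟩ := single
  refine ⟨max q₀ 10000, fun q hq => ?_⟩
  have hq1 : 10000 ≤ q := (le_max_right _ _).trans hq
  have hq2 : q₀ ≤ q := (le_max_left _ _).trans hq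
  have hqR : (10000:ℝ) ≤ q := by exact_mod_cast hq1
  have hq0 : (0:ℝ) < q := by linarith
  obtain ⟨ξ, hξ⟩ : ∃ ξ : ℝ, ξ = 59 / (6400 * (q:ℝ)) := ⟨_, rfl⟩
  rw [← hξ]
  have hξ0 : 0 < ξ := by rw [hξ]; positivity
  apply systems
  intro j
  obtain ⟨i, hi⟩ : ∃ i : ℕ, i = (j:ℕ) := ⟨_, rfl⟩
  have hi64 : i < 64 := by rw [hi]; exact j.2
  rw [← hi]
  have hj : ((q + i : ℕ) : ℝ) ≤ (q:ℝ) + 63 := by
    exact_mod_cast (by omega : q + i ≤ q + 63)
  have hj1 : (q:ℝ) ≤ ((q + i : ℕ) : ℝ) := by exact_mod_cast (by omega : q ≤ q + i)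
  apply hsingle (q + i) (by omega) ξ
  · have h1 : 59 / 100 = 4 * (16 * (q:ℝ)) * ξ := by
      rw [hξ]
      field_simp
      norm_num
    rw [h1]
    have h2 : (((16 * (q + i) : ℕ)) : ℝ) = 16 * ((q + i : ℕ) : ℝ) := by push_cast; ring
    rw [h2]
    gcongr
  · calc 2 * ((q + i : ℕ) : ℝ) * ξ ≤ 2 * ((q:ℝ) + 63) * ξ := by gcongr
      _ = (2 * ((q:ℝ) + 63) * 59) / (6400 * q) := by rw [hξ]; ring
      _ ≤ 1 / 2 := by
          rw [div_le_div_iff₀ (by positivity) (by norm_num)]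
          linarith

/-- the joint moment with a weight is large -/
theorem joint_w {w : ℝ → ℝ} (hw0 : ∀ x, 0 ≤ w x) (hwi : ∀ T, 1 ≤ T → IntervalIntegrable w volume 1 T)
    {P : Polynomial ℝ} (hP : P ≠ 0) {η C : ℝ} (hη : 0 < η)
    (hM : ∀ T : ℝ, 1 ≤ T → |(∫ x in (1:ℝ)..T, w x) - T * P.eval (Real.log T)| ≤ C * T ^ (1 - η)) :
    ∃ (q : ℕ) (F : Fin 64 → Pool.Agent.H13R3.EM.Sel) (a : Fin 64 → ℕ → ℝ), 10000 ≤ q ∧
    (∀ j : Fin 64, (F j).m0 = 0) ∧ (∀ j : Fin 64, (F j).deg = 8 * ((16 * (q + (j:ℕ)) : ℕ):ℝ)) ∧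
    (∀ j : Fin 64, ∀ n : ℕ, 1 ≤ n → (F j).a n = ((a j n : ℝ) : ℂ)) ∧ (∀ j : Fin 64, MSq (16 * (q + (j:ℕ))) (a j)) ∧
    ∃ η' c : ℝ, 0 < η' ∧ 0 < c ∧ ∀ T₀ : ℝ, ∃ T : ℝ, T₀ ≤ T ∧ 1 ≤ T ∧
      c * T ^ (1 + ∑ j : Fin 64, (1 - 1 / (128 * ((q + (j:ℕ) : ℕ) : ℝ))) + η') ≤
        ∫ x in (1:ℝ)..T, (∏ j, EE (a j) x ^ 2) * w x := by
  obtain ⟨q₁, hsys⟩ := joint_sys
  have hη2 : 0 < min η (1 / 2) := lt_min hη (by norm_num)
  obtain ⟨q₂, hq₂⟩ := exists_nat_gt (1 / min η (1 / 2))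
  obtain ⟨q, hq1, hq2, hq3⟩ : ∃ q : ℕ, 10000 ≤ q ∧ q₁ ≤ q ∧ q₂ ≤ q :=
    ⟨max (max q₁ q₂) 10000, le_max_right _ _, (le_max_left _ _).trans (le_max_left _ _), (le_max_right _ _).trans (le_max_left _ _)⟩
  have hqR : (10000:ℝ) ≤ q := by exact_mod_cast hq1
  have hq0 : (0:ℝ) < q := by linarith
  obtain ⟨g0, F, a, hF0, hFd, hFa, hMs, hL⟩ := hsys q hq2
  obtain ⟨η', hη', hgain⟩ := gain hq1
  have hξ0 : 0 < 59 / (6400 * (q:ℝ)) := by positivity
  have hξη : 59 / (6400 * (q:ℝ)) < min η (1 / 2) := by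
    have h1 : 1 / min η (1 / 2) < q := hq₂.trans_le (by exact_mod_cast hq3)
    rw [div_lt_iff₀ hη2] at h1
    rw [div_lt_iff₀ (by positivity)]
    nlinarith
  have hM' : ∀ T : ℝ, 1 ≤ T → |(∫ x in (1:ℝ)..T, w x) - T * P.eval (Real.log T)| ≤ C * T ^ (1 - min η (1 / 2)) := by
    intro T hT
    refine (hM T hT).trans ?_
    have hC0 : 0 ≤ C := by
      have := hM 1 le_rfl
      rw [Real.one_rpow, mul_one] at this
      exact (abs_nonneg _).trans this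
    apply mul_le_mul_of_nonneg_left _ hC0
    apply Real.rpow_le_rpow_of_exponent_le hT
    have := min_le_left η (1 / 2)
    linarith
  obtain ⟨c, hc, h⟩ := joint_gen_w a hL (by norm_num) hξ0 hgain hw0 hwi hP (min_le_right _ _) hξη hM'
  exact ⟨q, F, a, hq1, hF0, hFd, hFa, hMs, η', c, hη', hc, h⟩

end Pool.Agent.H81.HM
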