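import Pool.Agent.H81.HM.Wt2
import Pool.Agent.H81.HM.Fin3

/-!
# The twisted moments of the error terms of the 64 elements of the Selberg class
-/

set_option autoImplicit false

open Finset MeasureTheory Filter Topology

namespace Pool.Agent.H81.HM

open Pool.Agent.H13R3.EM (Sel)

theorem final_w {w : ℝ → ℝ} (hw0 : ∀ x, 0 ≤ w x) (hwi : ∀ T, 1 ≤ T → IntervalIntegrable w volume 1 T)
    {P : Polynomial ℝ} (hP : P ≠ 0) {η₀ C₀ : ℝ} (hη₀ : 0 < η₀)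
    (hM₀ : ∀ T : ℝ, 1 ≤ T → |(∫ x in (1:ℝ)..T, w x) - T * P.eval (Real.log T)| ≤ C₀ * T ^ (1 - η₀)) :
    ∃ (d : Fin 64 → ℕ) (F : Fin 64 → Sel) (C : Fin 64 → ℝ), StrictMono d ∧ (∀ j, 2 ≤ d j) ∧
    (∀ j, (F j).deg = (d j : ℝ)) ∧ (∀ j, (F j).m0 = 0) ∧ (∀ j, ∀ n : ℕ, 1 ≤ n → ((F j).a n).im = 0) ∧
    (∀ j, 0 < C j ∧ ∃ δ : ℝ, 0 < δ ∧ ∀ ε : ℝ, 0 < ε → ∃ K : ℝ, ∀ T : ℝ, 1 ≤ T →
      ‖(∫ x in (1:ℝ)..T, (F j).err x ^ 2) -
        (C j : ℂ) * ((T ^ (1 + ((2:ℕ):ℝ) * ((d j:ℝ) - 1) / (2 * (d j:ℝ))) : ℝ) : ℂ)‖ ≤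
        K * T ^ (1 + ((2:ℕ):ℝ) * ((d j:ℝ) - 1) / (2 * (d j:ℝ)) - δ + ε)) ∧
    ∃ η c : ℝ, 0 < η ∧ 0 < c ∧ ∀ T₀ : ℝ, ∃ T : ℝ, T₀ ≤ T ∧ 1 ≤ T ∧
      c * T ^ (1 + (∑ j, ((2:ℕ) : ℝ) * ((d j : ℝ) - 1) / (2 * (d j : ℝ))) + η) ≤
        ‖∫ x in (1:ℝ)..T, (∏ j, (F j).err x ^ 2) * ((w x : ℝ) : ℂ)‖ := by
  obtain ⟨q, F, a, hq, hF0, hFd, hFa, hM, η, c, hη, hc, h⟩ := joint_w hw0 hwi hP hη₀ hM₀
  have hdQ : ∀ j : Fin 64, ((128 * (q + (j:ℕ)) : ℕ) : ℝ) = 8 * ((16 * (q + (j:ℕ)) : ℕ) : ℝ) := by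
    intro j
    push_cast
    ring
  choose C hC hCM using fun j : Fin 64 => moment_of (hF0 j) (hFa j) (Q := 16 * (q + (j:ℕ))) (by omega) (hdQ j) (hM j)
  refine ⟨fun j => 128 * (q + (j:ℕ)), F, C, ?_, fun j => ?_, fun j => ?_, hF0, fun j n hn => ?_, fun j => ⟨hC j, hCM j⟩,
    η, c, hη, hc, fun T₀ => ?_⟩
  · intro i j hij
    have : (i:ℕ) < (j:ℕ) := hij
    show 128 * (q + (i:ℕ)) < 128 * (q + (j:ℕ))
    omega
  · show 2 ≤ 128 * (q + (j:ℕ))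
    omega
  · show (F j).deg = ((128 * (q + (j:ℕ)) : ℕ) : ℝ)
    rw [hFd j, hdQ j]
  · rw [hFa j n hn]
    exact Complex.ofReal_im _
  · obtain ⟨T, hT0, hT1, hT⟩ := h T₀
    refine ⟨T, hT0, hT1, ?_⟩
    have e1 : ∑ j : Fin 64, ((2:ℕ) : ℝ) * (((128 * (q + (j:ℕ)) : ℕ) : ℝ) - 1) / (2 * ((128 * (q + (j:ℕ)) : ℕ) : ℝ)) =
        ∑ j : Fin 64, (1 - 1 / (128 * ((q + (j:ℕ) : ℕ) : ℝ))) := by
      apply Finset.sum_congr rfl
      intro j _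
      have h1 : (0:ℝ) < ((q + (j:ℕ) : ℕ) : ℝ) := by exact_mod_cast (by omega : 0 < q + (j:ℕ))
      have h2 : ((128 * (q + (j:ℕ)) : ℕ) : ℝ) = 128 * ((q + (j:ℕ) : ℕ) : ℝ) := by push_cast; ring
      rw [h2]
      set y := ((q + (j:ℕ) : ℕ) : ℝ)
      push_cast
      field_simp
    have e2 : ∀ x : ℝ, (∏ j, (F j).err x ^ 2) * ((w x : ℝ) : ℂ) = (((∏ j, EE (a j) x ^ 2) * w x : ℝ) : ℂ) := by
      intro x
      rw [Complex.ofReal_mul, Complex.ofReal_prod]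
      congr 1
      apply Finset.prod_congr rfl
      intro j _
      rw [Pool.Agent.W406.PX.End.err_eq (hF0 j) (hFa j) x]
      unfold EE
      push_cast
      rfl
    rw [e1]
    simp_rw [e2]
    rw [intervalIntegral.integral_ofReal, Complex.norm_real, Real.norm_eq_abs]
    exact hT.trans (le_abs_self _)

lemma poly_log_small (R : Polynomial ℂ) {η : ℝ} (hη : 0 < η) :
    Tendsto (fun T : ℝ => ‖R.eval ((Real.log T : ℝ) : ℂ)‖ / T ^ η) atTop (𝓝 0) := by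
  have h1 : ∀ i : ℕ, Tendsto (fun T : ℝ => ‖R.coeff i‖ * (Real.log T ^ i / T ^ η)) atTop (𝓝 0) := by
    intro i
    have h2 := (isLittleO_log_rpow_rpow_atTop (i:ℝ) hη).tendsto_div_nhds_zero
    have h3 := h2.const_mul ‖R.coeff i‖
    rw [mul_zero] at h3
    refine h3.congr fun T => ?_
    rw [Real.rpow_natCast]
  have h4 : Tendsto (fun T : ℝ => ∑ i ∈ Finset.range (R.natDegree + 1), ‖R.coeff i‖ * (Real.log T ^ i / T ^ η))
      atTop (𝓝 0) := by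
    have := tendsto_finsetSum (Finset.range (R.natDegree + 1)) fun i _ => h1 i
    simpa using this
  refine squeeze_zero' ?_ ?_ h4
  · filter_upwards [eventually_gt_atTop 0] with T hT
    positivity
  · filter_upwards [eventually_ge_atTop 1] with T hT
    have hl : 0 ≤ Real.log T := Real.log_nonneg hT
    rw [Polynomial.eval_eq_sum_range]
    calc ‖∑ i ∈ Finset.range (R.natDegree + 1), R.coeff i * ((Real.log T : ℝ) : ℂ) ^ i‖ / T ^ η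
        ≤ (∑ i ∈ Finset.range (R.natDegree + 1), ‖R.coeff i * ((Real.log T : ℝ) : ℂ) ^ i‖) / T ^ η := by
          gcongr
          exact norm_sum_le _ _
      _ = _ := by
          rw [Finset.sum_div]
          apply Finset.sum_congr rfl
          intro i _
          rw [norm_mul, norm_pow, Complex.norm_real, Real.norm_of_nonneg hl]
          ring

/-- a function exceeding `c T ^ (s + η)` has no asymptotics with the main term `T ^ s R(log T)` -/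
lemma no_asym_poly {I : ℝ → ℂ} {s η c : ℝ} (hη : 0 < η) (hc : 0 < c)
    (h : ∀ T₀ : ℝ, ∃ T : ℝ, T₀ ≤ T ∧ 1 ≤ T ∧ c * T ^ (s + η) ≤ ‖I T‖) (C : ℂ) (R : Polynomial ℂ) :
    ¬ ∃ δ : ℝ, 0 < δ ∧ ∀ ε : ℝ, 0 < ε → ∃ K : ℝ, ∀ T : ℝ, 1 ≤ T →
      ‖I T - C * ((T ^ s : ℝ) : ℂ) * R.eval ((Real.log T : ℝ) : ℂ)‖ ≤ K * T ^ (s - δ + ε) := by
  rintro ⟨δ, hδ, h2⟩
  obtain ⟨K, hK⟩ := h2 δ hδ
  have ht := (tendsto_rpow_atTop hη).eventually_gt_atTop (2 * K / c)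
  have hp := (poly_log_small R hη).const_mul ‖C‖
  rw [mul_zero] at hp
  have hp' := hp.eventually_lt_const (by positivity : 0 < c / 2)
  obtain ⟨T₀, hT₀⟩ := Filter.eventually_atTop.1 (ht.and hp')
  obtain ⟨T, hT0, hT1, hT⟩ := h T₀
  obtain ⟨h3, h3'⟩ := hT₀ T hT0
  have h4 := hK T hT1
  have hTp : 0 < T := by linarith
  have hTs : 0 < T ^ s := by positivity
  have hTη : 0 < T ^ η := by positivity
  rw [sub_add_cancel] at h4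
  have h5 : ‖I T‖ ≤ K * T ^ s + ‖C‖ * T ^ s * ‖R.eval ((Real.log T : ℝ) : ℂ)‖ := by
    have e : I T = (I T - C * ((T ^ s : ℝ) : ℂ) * R.eval ((Real.log T : ℝ) : ℂ)) +
        C * ((T ^ s : ℝ) : ℂ) * R.eval ((Real.log T : ℝ) : ℂ) := by ring
    rw [e]
    refine (norm_add_le _ _).trans ?_
    rw [norm_mul (C * _), norm_mul C, Complex.norm_real, Real.norm_of_nonneg hTs.le]
    linarith
  have h6 : c * T ^ η * T ^ s ≤ (K + ‖C‖ * ‖R.eval ((Real.log T : ℝ) : ℂ)‖) * T ^ s := by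
    refine le_trans (le_of_eq ?_) (hT.trans (h5.trans (le_of_eq ?_)))
    · rw [Real.rpow_add hTp]
      ring
    · ring
  have h7 := le_of_mul_le_mul_right h6 hTs
  have h8 : ‖C‖ * ‖R.eval ((Real.log T : ℝ) : ℂ)‖ < c / 2 * T ^ η := by
    have : ‖C‖ * (‖R.eval ((Real.log T : ℝ) : ℂ)‖ / T ^ η) < c / 2 := h3'
    rw [← mul_div_assoc, div_lt_iff₀ hTη] at this
    exact this
  rw [div_lt_iff₀ hc] at h3
  linarith

end Pool.Agent.H81.HM
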